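import Pool.Agent.Ord1.Bl

/-!
# Ord1, module Top1: compactness facts

PROOFS.
* `conj_unif`: the map `(x, y) ↦ x y x⁻¹` is continuous and maps `Ω × {1}` to `1`; tube lemma
  (`generalized_tube_lemma`) or a direct finite cover.
* `conj_cover`: `IsCompact.elim_nhds_subcover`-type argument: a compact set is covered by finitely
  many left cosets `x U'` of an open subgroup.
* `t_pow_not_mem`: assume `t ^ i ∈ U`, `i ≥ 1`, `U` compact, `n ∈ N₀`, `n ≠ 1`. The set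
  `{u⁻¹ n u : u ∈ U}` is compact and does not contain `1`, so its complement `O` is a neighbourhood
  of `1` (`G` is Hausdorff: compact sets are closed). By `contr_lim` there is a multiple `j` of `i`
  with `t ^ j n t ^ (-j) ∈ O`; but `u = t ^ (-j) ∈ U` and `t ^ j n t ^ (-j) = u⁻¹ n u`.
* `t_pow_not_base`: `t ^ i = n l`, `n ∈ Nm`, `l ∈ U ⊓ M` (`mem_base`), so `n ∈ M ∩ Nm = 1`
  (`IsPar.inf_bot`) and `t ^ i = l ∈ U`.
* `fin_pow`: PROPERNESS. `s ^ j = x h`, `h ∈ H`, so `x = s ^ j h⁻¹`, `h = n l`, `h⁻¹ = l⁻¹ n⁻¹`,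
  `x = (s ^ j l⁻¹) n⁻¹` with `s ^ j l⁻¹ ∈ M`, so `s ^ j l⁻¹ ∈ Ω'` (`proj`). Cover `Ω'` by finitely many
  cosets `m U`: `s ^ j l⁻¹ = m u`. If infinitely many `j` occur, two of them, `j ≠ j'`, have the same
  `m`: then `(s ^ j l⁻¹)⁻¹ (s ^ j' l'⁻¹) ∈ U ∩ M ≤ H`, so `s ^ (j' - j) ∈ H` (`s` commutes with
  `l ∈ H ⊓ M`), so `s ^ |j' - j| ∈ H`, contradiction with `hns`. (`Set.infinite` + pigeonhole:
  `Set.Infinite.exists_ne_map_eq_of_mapsTo`.)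
-/

open Topology Set

namespace Ord1

open Emt

variable {G : Type} [Group G] [TopologicalSpace G] [IsTopologicalGroup G]
  {N₀ Nm M U H : Subgroup G} {t s : G} {C : Type} [Field C]

theorem conj_unif {Ω O : Set G} (hΩ : IsCompact Ω) (hO : O ∈ 𝓝 (1 : G)) :
    ∃ O' ∈ 𝓝 (1 : G), ∀ x ∈ Ω, ∀ y ∈ O', x * y * x⁻¹ ∈ O := by
  have hc : Continuous fun p : G × G => p.1 * p.2 * p.1⁻¹ := by fun_prop
  have hn : IsOpen ((fun p : G × G => p.1 * p.2 * p.1⁻¹) ⁻¹' interior O) :=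
    isOpen_interior.preimage hc
  have hsub : Ω ×ˢ ({1} : Set G) ⊆ (fun p : G × G => p.1 * p.2 * p.1⁻¹) ⁻¹' interior O := by
    rintro ⟨x, y⟩ ⟨-, hy⟩
    have hy' : y = 1 := hy
    show x * y * x⁻¹ ∈ interior O
    rw [hy', mul_one, mul_inv_cancel]
    exact mem_interior_iff_mem_nhds.2 hO
  obtain ⟨u, v, -, hv, hu1, hv1, huv⟩ := generalized_tube_lemma hΩ isCompact_singleton hn hsub
  refine ⟨v, hv.mem_nhds (hv1 rfl), fun x hx y hy => ?_⟩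
  have h1 : (x, y) ∈ (fun p : G × G => p.1 * p.2 * p.1⁻¹) ⁻¹' interior O := huv ⟨hu1 hx, hy⟩
  exact interior_subset h1

theorem coset_cover {Ω : Set G} (hΩ : IsCompact Ω) {U' : Subgroup G} (hU : IsOpen (U' : Set G)) :
    ∃ F : Finset G, ∀ x ∈ Ω, ∃ m ∈ F, ∃ u ∈ U', x = m * u := by
  obtain ⟨F, hF⟩ := hΩ.elim_finite_subcover (fun m : G => {y : G | m⁻¹ * y ∈ U'})
    (fun m => hU.preimage (continuous_const.mul continuous_id))
    (fun y _ => by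
      refine Set.mem_iUnion.2 ⟨y, ?_⟩
      show y⁻¹ * y ∈ U'
      rw [inv_mul_cancel]
      exact U'.one_mem)
  refine ⟨F, fun x hx => ?_⟩
  obtain ⟨m, hm⟩ := Set.mem_iUnion.1 (hF hx)
  obtain ⟨hmF, hm2⟩ := Set.mem_iUnion.1 hm
  exact ⟨m, hmF, m⁻¹ * x, hm2, by rw [mul_inv_cancel_left]⟩

theorem t_pow_not_mem [T2Space G] (hP : IsPar N₀ Nm M t) (hI : Iwa N₀ Nm M U t) (h0 : N₀ ≠ ⊥)
    {i : ℕ} (hi : i ≠ 0) : t ^ i ∉ U := by
  intro hU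
  obtain ⟨⟨n, hn⟩, hn0⟩ := Subgroup.ne_bot_iff_exists_ne_one.1 h0
  have hn1 : n ≠ 1 := fun h => hn0 (Subtype.ext h)
  have hA : IsCompact ((fun u : G => u⁻¹ * n * u) '' (U : Set G)) := by
    apply hI.compact_U.image
    fun_prop
  have h1 : (1 : G) ∉ (fun u : G => u⁻¹ * n * u) '' (U : Set G) := by
    rintro ⟨u, -, hu⟩
    apply hn1
    have hu' : u⁻¹ * n * u = 1 := hu
    have : n = u * (u⁻¹ * n * u) * u⁻¹ := by group
    rw [this, hu', mul_one, mul_inv_cancel]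
  obtain ⟨k, hk⟩ := hP.contr_lim _ (hA.isClosed.isOpen_compl.mem_nhds h1)
  have h2 := hk (i * k) (Nat.le_mul_of_pos_left k (Nat.pos_of_ne_zero hi)) n hn
  apply h2
  refine ⟨(t ^ (i * k))⁻¹, U.inv_mem ?_, ?_⟩
  · rw [pow_mul]
    exact U.pow_mem hU k
  · show (t ^ (i * k))⁻¹⁻¹ * n * (t ^ (i * k))⁻¹ = _
    rw [inv_inv]

theorem t_pow_not_base [T2Space G] (hP : IsPar N₀ Nm M t) (hI : Iwa N₀ Nm M U t) (h0 : N₀ ≠ ⊥)
    {i : ℕ} (hi : i ≠ 0) : t ^ i ∉ Nm ⊔ (U ⊓ M) := by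
  intro hm
  obtain ⟨n, hn, l, hl, e⟩ := mem_base hP hm
  have h1 : n ∈ M := by
    have : n = t ^ i * l⁻¹ := by rw [e]; group
    rw [this]
    exact M.mul_mem (M.pow_mem hP.t_mem i) (M.inv_mem hl.2)
  have h2 : n = 1 := hP.inf_bot h1 hn
  apply t_pow_not_mem hP hI h0 hi
  rw [e, h2, one_mul]
  exact hl.1

theorem fin_pow (hP : IsPar N₀ Nm M t) (hI : Iwa N₀ Nm M U t) (hH : IsGood Nm M U H)
    (hs : Cen M s) (hns : ∀ j : ℕ, j ≠ 0 → s ^ j ∉ H) {Ω : Set G} (hΩ : IsCompact Ω) :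
    {j : ℤ | ∃ x ∈ Ω, ∃ h ∈ H, s ^ j = x * h}.Finite := by
  obtain ⟨Ω', hΩ', hproj⟩ := hP.proj Ω hΩ
  obtain ⟨F, hF⟩ := coset_cover hΩ' hI.open_U
  have key : ∀ j : ℤ, j ∈ {j : ℤ | ∃ x ∈ Ω, ∃ h ∈ H, s ^ j = x * h} →
      ∃ m ∈ F, ∃ u ∈ U, ∃ l ∈ H ⊓ M, s ^ j * l⁻¹ = m * u := by
    rintro j ⟨x, hx, h, hh, e⟩
    obtain ⟨n, hn, l, hl, e2⟩ := hH.dec h hh
    have hsj : s ^ j ∈ M := M.zpow_mem hs.1 j
    have h1 : s ^ j * l⁻¹ ∈ Ω' := by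
      apply hproj _ (M.mul_mem hsj (M.inv_mem hl.2)) n⁻¹ (Nm.inv_mem hn)
      have : s ^ j * l⁻¹ * n⁻¹ = x := by
        rw [e, e2]
        group
      rw [this]
      exact hx
    obtain ⟨m, hm, u, hu, e3⟩ := hF _ h1
    exact ⟨m, hm, u, hu, l, hl, e3⟩
  by_contra hinf
  have hinf' : {j : ℤ | ∃ x ∈ Ω, ∃ h ∈ H, s ^ j = x * h}.Infinite := hinf
  choose! g hg using key
  obtain ⟨j, hj, j', hj', hne, hgg⟩ := hinf'.exists_ne_map_eq_of_mapsTo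
    (f := g) (t := (F : Set G)) (fun j hj => (hg j hj).1) F.finite_toSet
  obtain ⟨-, u, hu, l, hl, e⟩ := hg j hj
  obtain ⟨-, u', hu', l', hl', e'⟩ := hg j' hj'
  have h1 : (s ^ j * l⁻¹)⁻¹ * (s ^ j' * l'⁻¹) = u⁻¹ * u' := by
    rw [e, e', hgg]
    group
  have h2 : (s ^ j * l⁻¹)⁻¹ * (s ^ j' * l'⁻¹) ∈ U ⊓ M := by
    refine ⟨?_, ?_⟩
    · rw [h1]
      exact U.mul_mem (U.inv_mem hu) hu'
    · exact M.mul_mem (M.inv_mem (M.mul_mem (M.zpow_mem hs.1 j) (M.inv_mem hl.2)))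
        (M.mul_mem (M.zpow_mem hs.1 j') (M.inv_mem hl'.2))
  have h3 := hH.UM_le h2
  have h4 : s ^ (j' - j) ∈ H := by
    have : s ^ (j' - j) = l⁻¹ * ((s ^ j * l⁻¹)⁻¹ * (s ^ j' * l'⁻¹)) * l' := by
      rw [sub_eq_neg_add, zpow_add, zpow_neg]
      group
    rw [this]
    exact H.mul_mem (H.mul_mem (H.inv_mem hl.1) h3) hl'.1
  have h5 : s ^ (j' - j).natAbs ∈ H := by
    rcases Int.natAbs_eq (j' - j) with h | h
    · rw [← zpow_natCast, ← h]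
      exact h4
    · have h6 : s ^ ((j' - j).natAbs : ℤ) = (s ^ (j' - j))⁻¹ := by
        rw [← zpow_neg]
        congr 1
        omega
      rw [← zpow_natCast, h6]
      exact H.inv_mem h4
  refine hns _ ?_ h5
  intro h7
  rw [Int.natAbs_eq_zero] at h7
  apply hne
  omega

end Ord1
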