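import Pool.Agent.Ord1.Grp
import Pool.Agent.Ord1.Top1

/-!
# Ord1, module AdmFs: `Fs C H` is smooth, and admissible if `G / H` is compact

PROOFS.
* `fs_smooth`: `φ` is fixed by the elements of the open subgroup `O` with `φ (o g) = φ g`.
* `fs_adm`: `G = Ω H`, `Ω` compact. For a compact open `K` cover `Ω` by finitely many sets `K x`
  (`coset_cover` for the compact set `Ω⁻¹`); a `K`-invariant `φ` is determined by its values on the
  finitely many `x`: `φ (k x h) = φ x`. So the fixed vectors embed into a finite power of `C`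
  (`FiniteDimensional.of_injective` or `Module.Finite.of_injective`).
* `compact_quot`: `minimal` gives `M = (Ω₁ ∩ M) ⟨S⟩`. Assume that every `s ∈ S` has a power `s ^ j`,
  `j ≠ 0`, in `H`. The elements of `S` are central in `M`, so they commute with each other and every
  element of `⟨S⟩` is `∏ s ^ (a_s) = ∏ s ^ (r_s) · h` with `0 ≤ r_s < j_s` and `h ∈ H` (induction:
  `Subgroup.closure_induction`, show that the set of the `z ∈ M` with `z ∈ F · H` for the finite
  set `F` of the products of the `s ^ r`, `r < j_s`, is enough; alternatively: the subgroup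
  `⟨S⟩ ⊓ H` has finite index in the commutative finitely generated group `⟨S⟩`). So
  `⟨S⟩ ⊆ F H` with `F ⊆ M` finite, and `G = Ω₀ M Nm = Ω₀ Ω₁ F (H ∩ M) Nm ⊆ (Ω₀ Ω₁ F) H`
  (an element `h ∈ H` with `f h ∈ M` is in `M`; `H ∩ M` and `Nm` are contained in `H`).
-/

open Topology Set

namespace Ord1

open Emt

variable {G : Type} [Group G] [TopologicalSpace G] [IsTopologicalGroup G]
  {N₀ Nm M U H : Subgroup G} {t s : G} {C : Type} [Field C]

theorem fs_smooth : IsSmooth (fsRep C H) := by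
  intro φ
  obtain ⟨O, hO, h2⟩ := φ.2.2.1
  rw [isOpen_iff_mem_nhds]
  intro g hg
  have hfix : ∀ o ∈ O, fsRep C H o φ = φ := by
    intro o ho
    refine Subtype.ext (funext fun x => ?_)
    rw [fsRep_apply]
    exact h2 _ (O.inv_mem ho) x
  have hopen : IsOpen ((fun x => g⁻¹ * x) ⁻¹' (O : Set G)) :=
    hO.preimage (continuous_const.mul continuous_id)
  refine Filter.mem_of_superset (hopen.mem_nhds ?_) ?_
  · show g⁻¹ * g ∈ O
    rw [inv_mul_cancel]
    exact O.one_mem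
  · intro x hx
    have hx' : g⁻¹ * x ∈ O := hx
    show fsRep C H x φ = φ
    have e : x = g * (g⁻¹ * x) := by group
    rw [e, map_mul, Module.End.mul_apply, hfix _ hx']
    exact hg

theorem fs_adm {Ω : Set G} (hΩ : IsCompact Ω) (h : ∀ g : G, ∃ x ∈ Ω, ∃ h ∈ H, g = x * h) :
    IsAdm (fsRep C H) := by
  refine ⟨fs_smooth, fun K hKo _ => ?_⟩
  obtain ⟨F, hF⟩ := coset_cover hΩ.inv hKo
  let L : fix (fsRep C H) K →ₗ[C] (F → C) :=
    { toFun := fun φ m => φ.1.1 ((m : G)⁻¹)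
      map_add' := fun _ _ => rfl
      map_smul' := fun _ _ => rfl }
  refine FiniteDimensional.of_injective L ?_
  rw [injective_iff_map_eq_zero]
  intro φ hφ
  refine Subtype.ext (Subtype.ext (funext fun g => ?_))
  obtain ⟨x, hx, y, hy, rfl⟩ := h g
  obtain ⟨m, hm, u, hu, he⟩ := hF x⁻¹ (Set.inv_mem_inv.mpr hx)
  have hx2 : x = u⁻¹ * m⁻¹ := by
    rw [← mul_inv_rev, ← he, inv_inv]
  have h1 : φ.1.1 (x * y) = φ.1.1 x := φ.1.2.1 x y hy
  have h3 : φ.1.1 (u⁻¹ * m⁻¹) = φ.1.1 m⁻¹ := by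
    have h4 := φ.2 u hu
    have h5 := congrFun (congrArg Subtype.val h4) m⁻¹
    rw [fsRep_apply] at h5
    exact h5
  have h6 : φ.1.1 m⁻¹ = 0 := congrFun hφ ⟨m, hm⟩
  rw [h1, hx2, h3, h6]
  rfl

omit [IsTopologicalGroup G] in
private theorem admFs_closure (T : Finset G) (hS : ∀ s ∈ T, Cen M s)
    (hj : ∀ s ∈ T, ∃ j : ℕ, j ≠ 0 ∧ s ^ j ∈ H) :
    ∃ F : Finset G, ∀ z ∈ Subgroup.closure (T : Set G), ∃ f ∈ F, ∃ h ∈ H, z = f * h := by
  classical
  induction T using Finset.induction_on with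
  | empty =>
    refine ⟨{1}, fun z hz => ?_⟩
    rw [Finset.coe_empty, Subgroup.closure_empty, Subgroup.mem_bot] at hz
    exact ⟨1, Finset.mem_singleton_self _, 1, H.one_mem, by rw [hz, mul_one]⟩
  | insert s T hs ih =>
    obtain ⟨F, hF⟩ := ih (fun x hx => hS x (Finset.mem_insert_of_mem hx))
      (fun x hx => hj x (Finset.mem_insert_of_mem hx))
    obtain ⟨k, hk, hkH⟩ := hj s (Finset.mem_insert_self _ _)
    have hsc := hS s (Finset.mem_insert_self _ _)
    have hTM : Subgroup.closure (T : Set G) ≤ M := by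
      rw [Subgroup.closure_le]
      intro x hx
      exact (hS x (Finset.mem_insert_of_mem (Finset.mem_coe.mp hx))).1
    have hz : ∀ z ∈ Subgroup.closure ((insert s T : Finset G) : Set G),
        ∃ j : ℤ, ∃ z' ∈ Subgroup.closure (T : Set G), z = s ^ j * z' := by
      intro z hz
      induction hz using Subgroup.closure_induction with
      | mem x hx =>
        rw [Finset.coe_insert] at hx
        rcases hx with rfl | hx
        · exact ⟨1, 1, Subgroup.one_mem _, by rw [zpow_one, mul_one]⟩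
        · exact ⟨0, x, Subgroup.subset_closure hx, by rw [zpow_zero, one_mul]⟩
      | one => exact ⟨0, 1, Subgroup.one_mem _, by rw [zpow_zero, one_mul]⟩
      | mul x y _ _ hx hy =>
        obtain ⟨j, x', hx', rfl⟩ := hx
        obtain ⟨j', y', hy', rfl⟩ := hy
        refine ⟨j + j', x' * y', Subgroup.mul_mem _ hx' hy', ?_⟩
        have hc := (hsc.zpow j').2 x' (hTM hx')
        rw [zpow_add]
        calc s ^ j * x' * (s ^ j' * y') = s ^ j * (x' * s ^ j') * y' := by group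
          _ = s ^ j * (s ^ j' * x') * y' := by rw [hc]
          _ = s ^ j * s ^ j' * (x' * y') := by group
      | inv x _ hx =>
        obtain ⟨j, x', hx', rfl⟩ := hx
        refine ⟨-j, x'⁻¹, Subgroup.inv_mem _ hx', ?_⟩
        have hc := (hsc.zpow (-j)).2 x'⁻¹ (M.inv_mem (hTM hx'))
        rw [hc, mul_inv_rev, zpow_neg]
    refine ⟨(Finset.range k ×ˢ F).image (fun q => s ^ q.1 * q.2), fun z hzc => ?_⟩
    obtain ⟨j, z', hz', rfl⟩ := hz z hzc
    obtain ⟨f, hf, h, hh, he⟩ := hF z' hz'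
    have hk0 : (0 : ℤ) < k := by exact_mod_cast Nat.pos_of_ne_zero hk
    have hr0 : 0 ≤ j % k := Int.emod_nonneg j hk0.ne'
    have hrk : j % k < k := Int.emod_lt_of_pos j hk0
    obtain ⟨r, hr⟩ := Int.eq_ofNat_of_zero_le hr0
    have hrk' : r < k := by
      have : (r : ℤ) < k := by rw [← hr]; exact hrk
      exact_mod_cast this
    refine ⟨s ^ r * f, Finset.mem_image.mpr ⟨(r, f), Finset.mem_product.mpr
      ⟨Finset.mem_range.mpr hrk', hf⟩, rfl⟩, h * (s ^ k) ^ (j / k),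
      H.mul_mem hh (H.zpow_mem hkH _), ?_⟩
    have e1 : s ^ j = s ^ r * (s ^ k) ^ (j / k) := by
      rw [← zpow_natCast s r, ← zpow_natCast s k, ← zpow_mul, ← zpow_add, ← hr]
      congr 1
      exact (Int.emod_add_mul_ediv j k).symm
    have hc : (s ^ k) ^ (j / k) * z' = z' * (s ^ k) ^ (j / k) := by
      rw [← zpow_natCast s k, ← zpow_mul]
      exact (hsc.zpow _).2 z' (hTM hz')
    calc s ^ j * z' = s ^ r * ((s ^ k) ^ (j / k) * z') := by rw [e1, mul_assoc]
      _ = s ^ r * (f * h * (s ^ k) ^ (j / k)) := by rw [hc, he]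
      _ = s ^ r * f * (h * (s ^ k) ^ (j / k)) := by group

open scoped Pointwise in
theorem compact_quot (hP : IsPar N₀ Nm M t) (hH : IsGood Nm M U H) {S : Finset G} {Ω₁ : Set G}
    (hΩ₁ : IsCompact Ω₁) (hS : ∀ s ∈ S, Cen M s)
    (hM : ∀ m ∈ M, ∃ x ∈ Ω₁, ∃ z ∈ Subgroup.closure (S : Set G), m = x * z)
    (hj : ∀ s ∈ S, ∃ j : ℕ, j ≠ 0 ∧ s ^ j ∈ H) :
    ∃ Ω : Set G, IsCompact Ω ∧ ∀ g : G, ∃ x ∈ Ω, ∃ h ∈ H, g = x * h := by
  obtain ⟨F, hF⟩ := admFs_closure S hS hj
  obtain ⟨Ω₀, hΩ₀, hc⟩ := hP.cocompact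
  have hFc : IsCompact (F : Set G) := F.finite_toSet.isCompact
  refine ⟨Ω₀ * Ω₁ * (F : Set G), (hΩ₀.mul hΩ₁).mul hFc, fun g => ?_⟩
  obtain ⟨x, hx, m, hm, n, hn, rfl⟩ := hc g
  obtain ⟨y, hy, z, hz, rfl⟩ := hM m hm
  obtain ⟨f, hf, h, hh, rfl⟩ := hF z hz
  refine ⟨x * y * f, Set.mul_mem_mul (Set.mul_mem_mul hx hy) (Finset.mem_coe.mpr hf), h * n,
    H.mul_mem hh (hH.Nm_le hn), ?_⟩
  simp only [mul_assoc]

end Ord1
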