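import Pool.Agent.Ord1.Defs

/-!
# Ord1, module Alg1: finiteness of `Hom_G(X, V)` and `Hom_G(X, Z) / π Hom_G(X, I)`

PROOFS.
* `lifts_add`, `lifts_sub`, `lifts_comp`: clear.
* `period`: the functions `f ∘ T ^ j`, `j : ℕ`, have values `κ (f ∘ T ^ j)` in a finite type, so two
  of them agree (`Finite.exists_ne_map_eq_of_infinite`): `f ∘ T ^ (k + m) - f ∘ T ^ k` lifts, `m ≥ 1`.
* `period_bij`: compose with `R ^ (-k)` (the inverse of a bijective equivariant map is equivariant).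
* `alg_finH`: `f' ↦ f' ∘ q` is an injective map from `Hom_G(X', V)` to the finite set `Hom_G(X, V)`.
* `alg_finE`: let `κ : (X →ₗ Z) → T` be given by `FinE` for `X`. For an equivariant `f' : X' → Z`
  consider `f' ∘ q`. For every `τ : T` choose (if possible) a reference `r τ : X' → Z`, equivariant
  with `κ (r τ ∘ q) = τ`; then for `f'` with `κ (f' ∘ q) = τ` the map `(f' - r τ) ∘ q = π ∘ h` with
  `h : X → I` equivariant (choose `h = h (f')`). As `q ∘ D = 0`, `π ∘ (h ∘ D) = 0`, so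
  `h ∘ D = i ∘ v (f')` with `v (f') : X → V` equivariant. The new invariant is
  `κ' (f') = (κ (f' ∘ q), v (f'))` in `T × Hom_G(X, V)` (finite). If `κ' f₁ = κ' f₂` then
  `(h₁ - h₂) ∘ D = 0`, so `h₁ - h₂` vanishes on the kernel of `q` (`hk`) and descends to an
  equivariant `h' : X' → I` (`q` surjective), with `f₁ - f₂ = π ∘ h'`.
-/

open Topology Set

namespace Ord1

open Emt

set_option linter.unusedSectionVars false

variable {C : Type} [Field C] {G : Type} [Group G] [TopologicalSpace G] {V I Z X X' : Type} [AddCommGroup V]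
  [Module C V] [AddCommGroup I] [Module C I] [AddCommGroup Z] [Module C Z] [AddCommGroup X]
  [Module C X] [AddCommGroup X'] [Module C X'] {ρ : Representation C G V}
  {ι : Representation C G I} {ζ : Representation C G Z} {i : V →ₗ[C] I} {π : I →ₗ[C] Z}
  {ξ : Representation C G X} {ξ' : Representation C G X'}

theorem Lifts.add {f f' : X →ₗ[C] Z} (h : Lifts ξ ι π f) (h' : Lifts ξ ι π f') :
    Lifts ξ ι π (f + f') := by
  obtain ⟨a, ha, rfl⟩ := h
  obtain ⟨b, hb, rfl⟩ := h'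
  refine ⟨a + b, fun g v => ?_, ?_⟩
  · rw [LinearMap.add_apply, LinearMap.add_apply, ha, hb, map_add]
  · rw [LinearMap.comp_add]

theorem Lifts.neg {f : X →ₗ[C] Z} (h : Lifts ξ ι π f) : Lifts ξ ι π (-f) := by
  obtain ⟨a, ha, rfl⟩ := h
  refine ⟨-a, fun g v => ?_, ?_⟩
  · rw [LinearMap.neg_apply, LinearMap.neg_apply, ha, map_neg]
  · rw [LinearMap.comp_neg]

theorem Lifts.sub {f f' : X →ₗ[C] Z} (h : Lifts ξ ι π f) (h' : Lifts ξ ι π f') :
    Lifts ξ ι π (f - f') := by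
  rw [sub_eq_add_neg]
  exact h.add h'.neg

theorem Lifts.comp {f : X →ₗ[C] Z} (h : Lifts ξ ι π f) {T : X' →ₗ[C] X} (hT : Equi ξ' ξ T) :
    Lifts ξ' ι π (f ∘ₗ T) := by
  obtain ⟨a, ha, rfl⟩ := h
  refine ⟨a ∘ₗ T, fun g v => ?_, ?_⟩
  · rw [LinearMap.comp_apply, LinearMap.comp_apply, hT, ha]
  · rw [LinearMap.comp_assoc]

theorem Lifts.equi (hS : IsSES ρ ι ζ i π) {f : X →ₗ[C] Z} (h : Lifts ξ ι π f) : Equi ξ ζ f := by
  obtain ⟨a, ha, rfl⟩ := h
  intro g v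
  rw [LinearMap.comp_apply, LinearMap.comp_apply, ha, hS.equi_π]

theorem equi_pow {T : X →ₗ[C] X} (hT : Equi ξ ξ T) (k : ℕ) : Equi ξ ξ (T ^ k) := by
  induction k with
  | zero =>
    intro g v
    rw [pow_zero, Module.End.one_apply, Module.End.one_apply]
  | succ k ih =>
    intro g v
    rw [pow_succ, Module.End.mul_apply, Module.End.mul_apply, hT, ih]

theorem equi_comp {f : X →ₗ[C] Z} (hf : Equi ξ ζ f) {T : X' →ₗ[C] X} (hT : Equi ξ' ξ T) :
    Equi ξ' ζ (f ∘ₗ T) := fun g v => by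
  rw [LinearMap.comp_apply, LinearMap.comp_apply, hT, hf]

theorem period (hE : FinE ξ ι ζ π) {T : X →ₗ[C] X} (hT : Equi ξ ξ T) {f : X →ₗ[C] Z}
    (hf : Equi ξ ζ f) : ∃ k m : ℕ, m ≠ 0 ∧ Lifts ξ ι π (f ∘ₗ T ^ (k + m) - f ∘ₗ T ^ k) := by
  obtain ⟨S, hS, κ, hκ⟩ := hE
  obtain ⟨a, b, hab, he⟩ := Finite.exists_ne_map_eq_of_infinite (fun j : ℕ => κ (f ∘ₗ T ^ j))
  have hq : ∀ j : ℕ, Equi ξ ζ (f ∘ₗ T ^ j) := fun j => equi_comp hf (equi_pow hT j)
  rcases lt_or_gt_of_ne hab with h | h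
  · refine ⟨a, b - a, by omega, ?_⟩
    have e : a + (b - a) = b := by omega
    rw [e]
    exact hκ _ _ (hq b) (hq a) he.symm
  · refine ⟨b, a - b, by omega, ?_⟩
    have e : b + (a - b) = a := by omega
    rw [e]
    exact hκ _ _ (hq a) (hq b) he

theorem period_bij (hE : FinE ξ ι ζ π) {T : X →ₗ[C] X} (hT : Equi ξ ξ T)
    (hb : Function.Bijective T) {f : X →ₗ[C] Z} (hf : Equi ξ ζ f) :
    ∃ m : ℕ, m ≠ 0 ∧ Lifts ξ ι π (f ∘ₗ T ^ m - f) := by
  obtain ⟨k, m, hm, h⟩ := period hE hT hf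
  refine ⟨m, hm, ?_⟩
  have hbk : Function.Bijective (T ^ k : X →ₗ[C] X) := by
    rw [Module.End.coe_pow]
    exact hb.iterate k
  set R := LinearEquiv.ofBijective (T ^ k : X →ₗ[C] X) hbk with hR
  have hR1 : ∀ x, (T ^ k : X →ₗ[C] X) (R.symm x) = x := fun x => R.apply_symm_apply x
  have hRe : Equi ξ ξ (R.symm : X →ₗ[C] X) := by
    intro g v
    apply hbk.1
    rw [LinearEquiv.coe_coe, hR1, equi_pow hT k, hR1]
  have h2 := h.comp hRe
  have e : (f ∘ₗ T ^ (k + m) - f ∘ₗ T ^ k) ∘ₗ (R.symm : X →ₗ[C] X) = f ∘ₗ T ^ m - f := by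
    refine LinearMap.ext fun x => ?_
    rw [LinearMap.comp_apply, LinearMap.sub_apply, LinearMap.sub_apply, LinearMap.comp_apply,
      LinearMap.comp_apply, LinearMap.comp_apply, LinearEquiv.coe_coe, hR1, add_comm k m, pow_add,
      Module.End.mul_apply, hR1]
  rwa [e] at h2

theorem alg_finH {q : X →ₗ[C] X'} (hq : Equi ξ ξ' q) (hqs : Function.Surjective q)
    (hH : FinH ξ ρ) : FinH ξ' ρ := by
  have hinj : Function.Injective (fun f' : X' →ₗ[C] V => f' ∘ₗ q) := fun a b hab =>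
    (LinearMap.cancel_right hqs).1 hab
  refine (Set.Finite.preimage (hinj.injOn) hH).subset fun f' hf' => ?_
  intro g v
  show f' (q (ξ g v)) = ρ g (f' (q v))
  rw [hq, hf']

theorem alg_finE (hS : IsSES ρ ι ζ i π) {D : X →ₗ[C] X} (hD : Equi ξ ξ D) {q : X →ₗ[C] X'}
    (hq : Equi ξ ξ' q) (hqs : Function.Surjective q) (hk : ∀ x, q x = 0 ↔ ∃ y, D y = x)
    (hH : FinH ξ ρ) (hE : FinE ξ ι ζ π) : FinE ξ' ι ζ π := by
  classical
  obtain ⟨S, hSf, κ, hκ⟩ := hE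
  have hr : ∀ τ : S, ∃ r : X' →ₗ[C] Z, (∃ f : X' →ₗ[C] Z, Equi ξ' ζ f ∧ κ (f ∘ₗ q) = τ) →
      Equi ξ' ζ r ∧ κ (r ∘ₗ q) = τ := by
    intro τ
    by_cases h : ∃ f : X' →ₗ[C] Z, Equi ξ' ζ f ∧ κ (f ∘ₗ q) = τ
    · obtain ⟨f, hf⟩ := h
      exact ⟨f, fun _ => hf⟩
    · exact ⟨0, fun h' => absurd h' h⟩
  choose r hr using hr
  have hqD : ∀ y, q (D y) = 0 := fun y => (hk _).2 ⟨y, rfl⟩
  have key : ∀ f' : X' →ₗ[C] Z, Equi ξ' ζ f' → ∃ (h : X →ₗ[C] I) (v : X →ₗ[C] V),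
      Equi ξ ι h ∧ Equi ξ ρ v ∧ f' ∘ₗ q - (r (κ (f' ∘ₗ q))) ∘ₗ q = π ∘ₗ h ∧
        ∀ x, i (v x) = h (D x) := by
    intro f' hf'
    have h1 := hr (κ (f' ∘ₗ q)) ⟨f', hf', rfl⟩
    obtain ⟨h, hh, he⟩ := hκ (f' ∘ₗ q) ((r (κ (f' ∘ₗ q))) ∘ₗ q) (equi_comp hf' hq)
      (equi_comp h1.1 hq) h1.2.symm
    have h2 : ∀ x, π (h (D x)) = 0 := by
      intro x
      have := LinearMap.congr_fun he (D x)
      rw [LinearMap.sub_apply, LinearMap.comp_apply, LinearMap.comp_apply, hqD, map_zero, map_zero,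
        sub_zero] at this
      exact this.symm
    have h3 : ∀ x, (h ∘ₗ D) x ∈ LinearMap.range i := fun x => by
      obtain ⟨v, hv⟩ := (hS.exact _).1 (h2 x)
      exact ⟨v, hv⟩
    set v : X →ₗ[C] V := ((LinearEquiv.ofInjective i hS.inj).symm : LinearMap.range i →ₗ[C] V) ∘ₗ
      ((h ∘ₗ D).codRestrict (LinearMap.range i) h3) with hv
    have hv1 : ∀ x, i (v x) = h (D x) := by
      intro x
      have := LinearEquiv.apply_symm_apply (LinearEquiv.ofInjective i hS.inj)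
        ((h ∘ₗ D).codRestrict (LinearMap.range i) h3 x)
      exact congrArg Subtype.val this
    refine ⟨h, v, hh, fun g x => ?_, he, hv1⟩
    apply hS.inj
    rw [hv1, hS.equi_i, hv1, hD, hh]
  choose! h v hh hv he hiv using key
  have : Finite {f : X →ₗ[C] V | Equi ξ ρ f} := hH.to_subtype
  have h0 : Equi ξ ρ (0 : X →ₗ[C] V) := fun g x => by
    rw [LinearMap.zero_apply, LinearMap.zero_apply, map_zero]
  let w : (X' →ₗ[C] Z) → {f : X →ₗ[C] V | Equi ξ ρ f} := fun f' =>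
    if hh : Equi ξ ρ (v f') then ⟨v f', hh⟩ else ⟨0, h0⟩
  refine ⟨S × {f : X →ₗ[C] V | Equi ξ ρ f}, inferInstance, fun f' => (κ (f' ∘ₗ q), w f'), ?_⟩
  intro f₁ f₂ hf₁ hf₂ heq
  have e1 : κ (f₁ ∘ₗ q) = κ (f₂ ∘ₗ q) := congrArg Prod.fst heq
  have e2 : w f₁ = w f₂ := congrArg Prod.snd heq
  have e3 : v f₁ = v f₂ := by
    have a1 : (w f₁).1 = v f₁ := by
      simp only [w]
      rw [dif_pos (hv f₁ hf₁)]
    have a2 : (w f₂).1 = v f₂ := by
      simp only [w]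
      rw [dif_pos (hv f₂ hf₂)]
    rw [← a1, ← a2, e2]
  set k : X →ₗ[C] I := h f₁ - h f₂ with hkk
  have hkD : ∀ y, k (D y) = 0 := by
    intro y
    rw [hkk, LinearMap.sub_apply, ← hiv f₁ hf₁, ← hiv f₂ hf₂, e3, sub_self]
  have hker : LinearMap.ker q ≤ LinearMap.ker k := by
    intro x hx
    rw [LinearMap.mem_ker] at hx ⊢
    obtain ⟨y, rfl⟩ := (hk x).1 hx
    exact hkD y
  set k' : X' →ₗ[C] I := ((LinearMap.ker q).liftQ k hker) ∘ₗ
    ((q.quotKerEquivOfSurjective hqs).symm : X' →ₗ[C] (X ⧸ LinearMap.ker q)) with hk'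
  have hk'q : ∀ x, k' (q x) = k x := by
    intro x
    have e4 : (q.quotKerEquivOfSurjective hqs).symm (q x) = Submodule.Quotient.mk x := by
      rw [LinearEquiv.symm_apply_eq]
      rfl
    rw [hk', LinearMap.comp_apply, LinearEquiv.coe_coe, e4]
    exact Submodule.liftQ_apply _ _ _
  refine ⟨k', fun g y => ?_, LinearMap.ext fun y => ?_⟩
  · obtain ⟨x, rfl⟩ := hqs y
    rw [← hq, hk'q, hk'q, hkk, LinearMap.sub_apply, LinearMap.sub_apply, hh f₁ hf₁, hh f₂ hf₂,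
      map_sub]
  · obtain ⟨x, rfl⟩ := hqs y
    rw [LinearMap.sub_apply, LinearMap.comp_apply, hk'q, hkk, LinearMap.sub_apply, map_sub]
    have a1 := LinearMap.congr_fun (he f₁ hf₁) x
    have a2 := LinearMap.congr_fun (he f₂ hf₂) x
    rw [← e1] at a2
    rw [LinearMap.sub_apply, LinearMap.comp_apply, LinearMap.comp_apply, LinearMap.comp_apply] at a1 a2
    rw [← a1, ← a2]
    abel

end Ord1
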