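import Pool.Agent.Ord1.Alg1

/-!
# Ord1, module Alg2: descent of a map modulo liftable maps

`R : X → X`, `D = R - 1` injective, `0 → X → X → X' → 0` exact (`D`, `q`).

PROOF of `alg_descend`. Let `f ∘ D = f ∘ R - f = π ∘ h`, `h : X → I` equivariant. As `D` is
injective and `I` is an injective object (`IsSES.injObj` with `A = B = X`, `j = D`, `hξ`) there is an equivariant
`h' : X → I` with `h' ∘ D = h`. Then `f₁ = f - π ∘ h'` satisfies `f₁ ∘ D = 0`, so it vanishes on the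
kernel of `q` and descends to an equivariant `f' : X' → Z` (`q` is surjective: choose preimages, e.g.
`Function.surjInv`, or `LinearMap.exists_rightInverse_of_surjective`), `f' ∘ q = f₁`; so
`f' ∘ q - f = - π ∘ h'`.
-/

open Topology Set

namespace Ord1

open Emt

variable {C : Type} [Field C] {G : Type} [Group G] [TopologicalSpace G] {V I Z X X' : Type} [AddCommGroup V]
  [Module C V] [AddCommGroup I] [Module C I] [AddCommGroup Z] [Module C Z] [AddCommGroup X]
  [Module C X] [AddCommGroup X'] [Module C X'] {ρ : Representation C G V}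
  {ι : Representation C G I} {ζ : Representation C G Z} {i : V →ₗ[C] I} {π : I →ₗ[C] Z}
  {ξ : Representation C G X} {ξ' : Representation C G X'}

theorem alg_descend (hS : IsSES ρ ι ζ i π) (hξ : IsSmooth ξ) {D : X →ₗ[C] X} (hD : Equi ξ ξ D)
    (hDi : Function.Injective D) {q : X →ₗ[C] X'} (hq : Equi ξ ξ' q)
    (hqs : Function.Surjective q) (hk : ∀ x, q x = 0 ↔ ∃ y, D y = x) {f : X →ₗ[C] Z}
    (hf : Equi ξ ζ f) (hl : Lifts ξ ι π (f ∘ₗ D)) :
    ∃ f' : X' →ₗ[C] Z, Equi ξ' ζ f' ∧ Lifts ξ ι π (f' ∘ₗ q - f) := by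
  obtain ⟨h, hh, hfh⟩ := hl
  obtain ⟨h', hh', hh'D⟩ := hS.injObj X X ξ ξ hξ D hD hDi h hh
  have hfh' : ∀ x, f (D x) = π (h x) := fun x => LinearMap.congr_fun hfh x
  let f₁ : X →ₗ[C] Z := f - π ∘ₗ h'
  have hf₁ : ∀ x, f₁ x = f x - π (h' x) := fun x => rfl
  have h0 : ∀ x, f₁ (D x) = 0 := by
    intro x
    rw [hf₁, hfh', hh'D, sub_self]
  have he : Equi ξ ζ f₁ := by
    intro g x
    rw [hf₁, hf₁, hf g x, hh' g x, hS.equi_π g (h' x), map_sub]
  obtain ⟨s, hs⟩ := LinearMap.exists_rightInverse_of_surjective q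
    (LinearMap.range_eq_top.2 hqs)
  have hs' : ∀ x, q (s x) = x := fun x => LinearMap.congr_fun hs x
  have hd : ∀ x, f₁ (s (q x)) = f₁ x := by
    intro x
    have h1 : q (s (q x) - x) = 0 := by rw [map_sub, hs', sub_self]
    obtain ⟨y, hy⟩ := (hk _).1 h1
    have h2 : f₁ (s (q x) - x) = 0 := by rw [← hy, h0]
    rw [map_sub, sub_eq_zero] at h2
    exact h2
  refine ⟨f₁ ∘ₗ s, ?_, -h', ?_, ?_⟩
  · intro g x'
    obtain ⟨x, rfl⟩ := hqs x'
    show f₁ (s (ξ' g (q x))) = ζ g (f₁ (s (q x)))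
    rw [← hq g x, hd, hd, he g x]
  · intro g x
    show -(h' (ξ g x)) = ι g (-(h' x))
    rw [hh' g x, map_neg]
  · refine LinearMap.ext fun x => ?_
    show f₁ (s (q x)) - f x = π (-(h' x))
    rw [hd, hf₁, map_neg]
    abel

end Ord1
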