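import Pool.Agent.Ord1.XRep
import Pool.Agent.Ord1.Alg1
import Pool.Agent.Emt.Quo

/-!
# Ord1, module FinX: finiteness for `X = C[G/U]`

PROOFS.
* `finH_x`: `f ↦ f (single 1 1) ∈ fix ρ U` is injective (`xRep_ext'`, `xRep_fix`), and `fix ρ U` is a
  finite dimensional vector space over a finite field, so finite (`Module.finite_of_finite C`).
* `finH1`: finiteness of `H¹(U, V)` in the form of a finite invariant `κ` of the locally constant
  cocycles. `K = U` is a compact group, `res ρ U` is admissible, so it embeds (`exists_emb_adm`, with an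
  open pro-`p` subgroup of `U`; see `IsPadicLie.exists_good`, `IsPadicLie.vproP`, `Eff.lean`) into
  `Ω = Fn C U (Fin n → C)`, `φ : V → Ω`; `Ω` is admissible (`fn_smooth`, `fn_fix_fin`; the finiteness of
  `fix Ω ⊤`) and its first cohomology vanishes (`van_of_smoothInj (fn_smoothInj hb)`). The quotient
  `Ω / φ V` is an admissible representation of the `p`-adic Lie group `U`
  (`IsPadicLie.subgroup` (open subgroups are closed), `IsAdm.of_surjective`), so its `U`-invariants are
  finite dimensional, hence a finite set. For a cocycle `c` choose `ε ∈ Ω` with `u ε - ε = φ (c u)` and put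
  `κ c = [ε]`, a `U`-invariant element of `Ω / φ V`. If `κ c = κ c'` then `ε - ε' = φ v`, so
  `c u - c' u = u v - v`.
* `finE_x`: for an equivariant `f : C[G/U] → Z` choose `ω ∈ I` with `π ω = f (single 1 1)`; for
  `u ∈ U`, `π (u ω - ω) = 0`, so `ι u ω - ω = i (c u)` with a unique cocycle `c : U → V`, locally constant
  because `I` is smooth (`c (u o) = c u` if `o` fixes `ω`). Put `κ f = κ c` of `finH1`. If
  `κ f₁ = κ f₂` then `ω₁ - ω₂ - i v` is fixed by `U`; by `xRep_lift` it defines an equivariant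
  `h : C[G/U] → I`, and `π ∘ h = f₁ - f₂` by `xRep_ext'`.
-/

open Topology Set

namespace Ord1

open Emt

variable {p : ℕ} [Fact p.Prime] {G : Type} [Group G] [TopologicalSpace G] [IsTopologicalGroup G]
  {C : Type} [Field C] [Finite C] {V I Z : Type} [AddCommGroup V] [Module C V]
  [AddCommGroup I] [Module C I] [AddCommGroup Z] [Module C Z] {ρ : Representation C G V}
  {ι : Representation C G I} {ζ : Representation C G Z} {i : V →ₗ[C] I} {π : I →ₗ[C] Z}
  {U : Subgroup G}

omit [Finite C] in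
theorem x_smooth (hU : IsOpen (U : Set G)) : IsSmooth (xRep C U) := by
  intro x
  have key : ∃ O : Subgroup G, IsOpen (O : Set G) ∧ ∀ g ∈ O, xRep C U g x = x := by
    induction x using Finsupp.induction_linear with
    | zero => exact ⟨⊤, isOpen_univ, fun g _ => map_zero _⟩
    | add x y hx hy =>
      obtain ⟨O, hO, h⟩ := hx
      obtain ⟨O', hO', h'⟩ := hy
      refine ⟨O ⊓ O', ?_, fun g hg => ?_⟩
      · rw [Subgroup.coe_inf]
        exact hO.inter hO'
      · rw [map_add, h g hg.1, h' g hg.2]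
    | single y a =>
      obtain ⟨g₀, rfl⟩ := QuotientGroup.mk_surjective y
      refine ⟨U.comap (MulAut.conj g₀⁻¹).toMonoidHom, ?_, fun g hg => ?_⟩
      · have hc : Continuous fun x : G => (MulAut.conj g₀⁻¹).toMonoidHom x := by
          show Continuous fun x : G => g₀⁻¹ * x * g₀⁻¹⁻¹
          fun_prop
        exact hU.preimage hc
      · have hg' : g₀⁻¹ * g * g₀⁻¹⁻¹ ∈ U := hg
        rw [xRep_single]
        congr 1
        apply Eq.symm
        rw [QuotientGroup.eq]
        have e : g₀⁻¹ * (g * g₀) = g₀⁻¹ * g * g₀⁻¹⁻¹ := by group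
        rw [e]
        exact hg'
  obtain ⟨O, hO, h⟩ := key
  exact isOpen_stab_of_le hO h

theorem finH_x (hρ : IsAdm ρ) (hU : IsOpen (U : Set G)) (hUc : IsCompact (U : Set G)) :
    FinH (xRep C U) ρ := by
  have hfd := hρ.fin U hU hUc
  have hfin : Finite (fix ρ U) := Module.finite_of_finite C
  apply Set.Finite.of_injOn (f := fun f : ((G ⧸ U) →₀ C) →ₗ[C] V =>
    f (Finsupp.single ((1 : G) : G ⧸ U) 1)) (t := (fix ρ U : Set V))
  · intro f hf
    exact xRep_fix hf
  · intro f hf f' hf' h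
    exact xRep_ext' hf hf' h
  · exact Set.toFinite _

theorem finH1 [CharP C p] (hG : IsPadicLie p G) (hρ : IsAdm ρ) (hU : IsOpen (U : Set G))
    (hUc : IsCompact (U : Set G)) : ∃ (T : Type) (_ : Finite T) (κ : (U → V) → T),
      ∀ c c' : U → V, IsCoc (res ρ U) c → IsCoc (res ρ U) c' → κ c = κ c' →
        ∃ v : V, ∀ u : U, c u - c' u = ρ (u : G) v - v := by
  classical
  have : CompactSpace U := isCompact_iff_compactSpace.1 hUc
  have hcl : IsClosed (U : Set G) := U.isClosed_of_isOpen hU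
  have hGU : IsPadicLie p U := hG.subgroup hcl
  have hb : OpenBasis U := hGU.openBasis
  obtain ⟨S, hSo, hSp, -, -⟩ := exists_sylow (hG.vproP hUc)
  have hadm : IsAdm (res ρ U) :=
    comp_isAdm hρ (φ := U.subtype) continuous_subtype_val hU.isOpenMap_subtype_val
  have hfd : FiniteDimensional C (fix (res ρ U) S) :=
    hadm.fin S hSo (S.isClosed_of_isOpen hSo).isCompact
  obtain ⟨n, hn⟩ : ∃ n, Module.finrank C (fix (res ρ U) S) = n := ⟨_, rfl⟩
  obtain ⟨φ, hφ, hinj⟩ := exists_emb_adm hadm.smooth hSo hSp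
    (X := Fin n) (by rw [Fintype.card_fin, hn])
  have hΩ : IsAdm (fnRep C U (Fin n → C)) :=
    ⟨fn_smooth hb, fun W hW _ => fn_fix_fin hW⟩
  have hvan : Van (fnRep C U (Fin n → C)) := van_of_smoothInj (fn_smoothInj hb)
  have hM : IsSub (fnRep C U (Fin n → C)) (LinearMap.range φ) := isSub_range hφ
  have hτ : IsAdm (quotRep (fnRep C U (Fin n → C)) (LinearMap.range φ) hM) :=
    IsAdm.of_surjective hGU hΩ (equi_mkQ _ hM) (Submodule.mkQ_surjective _)
  have hfd2 : FiniteDimensional C (fix (quotRep (fnRep C U (Fin n → C)) (LinearMap.range φ) hM) ⊤) :=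
    hτ.fin ⊤ isOpen_univ isCompact_univ
  have hT : Finite (fix (quotRep (fnRep C U (Fin n → C)) (LinearMap.range φ) hM) ⊤) :=
    Module.finite_of_finite C
  have hex : ∀ c : U → V, IsCoc (res ρ U) c →
      ∃ e : Fn C U (Fin n → C), ∀ u, φ (c u) = fnRep C U (Fin n → C) u e - e := by
    intro c hc
    apply hvan (fun u => φ (c u))
    refine ⟨fun g h => ?_, hc.cont.comp φ⟩
    show φ (c (g * h)) = φ (c g) + fnRep C U (Fin n → C) g (φ (c h))
    rw [hc.mul, map_add, hφ]
  choose e he using hex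
  have hmem : ∀ c (hc : IsCoc (res ρ U) c), (LinearMap.range φ).mkQ (e c hc) ∈
      fix (quotRep (fnRep C U (Fin n → C)) (LinearMap.range φ) hM) ⊤ := by
    intro c hc u _
    rw [quotRep_mk]
    have h1 := he c hc u
    have h2 : fnRep C U (Fin n → C) u (e c hc) = e c hc + φ (c u) := by rw [h1]; abel
    rw [h2, map_add]
    have h3 : (LinearMap.range φ).mkQ (φ (c u)) = 0 := by
      rw [Submodule.mkQ_apply, Submodule.Quotient.mk_eq_zero]
      exact ⟨_, rfl⟩
    rw [h3, add_zero]
  refine ⟨_, hT, fun c => if hc : IsCoc (res ρ U) c then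
    ⟨(LinearMap.range φ).mkQ (e c hc), hmem c hc⟩ else 0, ?_⟩
  intro c c' hc hc' h
  simp only [dif_pos hc, dif_pos hc', Subtype.mk.injEq] at h
  have h1 : e c hc - e c' hc' ∈ LinearMap.range φ := by
    rw [← Submodule.Quotient.mk_eq_zero, Submodule.Quotient.mk_sub]
    rw [Submodule.mkQ_apply, Submodule.mkQ_apply] at h
    rw [h, sub_self]
  obtain ⟨v, hv⟩ := h1
  refine ⟨v, fun u => hinj ?_⟩
  have h2 := hφ u v
  rw [res_apply] at h2
  rw [map_sub, map_sub, h2, he c hc, he c' hc', hv, map_sub]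
  abel

theorem finE_x [CharP C p] (hG : IsPadicLie p G) (hρ : IsAdm ρ) (hS : IsSES ρ ι ζ i π)
    (hU : IsOpen (U : Set G)) (hUc : IsCompact (U : Set G)) : FinE (xRep C U) ι ζ π := by
  classical
  obtain ⟨T, hT, κ, hκ⟩ := finH1 hG hρ hU hUc
  set b₀ : (G ⧸ U) →₀ C := Finsupp.single ((1 : G) : G ⧸ U) 1 with hb₀
  have hω : ∀ f : ((G ⧸ U) →₀ C) →ₗ[C] Z, ∃ ω, π ω = f b₀ := fun f => hS.surj _
  choose ω hω using hω
  have hc : ∀ f : ((G ⧸ U) →₀ C) →ₗ[C] Z, Equi (xRep C U) ζ f → ∀ u : U,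
      ∃ v, i v = ι (u : G) (ω f) - ω f := by
    intro f hf u
    rw [← hS.exact, map_sub, hS.equi_π, hω f]
    have h1 : f b₀ ∈ fix ζ U := xRep_fix hf
    rw [h1 u u.2, sub_self]
  choose c hc using hc
  have hcoc : ∀ f (hf : Equi (xRep C U) ζ f), IsCoc (res ρ U) (c f hf) := by
    intro f hf
    refine ⟨fun g h => hS.inj ?_, ?_⟩
    · rw [map_add, res_apply, hS.equi_i, hc, hc, hc, Subgroup.coe_mul, rep_mul_apply, map_sub]
      abel
    · rw [IsLocallyConstant.iff_eventually_eq]
      intro u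
      have hcont : Continuous fun h : U => ((u⁻¹ * h : U) : G) :=
        continuous_subtype_val.comp (continuous_const.mul continuous_id)
      have ho : IsOpen {h : U | ι ((u⁻¹ * h : U) : G) (ω f) = ω f} :=
        (hS.smooth (ω f)).preimage hcont
      have hu : u ∈ {h : U | ι ((u⁻¹ * h : U) : G) (ω f) = ω f} := by
        show ι ((u⁻¹ * u : U) : G) (ω f) = ω f
        rw [inv_mul_cancel, Subgroup.coe_one, map_one]
        rfl
      filter_upwards [ho.mem_nhds hu] with h hh
      have h1 : ι ((u⁻¹ * h : U) : G) (ω f) = ω f := hh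
      apply hS.inj
      rw [hc, hc]
      have h2 : ι (h : G) (ω f) = ι (u : G) (ι ((u⁻¹ * h : U) : G) (ω f)) := by
        rw [← rep_mul_apply, ← Subgroup.coe_mul, mul_inv_cancel_left]
      rw [h2, h1]
  refine ⟨T, hT, fun f => if hf : Equi (xRep C U) ζ f then κ (c f hf) else κ 0, ?_⟩
  intro f f' hf hf' h
  simp only [dif_pos hf, dif_pos hf'] at h
  obtain ⟨v, hv⟩ := hκ _ _ (hcoc f hf) (hcoc f' hf') h
  have hw : ω f - ω f' - i v ∈ fix ι U := by
    intro u hu
    have h1 := hc f hf ⟨u, hu⟩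
    have h2 := hc f' hf' ⟨u, hu⟩
    have h3 := congrArg i (hv ⟨u, hu⟩)
    rw [map_sub, map_sub, h1, h2, hS.equi_i] at h3
    simp only at h3
    rw [map_sub, map_sub]
    have h4 : ι u (ω f) - ω f - (ι u (ω f') - ω f') - (ι u (i v) - i v) = 0 := by
      rw [h3, sub_self]
    rw [← sub_eq_zero]
    rw [← h4]
    abel
  obtain ⟨hl, hl1, hl2⟩ := xRep_lift hw
  refine ⟨hl, hl1, ?_⟩
  apply xRep_ext' (σ := ζ)
  · intro g x
    rw [LinearMap.sub_apply, LinearMap.sub_apply, hf, hf', map_sub]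
  · exact hS.equi_π.comp hl1
  · rw [LinearMap.comp_apply, hl2, rep_one_apply, LinearMap.sub_apply, map_sub, map_sub, hω, hω,
      (hS.exact (i v)).2 ⟨v, rfl⟩, sub_zero]

end Ord1
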