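import Pool.Agent.Ord1.Step
import Pool.Agent.Ord1.FinX

/-!
# Ord1, module Bas: the start of the induction

PROOF of `bas`. `T = hkX`, `X = C[G/U]` with `FinH`, `FinE` (`finH_x`, `finE_x`). By `period` there are
`k, m`, `m ≠ 0`, such that `f T ^ (k + m) - f T ^ k` lifts. Put `f₀ = f T ^ k`, `D = T ^ m - 1`
(injective by `hkX_inj`), `H₁ = (Nm ⊔ (U ⊓ M)) ⊔ zpowers (t ^ m)` (good by `good_base`, `good_sup`),
`q = phiF` for `H₁`: surjective by `sur_one`, kernel = image of `D` by `ker_one` and `phiX_iter`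
(`phiX_{H₁} (T ^ m y) g = phiX y (g t ^ (-m)) = phiX y g` as `t ^ m ∈ H₁`). `alg_finH`, `alg_finE`,
`alg_descend` (`x_smooth`) give `FinH`, `FinE` for `Fs H₁` and `f' : Fs H₁ → Z` with
`f' ∘ q - f₀` liftable.
-/

open Topology Set

namespace Ord1

open Emt

variable {p : ℕ} [Fact p.Prime] {G : Type} [Group G] [TopologicalSpace G] [IsTopologicalGroup G]
  {N₀ Nm M U H : Subgroup G} {t s : G} {C : Type} [Field C] [Finite C] [CharP C p]
  {V I Z : Type} [AddCommGroup V] [Module C V] [AddCommGroup I] [Module C I] [AddCommGroup Z]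
  [Module C Z] {ρ : Representation C G V} {ι : Representation C G I} {ζ : Representation C G Z}
  {i : V →ₗ[C] I} {π : I →ₗ[C] Z}

theorem bas (hG : IsPadicLie p G) (hP : IsPar N₀ Nm M t) (hI : Iwa N₀ Nm M U t) (h0 : N₀ ≠ ⊥)
    (hρ : IsAdm ρ) (hS : IsSES ρ ι ζ i π) {f : ((G ⧸ U) →₀ C) →ₗ[C] Z}
    (hf : Equi (xRep C U) ζ f) : ∃ (k : ℕ) (H : Subgroup G),
      PP hP hI ρ ι ζ π (f ∘ₗ (hkX C N₀ U t) ^ k) H := by
  have ht2 : T2Space G := hG.t2
  have hT : Equi (xRep C U) (xRep C U) (hkX C N₀ U t) := hkX_equi hP hI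
  have hHx : FinH (xRep C U) ρ := finH_x hρ hI.open_U hI.compact_U
  have hEx : FinE (xRep C U) ι ζ π := finE_x hG hρ hS hI.open_U hI.compact_U
  obtain ⟨k, m, hm, hl⟩ := period hEx hT hf
  have hg : IsGood Nm M U ((Nm ⊔ (U ⊓ M)) ⊔ Subgroup.zpowers (t ^ m)) :=
    good_sup hP (good_base hP hI) (hP.cen.pow m)
  have hD : Equi (xRep C U) (xRep C U) ((hkX C N₀ U t) ^ m - LinearMap.id) := by
    intro g v
    have h1 := equi_pow hT m g v
    rw [LinearMap.sub_apply, LinearMap.sub_apply, h1, LinearMap.id_apply, LinearMap.id_apply,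
      map_sub]
  have hDa : ∀ x, ((hkX C N₀ U t) ^ m - LinearMap.id : _ →ₗ[C] _) x
      = (hkX C N₀ U t)^[m] x - x := by
    intro x
    rw [LinearMap.sub_apply, LinearMap.id_apply, Module.End.pow_apply]
  have hDi : Function.Injective ((hkX C N₀ U t) ^ m - LinearMap.id : _ →ₗ[C] _) := by
    rw [injective_iff_map_eq_zero]
    intro x hx
    rw [hDa, sub_eq_zero] at hx
    exact hkX_inj hP hI h0 hm hx
  have hq := phiF_equi (C := C) hP hI hg
  have hqs : Function.Surjective (phiF hP hI hg C) := by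
    rintro ⟨φ, hφ⟩
    obtain ⟨x, hx⟩ := sur_one hP hI h0 hm hφ
    exact ⟨x, Subtype.ext hx⟩
  have hk : ∀ x, phiF hP hI hg C x = 0 ↔
      ∃ y, ((hkX C N₀ U t) ^ m - LinearMap.id : _ →ₗ[C] _) y = x := by
    intro x
    constructor
    · intro h
      obtain ⟨y, hy⟩ := ker_one hP hI h0 hm (congrArg Subtype.val h)
      exact ⟨y, by rw [hDa, hy]⟩
    · rintro ⟨y, rfl⟩
      rw [hDa, map_sub, sub_eq_zero]
      apply Subtype.ext
      funext g
      rw [phiF_val, phiF_val, phiX_iter hP hI hg m y g]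
      have h1 := (mem_Fs.1 (phiX_mem (C := C) hP hI hg y)).1 g ((t ^ m)⁻¹)
        (Subgroup.inv_mem _ (Subgroup.mem_sup_right (Subgroup.mem_zpowers _)))
      exact h1
  have hf₀ : Equi (xRep C U) ζ (f ∘ₗ (hkX C N₀ U t) ^ k) := by
    intro g v
    rw [LinearMap.comp_apply, LinearMap.comp_apply, equi_pow hT k g v, hf]
  have hl' : Lifts (xRep C U) ι π
      ((f ∘ₗ (hkX C N₀ U t) ^ k) ∘ₗ ((hkX C N₀ U t) ^ m - LinearMap.id)) := by
    have e : (f ∘ₗ (hkX C N₀ U t) ^ k) ∘ₗ ((hkX C N₀ U t) ^ m - LinearMap.id)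
        = f ∘ₗ (hkX C N₀ U t) ^ (k + m) - f ∘ₗ (hkX C N₀ U t) ^ k := by
      refine LinearMap.ext fun x => ?_
      rw [LinearMap.comp_apply, LinearMap.sub_apply, map_sub, LinearMap.sub_apply,
        LinearMap.comp_apply, LinearMap.comp_apply, LinearMap.comp_apply, pow_add,
        Module.End.mul_apply, LinearMap.id_apply]
      rfl
    rw [e]
    exact hl
  obtain ⟨f', hf', hl''⟩ := alg_descend hS (x_smooth hI.open_U) hD hDi hq hqs hk hf₀ hl'
  exact ⟨k, _, hg, alg_finH hq hqs hHx, alg_finE hS hD hq hqs hk hHx hEx, f', hf', hl''⟩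

/-- The result of the induction over the finitely many central generators `s ∈ S`. -/
theorem chain (hG : IsPadicLie p G) (hP : IsPar N₀ Nm M t) (hI : Iwa N₀ Nm M U t) (h0 : N₀ ≠ ⊥)
    (hρ : IsAdm ρ) (hS : IsSES ρ ι ζ i π) {f : ((G ⧸ U) →₀ C) →ₗ[C] Z}
    (hf : Equi (xRep C U) ζ f) (S : Finset G) (hSc : ∀ s ∈ S, Cen M s) :
    ∃ (k : ℕ) (H : Subgroup G), PP hP hI ρ ι ζ π (f ∘ₗ (hkX C N₀ U t) ^ k) H ∧
      ∀ s ∈ S, ∃ j : ℕ, j ≠ 0 ∧ s ^ j ∈ H := by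
  classical
  induction S using Finset.induction_on with
  | empty =>
    obtain ⟨k, H, hH⟩ := bas hG hP hI h0 hρ hS hf
    exact ⟨k, H, hH, fun s hs => absurd hs (Finset.notMem_empty s)⟩
  | insert s S _ ih =>
    obtain ⟨k, H, hH, hj⟩ := ih fun s hs => hSc s (Finset.mem_insert_of_mem hs)
    obtain ⟨H', hle, hH', j, hj0, hjs⟩ := step hP hI hS hH (hSc s (Finset.mem_insert_self s S))
    refine ⟨k, H', hH', fun r hr => ?_⟩
    rcases Finset.mem_insert.1 hr with rfl | hr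
    · exact ⟨j, hj0, hjs⟩
    · obtain ⟨j', hj', h'⟩ := hj r hr
      exact ⟨j', hj', hle h'⟩

/-- The first conclusion: modulo liftable maps `f ∘ T ^ k` factors through an admissible
representation. -/
theorem factor_adm (hG : IsPadicLie p G) (hP : IsPar N₀ Nm M t) (hI : Iwa N₀ Nm M U t)
    (h0 : N₀ ≠ ⊥) (hρ : IsAdm ρ) (hS : IsSES ρ ι ζ i π) {f : ((G ⧸ U) →₀ C) →ₗ[C] Z}
    (hf : Equi (xRep C U) ζ f) : ∃ (k : ℕ) (f' : ((G ⧸ U) →₀ C) →ₗ[C] Z),
      Equi (xRep C U) ζ f' ∧ Lifts (xRep C U) ι π (f' - f ∘ₗ (hkX C N₀ U t) ^ k) ∧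
      ∃ A : Submodule C Z, IsAdmSub ζ A ∧ ∀ x, f' x ∈ A := by
  obtain ⟨S, Ω, hΩ, hSc, hM⟩ := hP.minimal
  obtain ⟨k, H, ⟨hH, -, -, f₁, hf₁, hl⟩, hj⟩ := chain hG hP hI h0 hρ hS hf S hSc
  obtain ⟨Ω', hΩ', hq⟩ := compact_quot hP hH hΩ hSc hM hj
  have hA : IsAdm (fsRep C H) := fs_adm hΩ' hq
  have htop : IsAdmSub (fsRep C H) (⊤ : Submodule C (Fs C H)) := by
    refine ⟨fun _ _ _ => Submodule.mem_top, fun U' hU' hUc' => ?_⟩
    have h1 := hA.fin U' hU' hUc'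
    exact Submodule.finiteDimensional_of_le inf_le_right
  refine ⟨k, f₁ ∘ₗ phiF hP hI hH C, ?_, hl, (⊤ : Submodule C (Fs C H)).map f₁,
    htop.map hG hA.smooth hf₁, fun x => ⟨phiF hP hI hH C x, Submodule.mem_top, rfl⟩⟩
  intro g v
  rw [LinearMap.comp_apply, LinearMap.comp_apply, phiF_equi hP hI hH g v, hf₁]

end Ord1
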