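import Pool.Agent.Ord1.Grp

/-!
# Ord1, module Hk1: the Hecke operator on `C[G/U]`

PROOFS.
* `cj_mem`: KEY FACT: if `n ∈ N₀` and `t⁻¹ n t ∈ U` then `t⁻¹ n t ∈ N₀`. Write `t⁻¹ n t = n' m b`
  (`Iwa.dec`); then `t n'⁻¹ t⁻¹ n ∈ N₀` (`contr`) equals `t m b t⁻¹ = m (t b t⁻¹)`, `t b t⁻¹ ∈ Nm`
  (`norm`), so it is `1` by `disj` and `t⁻¹ n t = n'`.
* `cj_finite`: so `t N₀ t⁻¹ = N₀ ∩ t U t⁻¹` is open in the compact group `N₀`.
* `single_inj`: for `n, n' ∈ N₀` the cosets `n t U`, `n' t U` are equal iff `n⁻¹ n' ∈ t N₀ t⁻¹`.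
* `coset_U`: for `u ∈ U`, `n ∈ N₀`: `u n = n' m b`, and `u n t U = n' t m (t⁻¹ b t) U = n' t U`.
* `tau_inv`: `xRep u` permutes the finitely many cosets `q.out t U` (injective into itself by
  `coset_U`); rewrite the `finsum` as a `Finset` sum over the image, or use
  `finsum_eq_of_bijective`.
* `hkX_single`, `hkX_equi`: two representatives of a coset differ by an element of `U`; `tau_inv`.
* `hkX_supp`: induction on `k`: the support of `hkX x` is contained in the set of the cosets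
  `g n' t U`, `g U` in the support of `x`; and `(g n t ^ k) n' t = g n (t ^ k n' t ^ (-k)) t ^ (k+1)`.
-/

set_option linter.unusedSectionVars false
set_option linter.unusedVariables false
set_option linter.style.haveILetI false

open Topology Set

namespace Ord1

open Emt

variable {G : Type} [Group G] [TopologicalSpace G] [IsTopologicalGroup G]
  {N₀ Nm M U H : Subgroup G} {t s : G} {C : Type} [Field C]

theorem cj_mem (hP : IsPar N₀ Nm M t) (hI : Iwa N₀ Nm M U t) {n : G} (hn : n ∈ N₀)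
    (h : t⁻¹ * n * t ∈ U) : t⁻¹ * n * t ∈ N₀ := by
  obtain ⟨n', hn', m, hm, b, hb, e⟩ := hI.dec _ h
  have h1 : t * n'⁻¹ * t⁻¹ * n ∈ N₀ := N₀.mul_mem (hP.contr _ (N₀.inv_mem hn')) hn
  have h2 : t * n'⁻¹ * t⁻¹ * n = m * (t * b * t⁻¹) := by
    have h3 : n = t * (t⁻¹ * n * t) * t⁻¹ := by group
    have h4 : m * (t * b * t⁻¹) = (t * m) * b * t⁻¹ := by
      rw [hP.t_comm m hm.2]; group
    rw [h4]
    calc t * n'⁻¹ * t⁻¹ * n = t * n'⁻¹ * t⁻¹ * (t * (t⁻¹ * n * t) * t⁻¹) := by rw [← h3]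
      _ = t * n'⁻¹ * t⁻¹ * (t * (n' * m * b) * t⁻¹) := by rw [e]
      _ = _ := by group
  have h5 := hP.disj _ h1 m hm.2 _ (hP.norm t hP.t_mem b hb.2) h2
  have h6 : t⁻¹ * n * t = n' := by
    have h7 := h5.1
    calc t⁻¹ * n * t = n' * (t⁻¹ * (t * n'⁻¹ * t⁻¹ * n) * t) := by group
      _ = n' := by rw [h7]; group
  rw [h6]
  exact hn'

theorem mem_cj {n : N₀} : n ∈ cj N₀ t ↔ t⁻¹ * (n : G) * t ∈ N₀ := by
  unfold cj
  rw [Subgroup.mem_subgroupOf, Subgroup.mem_map]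
  constructor
  · rintro ⟨x, hx, e⟩
    have e' : t * x * t⁻¹ = (n : G) := e
    rw [← e']
    have : t⁻¹ * (t * x * t⁻¹) * t = x := by group
    rw [this]
    exact hx
  · intro h
    refine ⟨_, h, ?_⟩
    show t * (t⁻¹ * (n : G) * t) * t⁻¹ = (n : G)
    group

theorem cj_finite (hP : IsPar N₀ Nm M t) (hI : Iwa N₀ Nm M U t) : Finite (N₀ ⧸ cj N₀ t) := by
  haveI : CompactSpace N₀ := isCompact_iff_compactSpace.mp hP.compact_N
  apply Subgroup.quotient_finite_of_isOpen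
  have h1 : ((cj N₀ t : Subgroup N₀) : Set N₀) = (fun n : N₀ => t⁻¹ * (n : G) * t) ⁻¹' (U : Set G) := by
    ext n
    rw [mem_preimage, SetLike.mem_coe, SetLike.mem_coe, mem_cj]
    exact ⟨fun h => hI.N_le h, fun h => cj_mem hP hI n.2 h⟩
  rw [h1]
  apply hI.open_U.preimage
  fun_prop

theorem single_inj (hP : IsPar N₀ Nm M t) (hI : Iwa N₀ Nm M U t) {n n' : N₀} :
    ((((n : G) * t : G) : G ⧸ U) = (((n' : G) * t : G) : G ⧸ U)) ↔
      (n : N₀ ⧸ cj N₀ t) = (n' : N₀ ⧸ cj N₀ t) := by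
  rw [QuotientGroup.eq, QuotientGroup.eq, mem_cj]
  have e : ((n : G) * t)⁻¹ * ((n' : G) * t) = t⁻¹ * ((n⁻¹ * n' : N₀) : G) * t := by
    push_cast
    group
  rw [e]
  exact ⟨fun h => cj_mem hP hI (n⁻¹ * n').2 h, fun h => hI.N_le h⟩

theorem coset_U (hP : IsPar N₀ Nm M t) (hI : Iwa N₀ Nm M U t) {u : G} (hu : u ∈ U) (n : N₀) :
    ∃ n' : N₀, (((u * (n : G) * t : G) : G ⧸ U) = (((n' : G) * t : G) : G ⧸ U)) := by
  obtain ⟨n', hn', m, hm, b, hb, e⟩ := hI.dec _ (U.mul_mem hu (hI.N_le n.2))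
  refine ⟨⟨n', hn'⟩, ?_⟩
  symm
  rw [QuotientGroup.eq]
  have e2 : (n' * t)⁻¹ * (u * (n : G) * t) = m * (t⁻¹ * b * t) := by
    rw [e]
    have h1 : t⁻¹ * m = m * t⁻¹ := by
      have := hP.t_comm m hm.2
      calc t⁻¹ * m = t⁻¹ * (m * t) * t⁻¹ := by group
        _ = t⁻¹ * (t * m) * t⁻¹ := by rw [this]
        _ = _ := by group
    calc (n' * t)⁻¹ * (n' * m * b * t) = (t⁻¹ * m) * b * t := by group
      _ = _ := by rw [h1]; group
  show (n' * t)⁻¹ * (u * (n : G) * t) ∈ U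
  rw [e2]
  exact U.mul_mem hm.1 (hI.contr b hb)

theorem hk1_xRep_single (g : G) (y : G ⧸ U) (c : C) :
    xRep C U g (Finsupp.single y c) = Finsupp.single (g • y) c := by
  show Finsupp.lmapDomain C C (fun y : G ⧸ U => g • y) (Finsupp.single y c) = _
  rw [Finsupp.lmapDomain_apply, Finsupp.mapDomain_single]

theorem hk1_xRep_mul (g h : G) (x : (G ⧸ U) →₀ C) :
    xRep C U (g * h) x = xRep C U g (xRep C U h x) := by
  rw [map_mul]
  rfl

theorem hk1_tau (hP : IsPar N₀ Nm M t) (hI : Iwa N₀ Nm M U t) (g : G)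
    [Fintype (N₀ ⧸ cj N₀ t)] :
    xRep C U g (tau C N₀ U t) =
      ∑ q : N₀ ⧸ cj N₀ t, Finsupp.single (((g * (q.out : G) * t : G) : G ⧸ U)) 1 := by
  unfold tau
  rw [finsum_eq_sum_of_fintype, map_sum]
  refine Finset.sum_congr rfl fun q _ => ?_
  rw [hk1_xRep_single]
  congr 1
  show (((g * ((q.out : G) * t) : G) : G ⧸ U)) = _
  rw [mul_assoc]

theorem tau_inv (hP : IsPar N₀ Nm M t) (hI : Iwa N₀ Nm M U t) {u : G} (hu : u ∈ U) :
    xRep C U u (tau C N₀ U t) = tau C N₀ U t := by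
  haveI := cj_finite hP hI
  letI : Fintype (N₀ ⧸ cj N₀ t) := Fintype.ofFinite _
  rw [hk1_tau hP hI]
  have h1 : ∀ q : N₀ ⧸ cj N₀ t, ∃ n' : N₀,
      (((u * (q.out : G) * t : G) : G ⧸ U) = (((n' : G) * t : G) : G ⧸ U)) :=
    fun q => coset_U hP hI hu q.out
  choose f hf using h1
  have hinj : Function.Injective (fun q => ((f q : N₀) : N₀ ⧸ cj N₀ t)) := by
    intro q q' h
    have h2 := (single_inj (U := U) hP hI).mpr h
    rw [← hf q, ← hf q', QuotientGroup.eq] at h2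
    have h3 : (((q.out : G) * t : G) : G ⧸ U) = (((q'.out : G) * t : G) : G ⧸ U) := by
      rw [QuotientGroup.eq]
      have e : (u * (q.out : G) * t)⁻¹ * (u * (q'.out : G) * t) =
          ((q.out : G) * t)⁻¹ * ((q'.out : G) * t) := by group
      rw [← e]
      exact h2
    have h4 := (single_inj (U := U) hP hI).mp h3
    rwa [QuotientGroup.out_eq', QuotientGroup.out_eq'] at h4
  have hbij : Function.Bijective (fun q => ((f q : N₀) : N₀ ⧸ cj N₀ t)) :=
    Finite.injective_iff_bijective.mp hinj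
  have h5 : tau C N₀ U t =
      ∑ q : N₀ ⧸ cj N₀ t, Finsupp.single ((((q.out : G) * t : G) : G ⧸ U)) (1 : C) := by
    unfold tau
    rw [finsum_eq_sum_of_fintype]
  rw [h5, ← hbij.sum_comp (fun q : N₀ ⧸ cj N₀ t =>
    Finsupp.single ((((q.out : G) * t : G) : G ⧸ U)) (1 : C))]
  refine Finset.sum_congr rfl fun q _ => ?_
  congr 1
  rw [hf q]
  apply (single_inj (U := U) hP hI).mpr
  rw [QuotientGroup.out_eq']

theorem hkX_single (hP : IsPar N₀ Nm M t) (hI : Iwa N₀ Nm M U t) (g : G) :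
    hkX C N₀ U t (Finsupp.single (g : G ⧸ U) 1) = xRep C U g (tau C N₀ U t) := by
  unfold hkX
  rw [Finsupp.linearCombination_single, one_smul]
  obtain ⟨u, hu⟩ := QuotientGroup.mk_out_eq_mul U g
  rw [hu, hk1_xRep_mul, tau_inv hP hI u.2]

theorem hkX_equi (hP : IsPar N₀ Nm M t) (hI : Iwa N₀ Nm M U t) :
    Equi (xRep C U) (xRep C U) (hkX C N₀ U t) := by
  intro g v
  have h : (hkX C N₀ U t) ∘ₗ (xRep C U g) = (xRep C U g) ∘ₗ (hkX C N₀ U t) := by
    refine Finsupp.lhom_ext fun y c => ?_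
    induction y using QuotientGroup.induction_on with
    | H x =>
      rw [LinearMap.comp_apply, LinearMap.comp_apply, hk1_xRep_single]
      have e1 : (Finsupp.single (g • (x : G ⧸ U)) c : (G ⧸ U) →₀ C) =
          c • Finsupp.single (((g * x : G) : G ⧸ U)) 1 := by
        rw [Finsupp.smul_single, smul_eq_mul, mul_one]
        rfl
      have e2 : (Finsupp.single (x : G ⧸ U) c : (G ⧸ U) →₀ C) =
          c • Finsupp.single (x : G ⧸ U) 1 := by
        rw [Finsupp.smul_single, smul_eq_mul, mul_one]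
      rw [e1, e2, map_smul, map_smul, map_smul, hkX_single hP hI, hkX_single hP hI,
        hk1_xRep_mul]
  exact LinearMap.congr_fun h v

theorem hk1_step (hP : IsPar N₀ Nm M t) (hI : Iwa N₀ Nm M U t) (z : (G ⧸ U) →₀ C)
    (y : G ⧸ U) (hy : (hkX C N₀ U t z) y ≠ 0) :
    ∃ y' : G ⧸ U, z y' ≠ 0 ∧ ∀ g : G, y' = (g : G ⧸ U) →
      ∃ n ∈ N₀, y = ((g * n * t : G) : G ⧸ U) := by
  haveI := cj_finite hP hI
  letI : Fintype (N₀ ⧸ cj N₀ t) := Fintype.ofFinite _
  have h1 : hkX C N₀ U t z = ∑ y' ∈ z.support, z y' • hkX C N₀ U t (Finsupp.single y' 1) := by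
    conv_lhs => rw [← Finsupp.sum_single z]
    rw [Finsupp.sum, map_sum]
    refine Finset.sum_congr rfl fun y' _ => ?_
    rw [← map_smul, Finsupp.smul_single, smul_eq_mul, mul_one]
  rw [h1, Finsupp.finsetSum_apply] at hy
  obtain ⟨y', hy', h2⟩ := Finset.exists_ne_zero_of_sum_ne_zero hy
  refine ⟨y', Finsupp.mem_support_iff.mp hy', fun g hg => ?_⟩
  rw [Finsupp.smul_apply, hg, hkX_single hP hI, hk1_tau hP hI] at h2
  have h3 := right_ne_zero_of_smul h2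
  rw [Finsupp.finsetSum_apply] at h3
  obtain ⟨q, _, h4⟩ := Finset.exists_ne_zero_of_sum_ne_zero h3
  refine ⟨(q.out : G), (q.out).2, ?_⟩
  by_contra hne
  apply h4
  classical
  rw [Finsupp.single_apply, if_neg (fun e => hne e.symm)]

theorem hkX_supp (hP : IsPar N₀ Nm M t) (hI : Iwa N₀ Nm M U t) (k : ℕ) (x : (G ⧸ U) →₀ C)
    (y : G ⧸ U) (hy : ((hkX C N₀ U t)^[k] x) y ≠ 0) :
    ∃ g n : G, n ∈ N₀ ∧ x (g : G ⧸ U) ≠ 0 ∧ y = ((g * n * t ^ k : G) : G ⧸ U) := by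
  induction k generalizing y with
  | zero =>
    induction y using QuotientGroup.induction_on with
    | H g =>
      refine ⟨g, 1, N₀.one_mem, hy, ?_⟩
      simp
  | succ k ih =>
    rw [Function.iterate_succ_apply'] at hy
    obtain ⟨y', hy', h1⟩ := hk1_step hP hI _ y hy
    obtain ⟨g, n, hn, hx, e⟩ := ih y' hy'
    obtain ⟨n', hn', e'⟩ := h1 _ e
    refine ⟨g, n * (t ^ k * n' * (t ^ k)⁻¹), N₀.mul_mem hn (hP.contr_pow k hn'), hx, ?_⟩
    rw [e']
    congr 1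
    rw [pow_succ]
    group

end Ord1
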