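import Pool.Agent.Ord1.Grp
import Pool.Agent.Ord1.Hk1

/-!
# Ord1, module Bl: the characteristic functions of the balls `t ^ k N₀ t ^ (-k) H`

PROOFS.
* `bl_conj`: `x ∈ t ^ k N₀ t ^ (-k) H` iff `t ^ (-k) x t ^ k ∈ N₀ H` (`t` normalises `H`).
* `bl_U`: `U N₀ H = N₀ H` (`U_mul`: `u n = n' h`).
* `bl_mem`: right invariance is clear; `bl k` is invariant from the left by the open subgroup
  `t ^ k U t ^ (-k)`; the support is contained in `N_k H`, `N_k` compact.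
* `bl_refine`: `N_k H` is the disjoint union of the sets `t ^ k q.out t ^ (-k) N_(k+1) H`
  (disjoint by `good_disj`), `q` in `N₀ ⧸ cj N₀ t`.
* `bl_mul_N`: if `x = t ^ k n t ^ (-k)` with `n ∈ N₀` then `x N_k H = N_k H`.
-/

open Topology Set

namespace Ord1

open Emt

variable {G : Type} [Group G] [TopologicalSpace G] [IsTopologicalGroup G]
  {N₀ Nm M U H : Subgroup G} {t s : G} {C : Type} [Field C]

theorem bl_one (k : ℕ) : bl C N₀ H t k 1 = 1 := by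
  unfold bl
  rw [if_pos]
  exact ⟨1, N₀.one_mem, 1, H.one_mem, by group⟩

theorem bl_ne {k : ℕ} {x : G} : bl C N₀ H t k x ≠ 0 ↔
    ∃ n ∈ N₀, ∃ h ∈ H, x = t ^ k * n * (t ^ k)⁻¹ * h := by
  unfold bl
  constructor
  · intro h
    by_contra h'
    exact h (if_neg h')
  · intro h
    rw [if_pos h]
    exact one_ne_zero

private theorem bl_congr {k j : ℕ} {x y : G}
    (h : (∃ n ∈ N₀, ∃ h ∈ H, x = t ^ k * n * (t ^ k)⁻¹ * h) ↔
      (∃ n ∈ N₀, ∃ h ∈ H, y = t ^ j * n * (t ^ j)⁻¹ * h)) :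
    bl C N₀ H t k x = bl C N₀ H t j y := by
  unfold bl
  by_cases h1 : ∃ n ∈ N₀, ∃ h ∈ H, x = t ^ k * n * (t ^ k)⁻¹ * h
  · rw [if_pos h1, if_pos (h.1 h1)]
  · rw [if_neg h1, if_neg (fun h2 => h1 (h.2 h2))]

private theorem bl_zero_iff {x : G} :
    (∃ n ∈ N₀, ∃ h ∈ H, x = t ^ 0 * n * (t ^ 0)⁻¹ * h) ↔ ∃ n ∈ N₀, ∃ h ∈ H, x = n * h := by
  simp only [pow_zero, one_mul, inv_one, mul_one]

private theorem bl_of_mem {k : ℕ} {x : G}
    (h : ∃ n ∈ N₀, ∃ h ∈ H, x = t ^ k * n * (t ^ k)⁻¹ * h) : bl C N₀ H t k x = 1 := by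
  unfold bl
  rw [if_pos h]

private theorem bl_of_not {k : ℕ} {x : G}
    (h : ¬ ∃ n ∈ N₀, ∃ h ∈ H, x = t ^ k * n * (t ^ k)⁻¹ * h) : bl C N₀ H t k x = 0 := by
  unfold bl
  rw [if_neg h]

theorem bl_conj (hn : Nor H t) (k : ℕ) (x : G) :
    bl C N₀ H t k x = bl C N₀ H t 0 ((t ^ k)⁻¹ * x * t ^ k) := by
  apply bl_congr
  rw [bl_zero_iff]
  have hk : Nor H (t ^ k) := hn.pow k
  constructor
  · rintro ⟨n, hn0, h, hh, rfl⟩
    refine ⟨n, hn0, (t ^ k)⁻¹ * h * t ^ k, ?_, by group⟩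
    rw [← hk]
    have e : t ^ k * ((t ^ k)⁻¹ * h * t ^ k) * (t ^ k)⁻¹ = h := by group
    rwa [e]
  · rintro ⟨n, hn0, h, hh, e⟩
    refine ⟨n, hn0, t ^ k * h * (t ^ k)⁻¹, (hk h).2 hh, ?_⟩
    have e1 : x = t ^ k * ((t ^ k)⁻¹ * x * t ^ k) * (t ^ k)⁻¹ := by group
    rw [e1, e]
    group

theorem bl_U (hP : IsPar N₀ Nm M t) (hI : Iwa N₀ Nm M U t) (hH : IsGood Nm M U H) {u : G}
    (hu : u ∈ U) (x : G) : bl C N₀ H t 0 (u * x) = bl C N₀ H t 0 x := by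
  have key : ∀ v ∈ U, ∀ y : G, (∃ n ∈ N₀, ∃ h ∈ H, y = n * h) →
      ∃ n ∈ N₀, ∃ h ∈ H, v * y = n * h := by
    rintro v hv y ⟨n, hn, h, hh, rfl⟩
    obtain ⟨n', hn', h', hh', e⟩ := U_mul hI hH (U.mul_mem hv (hI.N_le hn))
    refine ⟨n', hn', h' * h, H.mul_mem hh' hh, ?_⟩
    rw [← mul_assoc, e, mul_assoc]
  apply bl_congr
  rw [bl_zero_iff, bl_zero_iff]
  constructor
  · intro h
    have h1 := key u⁻¹ (U.inv_mem hu) _ h
    rwa [inv_mul_cancel_left] at h1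
  · intro h
    exact key u hu _ h

theorem bl_mem (hP : IsPar N₀ Nm M t) (hI : Iwa N₀ Nm M U t) (hH : IsGood Nm M U H) (k : ℕ) :
    bl C N₀ H t k ∈ Fs C H := by
  have hn : Nor H t := nor_of_cen hP hH hP.cen
  refine ⟨fun g h hh => ?_, ⟨U.comap (MulAut.conj (t ^ k)⁻¹).toMonoidHom, ?_, fun o ho x => ?_⟩,
    (fun n => t ^ k * n * (t ^ k)⁻¹) '' (N₀ : Set G), ?_, fun g hg => ?_⟩
  · apply bl_congr
    constructor
    · rintro ⟨n, hn0, h', hh', e⟩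
      refine ⟨n, hn0, h' * h⁻¹, H.mul_mem hh' (H.inv_mem hh), ?_⟩
      rw [← mul_assoc, ← e, mul_inv_cancel_right]
    · rintro ⟨n, hn0, h', hh', e⟩
      refine ⟨n, hn0, h' * h, H.mul_mem hh' hh, ?_⟩
      rw [← mul_assoc, ← e]
  · have hc : Continuous fun x : G => (MulAut.conj (t ^ k)⁻¹).toMonoidHom x := by
      show Continuous fun x : G => (t ^ k)⁻¹ * x * (t ^ k)⁻¹⁻¹
      fun_prop
    exact hI.open_U.preimage hc
  · have ho' : (t ^ k)⁻¹ * o * (t ^ k)⁻¹⁻¹ ∈ U := ho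
    rw [inv_inv] at ho'
    rw [bl_conj hn k (o * x), bl_conj hn k x, ← bl_U hP hI hH ho' ((t ^ k)⁻¹ * x * t ^ k)]
    congr 1
    group
  · exact hP.compact_N.image ((continuous_const.mul continuous_id).mul continuous_const)
  · obtain ⟨n, hn0, h, hh, e⟩ := bl_ne.1 hg
    exact ⟨_, ⟨n, hn0, rfl⟩, h, hh, e⟩

theorem bl_refine (hP : IsPar N₀ Nm M t) (hI : Iwa N₀ Nm M U t) (hH : IsGood Nm M U H) (k : ℕ)
    (x : G) : bl C N₀ H t k x = ∑ᶠ q : N₀ ⧸ cj N₀ t,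
      bl C N₀ H t (k + 1) ((t ^ k * (q.out : G) * (t ^ k)⁻¹)⁻¹ * x) := by
  have hn : Nor H t := nor_of_cen hP hH hP.cen
  have hk : Nor H (t ^ k) := hn.pow k
  -- the points of a small ball
  have hsub : ∀ q : N₀ ⧸ cj N₀ t,
      bl C N₀ H t (k + 1) ((t ^ k * (q.out : G) * (t ^ k)⁻¹)⁻¹ * x) ≠ 0 →
      ∃ n ∈ N₀, ∃ h ∈ H, x = t ^ k * ((q.out : G) * (t * n * t⁻¹)) * (t ^ k)⁻¹ * h := by
    intro q hq
    obtain ⟨n, hn0, h, hh, e⟩ := bl_ne.1 hq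
    refine ⟨n, hn0, h, hh, ?_⟩
    have e1 : x = (t ^ k * (q.out : G) * (t ^ k)⁻¹) *
        ((t ^ k * (q.out : G) * (t ^ k)⁻¹)⁻¹ * x) := by group
    rw [e1, e, pow_succ, mul_inv_rev]
    simp only [mul_assoc, inv_mul_cancel_left]
  by_cases hx : ∃ n ∈ N₀, ∃ h ∈ H, x = t ^ k * n * (t ^ k)⁻¹ * h
  · rw [bl_of_mem hx]
    obtain ⟨n, hn0, h, hh, e⟩ := hx
    have hqn : ((⟨n, hn0⟩ : N₀) : N₀ ⧸ cj N₀ t).out⁻¹ * (⟨n, hn0⟩ : N₀) ∈ cj N₀ t := by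
      rw [← QuotientGroup.eq]
      exact Quotient.out_eq' _
    rw [finsum_eq_single _ ((⟨n, hn0⟩ : N₀) : N₀ ⧸ cj N₀ t)]
    · symm
      apply bl_of_mem
      have h1 := mem_cj.1 hqn
      refine ⟨_, h1, h, hh, ?_⟩
      rw [e, pow_succ, mul_inv_rev]
      simp only [Subgroup.coe_mul, Subgroup.coe_inv, mul_inv_rev, inv_inv, mul_assoc,
        inv_mul_cancel_left, mul_inv_cancel_left]
    · intro q hq
      by_contra hne
      obtain ⟨n', hn', h', hh', e'⟩ := hsub q hne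
      apply hq
      have hc : t * n' * t⁻¹ ∈ N₀ := hP.contr n' hn'
      have hy : ((q.out : G) * (t * n' * t⁻¹))⁻¹ * n = 1 := by
        apply good_disj hP hH
        · exact N₀.mul_mem (N₀.inv_mem (N₀.mul_mem q.out.2 hc)) hn0
        · rw [← hk]
          have e2 : t ^ k * (((q.out : G) * (t * n' * t⁻¹))⁻¹ * n) * (t ^ k)⁻¹ =
              h' * h⁻¹ := by
            have e3 : t ^ k * n * (t ^ k)⁻¹ = x * h⁻¹ := by
              rw [e, mul_inv_cancel_right]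
            have e4 : (t ^ k * ((q.out : G) * (t * n' * t⁻¹)) * (t ^ k)⁻¹)⁻¹ * x = h' := by
              rw [e', inv_mul_cancel_left]
            rw [← e4, mul_assoc _ x h⁻¹, ← e3]
            simp only [mul_inv_rev, inv_inv, mul_assoc, inv_mul_cancel_left]
          rw [e2]
          exact H.mul_mem hh' (H.inv_mem hh)
      have hy' : n = (q.out : G) * (t * n' * t⁻¹) := by
        rw [inv_mul_eq_one] at hy
        exact hy.symm
      rw [← q.out_eq']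
      rw [QuotientGroup.eq, mem_cj]
      show t⁻¹ * ((((Quotient.out q)⁻¹ * (⟨n, hn0⟩ : N₀) : N₀)) : G) * t ∈ N₀
      rw [Subgroup.coe_mul, Subgroup.coe_inv]
      show t⁻¹ * ((q.out : G)⁻¹ * n) * t ∈ N₀
      rw [hy', inv_mul_cancel_left]
      have e5 : t⁻¹ * (t * n' * t⁻¹) * t = n' := by group
      rwa [e5]
  · rw [bl_of_not hx]
    symm
    apply finsum_eq_zero_of_forall_eq_zero
    intro q
    by_contra hne
    obtain ⟨n, hn0, h, hh, e⟩ := hsub q hne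
    exact hx ⟨(q.out : G) * (t * n * t⁻¹), N₀.mul_mem q.out.2 (hP.contr n hn0), h, hh, e⟩

/-- Two balls of the same size which meet are equal. -/
theorem bl_eq_of_ne (hP : IsPar N₀ Nm M t) (hH : IsGood Nm M U H) {k : ℕ} {n : G} (hn : n ∈ N₀)
    (x : G) : bl C N₀ H t k ((t ^ k * n * (t ^ k)⁻¹)⁻¹ * x) = bl C N₀ H t k x := by
  apply bl_congr
  constructor
  · rintro ⟨n', hn', h, hh, e⟩
    refine ⟨n * n', N₀.mul_mem hn hn', h, hh, ?_⟩
    have e1 : x = (t ^ k * n * (t ^ k)⁻¹) * ((t ^ k * n * (t ^ k)⁻¹)⁻¹ * x) := by group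
    rw [e1, e]
    simp only [mul_assoc, inv_mul_cancel_left]
  · rintro ⟨n', hn', h, hh, rfl⟩
    refine ⟨n⁻¹ * n', N₀.mul_mem (N₀.inv_mem hn) hn', h, hh, ?_⟩
    simp only [mul_inv_rev, inv_inv, mul_assoc, inv_mul_cancel_left]

end Ord1
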