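import Pool.Agent.Ord1.HkC

/-!
# Ord1, module HkCoc: the Hecke operator maps cocycles to cocycles

PROOFS.
* `coc_fun`: every cocycle of `N₀` is a coboundary in the functions `G → V` with right translations
  (`injT C G V`): choose representatives `x = (x N₀).out · u(x)` and put
  `ω x = ρ ((x N₀).out) (c (u(x)))` (as in module Inj1; `injC ρ id : V → (G → V)`).
* `hecke_isCoc`: the cocycle identity: with `ω` of `coc_fun` and `hecke_lift`
  `i (hecke c n) = n ω' - ω'`, `i` injective. Locally constant: the subgroup `cj N₀ t` is open in `N₀`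
  (finite index and closed; see `cj_finite`, or use `cj = N₀ ∩ t U t⁻¹`), let `N'` be its normal
  core (open, `pro_core_open` / `exists_normal_le`); for `m ∈ N'`, `(n m) • q = n • (m • q) = n • q`, and the
  argument of `c` is `x · ((q.out t)⁻¹ m (q.out t))` which is a continuous function of `m`; so
  `m ↦ hecke c (n m)` is locally constant near `1` (finitely many `q`).
-/

open Topology Set

namespace Ord1

open Emt

variable {G : Type} [Group G] [TopologicalSpace G] [IsTopologicalGroup G]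
  {N₀ Nm M U H : Subgroup G} {t s : G} {C : Type} [Field C]
  {V : Type} [AddCommGroup V] [Module C V] {ρ : Representation C G V}

omit [TopologicalSpace G] [IsTopologicalGroup G] in
theorem coc_fun {c : N₀ → V} (hc : ∀ u u', c (u * u') = c u + ρ (u : G) (c u')) :
    ∃ ω : G → V, ∀ u : N₀, injT C G V (u : G) ω - ω = injC ρ LinearMap.id (c u) := by
  have hmem : ∀ x : G, ((x : G ⧸ N₀).out)⁻¹ * x ∈ N₀ := fun x =>
    QuotientGroup.eq.1 (QuotientGroup.out_eq' (x : G ⧸ N₀))
  refine ⟨fun x => ρ ((x : G ⧸ N₀).out) (c ⟨_, hmem x⟩), fun u => ?_⟩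
  funext x
  have hq : ((x * (u : G) : G) : G ⧸ N₀) = (x : G ⧸ N₀) :=
    (QuotientGroup.eq.2 (by rw [inv_mul_cancel_left]; exact u.2)).symm
  have h1 : (⟨_, hmem (x * (u : G))⟩ : N₀) = ⟨_, hmem x⟩ * u := by
    apply Subtype.ext
    show ((((x * (u : G) : G) : G ⧸ N₀).out)⁻¹ * (x * (u : G)) : G) =
      ((x : G ⧸ N₀).out)⁻¹ * x * (u : G)
    rw [hq, mul_assoc]
  rw [Pi.sub_apply, injT_apply, injC_apply, LinearMap.id_apply]
  show ρ (((x * (u : G) : G) : G ⧸ N₀).out) (c ⟨_, hmem (x * (u : G))⟩) -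
    ρ ((x : G ⧸ N₀).out) (c ⟨_, hmem x⟩) = ρ x (c u)
  rw [h1, hc, hq, map_add, add_sub_cancel_left, ← rep_mul_apply]
  show ρ ((x : G ⧸ N₀).out * (((x : G ⧸ N₀).out)⁻¹ * x)) (c u) = ρ x (c u)
  rw [mul_inv_cancel_left]

theorem hecke_isCoc (hP : IsPar N₀ Nm M t) (hI : Iwa N₀ Nm M U t) {c : N₀ → V}
    (hc : IsCoc (res ρ N₀) c) : IsCoc (res ρ N₀) (hecke ρ N₀ t c) := by
  have : Finite (N₀ ⧸ cj N₀ t) := cj_finite hP hI
  have hmul : ∀ g h : N₀, hecke ρ N₀ t c (g * h) = hecke ρ N₀ t c g +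
      res ρ N₀ g (hecke ρ N₀ t c h) := by
    obtain ⟨ω, hω⟩ := coc_fun (ρ := ρ) (c := c) hc.mul
    have hl : ∀ n : N₀, injT C G V (n : G) (omg (injT C G V) N₀ t ω) -
        omg (injT C G V) N₀ t ω = injC ρ LinearMap.id (hecke ρ N₀ t c n) := fun n =>
      hecke_lift (injC_equi ρ LinearMap.id) hω n
    set ω' := omg (injT C G V) N₀ t ω with hω'
    intro g h
    have h1 : injC ρ LinearMap.id (hecke ρ N₀ t c (g * h)) =
        injC ρ LinearMap.id (hecke ρ N₀ t c g + res ρ N₀ g (hecke ρ N₀ t c h)) := by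
      rw [map_add, ← hl, ← hl, res_apply, injC_equi ρ LinearMap.id (g : G), ← hl, map_sub,
        Subgroup.coe_mul, rep_mul_apply]
      abel
    have h2 := congrFun h1 1
    rw [injC_apply, injC_apply, rep_one_apply, rep_one_apply] at h2
    exact h2
  refine ⟨hmul, ?_⟩
  have hc1 : c 1 = 0 := hc.one
  -- an open neighbourhood of 1 on which `cext c` vanishes
  obtain ⟨O, hO, hO1, hOc⟩ : ∃ O : Set G, IsOpen O ∧ (1 : G) ∈ O ∧
      ∀ x ∈ O, cext N₀ c x = 0 := by
    have ho : IsOpen (c ⁻¹' {c 1}) := hc.cont.isOpen_fiber (c 1)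
    obtain ⟨O, hO, hOe⟩ := isOpen_induced_iff.1 ho
    refine ⟨O, hO, ?_, fun x hx => ?_⟩
    · have : (1 : N₀) ∈ (Subtype.val ⁻¹' O : Set N₀) := by
        rw [hOe]
        rfl
      exact this
    · unfold cext
      split_ifs with h
      · have : (⟨x, h⟩ : N₀) ∈ (Subtype.val ⁻¹' O : Set N₀) := hx
        rw [hOe] at this
        have h2 : c ⟨x, h⟩ = c 1 := this
        rw [h2, hc1]
      · rfl
  have hcj : IsOpen ((cj N₀ t : Subgroup N₀) : Set N₀) := by
    have h1 : ((cj N₀ t : Subgroup N₀) : Set N₀) = (fun n : N₀ => t⁻¹ * (n : G) * t) ⁻¹' U := by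
      ext n
      constructor
      · intro h
        exact hI.N_le (mem_cj.1 h)
      · intro h
        exact mem_cj.2 (cj_mem hP hI n.2 h)
    rw [h1]
    exact hI.open_U.preimage (by fun_prop)
  have hev : ∀ᶠ m : N₀ in 𝓝 1, hecke ρ N₀ t c m = 0 := by
    have h1 : ∀ q : N₀ ⧸ cj N₀ t, ∀ᶠ m : N₀ in 𝓝 1, m • q = q ∧
        ((q.out : G) * t)⁻¹ * (m : G) * ((q.out : G) * t) ∈ O := by
      intro q
      refine Filter.Eventually.and ?_ ?_
      · have hopen : IsOpen ((fun m : N₀ => (m * q.out)⁻¹ * q.out) ⁻¹'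
            ((cj N₀ t : Subgroup N₀) : Set N₀)) := hcj.preimage (by fun_prop)
        have h1 : (1 : N₀) ∈ ((fun m : N₀ => (m * q.out)⁻¹ * q.out) ⁻¹'
            ((cj N₀ t : Subgroup N₀) : Set N₀)) := by
          show ((1 : N₀) * q.out)⁻¹ * q.out ∈ cj N₀ t
          rw [one_mul, inv_mul_cancel]
          exact (cj N₀ t).one_mem
        filter_upwards [hopen.mem_nhds h1] with m hm
        have h2 : ((m * q.out : N₀) : N₀ ⧸ cj N₀ t) = ((q.out : N₀) : N₀ ⧸ cj N₀ t) :=
          QuotientGroup.eq.2 hm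
        have h3 : m • q = ((m * q.out : N₀) : N₀ ⧸ cj N₀ t) := by
          conv_lhs => rw [← QuotientGroup.out_eq' q]
          rfl
        rw [h3, h2, QuotientGroup.out_eq']
      · have hopen : IsOpen ((fun m : N₀ => ((q.out : G) * t)⁻¹ * (m : G) * ((q.out : G) * t)) ⁻¹'
            O) := hO.preimage (by fun_prop)
        refine hopen.mem_nhds ?_
        show ((q.out : G) * t)⁻¹ * ((1 : N₀) : G) * ((q.out : G) * t) ∈ O
        rw [Subgroup.coe_one, mul_one, inv_mul_cancel]
        exact hO1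
    filter_upwards [Filter.eventually_all.2 h1] with m hm
    unfold hecke
    rw [← finsum_zero (α := N₀ ⧸ cj N₀ t) (M := V)]
    refine finsum_congr fun q => ?_
    rw [(hm q).1, hOc _ (hm q).2, map_zero]
  rw [IsLocallyConstant.iff_eventually_eq]
  intro n
  have ht : Filter.Tendsto (fun y : N₀ => n⁻¹ * y) (𝓝 n) (𝓝 1) := by
    have h1 : Continuous fun y : N₀ => n⁻¹ * y := by fun_prop
    have h2 := h1.tendsto n
    rwa [inv_mul_cancel] at h2
  filter_upwards [ht.eventually hev] with y hy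
  have h1 := hmul n (n⁻¹ * y)
  rw [mul_inv_cancel_left, hy, map_zero, add_zero] at h1
  exact h1

end Ord1
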