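import Pool.Agent.Ord1.Eff1
import Pool.Agent.Ord1.HkCoc

/-!
# Ord1, module Cor: what is left of the injectivity over `N₀`

PROOF. If `J|N₀` is injective then every cocycle is a coboundary (`van_of_smoothInj`). Conversely let
`hecke` be injective modulo coboundaries. By `main` `(hecke)^[k] c` is a coboundary, by
`hecke_isCoc` all the `(hecke)^[j] c` are cocycles, so going down from `k` to `0`, `c` is a
coboundary; `smoothInj_of_van`.
-/

open Topology Set

namespace Ord1

open Emt

theorem inj_iff {p : ℕ} [Fact p.Prime] {G : Type} [Group G] [TopologicalSpace G]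
    [IsTopologicalGroup G] {N₀ Nm M : Subgroup G} {t : G} {C : Type} [Field C] [Finite C]
    [CharP C p] (hG : IsPadicLie p G) (hP : IsPar N₀ Nm M t) (hN : IsProP p N₀) {J : Type}
    [AddCommGroup J] [Module C J] {σ : Representation C G J} (hJ : LadmInj σ) :
    SmoothInj (res σ N₀) ↔ ∀ c : N₀ → J, IsCoc (res σ N₀) c →
      (∃ e : J, ∀ n : N₀, hecke σ N₀ t c n = σ (n : G) e - e) →
      ∃ e : J, ∀ n : N₀, c n = σ (n : G) e - e := by
  constructor
  · intro hS c hc _
    obtain ⟨e, he⟩ := van_of_smoothInj hS c hc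
    exact ⟨e, fun n => he n⟩
  · intro h
    have hcomp : CompactSpace N₀ := isCompact_iff_compactSpace.1 hP.compact_N
    obtain ⟨U, hI⟩ := exists_iwa hP
    refine smoothInj_of_van (p := p) hN (hJ.1.1.res N₀) fun c hc => ?_
    have key : ∀ (k : ℕ) (c : N₀ → J), IsCoc (res σ N₀) c →
        (∃ e : J, ∀ n : N₀, (hecke σ N₀ t)^[k] c n = σ (n : G) e - e) →
        ∃ e : J, ∀ n : N₀, c n = σ (n : G) e - e := by
      intro k
      induction k with
      | zero => exact fun c _ he => he
      | succ k ih =>
        intro c hc he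
        exact h c hc (ih (hecke σ N₀ t c) (hecke_isCoc hP hI hc) he)
    obtain ⟨k, e, he⟩ := main hG hP hJ hc
    obtain ⟨e', he'⟩ := key k c hc ⟨e, he⟩
    exact ⟨e', fun n => he' n⟩

end Ord1
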