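import Pool.Agent.Emt.Inj
import Pool.Agent.Emt.Eff

/-!
# Ord1 (MP_64e98e_al): the ordinary part of `H¹(N₀, J)` vanishes; definitions

Conventions of `Pool/Agent/Emt/Defs.lean`: `C` is a (finite) field of characteristic `p`,
representations are `Representation C G V`.

* `IsPar N₀ Nm M t`: `P = M N` is a minimal parabolic subgroup of `G`, `N₀` a compact open subgroup
  of `N`, `Nm` the unipotent radical of the opposite parabolic subgroup and `t` an element of the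
  centre of `M` which contracts `N₀` (only the properties which are used are listed; `N` itself is
  not needed).
* `hecke ρ N₀ t`: the Hecke operator of `t` on the cocycles of `N₀` (corestriction from
  `t N₀ t⁻¹` to `N₀` of the translate by `t`).
-/

open Topology Set

namespace Ord1

open Emt

section Group

variable {G : Type} [Group G] [TopologicalSpace G]

/-- The data of a minimal parabolic subgroup. -/
structure IsPar (N₀ Nm M : Subgroup G) (t : G) : Prop where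
  compact_N : IsCompact (N₀ : Set G)
  closed_Nm : IsClosed (Nm : Set G)
  closed_M : IsClosed (M : Set G)
  norm : ∀ m ∈ M, ∀ n ∈ Nm, m * n * m⁻¹ ∈ Nm
  t_mem : t ∈ M
  t_comm : ∀ m ∈ M, t * m = m * t
  contr : ∀ n ∈ N₀, t * n * t⁻¹ ∈ N₀
  contr_lim : ∀ O ∈ 𝓝 (1 : G), ∃ k : ℕ, ∀ j ≥ k, ∀ n ∈ N₀, t ^ j * n * (t ^ j)⁻¹ ∈ O
  expand_lim : ∀ Ω ⊆ (Nm : Set G), IsCompact Ω → ∀ O ∈ 𝓝 (1 : G),
    ∃ k : ℕ, ∀ j ≥ k, ∀ n ∈ Ω, (t ^ j)⁻¹ * n * t ^ j ∈ O
  disj : ∀ n ∈ N₀, ∀ m ∈ M, ∀ n' ∈ Nm, n = m * n' → n = 1 ∧ m = 1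
  proj : ∀ Ω : Set G, IsCompact Ω → ∃ Ω' : Set G, IsCompact Ω' ∧
    ∀ m ∈ M, ∀ n ∈ Nm, m * n ∈ Ω → m ∈ Ω'
  iwahori : ∀ O ∈ 𝓝 (1 : G), ∃ K : Subgroup G, IsOpen (K : Set G) ∧ IsCompact (K : Set G) ∧
    (K : Set G) ⊆ O ∧ (∀ n ∈ N₀, ∀ k ∈ K, n * k * n⁻¹ ∈ K) ∧
    (∀ k ∈ K, ∃ a ∈ K ⊓ N₀, ∃ m ∈ K ⊓ M, ∃ b ∈ K ⊓ Nm, k = a * m * b) ∧
    ∀ b ∈ K ⊓ Nm, t⁻¹ * b * t ∈ K
  cocompact : ∃ Ω : Set G, IsCompact Ω ∧ ∀ g : G, ∃ x ∈ Ω, ∃ m ∈ M, ∃ n ∈ Nm, g = x * m * n
  minimal : ∃ (S : Finset G) (Ω : Set G), IsCompact Ω ∧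
    (∀ s ∈ S, s ∈ M ∧ ∀ m ∈ M, s * m = m * s) ∧
    ∀ m ∈ M, ∃ x ∈ Ω, ∃ z ∈ Subgroup.closure (S : Set G), m = x * z

/-- A compact open subgroup `U` with a decomposition `U = N₀ (U ∩ M) (U ∩ Nm)`. -/
structure Iwa (N₀ Nm M U : Subgroup G) (t : G) : Prop where
  open_U : IsOpen (U : Set G)
  compact_U : IsCompact (U : Set G)
  N_le : N₀ ≤ U
  dec : ∀ u ∈ U, ∃ n ∈ N₀, ∃ m ∈ U ⊓ M, ∃ b ∈ U ⊓ Nm, u = n * m * b
  contr : ∀ b ∈ U ⊓ Nm, t⁻¹ * b * t ∈ U

/-- The subgroups `H = Nm L`, `L` a subgroup of `M` which contains `U ∩ M`. -/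
structure IsGood (Nm M U H : Subgroup G) : Prop where
  Nm_le : Nm ≤ H
  UM_le : U ⊓ M ≤ H
  dec : ∀ h ∈ H, ∃ n ∈ Nm, ∃ l ∈ H ⊓ M, h = n * l

/-- `s` is in the centre of `M`. -/
def Cen (M : Subgroup G) (s : G) : Prop := s ∈ M ∧ ∀ m ∈ M, s * m = m * s

/-- `s` normalises `H`. -/
def Nor (H : Subgroup G) (s : G) : Prop := ∀ h, s * h * s⁻¹ ∈ H ↔ h ∈ H

/-- `t N₀ t⁻¹`, as a subgroup of `N₀`. -/
def cj (N₀ : Subgroup G) (t : G) : Subgroup N₀ :=
  (N₀.map (MulAut.conj t).toMonoidHom).subgroupOf N₀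

end Group

section Hecke

variable {C : Type} [Field C] {G : Type} [Group G] [TopologicalSpace G] {V : Type}
  [AddCommGroup V] [Module C V]

open Classical in
/-- Extension by `0`. -/
noncomputable def cext (N₀ : Subgroup G) (c : N₀ → V) (x : G) : V :=
  if h : x ∈ N₀ then c ⟨x, h⟩ else 0

/-- The Hecke operator of `t` on the cocycles of `N₀`: corestriction of the translate by `t`. -/
noncomputable def hecke (ρ : Representation C G V) (N₀ : Subgroup G) (t : G) (c : N₀ → V) :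
    N₀ → V := fun n => ∑ᶠ q : N₀ ⧸ cj N₀ t,
  ρ (((n • q).out : G) * t) (cext N₀ c ((((n • q).out : G) * t)⁻¹ * n * ((q.out : G) * t)))

end Hecke

/-! ### Auxiliary notions (not used in the final statement) -/

section Algebra

variable {C : Type} [Field C] {G : Type} [Group G] {V I Z X : Type} [AddCommGroup V] [Module C V]
  [AddCommGroup I] [Module C I] [AddCommGroup Z] [Module C Z] [AddCommGroup X] [Module C X]

/-- A short exact sequence `0 → V → I → Z → 0` of smooth representations with `I` an injective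
object of the category of the smooth representations. -/
structure IsSES [TopologicalSpace G] (ρ : Representation C G V) (ι : Representation C G I)
    (ζ : Representation C G Z) (i : V →ₗ[C] I) (π : I →ₗ[C] Z) : Prop where
  smooth : IsSmooth ι
  equi_i : Equi ρ ι i
  equi_π : Equi ι ζ π
  inj : Function.Injective i
  surj : Function.Surjective π
  exact : ∀ x, π x = 0 ↔ ∃ v, i v = x
  injObj : ∀ (A B : Type) [AddCommGroup A] [Module C A] [AddCommGroup B] [Module C B]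
    (α : Representation C G A) (β : Representation C G B), IsSmooth β →
    ∀ j : A →ₗ[C] B, Equi α β j → Function.Injective j → ∀ f : A →ₗ[C] I, Equi α ι f →
    ∃ g : B →ₗ[C] I, Equi β ι g ∧ ∀ a, g (j a) = f a

/-- `f` lifts to an equivariant map to `I`. -/
def Lifts (ξ : Representation C G X) (ι : Representation C G I) (π : I →ₗ[C] Z)
    (f : X →ₗ[C] Z) : Prop := ∃ h : X →ₗ[C] I, Equi ξ ι h ∧ f = π ∘ₗ h

/-- `Hom_G(X, V)` is finite. -/
def FinH (ξ : Representation C G X) (ρ : Representation C G V) : Prop :=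
  {f : X →ₗ[C] V | Equi ξ ρ f}.Finite

/-- `Hom_G(X, Z) / π Hom_G(X, I)` is finite. -/
def FinE (ξ : Representation C G X) (ι : Representation C G I) (ζ : Representation C G Z)
    (π : I →ₗ[C] Z) : Prop :=
  ∃ (T : Type) (_ : Finite T) (κ : (X →ₗ[C] Z) → T), ∀ f f', Equi ξ ζ f → Equi ξ ζ f' →
    κ f = κ f' → Lifts ξ ι π (f - f')

end Algebra

section Smooth

variable (C : Type) [Field C] (G : Type) [Group G] [TopologicalSpace G] (V : Type)
  [AddCommGroup V] [Module C V]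

/-- The functions `G → V` which are invariant from the right by an open subgroup. -/
def SmF : Submodule C (G → V) where
  carrier := {F | ∃ O : Subgroup G, IsOpen (O : Set G) ∧ ∀ o ∈ O, ∀ x, F (x * o) = F x}
  add_mem' := by
    rintro F F' ⟨O, hO, h⟩ ⟨O', hO', h'⟩
    refine ⟨O ⊓ O', ?_, fun o ho x => ?_⟩
    · rw [Subgroup.coe_inf]
      exact hO.inter hO'
    · rw [Pi.add_apply, Pi.add_apply, h o ho.1, h' o ho.2]
  zero_mem' := ⟨⊤, isOpen_univ, fun _ _ _ => rfl⟩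
  smul_mem' := by
    rintro a F ⟨O, hO, h⟩
    refine ⟨O, hO, fun o ho x => ?_⟩
    rw [Pi.smul_apply, Pi.smul_apply, h o ho]

variable {C G V} in
theorem mem_SmF {F : G → V} : F ∈ SmF C G V ↔
    ∃ O : Subgroup G, IsOpen (O : Set G) ∧ ∀ o ∈ O, ∀ x, F (x * o) = F x := Iff.rfl

theorem smF_right [IsTopologicalGroup G] {F : G → V} (hF : F ∈ SmF C G V) (g : G) :
    (fun x => F (x * g)) ∈ SmF C G V := by
  obtain ⟨O, hO, h⟩ := hF
  refine ⟨O.comap (MulAut.conj g⁻¹).toMonoidHom, ?_, fun o ho x => ?_⟩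
  · have hc : Continuous fun x : G => (MulAut.conj g⁻¹).toMonoidHom x := by
      show Continuous fun x : G => g⁻¹ * x * g⁻¹⁻¹
      fun_prop
    exact hO.preimage hc
  · have ho' : g⁻¹ * o * g⁻¹⁻¹ ∈ O := ho
    show F (x * o * g) = F (x * g)
    rw [← h _ ho' (x * g)]
    congr 1
    group

/-- The group acts on `SmF C G V` by right translations. -/
def smRep [IsTopologicalGroup G] : Representation C G (SmF C G V) where
  toFun g :=
    { toFun := fun F => ⟨fun x => F.1 (x * g), smF_right C G V F.2 g⟩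
      map_add' := fun _ _ => rfl
      map_smul' := fun _ _ => rfl }
  map_one' := by
    refine LinearMap.ext fun F => Subtype.ext (funext fun x => ?_)
    show F.1 (x * 1) = F.1 x
    rw [mul_one]
  map_mul' g h := by
    refine LinearMap.ext fun F => Subtype.ext (funext fun x => ?_)
    show F.1 (x * (g * h)) = F.1 (x * g * h)
    rw [mul_assoc]

variable {C G V} in
@[simp] theorem smRep_apply [IsTopologicalGroup G] (g : G) (F : SmF C G V) (x : G) :
    (smRep C G V g F).1 x = F.1 (x * g) := rfl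

variable {C G V} in
theorem smI_mem {ρ : Representation C G V} [IsTopologicalGroup G] (hρ : IsSmooth ρ) (v : V) :
    (fun x => ρ x v) ∈ SmF C G V := by
  refine ⟨stabG ρ v, hρ v, fun o ho x => ?_⟩
  have ho' : ρ o v = v := ho
  show ρ (x * o) v = ρ x v
  rw [rep_mul_apply, ho']

variable {C G V} in
/-- The embedding of `V` into `SmF C G V`. -/
def smI {ρ : Representation C G V} [IsTopologicalGroup G] (hρ : IsSmooth ρ) :
    V →ₗ[C] SmF C G V where
  toFun v := ⟨fun x => ρ x v, smI_mem hρ v⟩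
  map_add' a b := Subtype.ext (funext fun x => map_add (ρ x) a b)
  map_smul' a b := Subtype.ext (funext fun x => map_smul (ρ x) a b)

variable {C G V} in
@[simp] theorem smI_apply {ρ : Representation C G V} [IsTopologicalGroup G] (hρ : IsSmooth ρ)
    (v : V) (x : G) : (smI hρ v).1 x = ρ x v := rfl

end Smooth

section Spaces

variable (C : Type) [Field C] {G : Type} [Group G]

/-- The representation of `G` on `C[G/U]`. -/
noncomputable def xRep (U : Subgroup G) : Representation C G ((G ⧸ U) →₀ C) where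
  toFun g := Finsupp.lmapDomain C C (fun y : G ⧸ U => g • y)
  map_one' := by
    refine LinearMap.ext fun x => ?_
    have h : (fun y : G ⧸ U => (1 : G) • y) = id := by
      funext y
      rw [one_smul]; rfl
    rw [Finsupp.lmapDomain_apply, h, Finsupp.mapDomain_id, Module.End.one_apply]
  map_mul' g h := by
    refine LinearMap.ext fun x => ?_
    have h1 : (fun y : G ⧸ U => (g * h) • y) = (fun y => g • y) ∘ (fun y => h • y) := by
      funext y
      simp only [Function.comp_apply]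
      rw [mul_smul]
    rw [Finsupp.lmapDomain_apply, h1, Finsupp.mapDomain_comp, Module.End.mul_apply,
      Finsupp.lmapDomain_apply, Finsupp.lmapDomain_apply]

/-- The element `∑ n t U` of `C[G/U]`, sum over `N₀ / t N₀ t⁻¹`. -/
noncomputable def tau (N₀ U : Subgroup G) (t : G) : (G ⧸ U) →₀ C :=
  ∑ᶠ q : N₀ ⧸ cj N₀ t, Finsupp.single ((((q.out : G) * t : G) : G ⧸ U)) 1

/-- The Hecke operator on `C[G/U]`: `g U ↦ ∑ g n t U`. -/
noncomputable def hkX (N₀ U : Subgroup G) (t : G) : ((G ⧸ U) →₀ C) →ₗ[C] ((G ⧸ U) →₀ C) :=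
  Finsupp.linearCombination C (fun y : G ⧸ U => xRep C U y.out (tau C N₀ U t))

variable [TopologicalSpace G]

/-- The functions on `G / H` which are locally constant (uniformly, from the left) and have compact
support modulo `H`. -/
def Fs [IsTopologicalGroup G] (H : Subgroup G) : Submodule C (G → C) where
  carrier := {φ | (∀ g, ∀ h ∈ H, φ (g * h) = φ g) ∧
    (∃ O : Subgroup G, IsOpen (O : Set G) ∧ ∀ o ∈ O, ∀ g, φ (o * g) = φ g) ∧
    ∃ Ω : Set G, IsCompact Ω ∧ ∀ g, φ g ≠ 0 → ∃ x ∈ Ω, ∃ h ∈ H, g = x * h}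
  add_mem' := by
    rintro φ ψ ⟨h1, ⟨O, hO, h2⟩, Ω, hΩ, h3⟩ ⟨k1, ⟨O', hO', k2⟩, Ω', hΩ', k3⟩
    refine ⟨fun g h hh => ?_, ⟨O ⊓ O', ?_, fun o ho g => ?_⟩, Ω ∪ Ω', hΩ.union hΩ', fun g hg => ?_⟩
    · rw [Pi.add_apply, Pi.add_apply, h1 g h hh, k1 g h hh]
    · rw [Subgroup.coe_inf]
      exact hO.inter hO'
    · rw [Pi.add_apply, Pi.add_apply, h2 o ho.1 g, k2 o ho.2 g]
    · by_cases hφ : φ g = 0
      · have hψ : ψ g ≠ 0 := by
          intro h0
          apply hg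
          rw [Pi.add_apply, hφ, h0, add_zero]
        obtain ⟨x, hx, h, hh, e⟩ := k3 g hψ
        exact ⟨x, Or.inr hx, h, hh, e⟩
      · obtain ⟨x, hx, h, hh, e⟩ := h3 g hφ
        exact ⟨x, Or.inl hx, h, hh, e⟩
  zero_mem' := ⟨fun _ _ _ => rfl, ⟨⊤, isOpen_univ, fun _ _ _ => rfl⟩, ∅, isCompact_empty,
    fun _ hg => absurd rfl hg⟩
  smul_mem' := by
    rintro a φ ⟨h1, ⟨O, hO, h2⟩, Ω, hΩ, h3⟩
    refine ⟨fun g h hh => ?_, ⟨O, hO, fun o ho g => ?_⟩, Ω, hΩ, fun g hg => h3 g ?_⟩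
    · rw [Pi.smul_apply, Pi.smul_apply, h1 g h hh]
    · rw [Pi.smul_apply, Pi.smul_apply, h2 o ho g]
    · intro h0
      apply hg
      rw [Pi.smul_apply, h0, smul_zero]

variable {C} in
theorem mem_Fs [IsTopologicalGroup G] {H : Subgroup G} {φ : G → C} : φ ∈ Fs C H ↔
    (∀ g, ∀ h ∈ H, φ (g * h) = φ g) ∧
    (∃ O : Subgroup G, IsOpen (O : Set G) ∧ ∀ o ∈ O, ∀ g, φ (o * g) = φ g) ∧
    ∃ Ω : Set G, IsCompact Ω ∧ ∀ g, φ g ≠ 0 → ∃ x ∈ Ω, ∃ h ∈ H, g = x * h := Iff.rfl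

theorem lt_mem [IsTopologicalGroup G] {H : Subgroup G} {φ : G → C} (hφ : φ ∈ Fs C H) (g : G) :
    (fun x => φ (g⁻¹ * x)) ∈ Fs C H := by
  obtain ⟨h1, ⟨O, hO, h2⟩, Ω, hΩ, h3⟩ := hφ
  refine ⟨fun x h hh => ?_, ⟨O.comap (MulAut.conj g⁻¹).toMonoidHom, ?_, fun o ho x => ?_⟩,
    (fun x => g * x) '' Ω, hΩ.image (continuous_const.mul continuous_id), fun x hx => ?_⟩
  · show φ (g⁻¹ * (x * h)) = φ (g⁻¹ * x)
    rw [← mul_assoc, h1 _ h hh]
  · have hc : Continuous fun x : G => (MulAut.conj g⁻¹).toMonoidHom x := by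
      show Continuous fun x : G => g⁻¹ * x * g⁻¹⁻¹
      fun_prop
    exact hO.preimage hc
  · have ho' : g⁻¹ * o * g⁻¹⁻¹ ∈ O := ho
    show φ (g⁻¹ * (o * x)) = φ (g⁻¹ * x)
    rw [← h2 _ ho' (g⁻¹ * x)]
    congr 1
    group
  · obtain ⟨y, hy, h, hh, e⟩ := h3 _ hx
    refine ⟨g * y, ⟨y, hy, rfl⟩, h, hh, ?_⟩
    rw [mul_assoc, ← e]
    group

/-- The representation by left translations on `Fs C H`. -/
def fsRep [IsTopologicalGroup G] (H : Subgroup G) : Representation C G (Fs C H) where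
  toFun g :=
    { toFun := fun φ => ⟨fun x => φ.1 (g⁻¹ * x), lt_mem C φ.2 g⟩
      map_add' := fun _ _ => rfl
      map_smul' := fun _ _ => rfl }
  map_one' := by
    refine LinearMap.ext fun φ => Subtype.ext (funext fun x => ?_)
    show φ.1 ((1 : G)⁻¹ * x) = φ.1 x
    rw [inv_one, one_mul]
  map_mul' g h := by
    refine LinearMap.ext fun φ => Subtype.ext (funext fun x => ?_)
    show φ.1 ((g * h)⁻¹ * x) = φ.1 (h⁻¹ * (g⁻¹ * x))
    rw [mul_inv_rev, mul_assoc]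

@[simp] theorem fsRep_apply [IsTopologicalGroup G] (H : Subgroup G) (g : G) (φ : Fs C H) (x : G) :
    (fsRep C H g φ).1 x = φ.1 (g⁻¹ * x) := rfl

theorem rt_mem [IsTopologicalGroup G] {H : Subgroup G} {s : G} (hs : Nor H s) {φ : G → C}
    (hφ : φ ∈ Fs C H) : (fun x => φ (x * s)) ∈ Fs C H := by
  obtain ⟨h1, ⟨O, hO, h2⟩, Ω, hΩ, h3⟩ := hφ
  refine ⟨fun x h hh => ?_, ⟨O, hO, fun o ho x => ?_⟩,
    (fun x => x * s⁻¹) '' Ω, hΩ.image (continuous_id.mul continuous_const), fun x hx => ?_⟩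
  · show φ (x * h * s) = φ (x * s)
    have h4 : s⁻¹ * h * s ∈ H := by
      rw [← hs]
      have e : s * (s⁻¹ * h * s) * s⁻¹ = h := by group
      rwa [e]
    rw [← h1 (x * s) _ h4]
    congr 1
    group
  · show φ (o * x * s) = φ (x * s)
    rw [mul_assoc, h2 o ho]
  · obtain ⟨y, hy, h, hh, e⟩ := h3 _ hx
    refine ⟨y * s⁻¹, ⟨y, hy, rfl⟩, s * h * s⁻¹, (hs h).2 hh, ?_⟩
    have e' : x = y * h * s⁻¹ := by
      rw [← e]
      group
    rw [e']
    group

/-- Right translation by an element which normalises `H`. -/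
def Rt [IsTopologicalGroup G] {H : Subgroup G} {s : G} (hs : Nor H s) :
    Fs C H →ₗ[C] Fs C H where
  toFun φ := ⟨fun x => φ.1 (x * s), rt_mem C hs φ.2⟩
  map_add' _ _ := rfl
  map_smul' _ _ := rfl

@[simp] theorem Rt_apply [IsTopologicalGroup G] {H : Subgroup G} {s : G} (hs : Nor H s)
    (φ : Fs C H) (x : G) : (Rt C hs φ).1 x = φ.1 (x * s) := rfl

open Classical in
/-- The characteristic function of `t ^ k N₀ t ^ (-k) H`. -/
noncomputable def bl (N₀ H : Subgroup G) (t : G) (k : ℕ) (x : G) : C :=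
  if ∃ n ∈ N₀, ∃ h ∈ H, x = t ^ k * n * (t ^ k)⁻¹ * h then 1 else 0

/-- The map `C[G/U] → (functions on G/H)`, `g U ↦` the characteristic function of `g N₀ H`. -/
noncomputable def phiX (N₀ U H : Subgroup G) (t : G) : ((G ⧸ U) →₀ C) →ₗ[C] (G → C) :=
  Finsupp.linearCombination C (fun y : G ⧸ U => fun x => bl C N₀ H t 0 (y.out⁻¹ * x))

/-- Sum over the powers of `s`. -/
noncomputable def psh (s : G) (φ : G → C) (x : G) : C := ∑ᶠ j : ℤ, φ (x * s ^ j)

end Spaces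

end Ord1
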