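import Pool.Agent.Ord1.Grp

/-!
# Ord1, module ExU: extension of a cocycle from `N₀` to an open subgroup `U`

PROOF. `c` is locally constant on the compact group `N₀`, so it has finitely many values
(`IsLocallyConstant.range_finite`). Let `O` be a neighbourhood of `1` in `G` such that the elements of
`O` fix all the values `c n` (`IsSmooth.exists_open`) and `c n = 0` for `n ∈ N₀ ∩ O` (`c 1 = 0`, `c`
locally constant). Let `K ⊆ O` be given by `IsPar.iwahori` and `U = N₀ K` (`N₀` normalises `K`;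
`U = N₀ ⊔ K`).
* `Iwa`: `U` contains the open `K`; it is compact as the product of two compact sets; `dec`:
  `u = n k = (n a) m b`; `contr`: let `b ∈ U ∩ Nm`, `b = n' m b'` with `n' ∈ N₀`, `m ∈ K ∩ M`,
  `b' ∈ K ∩ Nm`; then `n' = m⁻¹ (m b b'⁻¹ m⁻¹)`, so by `disj` `n' = 1`, `m⁻¹ = 1`, `b = b' ∈ K` and
  `t⁻¹ b t ∈ K`.
* `c' (n k) = c n`: well defined as `c (n n₁) = c n + n c n₁ = c n` for `n₁ ∈ N₀ ∩ K`; cocycle:
  `c' (n k n' k') = c' (n n' (n'⁻¹ k n') k') = c (n n') = c n + n c n' = c n + n k c n'`. Locally constant: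
  `c' (u k) = c' u` for `k ∈ K`, `K` open.
-/

open Topology Set

namespace Ord1

open Emt

variable {G : Type} [Group G] [TopologicalSpace G] [IsTopologicalGroup G]
  {N₀ Nm M U H : Subgroup G} {t s : G} {C : Type} [Field C]
  {V : Type} [AddCommGroup V] [Module C V] {ρ : Representation C G V}

/-- the subgroup `N₀ K` -/
private def nk (N₀ K : Subgroup G) (hn : ∀ n ∈ N₀, ∀ k ∈ K, n * k * n⁻¹ ∈ K) : Subgroup G where
  carrier := {x | ∃ n ∈ N₀, ∃ k ∈ K, x = n * k}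
  mul_mem' := by
    rintro _ _ ⟨n, hN, k, hK, rfl⟩ ⟨n', hN', k', hK', rfl⟩
    refine ⟨n * n', N₀.mul_mem hN hN', n'⁻¹ * k * n'⁻¹⁻¹ * k',
      K.mul_mem (hn _ (N₀.inv_mem hN') _ hK) hK', ?_⟩
    group
  one_mem' := ⟨1, N₀.one_mem, 1, K.one_mem, by rw [mul_one]⟩
  inv_mem' := by
    rintro _ ⟨n, hN, k, hK, rfl⟩
    refine ⟨n⁻¹, N₀.inv_mem hN, n * k⁻¹ * n⁻¹, hn _ hN _ (K.inv_mem hK), ?_⟩
    group

omit [TopologicalSpace G] [IsTopologicalGroup G] in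
private theorem mem_nk {K : Subgroup G} {hn : ∀ n ∈ N₀, ∀ k ∈ K, n * k * n⁻¹ ∈ K} {x : G} :
    x ∈ nk N₀ K hn ↔ ∃ n ∈ N₀, ∃ k ∈ K, x = n * k := Iff.rfl

omit [TopologicalSpace G] [IsTopologicalGroup G] in
private theorem le_nk {K : Subgroup G} {hn : ∀ n ∈ N₀, ∀ k ∈ K, n * k * n⁻¹ ∈ K} :
    K ≤ nk N₀ K hn := fun k hk => ⟨1, N₀.one_mem, k, hk, by rw [one_mul]⟩

open Pointwise in
private theorem iwa_nk (hP : IsPar N₀ Nm M t) {K : Subgroup G} (hO : IsOpen (K : Set G))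
    (hC : IsCompact (K : Set G)) (hn : ∀ n ∈ N₀, ∀ k ∈ K, n * k * n⁻¹ ∈ K)
    (hd : ∀ k ∈ K, ∃ a ∈ K ⊓ N₀, ∃ m ∈ K ⊓ M, ∃ b ∈ K ⊓ Nm, k = a * m * b)
    (hc : ∀ b ∈ K ⊓ Nm, t⁻¹ * b * t ∈ K) : Iwa N₀ Nm M (nk N₀ K hn) t where
  open_U := Subgroup.isOpen_mono le_nk hO
  compact_U := by
    have h1 : ((nk N₀ K hn : Subgroup G) : Set G) = (N₀ : Set G) * (K : Set G) := by
      ext x
      rw [Set.mem_mul]
      constructor
      · rintro ⟨n, hN, k, hK, rfl⟩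
        exact ⟨n, hN, k, hK, rfl⟩
      · rintro ⟨n, hN, k, hK, rfl⟩
        exact ⟨n, hN, k, hK, rfl⟩
    rw [h1]
    exact hP.compact_N.mul hC
  N_le := fun n hN => ⟨n, hN, 1, K.one_mem, by rw [mul_one]⟩
  dec := by
    rintro _ ⟨n, hN, k, hK, rfl⟩
    obtain ⟨a, ha, m, hm, b, hb, rfl⟩ := hd k hK
    refine ⟨n * a, N₀.mul_mem hN ha.2, m, ⟨le_nk hm.1, hm.2⟩, b, ⟨le_nk hb.1, hb.2⟩, ?_⟩
    group
  contr := by
    rintro b ⟨⟨n, hN, k, hK, e⟩, hb⟩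
    obtain ⟨a, ha, m, hm, b', hb', rfl⟩ := hd k hK
    have h1 : m * (b * b'⁻¹) * m⁻¹ ∈ Nm := hP.norm m hm.2 _ (Nm.mul_mem hb (Nm.inv_mem hb'.2))
    have h2 : n * a = m⁻¹ * (m * (b * b'⁻¹) * m⁻¹) := by
      rw [e]
      group
    obtain ⟨h3, h4⟩ := hP.disj (n * a) (N₀.mul_mem hN ha.2) m⁻¹ (M.inv_mem hm.2) _ h1 h2
    have h5 : m = 1 := inv_eq_one.1 h4
    have h6 : b = b' := by
      rw [e, h5, ← mul_assoc, ← mul_assoc, h3, one_mul, one_mul]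
    rw [h6]
    exact le_nk (hc b' hb')

theorem ext_coc (hP : IsPar N₀ Nm M t) (hρ : IsSmooth ρ) {c : N₀ → V}
    (hc : IsCoc (res ρ N₀) c) : ∃ (U : Subgroup G) (hI : Iwa N₀ Nm M U t) (c' : U → V),
      IsCoc (res ρ U) c' ∧ ∀ n : N₀, c' ⟨(n : G), hI.N_le n.2⟩ = c n := by
  haveI : CompactSpace N₀ := isCompact_iff_compactSpace.1 hP.compact_N
  have c1 : c 1 = 0 := by
    have h := hc.mul 1 1
    rw [mul_one, rep_one_apply] at h
    exact (left_eq_add.1 h)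
  obtain ⟨O₁, hO₁, hfix⟩ := hρ.exists_open hc.cont.range_finite
  obtain ⟨O₂, hO₂, h2⟩ := isOpen_induced_iff.1 (hc.cont.isOpen_fiber 0)
  have hz : ∀ n : N₀, (n : G) ∈ O₂ → c n = 0 := fun n hn => by
    have : n ∈ (Subtype.val ⁻¹' O₂ : Set N₀) := hn
    rw [h2] at this
    exact this
  have h1O₂ : (1 : G) ∈ O₂ := by
    have : (1 : N₀) ∈ (Subtype.val ⁻¹' O₂ : Set N₀) := by
      rw [h2]
      exact c1
    exact this
  obtain ⟨K, hKo, hKc, hKO, hn, hd, hcK⟩ := hP.iwahori ((O₁ : Set G) ∩ O₂)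
    (Filter.inter_mem (hO₁.mem_nhds O₁.one_mem) (hO₂.mem_nhds h1O₂))
  have hI := iwa_nk hP hKo hKc hn hd hcK
  have hwd : ∀ n n' : N₀, ∀ k ∈ K, ∀ k' ∈ K, (n : G) * k = n' * k' → c n = c n' := by
    intro n n' k hk k' hk' e
    have e1 : ((n⁻¹ * n' : N₀) : G) = k * k'⁻¹ := by
      show (n : G)⁻¹ * (n' : G) = k * k'⁻¹
      have : (n' : G) = n * k * k'⁻¹ := by rw [e]; group
      rw [this]
      group
    have e2 : c (n⁻¹ * n') = 0 := hz _ (by rw [e1]; exact (hKO (K.mul_mem hk (K.inv_mem hk'))).2)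
    have e3 := hc.mul n (n⁻¹ * n')
    rw [e2, map_zero, add_zero, mul_inv_cancel_left] at e3
    exact e3.symm
  have hch : ∀ u : nk N₀ K hn, ∃ n : N₀, ∃ k ∈ K, (u : G) = n * k := by
    rintro ⟨_, n, hN, k, hK, rfl⟩
    exact ⟨⟨n, hN⟩, k, hK, rfl⟩
  choose ν κ hκ hνκ using hch
  have hv : ∀ (u : nk N₀ K hn) (n : N₀) (k : G), k ∈ K → (u : G) = n * k → c (ν u) = c n := by
    intro u n k hk e
    exact hwd _ _ _ (hκ u) _ hk ((hνκ u).symm.trans e)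
  refine ⟨nk N₀ K hn, hI, fun u => c (ν u), ⟨?_, ?_⟩, ?_⟩
  · intro u u'
    show c (ν (u * u')) = c (ν u) + ρ (u : G) (c (ν u'))
    have e1 : ((u * u' : nk N₀ K hn) : G) = ((ν u * ν u' : N₀) : G) *
        (((ν u' : G)⁻¹ * κ u * ((ν u' : G)⁻¹)⁻¹) * κ u') := by
      show (u : G) * (u' : G) = (ν u : G) * (ν u' : G) * _
      rw [hνκ u, hνκ u']
      group
    rw [hv (u * u') (ν u * ν u') _
      (K.mul_mem (hn _ (N₀.inv_mem (ν u').2) _ (hκ u)) (hκ u')) e1, hc.mul]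
    congr 1
    rw [res_apply, hνκ u, rep_mul_apply]
    congr 1
    exact (hfix (κ u) (hKO (hκ u)).1 _ ⟨ν u', rfl⟩).symm
  · rw [IsLocallyConstant.iff_exists_open]
    intro u
    refine ⟨{u' | (u : G)⁻¹ * (u' : G) ∈ K}, hKo.preimage (by fun_prop), ?_, ?_⟩
    · show (u : G)⁻¹ * (u : G) ∈ K
      rw [inv_mul_cancel]
      exact K.one_mem
    · intro u' hu'
      have hu'' : (u : G)⁻¹ * (u' : G) ∈ K := hu'
      refine hv u' (ν u) (κ u * ((u : G)⁻¹ * (u' : G))) (K.mul_mem (hκ u) hu'') ?_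
      rw [← mul_assoc, ← hνκ u]
      group
  · intro n
    exact hv _ n 1 K.one_mem (by rw [mul_one])

/-- There is a subgroup `U`. -/
theorem exists_iwa (hP : IsPar N₀ Nm M t) : ∃ U : Subgroup G, Iwa N₀ Nm M U t := by
  obtain ⟨K, hKo, hKc, -, hn, hd, hcK⟩ := hP.iwahori Set.univ Filter.univ_mem
  exact ⟨_, iwa_nk hP hKo hKc hn hd hcK⟩

end Ord1
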