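import Pool.Agent.Ord1.Defs

/-!
# Ord1, module XRep: the universal property of `C[G/U]`

PROOFS. The map is `Finsupp.linearCombination C (fun y => σ y.out w)`; it does not depend on the
representatives because `w` is fixed by `U`. `xRep_ext`: linear maps out of `(G ⧸ U) →₀ C` which
agree on the `Finsupp.single y 1` are equal, and every `y` is the class of some `g`.
-/

open Topology Set

namespace Ord1

open Emt

variable {G : Type} [Group G] {U : Subgroup G} {C : Type} [Field C] {W : Type} [AddCommGroup W]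
  [Module C W] {σ : Representation C G W}

@[simp] theorem xRep_single (g x : G) (a : C) :
    xRep C U g (Finsupp.single (x : G ⧸ U) a) = Finsupp.single ((g * x : G) : G ⧸ U) a := by
  show Finsupp.lmapDomain C C (fun y : G ⧸ U => g • y) (Finsupp.single (x : G ⧸ U) a) = _
  rw [Finsupp.lmapDomain_apply, Finsupp.mapDomain_single]
  rfl

/-- The value at the representative of a class. -/
theorem xRep_out_aux {w : W} (hw : w ∈ fix σ U) (g : G) :
    σ ((g : G ⧸ U).out) w = σ g w := by
  obtain ⟨h, hh⟩ := QuotientGroup.mk_out_eq_mul U g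
  rw [hh, map_mul, Module.End.mul_apply, hw h h.2]

theorem xRep_lift {w : W} (hw : w ∈ fix σ U) : ∃ f : ((G ⧸ U) →₀ C) →ₗ[C] W,
    Equi (xRep C U) σ f ∧ ∀ g : G, f (Finsupp.single (g : G ⧸ U) 1) = σ g w := by
  have hs : ∀ g : G, Finsupp.linearCombination C (fun y : G ⧸ U => σ y.out w)
      (Finsupp.single (g : G ⧸ U) 1) = σ g w := by
    intro g
    rw [Finsupp.linearCombination_single, one_smul, xRep_out_aux hw]
  refine ⟨Finsupp.linearCombination C (fun y : G ⧸ U => σ y.out w), ?_, hs⟩
  intro g v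
  have hcomp : (Finsupp.linearCombination C (fun y : G ⧸ U => σ y.out w)) ∘ₗ (xRep C U g) =
      (σ g) ∘ₗ (Finsupp.linearCombination C (fun y : G ⧸ U => σ y.out w)) := by
    refine Finsupp.lhom_ext' fun y => LinearMap.ext_ring ?_
    obtain ⟨x, rfl⟩ := QuotientGroup.mk_surjective y
    simp only [LinearMap.comp_apply, Finsupp.lsingle_apply]
    rw [xRep_single, hs, hs, map_mul, Module.End.mul_apply]
  exact LinearMap.congr_fun hcomp v

theorem xRep_ext {f f' : ((G ⧸ U) →₀ C) →ₗ[C] W}
    (h : ∀ g : G, f (Finsupp.single (g : G ⧸ U) 1) = f' (Finsupp.single (g : G ⧸ U) 1)) :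
    f = f' := by
  refine Finsupp.lhom_ext' fun y => LinearMap.ext_ring ?_
  obtain ⟨x, rfl⟩ := QuotientGroup.mk_surjective y
  simp only [LinearMap.comp_apply, Finsupp.lsingle_apply]
  exact h x

/-- equivariant maps are determined by the image of the base point -/
theorem xRep_ext' {f f' : ((G ⧸ U) →₀ C) →ₗ[C] W} (hf : Equi (xRep C U) σ f)
    (hf' : Equi (xRep C U) σ f')
    (h : f (Finsupp.single ((1 : G) : G ⧸ U) 1) = f' (Finsupp.single ((1 : G) : G ⧸ U) 1)) :
    f = f' := by
  refine xRep_ext fun g => ?_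
  have e : (Finsupp.single (g : G ⧸ U) 1 : (G ⧸ U) →₀ C) =
      xRep C U g (Finsupp.single ((1 : G) : G ⧸ U) 1) := by
    rw [xRep_single, mul_one]
  rw [e, hf, hf', h]

theorem xRep_fix {f : ((G ⧸ U) →₀ C) →ₗ[C] W} (hf : Equi (xRep C U) σ f) :
    f (Finsupp.single ((1 : G) : G ⧸ U) 1) ∈ fix σ U := by
  intro g hg
  rw [← hf, xRep_single]
  have e : ((g * 1 : G) : G ⧸ U) = ((1 : G) : G ⧸ U) := by
    rw [mul_one, QuotientGroup.eq]
    simpa using hg
  rw [e]

end Ord1
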