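import Pool.Agent.Ord1.Hk1
import Pool.Agent.Ord1.XRep

/-!
# Ord1, module HkC: the Hecke operator on cocycles

`omg ι N₀ t ω = ∑ ι (q.out t) ω`, sum over `N₀ / t N₀ t⁻¹`.

PROOFS.
* `hecke_lift`: for `q : N₀ ⧸ cj N₀ t` and `n ∈ N₀`: `n q.out = (n • q).out m` with
  `m ∈ t N₀ t⁻¹`, so `x = t⁻¹ m t = ((n • q).out t)⁻¹ n (q.out t) ∈ N₀` and
  `ι (n q.out t) ω = ι ((n • q).out t) (ι x ω) = ι ((n • q).out t) (ω + i (c x))`; sum over `q` and
  use that `q ↦ n • q` is a bijection (`finsum_comp_equiv`, `MulAction.toPerm`).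
* `hecke_iter`: induction (`Function.iterate_succ_apply'`).
* `hkX_omg`: by induction on `k`, `f ∘ (hkX)^k` is equivariant and maps `single 1 1` to
  `π ((omg)^[k] ω)`: `(f ∘ hkX) (single 1 1) = f tau = ∑ ζ (q.out t) (π ω) = π (omg ω)` (`hkX_single` with
  `g = 1`, `xRep_single`).
* `hecke_map`: `map_finsum`.
-/

open Topology Set

namespace Ord1

open Emt

variable {G : Type} [Group G] [TopologicalSpace G] [IsTopologicalGroup G]
  {N₀ Nm M U H : Subgroup G} {t s : G} {C : Type} [Field C]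
  {V I Z : Type} [AddCommGroup V] [Module C V] [AddCommGroup I] [Module C I] [AddCommGroup Z]
  [Module C Z] {ρ : Representation C G V} {ι : Representation C G I} {ζ : Representation C G Z}
  {i : V →ₗ[C] I} {π : I →ₗ[C] Z}

/-- The Hecke operator on vectors. -/
noncomputable def omg (ι : Representation C G I) (N₀ : Subgroup G) (t : G) (ω : I) : I :=
  ∑ᶠ q : N₀ ⧸ cj N₀ t, ι ((q.out : G) * t) ω

omit [TopologicalSpace G] [IsTopologicalGroup G] in
private theorem hkC_mem (n : N₀) (q : N₀ ⧸ cj N₀ t) :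
    (((n • q).out : G) * t)⁻¹ * n * ((q.out : G) * t) ∈ N₀ := by
  have h1 : ((n • q).out)⁻¹ * (n * q.out) ∈ cj N₀ t := by
    rw [← QuotientGroup.eq, QuotientGroup.out_eq']
    conv_lhs => rw [← QuotientGroup.out_eq' q]
    rfl
  unfold cj at h1
  rw [Subgroup.mem_subgroupOf, Subgroup.mem_map] at h1
  obtain ⟨x, hx, hxe⟩ := h1
  have h1 : t⁻¹ * ((((n • q).out)⁻¹ * (n * q.out) : N₀) : G) * t ∈ N₀ := by
    have e0 : ((((n • q).out)⁻¹ * (n * q.out) : N₀) : G) = t * x * t⁻¹ := hxe.symm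
    rw [e0]
    have e1 : t⁻¹ * (t * x * t⁻¹) * t = x := by group
    rw [e1]
    exact hx
  have e : (((n • q).out : G) * t)⁻¹ * n * ((q.out : G) * t) =
      t⁻¹ * ((((n • q).out)⁻¹ * (n * q.out) : N₀) : G) * t := by
    push_cast
    group
  rw [e]
  exact h1

omit [TopologicalSpace G] [IsTopologicalGroup G] in
theorem hecke_lift [Finite (N₀ ⧸ cj N₀ t)] (hi : Equi ρ ι i) {ω : I} {c : N₀ → V}
    (h : ∀ n : N₀, ι (n : G) ω - ω = i (c n)) (n : N₀) :
    ι (n : G) (omg ι N₀ t ω) - omg ι N₀ t ω = i (hecke ρ N₀ t c n) := by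
  classical
  have := Fintype.ofFinite (N₀ ⧸ cj N₀ t)
  unfold omg hecke
  rw [finsum_eq_sum_of_fintype, finsum_eq_sum_of_fintype, map_sum, map_sum]
  have h1 : ∀ q : N₀ ⧸ cj N₀ t, i (ρ (((n • q).out : G) * t)
      (cext N₀ c ((((n • q).out : G) * t)⁻¹ * n * ((q.out : G) * t)))) =
      ι (n : G) (ι ((q.out : G) * t) ω) - ι (((n • q).out : G) * t) ω := by
    intro q
    have hm := hkC_mem (t := t) n q
    have e1 : cext N₀ c ((((n • q).out : G) * t)⁻¹ * n * ((q.out : G) * t)) =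
        c ⟨(((n • q).out : G) * t)⁻¹ * n * ((q.out : G) * t), hm⟩ := by
      unfold cext
      rw [dif_pos hm]
    rw [e1, hi, ← h, map_sub, ← rep_mul_apply, ← rep_mul_apply]
    congr 3
    show ((n • q).out : G) * t * ((((n • q).out : G) * t)⁻¹ * n * ((q.out : G) * t)) = _
    group
  rw [Finset.sum_congr rfl fun q _ => h1 q, Finset.sum_sub_distrib]
  congr 1
  exact (Equiv.sum_comp (MulAction.toPerm n : Equiv.Perm (N₀ ⧸ cj N₀ t))
    (fun q => ι ((q.out : G) * t) ω)).symm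

omit [TopologicalSpace G] [IsTopologicalGroup G] in
theorem hecke_iter [Finite (N₀ ⧸ cj N₀ t)] (hi : Equi ρ ι i) {ω : I} {c : N₀ → V}
    (h : ∀ n : N₀, ι (n : G) ω - ω = i (c n)) (k : ℕ) (n : N₀) :
    ι (n : G) ((omg ι N₀ t)^[k] ω) - (omg ι N₀ t)^[k] ω = i ((hecke ρ N₀ t)^[k] c n) := by
  induction k generalizing n with
  | zero => exact h n
  | succ k ih =>
    rw [Function.iterate_succ_apply', Function.iterate_succ_apply']
    exact hecke_lift hi ih n

private theorem hkC_pow_equi (hP : IsPar N₀ Nm M t) (hI : Iwa N₀ Nm M U t) (k : ℕ) :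
    Equi (xRep C U) (xRep C U) ((hkX C N₀ U t) ^ k) := by
  induction k with
  | zero =>
    intro g v
    rw [pow_zero]
    rfl
  | succ k ih =>
    intro g v
    rw [pow_succ, Module.End.mul_apply, Module.End.mul_apply, hkX_equi hP hI, ih]

theorem hkX_omg (hP : IsPar N₀ Nm M t) (hI : Iwa N₀ Nm M U t) (hπ : Equi ι ζ π)
    {f : ((G ⧸ U) →₀ C) →ₗ[C] Z} (hf : Equi (xRep C U) ζ f) {ω : I}
    (h : f (Finsupp.single ((1 : G) : G ⧸ U) 1) = π ω) (k : ℕ) :
    (f ∘ₗ (hkX C N₀ U t) ^ k) (Finsupp.single ((1 : G) : G ⧸ U) 1) =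
      π ((omg ι N₀ t)^[k] ω) := by
  classical
  have := cj_finite hP hI
  have := Fintype.ofFinite (N₀ ⧸ cj N₀ t)
  induction k with
  | zero =>
    rw [pow_zero]
    exact h
  | succ k ih =>
    have he : Equi (xRep C U) ζ (f ∘ₗ (hkX C N₀ U t) ^ k) := by
      intro g v
      rw [LinearMap.comp_apply, LinearMap.comp_apply, hkC_pow_equi hP hI, hf]
    have e1 : (f ∘ₗ (hkX C N₀ U t) ^ (k + 1)) (Finsupp.single ((1 : G) : G ⧸ U) 1) =
        (f ∘ₗ (hkX C N₀ U t) ^ k) (tau C N₀ U t) := by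
      rw [LinearMap.comp_apply, LinearMap.comp_apply, pow_succ, Module.End.mul_apply,
        hkX_single hP hI, rep_one_apply]
    have e2 : ∀ w : I, omg ι N₀ t w = ∑ q : N₀ ⧸ cj N₀ t, ι ((q.out : G) * t) w := by
      intro w
      unfold omg
      rw [finsum_eq_sum_of_fintype]
    rw [e1, Function.iterate_succ_apply', e2]
    unfold tau
    rw [finsum_eq_sum_of_fintype, map_sum, map_sum]
    refine Finset.sum_congr rfl fun q _ => ?_
    rw [hπ, ← ih, ← he, xRep_single, mul_one]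

omit [TopologicalSpace G] [IsTopologicalGroup G] in
private theorem hkC_map1 [Finite (N₀ ⧸ cj N₀ t)] (hi : Equi ρ ι i) (c : N₀ → V) :
    hecke ι N₀ t (fun n => i (c n)) = fun n => i (hecke ρ N₀ t c n) := by
  classical
  have := Fintype.ofFinite (N₀ ⧸ cj N₀ t)
  funext n
  unfold hecke
  rw [finsum_eq_sum_of_fintype, finsum_eq_sum_of_fintype, map_sum]
  refine Finset.sum_congr rfl fun q _ => ?_
  rw [hi]
  congr 1
  unfold cext
  split_ifs
  · rfl
  · rw [map_zero]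

omit [TopologicalSpace G] [IsTopologicalGroup G] in
theorem hecke_map [Finite (N₀ ⧸ cj N₀ t)] (hi : Equi ρ ι i) (c : N₀ → V) (k : ℕ) :
    (hecke ι N₀ t)^[k] (fun n => i (c n)) = fun n => i ((hecke ρ N₀ t)^[k] c n) := by
  induction k with
  | zero => rfl
  | succ k ih =>
    rw [Function.iterate_succ_apply', ih, hkC_map1 hi, Function.iterate_succ_apply']

end Ord1
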