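import Pool.Agent.Ord1.Defs

/-!
# Ord1, module Inj1: the embedding of `V` into the smooth functions `G → V`

`I = SmF C G V` with `smRep` (right translations), `i = smI hρ` (`v ↦ (x ↦ ρ x v)`), `Z = I / i V`,
`π = mkQ`.

PROOFS.
* `ses_inj`: `injObj`: for `f : A → I` equivariant put `l a = f a 1`, extend `l` to
  `l' : B → V` along the injective `j` (`LinearMap.exists_leftInverse_of_injective`), and
  `g b = (x ↦ l' (β x b))`, which is invariant by the (open) stabiliser of `b`;
  `f a x = l (α x a)` by equivariance.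
* `coc_lift`: choose representatives `x = (x U).out · u(x)`, `u(x) ∈ U`, and put
  `ω x = ρ ((x U).out) (c (u(x)))`. For `u ∈ U`: `u(x u) = u(x) u`, so
  `ω (x u) - ω x = ρ (x U).out (c (u(x) u) - c (u(x))) = ρ ((x U).out u(x)) (c u) = ρ x (c u)`.
  Smoothness: the `u ∈ U` with `c u = 0` form an open subgroup of `U`, so of `G`.
-/

open Topology Set

namespace Ord1

open Emt

variable {C : Type} [Field C] {G : Type} [Group G] [TopologicalSpace G] [IsTopologicalGroup G]
  {V : Type} [AddCommGroup V] [Module C V] {ρ : Representation C G V}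

theorem sm_smooth : IsSmooth (smRep C G V) := by
  intro F
  obtain ⟨O, hO, h⟩ := F.2
  exact isOpen_stab_of_le hO fun g hg => Subtype.ext (funext fun x => h g hg x)

private theorem smI_equi (hρ : IsSmooth ρ) : Equi ρ (smRep C G V) (smI hρ) := by
  intro g v
  refine Subtype.ext (funext fun x => ?_)
  rw [smI_apply, smRep_apply, smI_apply, rep_mul_apply]

theorem isSub_smI (hρ : IsSmooth ρ) : IsSub (smRep C G V) (LinearMap.range (smI hρ)) :=
  isSub_range (smI_equi hρ)

private theorem inj_ext (A B : Type) [AddCommGroup A] [Module C A] [AddCommGroup B] [Module C B]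
    (α : Representation C G A) (β : Representation C G B) (hβ : IsSmooth β)
    (j : A →ₗ[C] B) (hj : Equi α β j) (hinj : Function.Injective j) (f : A →ₗ[C] SmF C G V)
    (hf : Equi α (smRep C G V) f) :
    ∃ g : B →ₗ[C] SmF C G V, Equi β (smRep C G V) g ∧ ∀ a, g (j a) = f a := by
  obtain ⟨r, hr⟩ := LinearMap.exists_leftInverse_of_injective j (LinearMap.ker_eq_bot.2 hinj)
  have hr' : ∀ a, r (j a) = a := fun a => by
    rw [← LinearMap.comp_apply, hr, LinearMap.id_apply]
  have hmem : ∀ b : B, (fun x : G => (f (r (β x b))).1 1) ∈ SmF C G V := by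
    intro b
    refine ⟨stabG β b, hβ b, fun o ho x => ?_⟩
    have ho' : β o b = b := ho
    show (f (r (β (x * o) b))).1 1 = (f (r (β x b))).1 1
    rw [rep_mul_apply, ho']
  refine ⟨
    { toFun := fun b => ⟨fun x => (f (r (β x b))).1 1, hmem b⟩
      map_add' := fun a b => Subtype.ext (funext fun x => ?_)
      map_smul' := fun a b => Subtype.ext (funext fun x => ?_) }, ?_, ?_⟩
  · show (f (r (β x (a + b)))).1 1 = (f (r (β x a))).1 1 + (f (r (β x b))).1 1
    rw [map_add, map_add, map_add]
    rfl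
  · show (f (r (β x (a • b)))).1 1 = a • (f (r (β x b))).1 1
    rw [map_smul, map_smul, map_smul]
    rfl
  · intro g b
    refine Subtype.ext (funext fun x => ?_)
    show (f (r (β x (β g b)))).1 1 = (f (r (β (x * g) b))).1 1
    rw [rep_mul_apply]
  · intro a
    refine Subtype.ext (funext fun x => ?_)
    show (f (r (β x (j a)))).1 1 = (f a).1 x
    rw [← hj, hr', hf, smRep_apply, one_mul]

theorem ses_inj (hρ : IsSmooth ρ) : IsSES ρ (smRep C G V)
    (quotRep (smRep C G V) (LinearMap.range (smI hρ)) (isSub_smI hρ))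
    (smI hρ) (LinearMap.range (smI hρ)).mkQ where
  smooth := sm_smooth
  equi_i := smI_equi hρ
  equi_π := equi_mkQ _ _
  inj := by
    intro v w h
    have h1 := congrArg (fun F : SmF C G V => F.1 1) h
    simp only [smI_apply] at h1
    rwa [rep_one_apply, rep_one_apply] at h1
  surj := Submodule.mkQ_surjective _
  exact x := by
    rw [Submodule.mkQ_apply, Submodule.Quotient.mk_eq_zero, LinearMap.mem_range]
  injObj := by
    intro A B _ _ _ _ α β hβ j hj hinj f hf
    exact inj_ext A B α β hβ j hj hinj f hf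

/-- Every locally constant cocycle of an open subgroup `U` with values in `V` is a coboundary in
`SmF C G V`. -/
theorem coc_lift (hρ : IsSmooth ρ) {U : Subgroup G} (hU : IsOpen (U : Set G)) {c : U → V}
    (hc : IsCoc (res ρ U) c) :
    ∃ ω : SmF C G V, ∀ u : U, smRep C G V (u : G) ω - ω = smI hρ (c u) := by
  classical
  have c1 : c 1 = 0 := by
    have h := hc.mul 1 1
    rw [mul_one, rep_one_apply] at h
    exact (left_eq_add.1 h)
  set cx : G → V := fun g => if h : g ∈ U then c ⟨g, h⟩ else 0 with hcx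
  have hcm : ∀ g (h : g ∈ U), cx g = c ⟨g, h⟩ := fun g h => by rw [hcx]; exact dif_pos h
  have hmul : ∀ g u, g ∈ U → u ∈ U → cx (g * u) = cx g + ρ g (cx u) := by
    intro g u hg hu
    rw [hcm g hg, hcm u hu, hcm (g * u) (U.mul_mem hg hu)]
    exact hc.mul ⟨g, hg⟩ ⟨u, hu⟩
  have hr : ∀ x : G, ((x : G ⧸ U).out : G)⁻¹ * x ∈ U := fun x =>
    QuotientGroup.eq.1 (QuotientGroup.out_eq' (x : G ⧸ U))
  set ω : G → V := fun x => ρ ((x : G ⧸ U).out : G) (cx (((x : G ⧸ U).out : G)⁻¹ * x)) with hω
  have key : ∀ x u, u ∈ U → ω (x * u) = ω x + ρ x (cx u) := by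
    intro x u hu
    have h1 : ((x * u : G) : G ⧸ U) = (x : G ⧸ U) := by
      rw [eq_comm, QuotientGroup.eq]
      simpa using hu
    rw [hω]
    simp only
    rw [h1, ← mul_assoc, hmul _ _ (hr x) hu, map_add, ← rep_mul_apply]
    congr 3
    group
  let O : Subgroup G :=
    { carrier := {g | g ∈ U ∧ cx g = 0}
      mul_mem' := by
        rintro a b ⟨ha, ha'⟩ ⟨hb, hb'⟩
        exact ⟨U.mul_mem ha hb, by rw [hmul a b ha hb, ha', hb', map_zero, add_zero]⟩
      one_mem' := ⟨U.one_mem, by rw [hcm 1 U.one_mem]; exact c1⟩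
      inv_mem' := by
        rintro a ⟨ha, ha'⟩
        refine ⟨U.inv_mem ha, ?_⟩
        have h := hmul a⁻¹ a (U.inv_mem ha) ha
        rw [inv_mul_cancel, ha', map_zero, add_zero, hcm 1 U.one_mem] at h
        rw [← h]
        exact c1 }
  have hO : IsOpen (O : Set G) := by
    have h1 : (O : Set G) = Subtype.val '' {u : U | c u = 0} := by
      ext g
      constructor
      · rintro ⟨hg, hg'⟩
        exact ⟨⟨g, hg⟩, by rw [Set.mem_ofPred_eq, ← hcm g hg]; exact hg', rfl⟩
      · rintro ⟨⟨u, hu⟩, hu', rfl⟩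
        exact ⟨hu, by rw [hcm u hu]; exact hu'⟩
    rw [h1]
    exact hU.isOpenMap_subtype_val _ (hc.cont.isOpen_fiber 0)
  have hmem : ω ∈ SmF C G V := by
    refine ⟨O, hO, fun o ho x => ?_⟩
    rw [key x o ho.1, ho.2, map_zero, add_zero]
  refine ⟨⟨ω, hmem⟩, fun u => Subtype.ext (funext fun x => ?_)⟩
  show ω (x * u) - ω x = ρ x (c u)
  rw [key x u u.2, hcm u u.2, add_sub_cancel_left]

end Ord1
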