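import Pool.Agent.Ord1.Bas
import Pool.Agent.Ord1.Inj1
import Pool.Agent.Ord1.HkC
import Pool.Agent.Ord1.ExU

/-!
# Ord1, module Eff1: effaceability

PROOFS.
* `comap_adm`: `W = π⁻¹ A` with `A` admissible, `0 → V → W → A → 0`: the fixed vectors
  `W^{U'}` map to `A^{U'}` with kernel `i (V^{U'})`, so they are finite dimensional.
* `eff_U`: `ses_inj`, `coc_lift`: `ω ∈ I` with `u ω - ω = i (c u)` for `u ∈ U`. `π ω` is fixed by `U`: let
  `f : C[G/U] → Z`, `f (single 1 1) = π ω` (`xRep_lift`). `factor_adm`: `k`, `f'`, `A`, and an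
  equivariant `h : C[G/U] → I` with `f' - f T ^ k = π h`. Put `ω' = (omg)^[k] ω + h (single 1 1)`;
  then `π ω' = f' (single 1 1) ∈ A` (`hkX_omg`) and, for `n ∈ N₀ ≤ U`,
  `n ω' - ω' = n ω_k - ω_k = i ((hecke)^[k] c n)` (`hecke_iter`, `xRep_fix`, `cj_finite`). Take
  `W = A.comap π` with the restriction of `ι`, `e = ω'`.
* `main`: the case `N₀ = ⊥` is trivial (`c 1 = 0`, `k = 0`, `e = 0`). As in `Emt.van_of_eff`: the cocycle
  `c : N₀ → J` has finitely many values, they lie in an admissible subrepresentation `A` of `J`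
  (`IsLadm.exists_finite`, `isAdm_subRep`); extend it to a cocycle of `U` (`ext_coc`) with values in
  `A`, apply `eff_U`, extend the inclusion `A → J` to `W → J` by `LadmInj` (an admissible
  representation is locally admissible, `IsAdm.isLadm`), and use `hecke_map`.
-/

open Topology Set

namespace Ord1

open Emt

variable {p : ℕ} [Fact p.Prime] {G : Type} [Group G] [TopologicalSpace G] [IsTopologicalGroup G]
  {N₀ Nm M U H : Subgroup G} {t s : G} {C : Type} [Field C] [Finite C] [CharP C p]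
  {V I Z : Type} [AddCommGroup V] [Module C V] [AddCommGroup I] [Module C I] [AddCommGroup Z]
  [Module C Z] {ρ : Representation C G V} {ι : Representation C G I} {ζ : Representation C G Z}
  {i : V →ₗ[C] I} {π : I →ₗ[C] Z}

omit [Fact p.Prime] [IsTopologicalGroup G] [Finite C] [CharP C p] in
theorem comap_adm (hρ : IsAdm ρ) (hS : IsSES ρ ι ζ i π) {A : Submodule C Z}
    (hA : IsAdmSub ζ A) : IsAdmSub ι (A.comap π) := by
  refine ⟨isSub_comap hS.equi_π hA.sub, fun U' hU' hU'c => ?_⟩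
  have h1 := hA.fin U' hU' hU'c
  have h2 := hρ.fin U' hU' hU'c
  have h3 : ((A.comap π ⊓ fix ι U' : Submodule C I).map π).FG := by
    have hle : (A.comap π ⊓ fix ι U' : Submodule C I).map π ≤ (A ⊓ fix ζ U' : Submodule C Z) := by
      rintro _ ⟨x, ⟨hx1, hx2⟩, rfl⟩
      refine ⟨hx1, fun g hg => ?_⟩
      rw [← hS.equi_π, hx2 g hg]
    have := Submodule.finiteDimensional_of_le hle
    exact Module.Finite.iff_fg.1 this
  have h4 : ((A.comap π ⊓ fix ι U' : Submodule C I) ⊓ LinearMap.ker π).FG := by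
    have hle : ((A.comap π ⊓ fix ι U' : Submodule C I) ⊓ LinearMap.ker π : Submodule C I) ≤
        (fix ρ U').map i := by
      rintro x ⟨⟨-, hx2⟩, hx3⟩
      obtain ⟨v, rfl⟩ := (hS.exact x).1 hx3
      refine ⟨v, fun g hg => hS.inj ?_, rfl⟩
      rw [hS.equi_i, hx2 g hg]
    have := Submodule.finiteDimensional_of_le hle
    exact Module.Finite.iff_fg.1 this
  exact Module.Finite.iff_fg.2 (Submodule.fg_of_fg_map_of_fg_inf_ker π h3 h4)

theorem eff_aux (hG : IsPadicLie p G) (hP : IsPar N₀ Nm M t) (hI : Iwa N₀ Nm M U t)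
    (h0 : N₀ ≠ ⊥) (hρ : IsAdm ρ) (hS : IsSES ρ ι ζ i π) {c : U → V} {ω : I}
    (hω : ∀ u : U, ι (u : G) ω - ω = i (c u)) :
    ∃ (k : ℕ) (W : Type) (_ : AddCommGroup W) (_ : Module C W) (σ : Representation C G W)
      (i : V →ₗ[C] W) (e : W), IsAdm σ ∧ Equi ρ σ i ∧ Function.Injective i ∧
      ∀ n : N₀, i ((hecke ρ N₀ t)^[k] (fun m : N₀ => c ⟨(m : G), hI.N_le m.2⟩) n) =
        σ (n : G) e - e := by
  have hfin : Finite (N₀ ⧸ cj N₀ t) := cj_finite hP hI
  have hπi : ∀ v, π (i v) = 0 := fun v => (hS.exact _).2 ⟨v, rfl⟩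
  have hfix : π ω ∈ fix ζ U := by
    intro g hg
    have h1 := hω ⟨g, hg⟩
    have h2 : ι g ω = ω + i (c ⟨g, hg⟩) := by
      rw [← h1]; abel
    rw [← hS.equi_π g ω, h2, map_add, hπi, add_zero]
  obtain ⟨f, hf, hf1⟩ := xRep_lift (U := U) hfix
  have hf2 : f (Finsupp.single ((1 : G) : G ⧸ U) 1) = π ω := by
    rw [hf1 1, rep_one_apply]
  obtain ⟨k, f', hf', ⟨h, hh, hhe⟩, A, hA, hfA⟩ := factor_adm hG hP hI h0 hρ hS hf
  have hW := comap_adm hρ hS hA
  have hω' : π ((omg ι N₀ t)^[k] ω + h (Finsupp.single ((1 : G) : G ⧸ U) 1)) =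
      f' (Finsupp.single ((1 : G) : G ⧸ U) 1) := by
    have h1 := hkX_omg hP hI hS.equi_π hf hf2 k
    have h2 := LinearMap.congr_fun hhe (Finsupp.single ((1 : G) : G ⧸ U) 1)
    rw [LinearMap.sub_apply, h1] at h2
    rw [map_add]
    have h3 : π (h (Finsupp.single ((1 : G) : G ⧸ U) 1)) =
      (π ∘ₗ h) (Finsupp.single ((1 : G) : G ⧸ U) 1) := rfl
    rw [h3, ← h2]
    abel
  refine ⟨k, A.comap π, inferInstance, inferInstance, subRep ι (A.comap π) hW.sub,
    i.codRestrict (A.comap π) (fun v => ?_),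
    ⟨(omg ι N₀ t)^[k] ω + h (Finsupp.single ((1 : G) : G ⧸ U) 1), ?_⟩,
    isAdm_subRep hS.smooth hW, Equi.codRestrict hS.equi_i _ hW.sub _, ?_, fun n => ?_⟩
  · rw [Submodule.mem_comap, hπi]
    exact A.zero_mem
  · rw [Submodule.mem_comap, hω']
    exact hfA _
  · intro v w hvw
    exact hS.inj (congrArg Subtype.val hvw)
  · apply Subtype.ext
    have h1 := hecke_iter (t := t) (ι := ι) (i := i) (c := fun m : N₀ => c ⟨(m : G), hI.N_le m.2⟩)
      hS.equi_i (ω := ω) (fun m => hω ⟨(m : G), hI.N_le m.2⟩) k n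
    have h2 : ι (n : G) (h (Finsupp.single ((1 : G) : G ⧸ U) 1)) =
        h (Finsupp.single ((1 : G) : G ⧸ U) 1) := xRep_fix hh (n : G) (hI.N_le n.2)
    show i ((hecke ρ N₀ t)^[k] (fun m : N₀ => c ⟨(m : G), hI.N_le m.2⟩) n) =
      ι (n : G) ((omg ι N₀ t)^[k] ω + h (Finsupp.single ((1 : G) : G ⧸ U) 1)) -
        ((omg ι N₀ t)^[k] ω + h (Finsupp.single ((1 : G) : G ⧸ U) 1))
    rw [← h1, map_add, h2]
    abel

theorem eff_U (hG : IsPadicLie p G) (hP : IsPar N₀ Nm M t) (hI : Iwa N₀ Nm M U t)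
    (h0 : N₀ ≠ ⊥) (hρ : IsAdm ρ) {c : U → V} (hc : IsCoc (res ρ U) c) :
    ∃ (k : ℕ) (W : Type) (_ : AddCommGroup W) (_ : Module C W) (σ : Representation C G W)
      (i : V →ₗ[C] W) (e : W), IsAdm σ ∧ Equi ρ σ i ∧ Function.Injective i ∧
      ∀ n : N₀, i ((hecke ρ N₀ t)^[k] (fun m : N₀ => c ⟨(m : G), hI.N_le m.2⟩) n) =
        σ (n : G) e - e := by
  obtain ⟨ω, hω⟩ := coc_lift hρ.smooth hI.open_U hc
  exact eff_aux hG hP hI h0 hρ (ses_inj hρ.smooth) hω

theorem main (hG : IsPadicLie p G) (hP : IsPar N₀ Nm M t) {J : Type} [AddCommGroup J]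
    [Module C J] {σ : Representation C G J} (hJ : LadmInj σ) {c : N₀ → J}
    (hc : IsCoc (res σ N₀) c) :
    ∃ (k : ℕ) (e : J), ∀ n : N₀, (hecke σ N₀ t)^[k] c n = σ (n : G) e - e := by
  by_cases h0 : N₀ = ⊥
  · refine ⟨0, 0, fun n => ?_⟩
    have hn : n = 1 := by
      apply Subtype.ext
      exact Subgroup.mem_bot.1 (h0.le n.2)
    have h1 := hc.mul 1 1
    rw [mul_one, rep_one_apply] at h1
    have h2 : c 1 = 0 := by
      have h3 : c 1 + 0 = c 1 + c 1 := by rw [add_zero]; exact h1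
      exact (add_left_cancel h3).symm
    rw [Function.iterate_zero, id, hn, h2, map_zero, sub_zero]
  · have hHc : CompactSpace N₀ := isCompact_iff_compactSpace.1 hP.compact_N
    have hF : (Set.range c).Finite := hc.cont.range_finite
    obtain ⟨A, hFA, hA⟩ := IsLadm.exists_finite hG hJ.1 hF
    have hA' : IsAdm (subRep σ A hA.sub) := isAdm_subRep hJ.1.smooth hA
    obtain ⟨c', hc'⟩ : ∃ c' : N₀ → A, ∀ x, ((c' x : A) : J) = c x :=
      ⟨fun x => ⟨c x, hFA ⟨x, rfl⟩⟩, fun _ => rfl⟩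
    have hcoc : IsCoc (res (subRep σ A hA.sub) N₀) c' := by
      refine ⟨?_, ?_⟩
      · intro x y
        apply Subtype.ext
        have h1 := hc.mul x y
        rw [← hc', ← hc', ← hc'] at h1
        exact h1
      · refine IsLocallyConstant.desc c' (Subtype.val : A → J) ?_ Subtype.val_injective
        have h2 : (Subtype.val : A → J) ∘ c' = c := funext hc'
        rw [h2]
        exact hc.cont
    obtain ⟨U, hI, c'', hcoc', hcc⟩ := ext_coc hP hA'.smooth hcoc
    obtain ⟨k, W, _, _, τ, i, e, hτ, hi, hinj, he⟩ := eff_U hG hP hI h0 hA' hcoc'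
    obtain ⟨g, hg, hgi⟩ := hJ.2 A W (subRep σ A hA.sub) τ hA'.isLadm hτ.isLadm i hi hinj A.subtype
      (equi_subtype A hA.sub)
    have hfin : Finite (N₀ ⧸ cj N₀ t) := cj_finite hP hI
    refine ⟨k, g e, fun n => ?_⟩
    have h1 : (fun m : N₀ => c'' ⟨(m : G), hI.N_le m.2⟩) = c' := funext hcc
    have h2 := he n
    rw [h1] at h2
    have h3 := hecke_map (t := t) (ι := σ) (equi_subtype A hA.sub) c' k
    have h4 : (fun n : N₀ => A.subtype (c' n)) = c := funext hc'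
    rw [h4] at h3
    have h5 := congrFun h3 n
    rw [h5, ← hgi, h2, map_sub, hg]

end Ord1
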