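import Pool.Agent.Ord1.Cor

/-!
# Ord1, module EffU: the compact open subgroups with an Iwahori decomposition

Let `U = N₀ (U ∩ M) (U ∩ Nm)` be a compact open subgroup (`Iwa`).  The Hecke operator
`hecke ρ U t` of `t` on the cocycles of `U` has the same properties as the one of `N₀`.
-/

open Topology Set

namespace Ord1

open Emt

/-- The properties of the Hecke operator `hecke _ K t` on the first cohomology of the subgroup `K`:
* every class with coefficients in an admissible representation `V` is mapped by a power of the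
  operator to a class which vanishes in an admissible extension `W` of `V`;
* for an injective object `J` of the category of the locally admissible representations
  the operator preserves the cocycles, and is locally nilpotent modulo the coboundaries;
* if `K` is pro-`p`: such a `J` is injective over `K` if and only if the operator is injective modulo
  the coboundaries. -/
def NoOrd (p : ℕ) (C : Type) [Field C] {G : Type} [Group G] [TopologicalSpace G] (K : Subgroup G)
    (t : G) : Prop :=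
  (∀ (V : Type) [AddCommGroup V] [Module C V] (ρ : Representation C G V), IsAdm ρ →
    ∀ c : K → V, IsCoc (res ρ K) c →
    ∃ (k : ℕ) (W : Type) (_ : AddCommGroup W) (_ : Module C W) (σ : Representation C G W)
      (i : V →ₗ[C] W) (e : W), IsAdm σ ∧ Equi ρ σ i ∧ Function.Injective i ∧
      ∀ x : K, i ((hecke ρ K t)^[k] c x) = σ (x : G) e - e) ∧
  (∀ (J : Type) [AddCommGroup J] [Module C J] (σ : Representation C G J), LadmInj σ →
    ∀ c : K → J, IsCoc (res σ K) c → IsCoc (res σ K) (hecke σ K t c) ∧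
      ∃ (k : ℕ) (e : J), ∀ x : K, (hecke σ K t)^[k] c x = σ (x : G) e - e) ∧
  (IsProP p K → ∀ (J : Type) [AddCommGroup J] [Module C J] (σ : Representation C G J),
    LadmInj σ → (SmoothInj (res σ K) ↔ ∀ c : K → J, IsCoc (res σ K) c →
      (∃ e : J, ∀ x : K, hecke σ K t c x = σ (x : G) e - e) →
      ∃ e : J, ∀ x : K, c x = σ (x : G) e - e))

variable {p : ℕ} [Fact p.Prime] {G : Type} [Group G] [TopologicalSpace G] [IsTopologicalGroup G]
  {N₀ Nm M U H K : Subgroup G} {t s : G} {C : Type} [Field C]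

omit [Fact p.Prime] in
/-- The Hecke operator maps cocycles to cocycles. -/
theorem hecke_isCoc_gen {V : Type} [AddCommGroup V] [Module C V] {ρ : Representation C G V}
    [Finite (K ⧸ cj K t)] (hcj : IsOpen ((cj K t : Subgroup K) : Set K)) {c : K → V}
    (hc : IsCoc (res ρ K) c) : IsCoc (res ρ K) (hecke ρ K t c) := by
  have hmul : ∀ g h : K, hecke ρ K t c (g * h) = hecke ρ K t c g +
      res ρ K g (hecke ρ K t c h) := by
    obtain ⟨ω, hω⟩ := coc_fun (ρ := ρ) (c := c) hc.mul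
    have hl : ∀ n : K, injT C G V (n : G) (omg (injT C G V) K t ω) -
        omg (injT C G V) K t ω = injC ρ LinearMap.id (hecke ρ K t c n) := fun n =>
      hecke_lift (injC_equi ρ LinearMap.id) hω n
    set ω' := omg (injT C G V) K t ω with hω'
    intro g h
    have h1 : injC ρ LinearMap.id (hecke ρ K t c (g * h)) =
        injC ρ LinearMap.id (hecke ρ K t c g + res ρ K g (hecke ρ K t c h)) := by
      rw [map_add, ← hl, ← hl, res_apply, injC_equi ρ LinearMap.id (g : G), ← hl, map_sub,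
        Subgroup.coe_mul, rep_mul_apply]
      abel
    have h2 := congrFun h1 1
    rw [injC_apply, injC_apply, rep_one_apply, rep_one_apply] at h2
    exact h2
  refine ⟨hmul, ?_⟩
  have hc1 : c 1 = 0 := hc.one
  obtain ⟨O, hO, hO1, hOc⟩ : ∃ O : Set G, IsOpen O ∧ (1 : G) ∈ O ∧
      ∀ x ∈ O, cext K c x = 0 := by
    have ho : IsOpen (c ⁻¹' {c 1}) := hc.cont.isOpen_fiber (c 1)
    obtain ⟨O, hO, hOe⟩ := isOpen_induced_iff.1 ho
    refine ⟨O, hO, ?_, fun x hx => ?_⟩
    · have : (1 : K) ∈ (Subtype.val ⁻¹' O : Set K) := by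
        rw [hOe]
        rfl
      exact this
    · unfold cext
      split_ifs with h
      · have : (⟨x, h⟩ : K) ∈ (Subtype.val ⁻¹' O : Set K) := hx
        rw [hOe] at this
        have h2 : c ⟨x, h⟩ = c 1 := this
        rw [h2, hc1]
      · rfl
  have hev : ∀ᶠ m : K in 𝓝 1, hecke ρ K t c m = 0 := by
    have h1 : ∀ q : K ⧸ cj K t, ∀ᶠ m : K in 𝓝 1, m • q = q ∧
        ((q.out : G) * t)⁻¹ * (m : G) * ((q.out : G) * t) ∈ O := by
      intro q
      refine Filter.Eventually.and ?_ ?_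
      · have hopen : IsOpen ((fun m : K => (m * q.out)⁻¹ * q.out) ⁻¹'
            ((cj K t : Subgroup K) : Set K)) := hcj.preimage (by fun_prop)
        have h1 : (1 : K) ∈ ((fun m : K => (m * q.out)⁻¹ * q.out) ⁻¹'
            ((cj K t : Subgroup K) : Set K)) := by
          show ((1 : K) * q.out)⁻¹ * q.out ∈ cj K t
          rw [one_mul, inv_mul_cancel]
          exact (cj K t).one_mem
        filter_upwards [hopen.mem_nhds h1] with m hm
        have h2 : ((m * q.out : K) : K ⧸ cj K t) = ((q.out : K) : K ⧸ cj K t) :=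
          QuotientGroup.eq.2 hm
        have h3 : m • q = ((m * q.out : K) : K ⧸ cj K t) := by
          conv_lhs => rw [← QuotientGroup.out_eq' q]
          rfl
        rw [h3, h2, QuotientGroup.out_eq']
      · have hopen : IsOpen ((fun m : K => ((q.out : G) * t)⁻¹ * (m : G) * ((q.out : G) * t)) ⁻¹'
            O) := hO.preimage (by fun_prop)
        refine hopen.mem_nhds ?_
        show ((q.out : G) * t)⁻¹ * ((1 : K) : G) * ((q.out : G) * t) ∈ O
        rw [Subgroup.coe_one, mul_one, inv_mul_cancel]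
        exact hO1
    filter_upwards [Filter.eventually_all.2 h1] with m hm
    unfold hecke
    rw [← finsum_zero (α := K ⧸ cj K t) (M := V)]
    refine finsum_congr fun q => ?_
    rw [(hm q).1, hOc _ (hm q).2, map_zero]
  rw [IsLocallyConstant.iff_eventually_eq]
  intro n
  have ht : Filter.Tendsto (fun y : K => n⁻¹ * y) (𝓝 n) (𝓝 1) := by
    have h1 : Continuous fun y : K => n⁻¹ * y := by fun_prop
    have h2 := h1.tendsto n
    rwa [inv_mul_cancel] at h2
  filter_upwards [ht.eventually hev] with y hy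
  have h1 := hmul n (n⁻¹ * y)
  rw [mul_inv_cancel_left, hy, map_zero, add_zero] at h1
  exact h1

theorem cj_open_U (hI : Iwa N₀ Nm M U t) : IsOpen ((cj U t : Subgroup U) : Set U) := by
  have h1 : ((cj U t : Subgroup U) : Set U) = (fun n : U => t⁻¹ * (n : G) * t) ⁻¹' U := by
    ext n
    exact mem_cj
  rw [h1]
  exact hI.open_U.preimage (by fun_prop)

theorem cj_open_N (hP : IsPar N₀ Nm M t) (hI : Iwa N₀ Nm M U t) :
    IsOpen ((cj N₀ t : Subgroup N₀) : Set N₀) := by
  have h1 : ((cj N₀ t : Subgroup N₀) : Set N₀) = (fun n : N₀ => t⁻¹ * (n : G) * t) ⁻¹' U := by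
    ext n
    constructor
    · intro h
      exact hI.N_le (mem_cj.1 h)
    · intro h
      exact mem_cj.2 (cj_mem hP hI n.2 h)
  rw [h1]
  exact hI.open_U.preimage (by fun_prop)

theorem cjU_finite (hI : Iwa N₀ Nm M U t) : Finite (U ⧸ cj U t) := by
  haveI : CompactSpace U := isCompact_iff_compactSpace.mp hI.compact_U
  exact Subgroup.quotient_finite_of_isOpen _ (cj_open_U hI)

/-- `τ` is also the sum over `U / (U ∩ t U t⁻¹)`. -/
theorem tau_U (hP : IsPar N₀ Nm M t) (hI : Iwa N₀ Nm M U t) [Fintype (U ⧸ cj U t)] :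
    tau C N₀ U t =
      ∑ q : U ⧸ cj U t, Finsupp.single ((((q.out : G) * t : G) : G ⧸ U)) (1 : C) := by
  classical
  haveI := cj_finite hP hI
  letI : Fintype (N₀ ⧸ cj N₀ t) := Fintype.ofFinite _
  unfold tau
  rw [finsum_eq_sum_of_fintype]
  let f : N₀ ⧸ cj N₀ t → U ⧸ cj U t := fun q => ((⟨(q.out : G), hI.N_le q.out.2⟩ : U) : U ⧸ cj U t)
  have hout : ∀ x : U, t⁻¹ * (((x : U ⧸ cj U t).out : G)⁻¹ * (x : G)) * t ∈ U := by
    intro x
    have h1 : ((x : U ⧸ cj U t).out)⁻¹ * x ∈ cj U t := by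
      rw [← QuotientGroup.eq, QuotientGroup.out_eq']
    exact mem_cj.1 h1
  have houtN : ∀ x : N₀, t⁻¹ * (((x : N₀ ⧸ cj N₀ t).out : G)⁻¹ * (x : G)) * t ∈ N₀ := by
    intro x
    have h1 : ((x : N₀ ⧸ cj N₀ t).out)⁻¹ * x ∈ cj N₀ t := by
      rw [← QuotientGroup.eq, QuotientGroup.out_eq']
    exact mem_cj.1 h1
  have hbij : Function.Bijective f := by
    constructor
    · intro q q' h
      have h1 : (⟨(q.out : G), hI.N_le q.out.2⟩ : U)⁻¹ * ⟨(q'.out : G), hI.N_le q'.out.2⟩ ∈
          cj U t := QuotientGroup.eq.1 h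
      have h2 : t⁻¹ * ((q.out : G)⁻¹ * (q'.out : G)) * t ∈ U := mem_cj.1 h1
      have h3 := cj_mem hP hI (N₀.mul_mem (N₀.inv_mem q.out.2) q'.out.2) h2
      have h4 : (q.out)⁻¹ * q'.out ∈ cj N₀ t := mem_cj.2 h3
      have h5 := QuotientGroup.eq.2 h4
      rwa [QuotientGroup.out_eq', QuotientGroup.out_eq'] at h5
    · intro x
      obtain ⟨u, rfl⟩ := QuotientGroup.mk_surjective x
      obtain ⟨n, hn, m, hm, b, hb, e⟩ := hI.dec _ u.2
      refine ⟨((⟨n, hn⟩ : N₀) : N₀ ⧸ cj N₀ t), ?_⟩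
      show ((⟨(((⟨n, hn⟩ : N₀) : N₀ ⧸ cj N₀ t).out : G), _⟩ : U) : U ⧸ cj U t) = (u : U ⧸ cj U t)
      rw [QuotientGroup.eq, mem_cj]
      have h1 := houtN ⟨n, hn⟩
      set y := ((⟨n, hn⟩ : N₀) : N₀ ⧸ cj N₀ t).out with hy
      show t⁻¹ * ((y : G)⁻¹ * (u : G)) * t ∈ U
      have h2 : t⁻¹ * m = m * t⁻¹ := by
        have := hP.t_comm m hm.2
        calc t⁻¹ * m = t⁻¹ * (m * t) * t⁻¹ := by group
          _ = t⁻¹ * (t * m) * t⁻¹ := by rw [this]
          _ = _ := by group
      have h3 : t⁻¹ * ((y : G)⁻¹ * (u : G)) * t =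
          (t⁻¹ * ((y : G)⁻¹ * n) * t) * (m * (t⁻¹ * b * t)) := by
        rw [e]
        calc t⁻¹ * ((y : G)⁻¹ * (n * m * b)) * t
            = (t⁻¹ * ((y : G)⁻¹ * n) * t) * ((t⁻¹ * m) * b * t) := by group
          _ = _ := by rw [h2]; group
      rw [h3]
      exact U.mul_mem (hI.N_le h1) (U.mul_mem hm.1 (hI.contr b hb))
  rw [← hbij.sum_comp (fun q : U ⧸ cj U t =>
    Finsupp.single ((((q.out : G) * t : G) : G ⧸ U)) (1 : C))]
  refine Finset.sum_congr rfl fun q _ => ?_
  congr 1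
  rw [eq_comm, QuotientGroup.eq]
  have h1 := hout ⟨(q.out : G), hI.N_le q.out.2⟩
  have h2 : (((f q).out : G) * t)⁻¹ * ((q.out : G) * t) =
      t⁻¹ * (((f q).out : G)⁻¹ * (q.out : G)) * t := by group
  rw [h2]
  exact h1

theorem hkX_omgU (hP : IsPar N₀ Nm M t) (hI : Iwa N₀ Nm M U t) {I Z : Type} [AddCommGroup I]
    [Module C I] [AddCommGroup Z] [Module C Z] {ι : Representation C G I}
    {ζ : Representation C G Z} {π : I →ₗ[C] Z} (hπ : Equi ι ζ π)
    {f : ((G ⧸ U) →₀ C) →ₗ[C] Z} (hf : Equi (xRep C U) ζ f) {ω : I}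
    (h : f (Finsupp.single ((1 : G) : G ⧸ U) 1) = π ω) (k : ℕ) :
    (f ∘ₗ (hkX C N₀ U t) ^ k) (Finsupp.single ((1 : G) : G ⧸ U) 1) =
      π ((omg ι U t)^[k] ω) := by
  classical
  have := cjU_finite hI
  have := Fintype.ofFinite (U ⧸ cj U t)
  induction k with
  | zero =>
    rw [pow_zero]
    exact h
  | succ k ih =>
    have he : Equi (xRep C U) ζ (f ∘ₗ (hkX C N₀ U t) ^ k) := by
      intro g v
      rw [LinearMap.comp_apply, LinearMap.comp_apply, equi_pow (hkX_equi hP hI), hf]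
    have e1 : (f ∘ₗ (hkX C N₀ U t) ^ (k + 1)) (Finsupp.single ((1 : G) : G ⧸ U) 1) =
        (f ∘ₗ (hkX C N₀ U t) ^ k) (tau C N₀ U t) := by
      rw [LinearMap.comp_apply, LinearMap.comp_apply, pow_succ, Module.End.mul_apply,
        hkX_single hP hI, rep_one_apply]
    have e2 : ∀ w : I, omg ι U t w = ∑ q : U ⧸ cj U t, ι ((q.out : G) * t) w := by
      intro w
      unfold omg
      rw [finsum_eq_sum_of_fintype]
    rw [e1, Function.iterate_succ_apply', e2, tau_U hP hI, map_sum, map_sum]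
    refine Finset.sum_congr rfl fun q _ => ?_
    rw [hπ, ← ih, ← he, xRep_single, mul_one]

variable [Finite C] [CharP C p]

theorem eff_auxU (hG : IsPadicLie p G) (hP : IsPar N₀ Nm M t) (hI : Iwa N₀ Nm M U t)
    (h0 : N₀ ≠ ⊥) {V I Z : Type} [AddCommGroup V] [Module C V] [AddCommGroup I] [Module C I]
    [AddCommGroup Z] [Module C Z] {ρ : Representation C G V} {ι : Representation C G I}
    {ζ : Representation C G Z} {i : V →ₗ[C] I} {π : I →ₗ[C] Z}
    (hρ : IsAdm ρ) (hS : IsSES ρ ι ζ i π) {c : U → V} {ω : I}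
    (hω : ∀ u : U, ι (u : G) ω - ω = i (c u)) :
    ∃ (k : ℕ) (W : Type) (_ : AddCommGroup W) (_ : Module C W) (σ : Representation C G W)
      (i : V →ₗ[C] W) (e : W), IsAdm σ ∧ Equi ρ σ i ∧ Function.Injective i ∧
      ∀ n : U, i ((hecke ρ U t)^[k] c n) = σ (n : G) e - e := by
  have hfin : Finite (U ⧸ cj U t) := cjU_finite hI
  have hπi : ∀ v, π (i v) = 0 := fun v => (hS.exact _).2 ⟨v, rfl⟩
  have hfix : π ω ∈ fix ζ U := by
    intro g hg
    have h1 := hω ⟨g, hg⟩
    have h2 : ι g ω = ω + i (c ⟨g, hg⟩) := by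
      rw [← h1]; abel
    rw [← hS.equi_π g ω, h2, map_add, hπi, add_zero]
  obtain ⟨f, hf, hf1⟩ := xRep_lift (U := U) hfix
  have hf2 : f (Finsupp.single ((1 : G) : G ⧸ U) 1) = π ω := by
    rw [hf1 1, rep_one_apply]
  obtain ⟨k, f', hf', ⟨h, hh, hhe⟩, A, hA, hfA⟩ := factor_adm hG hP hI h0 hρ hS hf
  have hW := comap_adm hρ hS hA
  have hω' : π ((omg ι U t)^[k] ω + h (Finsupp.single ((1 : G) : G ⧸ U) 1)) =
      f' (Finsupp.single ((1 : G) : G ⧸ U) 1) := by
    have h1 := hkX_omgU hP hI hS.equi_π hf hf2 k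
    have h2 := LinearMap.congr_fun hhe (Finsupp.single ((1 : G) : G ⧸ U) 1)
    rw [LinearMap.sub_apply, h1] at h2
    rw [map_add]
    have h3 : π (h (Finsupp.single ((1 : G) : G ⧸ U) 1)) =
      (π ∘ₗ h) (Finsupp.single ((1 : G) : G ⧸ U) 1) := rfl
    rw [h3, ← h2]
    abel
  refine ⟨k, A.comap π, inferInstance, inferInstance, subRep ι (A.comap π) hW.sub,
    i.codRestrict (A.comap π) (fun v => ?_),
    ⟨(omg ι U t)^[k] ω + h (Finsupp.single ((1 : G) : G ⧸ U) 1), ?_⟩,
    isAdm_subRep hS.smooth hW, Equi.codRestrict hS.equi_i _ hW.sub _, ?_, fun n => ?_⟩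
  · rw [Submodule.mem_comap, hπi]
    exact A.zero_mem
  · rw [Submodule.mem_comap, hω']
    exact hfA _
  · intro v w hvw
    exact hS.inj (congrArg Subtype.val hvw)
  · apply Subtype.ext
    have h1 := hecke_iter (t := t) (ι := ι) (i := i) (c := c) hS.equi_i (ω := ω) hω k n
    have h2 : ι (n : G) (h (Finsupp.single ((1 : G) : G ⧸ U) 1)) =
        h (Finsupp.single ((1 : G) : G ⧸ U) 1) := xRep_fix hh (n : G) n.2
    show i ((hecke ρ U t)^[k] c n) =
      ι (n : G) ((omg ι U t)^[k] ω + h (Finsupp.single ((1 : G) : G ⧸ U) 1)) -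
        ((omg ι U t)^[k] ω + h (Finsupp.single ((1 : G) : G ⧸ U) 1))
    rw [← h1, map_add, h2]
    abel

/-- From effaceability to the injective objects. -/
theorem noOrd_of_eff (hG : IsPadicLie p G) (hK : IsCompact (K : Set G)) [Finite (K ⧸ cj K t)]
    (hcj : IsOpen ((cj K t : Subgroup K) : Set K))
    (heff : ∀ (V : Type) [AddCommGroup V] [Module C V] (ρ : Representation C G V), IsAdm ρ →
    ∀ c : K → V, IsCoc (res ρ K) c →
    ∃ (k : ℕ) (W : Type) (_ : AddCommGroup W) (_ : Module C W) (σ : Representation C G W)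
      (i : V →ₗ[C] W) (e : W), IsAdm σ ∧ Equi ρ σ i ∧ Function.Injective i ∧
      ∀ x : K, i ((hecke ρ K t)^[k] c x) = σ (x : G) e - e) : NoOrd p C K t := by
  have hKc : CompactSpace K := isCompact_iff_compactSpace.1 hK
  have hmain : ∀ (J : Type) [AddCommGroup J] [Module C J] (σ : Representation C G J), LadmInj σ →
      ∀ c : K → J, IsCoc (res σ K) c →
      ∃ (k : ℕ) (e : J), ∀ x : K, (hecke σ K t)^[k] c x = σ (x : G) e - e := by
    intro J _ _ σ hJ c hc
    have hF : (Set.range c).Finite := hc.cont.range_finite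
    obtain ⟨A, hFA, hA⟩ := IsLadm.exists_finite hG hJ.1 hF
    have hA' : IsAdm (subRep σ A hA.sub) := isAdm_subRep hJ.1.smooth hA
    obtain ⟨c', hc'⟩ : ∃ c' : K → A, ∀ x, ((c' x : A) : J) = c x :=
      ⟨fun x => ⟨c x, hFA ⟨x, rfl⟩⟩, fun _ => rfl⟩
    have hcoc : IsCoc (res (subRep σ A hA.sub) K) c' := by
      refine ⟨?_, ?_⟩
      · intro x y
        apply Subtype.ext
        have h1 := hc.mul x y
        rw [← hc', ← hc', ← hc'] at h1
        exact h1
      · refine IsLocallyConstant.desc c' (Subtype.val : A → J) ?_ Subtype.val_injective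
        have h2 : (Subtype.val : A → J) ∘ c' = c := funext hc'
        rw [h2]
        exact hc.cont
    obtain ⟨k, W, _, _, τ, i, e, hτ, hi, hinj, he⟩ := heff A (subRep σ A hA.sub) hA' c' hcoc
    obtain ⟨g, hg, hgi⟩ := hJ.2 A W (subRep σ A hA.sub) τ hA'.isLadm hτ.isLadm i hi hinj A.subtype
      (equi_subtype A hA.sub)
    refine ⟨k, g e, fun n => ?_⟩
    have h2 := he n
    have h3 := hecke_map (t := t) (ι := σ) (equi_subtype A hA.sub) c' k
    have h4 : (fun n : K => A.subtype (c' n)) = c := funext hc'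
    rw [h4] at h3
    have h5 := congrFun h3 n
    rw [h5, ← hgi, h2, map_sub, hg]
  refine ⟨heff, fun J _ _ σ hJ c hc => ⟨hecke_isCoc_gen hcj hc, hmain J σ hJ c hc⟩,
    fun hN J _ _ σ hJ => ⟨fun hS c hc _ => ?_, fun h => ?_⟩⟩
  · obtain ⟨e, he⟩ := van_of_smoothInj hS c hc
    exact ⟨e, fun n => he n⟩
  · refine smoothInj_of_van (p := p) hN (hJ.1.1.res K) fun c hc => ?_
    have key : ∀ (k : ℕ) (c : K → J), IsCoc (res σ K) c →
        (∃ e : J, ∀ n : K, (hecke σ K t)^[k] c n = σ (n : G) e - e) →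
        ∃ e : J, ∀ n : K, c n = σ (n : G) e - e := by
      intro k
      induction k with
      | zero => exact fun c _ he => he
      | succ k ih =>
        intro c hc he
        exact h c hc (ih (hecke σ K t c) (hecke_isCoc_gen hcj hc) he)
    obtain ⟨k, e, he⟩ := hmain J σ hJ c hc
    obtain ⟨e', he'⟩ := key k c hc ⟨e, he⟩
    exact ⟨e', fun n => he' n⟩

theorem noOrd_N (hG : IsPadicLie p G) (hP : IsPar N₀ Nm M t) : NoOrd p C N₀ t := by
  obtain ⟨U₁, hI₁⟩ := exists_iwa hP
  have hfin := cj_finite hP hI₁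
  refine noOrd_of_eff hG hP.compact_N (cj_open_N hP hI₁) ?_
  intro V _ _ ρ hρ c hc
  by_cases h0 : N₀ = ⊥
  · refine ⟨0, V, inferInstance, inferInstance, ρ, LinearMap.id, 0, hρ, fun _ _ => rfl,
      Function.injective_id, fun n => ?_⟩
    have hn : n = 1 := by
      apply Subtype.ext
      exact Subgroup.mem_bot.1 (h0.le n.2)
    have h2 : c 1 = 0 := hc.one
    rw [Function.iterate_zero, id, hn, h2, map_zero, map_zero, sub_zero]
  · obtain ⟨U, hI, c'', hcoc', hcc⟩ := ext_coc hP hρ.smooth hc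
    obtain ⟨k, W, iW, iW', τ, i, e, hτ, hi, hinj, he⟩ := eff_U hG hP hI h0 hρ hcoc'
    have h1 : (fun m : N₀ => c'' ⟨(m : G), hI.N_le m.2⟩) = c := funext hcc
    rw [h1] at he
    exact ⟨k, W, iW, iW', τ, i, e, hτ, hi, hinj, he⟩

theorem noOrd_U (hG : IsPadicLie p G) (hP : IsPar N₀ Nm M t) (h0 : N₀ ≠ ⊥)
    (hI : Iwa N₀ Nm M U t) : NoOrd p C U t := by
  have hfin := cjU_finite hI
  refine noOrd_of_eff hG hI.compact_U (cj_open_U hI) ?_
  intro V _ _ ρ hρ c hc
  obtain ⟨ω, hω⟩ := coc_lift hρ.smooth hI.open_U hc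
  exact eff_auxU hG hP hI h0 hρ (ses_inj hρ.smooth) hω

end Ord1
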