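import Pool.Agent.Ord1.Defs
import Pool.Agent.Emt.PUnits

/-!
# Ord1, module GDefs: the group `GL_n(D)`

`D` is a finite dimensional division algebra over `ℚ_p` with an ultrametric multiplicative norm.
* `GLn n D`: the topological group of the invertible `n × n` matrices;
* `upN n D`: the upper triangular matrices with diagonal entries `1` and entries of norm `≤ 1`;
* `loN n D`: the lower triangular matrices with diagonal entries `1`;
* `dgM n D`: the diagonal matrices;
* `tEl p n D`: the diagonal matrix with entries `p ^ (n - 1), ..., p, 1`;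
* `kb n D r`: the matrices `g` with all entries of `g - 1` and `g⁻¹ - 1` of norm `≤ r`.
(The conditions are imposed on `g` and `g⁻¹`.)
-/

open Topology Set

namespace Ord1

open Emt

/-- The general linear group of a normed division ring. -/
abbrev GLn (n : ℕ) (D : Type) [NormedDivisionRing D] := (Matrix (Fin n) (Fin n) D)ˣ

section Conditions

variable {n : ℕ} {D : Type} [NormedDivisionRing D]

/-- upper triangular with diagonal entries `1` -/
def UpU (g : Matrix (Fin n) (Fin n) D) : Prop := (∀ i, g i i = 1) ∧ ∀ i j, j < i → g i j = 0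

/-- lower triangular with diagonal entries `1` -/
def LoU (g : Matrix (Fin n) (Fin n) D) : Prop := (∀ i, g i i = 1) ∧ ∀ i j, i < j → g i j = 0

/-- diagonal -/
def Dia (g : Matrix (Fin n) (Fin n) D) : Prop := ∀ i j, i ≠ j → g i j = 0

/-- all the entries have norm at most `r` -/
def Nle (r : ℝ) (g : Matrix (Fin n) (Fin n) D) : Prop := ∀ i j, ‖g i j‖ ≤ r

theorem UpU.one : UpU (1 : Matrix (Fin n) (Fin n) D) :=
  ⟨fun i => Matrix.one_apply_eq i, fun _ _ h => Matrix.one_apply_ne (ne_of_gt h)⟩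

theorem LoU.one : LoU (1 : Matrix (Fin n) (Fin n) D) :=
  ⟨fun i => Matrix.one_apply_eq i, fun _ _ h => Matrix.one_apply_ne (ne_of_lt h)⟩

theorem Dia.one : Dia (1 : Matrix (Fin n) (Fin n) D) := fun _ _ h => Matrix.one_apply_ne h

theorem UpU.mul {g h : Matrix (Fin n) (Fin n) D} (hg : UpU g) (hh : UpU h) : UpU (g * h) := by
  constructor
  · intro i
    rw [Matrix.mul_apply, Finset.sum_eq_single i, hg.1, hh.1, one_mul]
    · intro k _ hk
      rcases lt_or_gt_of_ne hk with h1 | h1
      · rw [hg.2 i k h1, zero_mul]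
      · rw [hh.2 k i h1, mul_zero]
    · intro h1
      exact absurd (Finset.mem_univ i) h1
  · intro i j hij
    rw [Matrix.mul_apply]
    refine Finset.sum_eq_zero fun k _ => ?_
    rcases lt_or_ge k i with h1 | h1
    · rw [hg.2 i k h1, zero_mul]
    · rw [hh.2 k j (lt_of_lt_of_le hij h1), mul_zero]

theorem LoU.mul {g h : Matrix (Fin n) (Fin n) D} (hg : LoU g) (hh : LoU h) : LoU (g * h) := by
  constructor
  · intro i
    rw [Matrix.mul_apply, Finset.sum_eq_single i, hg.1, hh.1, one_mul]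
    · intro k _ hk
      rcases lt_or_gt_of_ne hk with h1 | h1
      · rw [hh.2 k i h1, mul_zero]
      · rw [hg.2 i k h1, zero_mul]
    · intro h1
      exact absurd (Finset.mem_univ i) h1
  · intro i j hij
    rw [Matrix.mul_apply]
    refine Finset.sum_eq_zero fun k _ => ?_
    rcases lt_or_ge i k with h1 | h1
    · rw [hg.2 i k h1, zero_mul]
    · rw [hh.2 k j (lt_of_le_of_lt h1 hij), mul_zero]

theorem Dia.mul {g h : Matrix (Fin n) (Fin n) D} (hg : Dia g) (hh : Dia h) : Dia (g * h) := by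
  intro i j hij
  rw [Matrix.mul_apply]
  refine Finset.sum_eq_zero fun k _ => ?_
  by_cases h1 : i = k
  · rw [← h1, hh i j hij, mul_zero]
  · rw [hg i k h1, zero_mul]

variable [IsUltrametricDist D]

theorem Nle.one : Nle 1 (1 : Matrix (Fin n) (Fin n) D) := by
  intro i j
  by_cases h : i = j
  · rw [h, Matrix.one_apply_eq, norm_one]
  · rw [Matrix.one_apply_ne h, norm_zero]
    exact zero_le_one

theorem nle_mul {r s : ℝ} (hr : 0 ≤ r) (hs : 0 ≤ s) {g h : Matrix (Fin n) (Fin n) D}
    (hg : Nle r g) (hh : Nle s h) : Nle (r * s) (g * h) := by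
  intro i j
  rw [Matrix.mul_apply]
  refine IsUltrametricDist.norm_sum_le_of_forall_le_of_nonneg (mul_nonneg hr hs) fun k _ => ?_
  rw [norm_mul]
  exact mul_le_mul (hg i k) (hh k j) (norm_nonneg _) hr

theorem nle_add {r : ℝ} {g h : Matrix (Fin n) (Fin n) D} (hg : Nle r g) (hh : Nle r h) :
    Nle r (g + h) := by
  intro i j
  exact (IsUltrametricDist.norm_add_le_max _ _).trans (max_le (hg i j) (hh i j))

end Conditions

section Groups

variable (n : ℕ) (D : Type) [NormedDivisionRing D]

/-- The lower triangular matrices with diagonal entries `1`. -/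
def loN : Subgroup (GLn n D) where
  carrier := {g | LoU (g : Matrix (Fin n) (Fin n) D) ∧
    LoU ((g⁻¹ : GLn n D) : Matrix (Fin n) (Fin n) D)}
  one_mem' := by
    refine ⟨LoU.one, ?_⟩
    rw [inv_one]
    exact LoU.one
  mul_mem' := by
    rintro g h ⟨h1, h2⟩ ⟨h3, h4⟩
    refine ⟨h1.mul h3, ?_⟩
    rw [mul_inv_rev]
    exact h4.mul h2
  inv_mem' := by
    rintro g ⟨h1, h2⟩
    refine ⟨h2, ?_⟩
    rw [inv_inv]
    exact h1

/-- The diagonal matrices. -/
def dgM : Subgroup (GLn n D) where
  carrier := {g | Dia (g : Matrix (Fin n) (Fin n) D) ∧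
    Dia ((g⁻¹ : GLn n D) : Matrix (Fin n) (Fin n) D)}
  one_mem' := by
    refine ⟨Dia.one, ?_⟩
    rw [inv_one]
    exact Dia.one
  mul_mem' := by
    rintro g h ⟨h1, h2⟩ ⟨h3, h4⟩
    refine ⟨h1.mul h3, ?_⟩
    rw [mul_inv_rev]
    exact h4.mul h2
  inv_mem' := by
    rintro g ⟨h1, h2⟩
    refine ⟨h2, ?_⟩
    rw [inv_inv]
    exact h1

/-- The upper triangular matrices with diagonal entries `1` and entries of norm `≤ 1`. -/
def upN [IsUltrametricDist D] : Subgroup (GLn n D) where
  carrier := {g | (UpU (g : Matrix (Fin n) (Fin n) D) ∧ Nle 1 (g : Matrix (Fin n) (Fin n) D)) ∧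
    UpU ((g⁻¹ : GLn n D) : Matrix (Fin n) (Fin n) D) ∧
    Nle 1 ((g⁻¹ : GLn n D) : Matrix (Fin n) (Fin n) D)}
  one_mem' := by
    refine ⟨⟨UpU.one, Nle.one⟩, ?_⟩
    rw [inv_one]
    exact ⟨UpU.one, Nle.one⟩
  mul_mem' := by
    rintro g h ⟨⟨h1, h1'⟩, h2, h2'⟩ ⟨⟨h3, h3'⟩, h4, h4'⟩
    refine ⟨⟨h1.mul h3, ?_⟩, ?_⟩
    · have := nle_mul zero_le_one zero_le_one h1' h3'
      rwa [mul_one] at this
    · rw [mul_inv_rev]
      refine ⟨h4.mul h2, ?_⟩
      have := nle_mul zero_le_one zero_le_one h4' h2'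
      rwa [mul_one] at this
  inv_mem' := by
    rintro g ⟨h1, h2⟩
    refine ⟨h2, ?_⟩
    rw [inv_inv]
    exact h1

/-- The matrices `g` such that the entries of `g - 1` and of `g⁻¹ - 1` have norm `≤ r`. -/
def kb [IsUltrametricDist D] (r : ℝ) (h0 : 0 ≤ r) (h1 : r ≤ 1) : Subgroup (GLn n D) where
  carrier := {g | Nle r ((g : Matrix (Fin n) (Fin n) D) - 1) ∧
    Nle r (((g⁻¹ : GLn n D) : Matrix (Fin n) (Fin n) D) - 1)}
  one_mem' := by
    refine ⟨?_, ?_⟩
    · intro i j
      rw [Units.val_one, sub_self, Matrix.zero_apply, norm_zero]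
      exact h0
    · intro i j
      rw [inv_one, Units.val_one, sub_self, Matrix.zero_apply, norm_zero]
      exact h0
  mul_mem' := by
    have key : ∀ a b : Matrix (Fin n) (Fin n) D, Nle r (a - 1) → Nle r (b - 1) →
        Nle r (a * b - 1) := by
      intro a b ha hb
      have e : a * b - 1 = (a - 1) * (b - 1) + ((a - 1) + (b - 1)) := by
        noncomm_ring
      rw [e]
      refine nle_add ?_ (nle_add ha hb)
      intro i j
      refine (nle_mul h0 h0 ha hb i j).trans ?_
      exact mul_le_of_le_one_left h0 h1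
    rintro g h ⟨h1, h2⟩ ⟨h3, h4⟩
    refine ⟨?_, ?_⟩
    · rw [Units.val_mul]
      exact key _ _ h1 h3
    · rw [mul_inv_rev, Units.val_mul]
      exact key _ _ h4 h2
  inv_mem' := by
    rintro g ⟨h1, h2⟩
    refine ⟨h2, ?_⟩
    rw [inv_inv]
    exact h1

variable {n D} in
/-- The diagonal matrix with given invertible entries. -/
def dgU (a : Fin n → Dˣ) : GLn n D where
  val := Matrix.diagonal fun i => (a i : D)
  inv := Matrix.diagonal fun i => ((a i)⁻¹ : Dˣ)
  val_inv := by
    rw [Matrix.diagonal_mul_diagonal, ← Matrix.diagonal_one]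
    congr 1
    funext i
    exact Units.mul_inv (a i)
  inv_val := by
    rw [Matrix.diagonal_mul_diagonal, ← Matrix.diagonal_one]
    congr 1
    funext i
    exact Units.inv_mul (a i)

/-- `p` as a unit of `D`. -/
noncomputable def pU (p : ℕ) [Fact p.Prime] (D : Type) [NormedDivisionRing D]
    [NormedAlgebra ℚ_[p] D] : Dˣ :=
  Units.mk0 (algebraMap ℚ_[p] D (p : ℚ_[p])) (by
    rw [Ne, map_eq_zero]
    exact Nat.cast_ne_zero.2 (Fact.out : p.Prime).ne_zero)

/-- The diagonal matrix with entries `p ^ (n - 1), ..., p, 1`. -/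
noncomputable def tEl (p : ℕ) [Fact p.Prime] (n : ℕ) (D : Type) [NormedDivisionRing D]
    [NormedAlgebra ℚ_[p] D] : GLn n D := dgU fun i => pU p D ^ (n - 1 - (i : ℕ))

/-- The diagonal matrix with the entry `p` at the place `j` and `1` elsewhere. -/
noncomputable def sEl (p : ℕ) [Fact p.Prime] (n : ℕ) (D : Type) [NormedDivisionRing D]
    [NormedAlgebra ℚ_[p] D] (j : Fin n) : GLn n D := dgU fun i => if i = j then pU p D else 1

end Groups

end Ord1
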