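import Pool.Agent.Ord1.GTop

/-!
# Ord1, module GElem: diagonal matrices and conjugation in `GL_n(D)`

PROOFS. All by entries.
* `dgU_conj`: `(dgU a g (dgU a)⁻¹) i j = a i · g i j · (a j)⁻¹`.
* `mem_dgM`: a diagonal unit is `dgU a` (`a i` = the diagonal entry, its inverse is the diagonal entry
  of the inverse).
* `upN_mul_norm`: if `n ∈ upN`, `k ∈ kb r` then `n k n⁻¹ ∈ kb r`: `n k n⁻¹ - 1 = n (k - 1) n⁻¹`, `nle_mul`.
* `tEl_conj`: `(t ^ j g t ^ (-j)) a b = p ^ (j (n-1-a)) g a b p ^ (- j (n-1-b))`, of norm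
  `‖p‖ ^ (j (b - a)) ‖g a b‖` for `a < b` and `‖p‖ ^ (- j (a - b)) ‖g a b‖` for `b < a`
  (`pU` is central, `algebraMap`; `‖p‖ = p⁻¹ < 1`, `norm_algebraMap'`, `Padic.norm_p`).
* `gl_contr`, `gl_contr_lim`, `gl_expand_lim`: by `tEl_conj` for `g` and `g⁻¹`, `gl_nhds`, `gl_bdd`;
  `‖p‖ ^ j R → 0`.
* `gl_disj`: `n = m n'`: the left side is upper triangular with diagonal `1`, the right side is lower
  triangular with diagonal entries `m i i`; so both are `1` resp. `m i i = 1`.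
* `gl_proj`: `(m n) i i = m i i` for `n ∈ loN`, `(n⁻¹ m⁻¹) i i = m⁻¹ i i`: so `m` is in the compact set
  of `gl_compact` for the bound of `gl_bdd`.
* `gl_minimal`: for `m = dgU a` choose integers `e i` with `p⁻¹ < ‖a i‖ ‖p‖ ^ (- e i) ≤ 1`
  (`exists_mem_Ioc_zpow`); `m = x z` with `z = ∏ (sEl i) ^ (e i)` = `dgU (pU ^ e i)` and `x` with entries
  `a i pU ^ (- e i)` of norm in `(p⁻¹, 1]`: in the compact set of `gl_compact` for `R = p`.
  `dgU (pU ^ e i)` is in the closure of the `sEl j`: it is `∏ j, (sEl j) ^ (e j)` (`dgU` is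
  multiplicative in `a`; `Finset.noncommProd` can be avoided by an induction on a finset of indices).
-/

open Topology Set

namespace Ord1

open Emt

variable {p : ℕ} [Fact p.Prime] {n : ℕ} {D : Type} [NormedDivisionRing D] [NormedAlgebra ℚ_[p] D]
  [FiniteDimensional ℚ_[p] D] [IsUltrametricDist D]

omit [NormedAlgebra ℚ_[p] D] [FiniteDimensional ℚ_[p] D] [IsUltrametricDist D] [Fact p.Prime] in
theorem dgU_conj (a : Fin n → Dˣ) (g : GLn n D) (i j : Fin n) :
    ((dgU a * g * (dgU a)⁻¹ : GLn n D) : Matrix (Fin n) (Fin n) D) i j =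
      (a i : D) * (g : Matrix (Fin n) (Fin n) D) i j * ((a j)⁻¹ : Dˣ) := by
  rw [Units.val_mul, Units.val_mul]
  change (Matrix.diagonal (fun i => (a i : D)) * (g : Matrix (Fin n) (Fin n) D) *
    Matrix.diagonal (fun i => (((a i)⁻¹ : Dˣ) : D))) i j = _
  rw [Matrix.mul_diagonal, Matrix.diagonal_mul]

omit [NormedAlgebra ℚ_[p] D] [FiniteDimensional ℚ_[p] D] [IsUltrametricDist D] [Fact p.Prime] in
private theorem gel_conj_inv (u g : GLn n D) : (u * g * u⁻¹)⁻¹ = u * g⁻¹ * u⁻¹ := by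
  group

omit [NormedAlgebra ℚ_[p] D] [FiniteDimensional ℚ_[p] D] [IsUltrametricDist D] [Fact p.Prime] in
private theorem gel_mul (a b : Fin n → Dˣ) : (dgU (a * b) : GLn n D) = dgU a * dgU b := by
  apply Units.ext
  rw [Units.val_mul]
  change Matrix.diagonal (fun i => ((a * b) i : D)) =
    Matrix.diagonal (fun i => (a i : D)) * Matrix.diagonal (fun i => (b i : D))
  rw [Matrix.diagonal_mul_diagonal]
  rfl

omit [NormedAlgebra ℚ_[p] D] [FiniteDimensional ℚ_[p] D] [IsUltrametricDist D] [Fact p.Prime] in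
private theorem gel_one : (dgU (1 : Fin n → Dˣ) : GLn n D) = 1 := by
  apply Units.ext
  change Matrix.diagonal (fun _ => ((1 : Dˣ) : D)) = 1
  rw [Units.val_one, Matrix.diagonal_one]

/-- the diagonal matrices as a homomorphism -/
private def gelHom (n : ℕ) (D : Type) [NormedDivisionRing D] : (Fin n → Dˣ) →* GLn n D where
  toFun := dgU
  map_one' := gel_one
  map_mul' := gel_mul

omit [NormedAlgebra ℚ_[p] D] [FiniteDimensional ℚ_[p] D] [IsUltrametricDist D] [Fact p.Prime] in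
theorem mem_dgM {g : GLn n D} : g ∈ dgM n D ↔ ∃ a : Fin n → Dˣ, g = dgU a := by
  constructor
  · rintro ⟨h1, h2⟩
    have key : ∀ a b : Matrix (Fin n) (Fin n) D, Dia a → a * b = 1 → ∀ i, a i i * b i i = 1 := by
      intro a b ha hab i
      have h3 : (a * b) i i = 1 := by rw [hab, Matrix.one_apply_eq]
      rw [Matrix.mul_apply, Finset.sum_eq_single i] at h3
      · exact h3
      · intro k _ hk
        rw [ha i k (Ne.symm hk), zero_mul]
      · intro h4
        exact absurd (Finset.mem_univ i) h4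
    refine ⟨fun i => ⟨(g : Matrix (Fin n) (Fin n) D) i i,
      ((g⁻¹ : GLn n D) : Matrix (Fin n) (Fin n) D) i i,
      key _ _ h1 (Units.mul_inv g) i, key _ _ h2 (Units.inv_mul g) i⟩, ?_⟩
    apply Units.ext
    ext i j
    change _ = Matrix.diagonal (fun i => (g : Matrix (Fin n) (Fin n) D) i i) i j
    by_cases hij : i = j
    · rw [hij, Matrix.diagonal_apply_eq]
    · rw [Matrix.diagonal_apply_ne _ hij, h1 i j hij]
  · rintro ⟨a, rfl⟩
    refine ⟨?_, ?_⟩
    · intro i j hij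
      exact Matrix.diagonal_apply_ne _ hij
    · intro i j hij
      exact Matrix.diagonal_apply_ne _ hij

omit [NormedAlgebra ℚ_[p] D] [FiniteDimensional ℚ_[p] D] [IsUltrametricDist D] [Fact p.Prime] in
theorem gl_norm : ∀ m ∈ dgM n D, ∀ x ∈ loN n D, m * x * m⁻¹ ∈ loN n D := by
  intro m hm x hx
  obtain ⟨a, rfl⟩ := mem_dgM.1 hm
  have key : ∀ y : GLn n D, LoU (y : Matrix (Fin n) (Fin n) D) →
      LoU ((dgU a * y * (dgU a)⁻¹ : GLn n D) : Matrix (Fin n) (Fin n) D) := by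
    intro y hy
    refine ⟨fun i => ?_, fun i j hij => ?_⟩
    · rw [dgU_conj, hy.1, mul_one, Units.mul_inv]
    · rw [dgU_conj, hy.2 i j hij, mul_zero, zero_mul]
  refine ⟨key x hx.1, ?_⟩
  rw [gel_conj_inv]
  exact key _ hx.2

omit [NormedAlgebra ℚ_[p] D] [FiniteDimensional ℚ_[p] D] [Fact p.Prime] in
theorem gl_kb_norm {r : ℝ} (h0 : 0 ≤ r) (h1 : r ≤ 1) :
    ∀ x ∈ upN n D, ∀ k ∈ kb n D r h0 h1, x * k * x⁻¹ ∈ kb n D r h0 h1 := by
  intro x hx k hk
  have key : ∀ y : GLn n D, Nle r ((y : Matrix (Fin n) (Fin n) D) - 1) →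
      Nle r (((x * y * x⁻¹ : GLn n D) : Matrix (Fin n) (Fin n) D) - 1) := by
    intro y hy
    have e : ((x * y * x⁻¹ : GLn n D) : Matrix (Fin n) (Fin n) D) - 1 =
        (x : Matrix (Fin n) (Fin n) D) * ((y : Matrix (Fin n) (Fin n) D) - 1) *
          ((x⁻¹ : GLn n D) : Matrix (Fin n) (Fin n) D) := by
      rw [Units.val_mul, Units.val_mul, mul_sub, sub_mul, mul_one, Units.mul_inv]
    rw [e]
    have h3 := nle_mul (mul_nonneg zero_le_one h0) zero_le_one
      (nle_mul zero_le_one h0 hx.1.2 hy) hx.2.2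
    rwa [one_mul, mul_one] at h3
  refine ⟨key k hk.1, ?_⟩
  rw [gel_conj_inv]
  exact key _ hk.2

omit [FiniteDimensional ℚ_[p] D] [IsUltrametricDist D] in
private theorem gel_pU_comm (u : Dˣ) : pU p D * u = u * pU p D := by
  apply Units.ext
  rw [Units.val_mul, Units.val_mul]
  exact Algebra.commutes (p : ℚ_[p]) (u : D)

omit [FiniteDimensional ℚ_[p] D] [IsUltrametricDist D] in
theorem gl_t_mem : tEl p n D ∈ dgM n D ∧ ∀ m ∈ dgM n D, tEl p n D * m = m * tEl p n D := by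
  refine ⟨mem_dgM.2 ⟨_, rfl⟩, ?_⟩
  intro m hm
  obtain ⟨a, rfl⟩ := mem_dgM.1 hm
  unfold tEl
  rw [← gel_mul, ← gel_mul]
  congr 1
  funext i
  have h : Commute (pU p D) (a i) := gel_pU_comm (a i)
  exact h.pow_left _

omit [FiniteDimensional ℚ_[p] D] [IsUltrametricDist D] in
theorem gl_s_mem (j : Fin n) :
    sEl p n D j ∈ dgM n D ∧ ∀ m ∈ dgM n D, sEl p n D j * m = m * sEl p n D j := by
  refine ⟨mem_dgM.2 ⟨_, rfl⟩, ?_⟩
  intro m hm
  obtain ⟨a, rfl⟩ := mem_dgM.1 hm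
  unfold sEl
  rw [← gel_mul, ← gel_mul]
  congr 1
  funext i
  change (if i = j then pU p D else 1) * a i = a i * (if i = j then pU p D else 1)
  split_ifs
  · exact gel_pU_comm (a i)
  · rw [one_mul, mul_one]

variable (p D) in
/-- the norm of `p` -/
private noncomputable def gelπ : ℝ := ‖((pU p D : Dˣ) : D)‖

omit [FiniteDimensional ℚ_[p] D] [IsUltrametricDist D] in
private theorem gelπ_eq : gelπ p D = (p : ℝ)⁻¹ := by
  unfold gelπ pU
  rw [Units.val_mk0, norm_algebraMap', Padic.norm_p]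

omit [FiniteDimensional ℚ_[p] D] [IsUltrametricDist D] in
private theorem gelπ_pos : 0 < gelπ p D := by
  rw [gelπ_eq]
  have : (0 : ℝ) < p := by exact_mod_cast (Fact.out : p.Prime).pos
  positivity

omit [FiniteDimensional ℚ_[p] D] [IsUltrametricDist D] in
private theorem gelπ_lt : gelπ p D < 1 := by
  rw [gelπ_eq]
  have : (1 : ℝ) < p := by exact_mod_cast (Fact.out : p.Prime).one_lt
  exact inv_lt_one_of_one_lt₀ this

omit [FiniteDimensional ℚ_[p] D] [IsUltrametricDist D] in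
private theorem gel_tpow (j : ℕ) :
    tEl p n D ^ j = dgU fun i : Fin n => pU p D ^ (j * (n - 1 - (i : ℕ))) := by
  have h := map_pow (gelHom n D) (fun i : Fin n => pU p D ^ (n - 1 - (i : ℕ))) j
  refine h.symm.trans ?_
  change dgU _ = _
  congr 1
  funext i
  rw [Pi.pow_apply, ← pow_mul, mul_comm]

omit [FiniteDimensional ℚ_[p] D] [IsUltrametricDist D] in
private theorem gel_cn (j : ℕ) (x : GLn n D) (a b : Fin n) :
    ‖((tEl p n D ^ j * x * (tEl p n D ^ j)⁻¹ : GLn n D) : Matrix (Fin n) (Fin n) D) a b‖ =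
      gelπ p D ^ (j * (n - 1 - (a : ℕ))) * ‖(x : Matrix (Fin n) (Fin n) D) a b‖ *
        (gelπ p D ^ (j * (n - 1 - (b : ℕ))))⁻¹ := by
  rw [gel_tpow, dgU_conj, norm_mul, norm_mul, Units.val_inv_eq_inv_val, norm_inv,
    Units.val_pow_eq_pow_val, Units.val_pow_eq_pow_val, norm_pow, norm_pow]
  rfl

omit [FiniteDimensional ℚ_[p] D] [IsUltrametricDist D] in
private theorem gel_cn' (j : ℕ) (x : GLn n D) (a b : Fin n) :
    ‖(((tEl p n D ^ j)⁻¹ * x * tEl p n D ^ j : GLn n D) : Matrix (Fin n) (Fin n) D) a b‖ =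
      (gelπ p D ^ (j * (n - 1 - (a : ℕ))))⁻¹ * ‖(x : Matrix (Fin n) (Fin n) D) a b‖ *
        gelπ p D ^ (j * (n - 1 - (b : ℕ))) := by
  have h := gel_cn (p := p) j ((tEl p n D ^ j)⁻¹ * x * tEl p n D ^ j) a b
  have e : tEl p n D ^ j * ((tEl p n D ^ j)⁻¹ * x * tEl p n D ^ j) * (tEl p n D ^ j)⁻¹ = x := by
    group
  rw [e] at h
  have h1 : 0 < gelπ p D ^ (j * (n - 1 - (a : ℕ))) := pow_pos gelπ_pos _
  have h2 : 0 < gelπ p D ^ (j * (n - 1 - (b : ℕ))) := pow_pos gelπ_pos _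
  rw [h]
  field_simp

omit [FiniteDimensional ℚ_[p] D] [IsUltrametricDist D] in
private theorem gel_ratio (j : ℕ) {a b : Fin n} (hab : a < b) {R s : ℝ} (hs : 0 ≤ s)
    (h : s ≤ R) : gelπ p D ^ (j * (n - 1 - (a : ℕ))) * s *
        (gelπ p D ^ (j * (n - 1 - (b : ℕ))))⁻¹ ≤ gelπ p D ^ j * R := by
  have h2 : 0 < gelπ p D ^ (j * (n - 1 - (b : ℕ))) := pow_pos gelπ_pos _
  have e : j * (n - 1 - (a : ℕ)) = j * (n - 1 - (b : ℕ)) + j * ((b : ℕ) - a) := by
    rw [← mul_add]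
    congr 1
    have := b.2
    have h4 : (a : ℕ) < b := hab
    omega
  rw [e, pow_add]
  have h5 : gelπ p D ^ (j * ((b : ℕ) - a)) ≤ gelπ p D ^ j := by
    apply pow_le_pow_of_le_one gelπ_pos.le gelπ_lt.le
    have h4 : (a : ℕ) < b := hab
    exact Nat.le_mul_of_pos_right j (by omega)
  have h6 : gelπ p D ^ (j * (n - 1 - (b : ℕ))) * gelπ p D ^ (j * ((b : ℕ) - a)) * s *
        (gelπ p D ^ (j * (n - 1 - (b : ℕ))))⁻¹ = gelπ p D ^ (j * ((b : ℕ) - a)) * s := by
    field_simp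
  rw [h6]
  exact mul_le_mul h5 h hs (pow_nonneg gelπ_pos.le _)

omit [FiniteDimensional ℚ_[p] D] [IsUltrametricDist D] in
private theorem gel_up (j : ℕ) (x : GLn n D) (hx : UpU (x : Matrix (Fin n) (Fin n) D)) {R : ℝ}
    (hR : 0 ≤ R) (h : ∀ a b, a < b → ‖(x : Matrix (Fin n) (Fin n) D) a b‖ ≤ R) :
    UpU ((tEl p n D ^ j * x * (tEl p n D ^ j)⁻¹ : GLn n D) : Matrix (Fin n) (Fin n) D) ∧
    Nle (gelπ p D ^ j * R)
      (((tEl p n D ^ j * x * (tEl p n D ^ j)⁻¹ : GLn n D) : Matrix (Fin n) (Fin n) D) - 1) := by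
  have hU : UpU ((tEl p n D ^ j * x * (tEl p n D ^ j)⁻¹ : GLn n D) :
      Matrix (Fin n) (Fin n) D) := by
    refine ⟨fun i => ?_, fun a b hab => ?_⟩
    · rw [gel_tpow, dgU_conj, hx.1, mul_one, Units.mul_inv]
    · rw [gel_tpow, dgU_conj, hx.2 a b hab, mul_zero, zero_mul]
  refine ⟨hU, ?_⟩
  intro a b
  rw [Matrix.sub_apply]
  rcases lt_trichotomy a b with hab | hab | hab
  · rw [Matrix.one_apply_ne hab.ne, sub_zero, gel_cn]
    exact gel_ratio j hab (norm_nonneg _) (h a b hab)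
  · rw [hab, hU.1, Matrix.one_apply_eq, sub_self, norm_zero]
    exact mul_nonneg (pow_nonneg gelπ_pos.le _) hR
  · rw [hU.2 a b hab, Matrix.one_apply_ne hab.ne', sub_self, norm_zero]
    exact mul_nonneg (pow_nonneg gelπ_pos.le _) hR

omit [FiniteDimensional ℚ_[p] D] [IsUltrametricDist D] in
private theorem gel_lo (j : ℕ) (x : GLn n D) (hx : LoU (x : Matrix (Fin n) (Fin n) D)) {R : ℝ}
    (hR : 0 ≤ R) (h : ∀ a b, b < a → ‖(x : Matrix (Fin n) (Fin n) D) a b‖ ≤ R) :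
    Nle (gelπ p D ^ j * R)
      ((((tEl p n D ^ j)⁻¹ * x * tEl p n D ^ j : GLn n D) : Matrix (Fin n) (Fin n) D) - 1) := by
  have hU : LoU (((tEl p n D ^ j)⁻¹ * x * tEl p n D ^ j : GLn n D) :
      Matrix (Fin n) (Fin n) D) := by
    have hmem : (tEl p n D ^ j)⁻¹ ∈ dgM n D := inv_mem (pow_mem gl_t_mem.1 j)
    obtain ⟨a, ha⟩ := mem_dgM.1 hmem
    have e : (tEl p n D ^ j)⁻¹ * x * tEl p n D ^ j = dgU a * x * (dgU a)⁻¹ := by
      rw [← ha, inv_inv]
    rw [e]
    refine ⟨fun i => ?_, fun i k hik => ?_⟩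
    · rw [dgU_conj, hx.1, mul_one, Units.mul_inv]
    · rw [dgU_conj, hx.2 i k hik, mul_zero, zero_mul]
  intro a b
  rw [Matrix.sub_apply]
  rcases lt_trichotomy a b with hab | hab | hab
  · rw [hU.2 a b hab, Matrix.one_apply_ne hab.ne, sub_self, norm_zero]
    exact mul_nonneg (pow_nonneg gelπ_pos.le _) hR
  · rw [hab, hU.1, Matrix.one_apply_eq, sub_self, norm_zero]
    exact mul_nonneg (pow_nonneg gelπ_pos.le _) hR
  · rw [Matrix.one_apply_ne hab.ne', sub_zero, gel_cn']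
    have h3 := gel_ratio (p := p) (D := D) j hab (norm_nonneg _) (h a b hab)
    refine le_trans (le_of_eq ?_) h3
    ring

omit [FiniteDimensional ℚ_[p] D] in
theorem gl_contr : ∀ x ∈ upN n D, tEl p n D * x * (tEl p n D)⁻¹ ∈ upN n D := by
  intro x hx
  have key : ∀ y : GLn n D, UpU (y : Matrix (Fin n) (Fin n) D) →
      Nle 1 (y : Matrix (Fin n) (Fin n) D) →
      UpU ((tEl p n D * y * (tEl p n D)⁻¹ : GLn n D) : Matrix (Fin n) (Fin n) D) ∧
        Nle 1 ((tEl p n D * y * (tEl p n D)⁻¹ : GLn n D) : Matrix (Fin n) (Fin n) D) := by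
    intro y hy hy1
    have h := gel_up (p := p) 1 y hy zero_le_one (fun a b _ => hy1 a b)
    rw [pow_one, pow_one, mul_one] at h
    refine ⟨h.1, ?_⟩
    have h2 := nle_add (fun i j => (h.2 i j).trans gelπ_lt.le) (Nle.one (n := n) (D := D))
    rwa [sub_add_cancel] at h2
  refine ⟨key x hx.1.1 hx.1.2, ?_⟩
  rw [gel_conj_inv]
  exact key _ hx.2.1 hx.2.2

omit [FiniteDimensional ℚ_[p] D] [IsUltrametricDist D] in
private theorem gel_small {ε R : ℝ} (hε : 0 < ε) (hR : 0 < R) : ∃ k : ℕ, ∀ j ≥ k,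
    gelπ p D ^ j * R ≤ ε := by
  obtain ⟨k, hk⟩ := exists_pow_lt_of_lt_one (div_pos hε hR) (gelπ_lt (p := p) (D := D))
  refine ⟨k, fun j hj => ?_⟩
  have h1 : gelπ p D ^ j ≤ gelπ p D ^ k := pow_le_pow_of_le_one gelπ_pos.le gelπ_lt.le hj
  rw [lt_div_iff₀ hR] at hk
  exact (mul_le_mul_of_nonneg_right h1 hR.le).trans hk.le

omit [FiniteDimensional ℚ_[p] D] in
theorem gl_contr_lim : ∀ O ∈ 𝓝 (1 : GLn n D), ∃ k : ℕ, ∀ j ≥ k, ∀ x ∈ upN n D,
    tEl p n D ^ j * x * (tEl p n D ^ j)⁻¹ ∈ O := by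
  intro O hO
  obtain ⟨ε, hε, h⟩ := gl_nhds hO
  obtain ⟨k, hk⟩ := gel_small (p := p) (D := D) hε one_pos
  refine ⟨k, fun j hj x hx => ?_⟩
  apply h
  · intro a b
    exact ((gel_up j x hx.1.1 zero_le_one (fun a b _ => hx.1.2 a b)).2 a b).trans (hk j hj)
  · rw [gel_conj_inv]
    intro a b
    exact ((gel_up j x⁻¹ hx.2.1 zero_le_one (fun a b _ => hx.2.2 a b)).2 a b).trans (hk j hj)

omit [FiniteDimensional ℚ_[p] D] [IsUltrametricDist D] in
private theorem gel_inv' (u g : GLn n D) : (u⁻¹ * g * u)⁻¹ = u⁻¹ * g⁻¹ * u := by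
  group

omit [FiniteDimensional ℚ_[p] D] in
theorem gl_expand_lim : ∀ Ω ⊆ (loN n D : Set (GLn n D)), IsCompact Ω → ∀ O ∈ 𝓝 (1 : GLn n D),
    ∃ k : ℕ, ∀ j ≥ k, ∀ x ∈ Ω, (tEl p n D ^ j)⁻¹ * x * tEl p n D ^ j ∈ O := by
  intro Ω hΩ hc O hO
  obtain ⟨ε, hε, h⟩ := gl_nhds hO
  obtain ⟨R, hR, hb⟩ := gl_bdd hc
  obtain ⟨k, hk⟩ := gel_small (p := p) (D := D) hε hR
  refine ⟨k, fun j hj x hx => ?_⟩
  have hx1 : x ∈ loN n D := hΩ hx
  apply h
  · intro a b
    exact (gel_lo j x hx1.1 hR.le (fun a b _ => (hb x hx).1 a b) a b).trans (hk j hj)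
  · rw [gel_inv']
    intro a b
    exact (gel_lo j x⁻¹ hx1.2 hR.le (fun a b _ => (hb x hx).2 a b) a b).trans (hk j hj)

omit [FiniteDimensional ℚ_[p] D] in
theorem gl_kb_contr {r : ℝ} (h0 : 0 ≤ r) (h1 : r ≤ 1) : ∀ b ∈ kb n D r h0 h1 ⊓ loN n D,
    (tEl p n D)⁻¹ * b * tEl p n D ∈ kb n D r h0 h1 := by
  intro b hb
  have hb1 : b ∈ kb n D r h0 h1 := hb.1
  have hb2 : b ∈ loN n D := hb.2
  have key : ∀ y : GLn n D, LoU (y : Matrix (Fin n) (Fin n) D) →
      Nle r ((y : Matrix (Fin n) (Fin n) D) - 1) →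
      Nle r ((((tEl p n D)⁻¹ * y * tEl p n D : GLn n D) : Matrix (Fin n) (Fin n) D) - 1) := by
    intro y hy hyr
    have h := gel_lo (p := p) 1 y hy h0 (fun a c hac => by
      have h3 := hyr a c
      rwa [Matrix.sub_apply, Matrix.one_apply_ne hac.ne', sub_zero] at h3)
    rw [pow_one, pow_one] at h
    intro a c
    refine (h a c).trans ?_
    exact mul_le_of_le_one_left h0 gelπ_lt.le
  refine ⟨key b hb2.1 hb1.1, ?_⟩
  rw [gel_inv']
  exact key _ hb2.2 hb1.2

omit [NormedAlgebra ℚ_[p] D] [FiniteDimensional ℚ_[p] D] [Fact p.Prime] in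
theorem gl_disj : ∀ x ∈ upN n D, ∀ m ∈ dgM n D, ∀ y ∈ loN n D, x = m * y → x = 1 ∧ m = 1 := by
  intro x hx m hm y hy hxy
  obtain ⟨a, rfl⟩ := mem_dgM.1 hm
  have hent : ∀ i j, (x : Matrix (Fin n) (Fin n) D) i j =
      (a i : D) * (y : Matrix (Fin n) (Fin n) D) i j := by
    intro i j
    rw [hxy, Units.val_mul]
    change (Matrix.diagonal (fun i => (a i : D)) * (y : Matrix (Fin n) (Fin n) D)) i j = _
    rw [Matrix.diagonal_mul]
  have ha : ∀ i, a i = 1 := by
    intro i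
    have h := hent i i
    rw [hx.1.1.1, hy.1.1, mul_one] at h
    exact Units.ext h.symm
  have hm1 : (dgU a : GLn n D) = 1 := by
    rw [show a = 1 from funext ha]
    exact gel_one
  refine ⟨?_, hm1⟩
  apply Units.ext
  ext i j
  rw [Units.val_one]
  rcases lt_trichotomy i j with hij | hij | hij
  · rw [hent, hy.1.2 i j hij, mul_zero, Matrix.one_apply_ne hij.ne]
  · rw [hij, hx.1.1.1, Matrix.one_apply_eq]
  · rw [hx.1.1.2 i j hij, Matrix.one_apply_ne hij.ne']

omit [NormedAlgebra ℚ_[p] D] [FiniteDimensional ℚ_[p] D] [IsUltrametricDist D] [Fact p.Prime] in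
private theorem gel_nle (a : Fin n → Dˣ) {R : ℝ} (hR : 0 ≤ R) (h : ∀ i, ‖(a i : D)‖ ≤ R)
    (h' : ∀ i, ‖(((a i)⁻¹ : Dˣ) : D)‖ ≤ R) :
    Nle R ((dgU a : GLn n D) : Matrix (Fin n) (Fin n) D) ∧
      Nle R (((dgU a)⁻¹ : GLn n D) : Matrix (Fin n) (Fin n) D) := by
  constructor
  · intro i j
    change ‖Matrix.diagonal (fun i => (a i : D)) i j‖ ≤ R
    by_cases hij : i = j
    · rw [hij, Matrix.diagonal_apply_eq]
      exact h j
    · rw [Matrix.diagonal_apply_ne _ hij, norm_zero]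
      exact hR
  · intro i j
    change ‖Matrix.diagonal (fun i => (((a i)⁻¹ : Dˣ) : D)) i j‖ ≤ R
    by_cases hij : i = j
    · rw [hij, Matrix.diagonal_apply_eq]
      exact h' j
    · rw [Matrix.diagonal_apply_ne _ hij, norm_zero]
      exact hR

variable (p) in
include p in
theorem gl_proj : ∀ Ω : Set (GLn n D), IsCompact Ω → ∃ Ω' : Set (GLn n D), IsCompact Ω' ∧
    ∀ m ∈ dgM n D, ∀ y ∈ loN n D, m * y ∈ Ω → m ∈ Ω' := by
  intro Ω hΩ
  obtain ⟨R, hR, hb⟩ := gl_bdd hΩ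
  refine ⟨_, gl_compact p R, ?_⟩
  intro m hm y hy hmy
  obtain ⟨a, rfl⟩ := mem_dgM.1 hm
  obtain ⟨h1, h2⟩ := hb _ hmy
  refine gel_nle a hR.le (fun i => ?_) (fun i => ?_)
  · have h3 := h1 i i
    rw [Units.val_mul] at h3
    change ‖(Matrix.diagonal (fun i => (a i : D)) * (y : Matrix (Fin n) (Fin n) D)) i i‖ ≤ R at h3
    rwa [Matrix.diagonal_mul, hy.1.1, mul_one] at h3
  · have h3 := h2 i i
    rw [mul_inv_rev, Units.val_mul] at h3
    change ‖(((y⁻¹ : GLn n D) : Matrix (Fin n) (Fin n) D) *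
      Matrix.diagonal (fun i => (((a i)⁻¹ : Dˣ) : D))) i i‖ ≤ R at h3
    rwa [Matrix.mul_diagonal, hy.2.1, one_mul] at h3

variable (p) in
include p in
theorem gl_minimal : ∃ (S : Finset (GLn n D)) (Ω : Set (GLn n D)), IsCompact Ω ∧
    (∀ s ∈ S, s ∈ dgM n D ∧ ∀ m ∈ dgM n D, s * m = m * s) ∧
    ∀ m ∈ dgM n D, ∃ x ∈ Ω, ∃ z ∈ Subgroup.closure (S : Set (GLn n D)), m = x * z := by
  classical
  have hp1 : (1 : ℝ) < p := by exact_mod_cast (Fact.out : p.Prime).one_lt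
  refine ⟨Finset.univ.image (sEl p n D), _, gl_compact p (p : ℝ), ?_, ?_⟩
  · intro s hs
    obtain ⟨j, _, rfl⟩ := Finset.mem_image.1 hs
    exact gl_s_mem j
  · intro m hm
    obtain ⟨a, rfl⟩ := mem_dgM.1 hm
    have hex : ∀ i, ∃ k : ℤ, (p : ℝ) ^ k < ‖(a i : D)‖ ∧ ‖(a i : D)‖ ≤ (p : ℝ) ^ (k + 1) := by
      intro i
      obtain ⟨k, hk⟩ := exists_mem_Ioc_zpow (norm_pos_iff.2 (a i).ne_zero) hp1
      exact ⟨k, hk.1, hk.2⟩
    choose k hk1 hk2 using hex
    let z : Fin n → Dˣ := fun i => pU p D ^ (-(k i + 1))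
    have hzn : ∀ i, ‖((z i : Dˣ) : D)‖ = (p : ℝ) ^ (k i + 1) := by
      intro i
      change ‖((pU p D ^ (-(k i + 1)) : Dˣ) : D)‖ = _
      rw [Units.val_zpow_eq_zpow_val, norm_zpow]
      change gelπ p D ^ (-(k i + 1)) = _
      rw [gelπ_eq, inv_zpow', neg_neg]
    have hp0 : (0 : ℝ) < p := by linarith
    refine ⟨dgU (a * z⁻¹), ?_, dgU z, ?_, ?_⟩
    · refine gel_nle _ hp0.le (fun i => ?_) (fun i => ?_)
      · change ‖((a i * (z i)⁻¹ : Dˣ) : D)‖ ≤ p
        rw [Units.val_mul, norm_mul, Units.val_inv_eq_inv_val, norm_inv, hzn]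
        have h3 : 0 < (p : ℝ) ^ (k i + 1) := zpow_pos hp0 _
        rw [← div_eq_mul_inv, div_le_iff₀ h3]
        nlinarith [hk2 i]
      · change ‖(((a i * (z i)⁻¹)⁻¹ : Dˣ) : D)‖ ≤ p
        rw [mul_inv_rev, inv_inv, Units.val_mul, norm_mul, Units.val_inv_eq_inv_val, norm_inv, hzn]
        have h3 : 0 < ‖(a i : D)‖ := norm_pos_iff.2 (a i).ne_zero
        rw [← div_eq_mul_inv, div_le_iff₀ h3, zpow_add_one₀ hp0.ne', mul_comm]
        exact mul_le_mul_of_nonneg_left (hk1 i).le hp0.le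
    · have key : ∀ s : Finset (Fin n), dgU (fun i => if i ∈ s then z i else 1) ∈
          Subgroup.closure ((Finset.univ.image (sEl p n D) : Finset (GLn n D)) :
            Set (GLn n D)) := by
        intro s
        induction s using Finset.induction_on with
        | empty =>
          have h3 : (dgU (fun i => if i ∈ (∅ : Finset (Fin n)) then z i else 1) : GLn n D) = 1 := by
            rw [← gel_one]
            congr 1
          rw [h3]
          exact one_mem _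
        | insert j s hj ih =>
          have h3 : (dgU (fun i => if i ∈ insert j s then z i else 1) : GLn n D) =
              dgU (fun i => if i ∈ s then z i else 1) * sEl p n D j ^ (-(k j + 1)) := by
            have h4 : sEl p n D j ^ (-(k j + 1)) =
                dgU (fun i : Fin n => if i = j then z j else 1) := by
              have h5 := map_zpow (gelHom n D) (fun i : Fin n => if i = j then pU p D else 1)
                (-(k j + 1))
              refine h5.symm.trans ?_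
              change dgU _ = _
              congr 1
              funext i
              rw [Pi.pow_apply]
              split_ifs
              · rfl
              · exact one_zpow _
            rw [h4, ← gel_mul]
            congr 1
            funext i
            rw [Pi.mul_apply]
            by_cases hij : i = j
            · rw [hij]
              simp [hj]
            · simp [hij]
          rw [h3]
          refine mul_mem ih (zpow_mem (Subgroup.subset_closure ?_) _)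
          rw [Finset.mem_coe]
          exact Finset.mem_image_of_mem _ (Finset.mem_univ j)
      have h3 := key Finset.univ
      simpa using h3
    · rw [← gel_mul]
      congr 1
      funext i
      rw [Pi.mul_apply, Pi.mul_apply, Pi.inv_apply, inv_mul_cancel_right]

end Ord1
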