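import Pool.Agent.Ord1.GDefs

/-!
# Ord1, module GIwa: the Iwasawa decomposition `GL_n(D) = GL_n(O) · (diagonal) · (lower unipotent)`

PROOF. Step 1: for every `g` there is `x` with `x`, `x⁻¹` integral (`Nle 1`) such that `x g` is lower
triangular. Induction on `m`, going down from `m = n` to `m = 0`: there is an integral unit `x` such that
`(x g) i j = 0` for `i < j`, `m ≤ j`. Step from `m + 1` to `m`: let `g' = x g`. Among the `i ≤ m` there is one
with `g' i m ≠ 0`: otherwise the rows `0, ..., m` of `g'` (which vanish in the columns `≥ m`) are `m + 1`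
linearly dependent row vectors in the left vector space `D ^ m`, in contradiction to the
invertibility of `g'`. Choose `i` with `‖g' i m‖` maximal, add (if necessary) row `i` to row `m`,
and subtract from the rows `i < m` the row `m` multiplied from the left by
`g' i m (g' m m)⁻¹`, which has norm `≤ 1`.
Step 2: `b = x g` is an invertible lower triangular matrix; its inverse is lower triangular (again by
elimination or by induction), so its diagonal entries are units; `b = m y` with `m` the diagonal part of `b`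
and `y = m⁻¹ b` lower triangular with diagonal entries `1`, and `y⁻¹` too.
-/

open Topology Set

namespace Ord1

open Emt

variable {n : ℕ} {D : Type} [NormedDivisionRing D] [IsUltrametricDist D]

omit [IsUltrametricDist D] in
private theorem giwa_inv_lower {b c : Matrix (Fin n) (Fin n) D}
    (hb : ∀ i j, i < j → b i j = 0) (hbc : b * c = 1) (i : Fin n) :
    b i i * c i i = 1 ∧ ∀ j, i < j → c i j = 0 := by
  induction i using WellFoundedLT.induction with
  | ind i ih =>
    have key : ∀ j, i ≤ j → (b * c) i j = b i i * c i j := by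
      intro j hij
      rw [Matrix.mul_apply, Finset.sum_eq_single i]
      · intro k _ hk
        rcases lt_or_gt_of_ne hk with h | h
        · rw [(ih k h).2 j (lt_of_lt_of_le h hij), mul_zero]
        · rw [hb i k h, zero_mul]
      · intro h
        exact absurd (Finset.mem_univ i) h
    have h1 : b i i * c i i = 1 := by
      rw [← key i le_rfl, hbc, Matrix.one_apply_eq]
    refine ⟨h1, fun j hj => ?_⟩
    have h2 : b i i * c i j = 0 := by
      rw [← key j hj.le, hbc, Matrix.one_apply_ne hj.ne]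
    rcases mul_eq_zero.1 h2 with h | h
    · rw [h, zero_mul] at h1
      exact absurd h1 zero_ne_one
    · exact h

omit [IsUltrametricDist D] in
/-- an invertible lower triangular matrix is (diagonal) (lower unipotent) -/
theorem gl_lower {g : GLn n D} (hg : ∀ i j, i < j → (g : Matrix (Fin n) (Fin n) D) i j = 0) :
    ∃ m ∈ dgM n D, ∃ y ∈ loN n D, g = m * y := by
  have hc := giwa_inv_lower hg g.mul_inv
  have hne : ∀ i, (g : Matrix (Fin n) (Fin n) D) i i ≠ 0 := by
    intro i h
    have := (hc i).1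
    rw [h, zero_mul] at this
    exact zero_ne_one this
  let m : GLn n D := dgU fun i => Units.mk0 _ (hne i)
  have hm : (m : Matrix (Fin n) (Fin n) D) =
      Matrix.diagonal fun i => (g : Matrix (Fin n) (Fin n) D) i i := rfl
  have hm' : ((m⁻¹ : GLn n D) : Matrix (Fin n) (Fin n) D) =
      Matrix.diagonal fun i => ((g : Matrix (Fin n) (Fin n) D) i i)⁻¹ := rfl
  refine ⟨m, ⟨?_, ?_⟩, m⁻¹ * g, ⟨?_, ?_⟩, by rw [mul_inv_cancel_left]⟩
  · intro i j hij
    rw [hm, Matrix.diagonal_apply_ne _ hij]
  · intro i j hij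
    rw [hm', Matrix.diagonal_apply_ne _ hij]
  · rw [Units.val_mul, hm']
    refine ⟨fun i => ?_, fun i j hij => ?_⟩
    · rw [Matrix.diagonal_mul, inv_mul_cancel₀ (hne i)]
    · rw [Matrix.diagonal_mul, hg i j hij, mul_zero]
  · rw [mul_inv_rev, inv_inv, Units.val_mul, hm]
    refine ⟨fun i => ?_, fun i j hij => ?_⟩
    · rw [Matrix.mul_diagonal]
      have h1 := eq_inv_of_mul_eq_one_right (hc i).1
      have h2 := inv_mul_cancel₀ (hne i)
      rw [← h1] at h2
      exact h2
    · rw [Matrix.mul_diagonal, (hc i).2 j hij, zero_mul]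

private theorem giwa_unip {r : Matrix (Fin n) (Fin n) D} (hr : r * r = 0) (hn : Nle 1 r) :
    ∃ x : GLn n D, (x : Matrix (Fin n) (Fin n) D) = 1 + r ∧
      Nle 1 (x : Matrix (Fin n) (Fin n) D) ∧
      Nle 1 ((x⁻¹ : GLn n D) : Matrix (Fin n) (Fin n) D) := by
  refine ⟨⟨1 + r, 1 - r, ?_, ?_⟩, rfl, ?_, ?_⟩
  · have : (1 + r) * (1 - r) = 1 - r * r := by noncomm_ring
    rw [this, hr, sub_zero]
  · have : (1 - r) * (1 + r) = 1 - r * r := by noncomm_ring
    rw [this, hr, sub_zero]
  · exact nle_add Nle.one hn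
  · change Nle 1 (1 - r)
    rw [sub_eq_add_neg]
    refine nle_add Nle.one fun i j => ?_
    rw [Matrix.neg_apply, norm_neg]
    exact hn i j

omit [IsUltrametricDist D] in
/-- some entry in the rows `≤ μ` of the column `μ` does not vanish -/
private theorem giwa_exists_ne {g c : Matrix (Fin n) (Fin n) D} (hgc : g * c = 1) (μ : Fin n)
    (hg : ∀ i j, i ≤ μ → μ < j → g i j = 0) : ∃ i ≤ μ, g i μ ≠ 0 := by
  by_contra hcon
  push Not at hcon
  have hz : ∀ i j, i ≤ μ → μ ≤ j → g i j = 0 := by
    intro i j hi hj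
    rcases eq_or_lt_of_le hj with h | h
    · rw [← h]
      exact hcon i hi
    · exact hg i j hi h
  -- the rows as vectors of length `μ`
  let up : Fin (μ + 1) → Fin n := fun i => ⟨i, by have := i.2; have := μ.2; omega⟩
  let lo : Fin μ → Fin n := fun j => ⟨j, by have := j.2; have := μ.2; omega⟩
  let v : Fin (μ + 1) → Fin μ → D := fun i j => g (up i) (lo j)
  have hv : ¬ LinearIndependent D v := by
    intro h
    have := h.fintype_card_le_finrank
    rw [Module.finrank_fin_fun, Fintype.card_fin] at this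
    omega
  rw [Fintype.not_linearIndependent_iff] at hv
  obtain ⟨a, ha, i0, hi0⟩ := hv
  -- the row vector
  let A : Fin n → D := fun i => if h : (i : ℕ) < μ + 1 then a ⟨i, h⟩ else 0
  have hsum : ∀ F : Fin n → D, (∑ i, A i * F i) = ∑ i : Fin (μ + 1), a i * F (up i) := by
    intro F
    symm
    refine Finset.sum_of_injOn up ?_ ?_ ?_ ?_
    · intro i _ j _ hij
      have := congrArg Fin.val hij
      exact Fin.ext this
    · intro i _
      exact Finset.mem_coe.2 (Finset.mem_univ _)
    · intro i _ hi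
      have : ¬ ((i : ℕ) < μ + 1) := by
        intro h
        exact hi ⟨⟨i, h⟩, Finset.mem_coe.2 (Finset.mem_univ _), Fin.ext rfl⟩
      simp only [A]
      rw [dif_neg this, zero_mul]
    · intro i _
      simp only [A, up]
      rw [dif_pos i.2]
  have hA : Matrix.vecMul A g = 0 := by
    funext j
    rw [Matrix.vecMul, dotProduct, hsum, Pi.zero_apply]
    rcases lt_or_ge j μ with hj | hj
    · have := congrFun ha ⟨j, hj⟩
      rw [Finset.sum_apply] at this
      simpa [v, lo] using this
    · refine Finset.sum_eq_zero fun i _ => ?_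
      rw [hz (up i) j ?_ hj, mul_zero]
      have := i.2
      exact Fin.le_def.2 (by simp only [up]; omega)
  have hA0 : A = 0 := by
    have h1 : Matrix.vecMul (Matrix.vecMul A g) c = A := by
      rw [Matrix.vecMul_vecMul, hgc, Matrix.vecMul_one]
    rw [← h1, hA, Matrix.zero_vecMul]
  apply hi0
  have := congrFun hA0 (up i0)
  simp only [A, up, Pi.zero_apply] at this
  rw [dif_pos i0.2] at this
  exact this

private theorem giwa_step (g : GLn n D) (μ : Fin n)
    (hg : ∀ i j, i < j → μ < j → (g : Matrix (Fin n) (Fin n) D) i j = 0) :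
    ∃ x : GLn n D, (Nle 1 (x : Matrix (Fin n) (Fin n) D) ∧
      Nle 1 ((x⁻¹ : GLn n D) : Matrix (Fin n) (Fin n) D)) ∧
      ∀ i j, i < j → μ ≤ j → ((x * g : GLn n D) : Matrix (Fin n) (Fin n) D) i j = 0 := by
  -- first operation
  obtain ⟨x1, ⟨hx1, hx1'⟩, h1, h2, h3⟩ : ∃ x : GLn n D, (Nle 1 (x : Matrix (Fin n) (Fin n) D) ∧
      Nle 1 ((x⁻¹ : GLn n D) : Matrix (Fin n) (Fin n) D)) ∧
      (∀ i j, i < j → μ < j → ((x * g : GLn n D) : Matrix (Fin n) (Fin n) D) i j = 0) ∧
      (((x * g : GLn n D) : Matrix (Fin n) (Fin n) D) μ μ ≠ 0) ∧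
      ∀ i ≤ μ, ‖((x * g : GLn n D) : Matrix (Fin n) (Fin n) D) i μ‖ ≤
        ‖((x * g : GLn n D) : Matrix (Fin n) (Fin n) D) μ μ‖ := by
    obtain ⟨i1, hi1, hne⟩ := giwa_exists_ne g.mul_inv μ
      (fun i j hi hj => hg i j (lt_of_le_of_lt hi hj) hj)
    obtain ⟨i0, hi0, hmax⟩ := Finset.exists_max_image (Finset.Iic μ)
      (fun i => ‖(g : Matrix (Fin n) (Fin n) D) i μ‖) ⟨μ, Finset.mem_Iic.2 le_rfl⟩
    rw [Finset.mem_Iic] at hi0
    have hmax' : ∀ i ≤ μ, ‖(g : Matrix (Fin n) (Fin n) D) i μ‖ ≤
        ‖(g : Matrix (Fin n) (Fin n) D) i0 μ‖ := fun i hi => hmax i (Finset.mem_Iic.2 hi)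
    have hpos : 0 < ‖(g : Matrix (Fin n) (Fin n) D) i0 μ‖ :=
      lt_of_lt_of_le (norm_pos_iff.2 hne) (hmax' i1 hi1)
    rcases eq_or_lt_of_le (hmax' μ le_rfl) with h | h
    · refine ⟨1, ⟨Nle.one, by rw [inv_one]; exact Nle.one⟩, ?_⟩
      rw [one_mul]
      refine ⟨hg, ?_, fun i hi => ?_⟩
      · rw [← norm_pos_iff, h]
        exact hpos
      · rw [h]
        exact hmax' i hi
    · have hne0 : μ ≠ i0 := by
        rintro rfl
        exact lt_irrefl _ h
      have hr : Matrix.single μ i0 (1 : D) * Matrix.single μ i0 (1 : D) = 0 := by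
        rw [Matrix.single_mul_single_of_ne]
        exact hne0.symm
      have hn : Nle 1 (Matrix.single μ i0 (1 : D)) := by
        intro i j
        rw [Matrix.single_apply]
        split_ifs
        · rw [norm_one]
        · rw [norm_zero]
          exact zero_le_one
      obtain ⟨x, hx, hx1, hx2⟩ := giwa_unip hr hn
      have hxg : ∀ i j, ((x * g : GLn n D) : Matrix (Fin n) (Fin n) D) i j =
          (g : Matrix (Fin n) (Fin n) D) i j +
            if i = μ then (g : Matrix (Fin n) (Fin n) D) i0 j else 0 := by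
        intro i j
        rw [Units.val_mul, hx, add_mul, one_mul, Matrix.add_apply]
        congr 1
        by_cases hi : i = μ
        · rw [if_pos hi, hi, Matrix.single_mul_apply_same, one_mul]
        · rw [if_neg hi, Matrix.single_mul_apply_of_ne]
          exact hi
      have hmm : ‖((x * g : GLn n D) : Matrix (Fin n) (Fin n) D) μ μ‖ =
          ‖(g : Matrix (Fin n) (Fin n) D) i0 μ‖ := by
        rw [hxg, if_pos rfl, IsUltrametricDist.norm_add_eq_max_of_norm_ne_norm h.ne]
        exact max_eq_right h.le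
      refine ⟨x, ⟨hx1, hx2⟩, fun i j hij hj => ?_, ?_, fun i hi => ?_⟩
      · rw [hxg, hg i j hij hj, zero_add]
        split_ifs
        · exact hg i0 j (lt_of_le_of_lt hi0 hj) hj
        · rfl
      · rw [← norm_pos_iff, hmm]
        exact hpos
      · rw [hmm]
        by_cases hi2 : i = μ
        · rw [hi2, hmm]
        · rw [hxg, if_neg hi2, add_zero]
          exact hmax' i hi
  -- second operation
  set g1 : GLn n D := x1 * g with hg1
  let a : Fin n → D := fun i => if i < μ then
    -((g1 : Matrix (Fin n) (Fin n) D) i μ * ((g1 : Matrix (Fin n) (Fin n) D) μ μ)⁻¹) else 0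
  let r : Matrix (Fin n) (Fin n) D := Matrix.of fun i j => if j = μ then a i else 0
  have haμ : a μ = 0 := if_neg (lt_irrefl _)
  have hrg : ∀ (h : Matrix (Fin n) (Fin n) D) i j, (r * h) i j = a i * h μ j := by
    intro h i j
    rw [Matrix.mul_apply, Finset.sum_eq_single μ]
    · simp [r]
    · intro k _ hk
      simp [r, hk]
    · intro h
      exact absurd (Finset.mem_univ μ) h
  have hr : r * r = 0 := by
    ext i j
    rw [hrg]
    simp [r, haμ]
  have hn : Nle 1 r := by
    intro i j
    simp only [r, Matrix.of_apply, a]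
    split_ifs with h4 h5
    · rw [norm_neg, norm_mul, norm_inv]
      rw [← div_eq_mul_inv, div_le_one (norm_pos_iff.2 h2)]
      exact h3 i h5.le
    · rw [norm_zero]
      exact zero_le_one
    · rw [norm_zero]
      exact zero_le_one
  obtain ⟨x, hx, hx2, hx3⟩ := giwa_unip hr hn
  have hxg : ∀ i j, ((x * g1 : GLn n D) : Matrix (Fin n) (Fin n) D) i j =
      (g1 : Matrix (Fin n) (Fin n) D) i j + a i * (g1 : Matrix (Fin n) (Fin n) D) μ j := by
    intro i j
    rw [Units.val_mul, hx, add_mul, one_mul, Matrix.add_apply, hrg]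
  refine ⟨x * x1, ⟨?_, ?_⟩, fun i j hij hj => ?_⟩
  · have := nle_mul zero_le_one zero_le_one hx2 hx1
    rwa [mul_one, ← Units.val_mul] at this
  · have := nle_mul zero_le_one zero_le_one hx1' hx3
    rwa [mul_one, ← Units.val_mul, ← mul_inv_rev] at this
  · rw [mul_assoc, ← hg1, hxg]
    rcases eq_or_lt_of_le hj with h | h
    · subst h
      simp only [a]
      rw [if_pos hij, neg_mul, mul_assoc, inv_mul_cancel₀ h2, mul_one, add_neg_cancel]
    · rw [h1 i j hij h, h1 μ j h h, mul_zero, add_zero]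

private theorem giwa_all (g : GLn n D) (k : ℕ) : ∃ x : GLn n D,
    (Nle 1 (x : Matrix (Fin n) (Fin n) D) ∧
      Nle 1 ((x⁻¹ : GLn n D) : Matrix (Fin n) (Fin n) D)) ∧
      ∀ i j : Fin n, i < j → n ≤ (j : ℕ) + k → ((x * g : GLn n D) : Matrix (Fin n) (Fin n) D) i j = 0 := by
  induction k with
  | zero =>
    refine ⟨1, ⟨Nle.one, by rw [inv_one]; exact Nle.one⟩, fun i j _ h => ?_⟩
    have := j.2
    omega
  | succ k ih =>
    obtain ⟨x, ⟨hx1, hx2⟩, hx⟩ := ih
    by_cases hk : k < n
    · obtain ⟨y, ⟨hy1, hy2⟩, hy⟩ := giwa_step (x * g) ⟨n - 1 - k, by omega⟩ (by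
        intro i j hij hj
        refine hx i j hij ?_
        have : n - 1 - k < (j : ℕ) := hj
        omega)
      refine ⟨y * x, ⟨?_, ?_⟩, fun i j hij hj => ?_⟩
      · have := nle_mul zero_le_one zero_le_one hy1 hx1
        rwa [mul_one, ← Units.val_mul] at this
      · have := nle_mul zero_le_one zero_le_one hx2 hy2
        rwa [mul_one, ← Units.val_mul, ← mul_inv_rev] at this
      · rw [mul_assoc]
        refine hy i j hij (Fin.le_def.2 ?_)
        change n - 1 - k ≤ (j : ℕ)
        omega
    · exact ⟨x, ⟨hx1, hx2⟩, fun i j hij _ => hx i j hij (by omega)⟩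

theorem gl_iwasawa (g : GLn n D) : ∃ x : GLn n D, (Nle 1 (x : Matrix (Fin n) (Fin n) D) ∧
    Nle 1 ((x⁻¹ : GLn n D) : Matrix (Fin n) (Fin n) D)) ∧
    ∃ m ∈ dgM n D, ∃ y ∈ loN n D, g = x * m * y := by
  obtain ⟨x, ⟨hx1, hx2⟩, hx⟩ := giwa_all g n
  obtain ⟨m, hm, y, hy, h⟩ := gl_lower (g := x * g) (fun i j hij => hx i j hij (by omega))
  refine ⟨x⁻¹, ⟨hx2, by rw [inv_inv]; exact hx1⟩, m, hm, y, hy, ?_⟩
  rw [mul_assoc, ← h, inv_mul_cancel_left]

end Ord1
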