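import Pool.Agent.Ord1.GDefs

/-!
# Ord1, module GLU: the decomposition (upper) (diagonal) (lower) of the congruence subgroups

`0 ≤ r < 1`, `k ∈ kb r`. For a matrix `g` say that `g` is diagonal outside of the first `m` rows and
columns if `g i j = 0` whenever `i ≠ j` and `m ≤ i ∨ m ≤ j`.

PROOF by induction on `m ≤ n`: every such `k ∈ kb r` is `a d b` with `a ∈ kb r ⊓ upN`, `d ∈ kb r ⊓ dgM`,
`b ∈ kb r ⊓ loN`. `m = 0`: `k` is diagonal. Step from `m` to `m + 1`: the pivot `d = k m m` has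
`‖d - 1‖ ≤ r < 1`, so `‖d‖ = 1`. Let `u` be the matrix with `u i m = k i m d⁻¹` for `i < m` and `0` else,
`l` the matrix with `l m j = d⁻¹ k m j` for `j < m` and `0` else. `u * u = 0`, `l * l = 0`, so `1 + u` and
`1 + l` are units with the inverses `1 - u`, `1 - l`; `1 + u ∈ kb r ⊓ upN`, `1 + l ∈ kb r ⊓ loN`, and
`k' = (1 - u) k (1 - l)` is in `kb r` and diagonal outside of the first `m` rows and columns
(for `i, j < m` `k' i j = k i j - k i m d⁻¹ k m j`; the column and the row `m` are cleared). Apply the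
induction hypothesis to `k'`: `k = (1 + u) a d b (1 + l)`.
(Any other proof is welcome, e.g. with `Matrix.fromBlocks` and `Fin (n + 1)`.)
-/

open Topology Set

namespace Ord1

open Emt

variable {n : ℕ} {D : Type} [NormedDivisionRing D] [IsUltrametricDist D]

/-- `1 + u` as a unit if `u * u = 0`. -/
private def sqU {R : Type} [Ring R] (u : R) (h : u * u = 0) : Rˣ where
  val := 1 + u
  inv := 1 - u
  val_inv := by
    have : (1 + u) * (1 - u) = 1 - u * u := by noncomm_ring
    rw [this, h, sub_zero]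
  inv_val := by
    have : (1 - u) * (1 + u) = 1 - u * u := by noncomm_ring
    rw [this, h, sub_zero]

private theorem norm_eq_one_of_sub {r : ℝ} (h1 : r < 1) {d : D} (hd : ‖d - 1‖ ≤ r) : ‖d‖ = 1 := by
  have h2 : ‖d - 1‖ < ‖(1 : D)‖ := by
    rw [norm_one]
    exact lt_of_le_of_lt hd h1
  have h3 := IsUltrametricDist.norm_add_eq_max_of_norm_ne_norm (ne_of_lt h2)
  rw [sub_add_cancel, max_eq_right h2.le, norm_one] at h3
  exact h3

private theorem nle_mono {r s : ℝ} (h : r ≤ s) {g : Matrix (Fin n) (Fin n) D} (hg : Nle r g) :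
    Nle s g := fun i j => (hg i j).trans h

private theorem nle_neg {r : ℝ} {g : Matrix (Fin n) (Fin n) D} (hg : Nle r g) : Nle r (-g) := by
  intro i j
  rw [Matrix.neg_apply, norm_neg]
  exact hg i j

private theorem sqU_kb {r : ℝ} (h0 : 0 ≤ r) (h1 : r ≤ 1) (u : Matrix (Fin n) (Fin n) D)
    (h : u * u = 0) (hu : Nle r u) : sqU u h ∈ kb n D r h0 h1 := by
  constructor
  · show Nle r ((1 + u) - 1)
    rw [add_sub_cancel_left]
    exact hu
  · show Nle r ((1 - u) - 1)
    have : (1 - u) - 1 = -u := by abel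
    rw [this]
    exact nle_neg hu

private theorem sqU_upN {r : ℝ} (h1 : r ≤ 1) (u : Matrix (Fin n) (Fin n) D)
    (h : u * u = 0) (hu : Nle r u) (h2 : ∀ i j, j ≤ i → u i j = 0) : sqU u h ∈ upN n D := by
  have key : ∀ v : Matrix (Fin n) (Fin n) D, Nle r v → (∀ i j, j ≤ i → v i j = 0) →
      UpU (1 + v) ∧ Nle 1 (1 + v) := by
    intro v hv h3
    refine ⟨⟨fun i => ?_, fun i j hij => ?_⟩, nle_add Nle.one (nle_mono h1 hv)⟩
    · rw [Matrix.add_apply, Matrix.one_apply_eq, h3 i i le_rfl, add_zero]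
    · rw [Matrix.add_apply, Matrix.one_apply_ne (ne_of_gt hij), h3 i j hij.le, add_zero]
  refine ⟨key u hu h2, ?_⟩
  have h4 : ((sqU u h)⁻¹ : GLn n D) = (1 : Matrix (Fin n) (Fin n) D) + -u := by
    show (1 : Matrix (Fin n) (Fin n) D) - u = 1 + -u
    rw [sub_eq_add_neg]
  rw [h4]
  exact key (-u) (nle_neg hu) fun i j hij => by rw [Matrix.neg_apply, h2 i j hij, neg_zero]

private theorem sqU_loN (u : Matrix (Fin n) (Fin n) D)
    (h : u * u = 0) (h2 : ∀ i j, i ≤ j → u i j = 0) : sqU u h ∈ loN n D := by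
  have key : ∀ v : Matrix (Fin n) (Fin n) D, (∀ i j, i ≤ j → v i j = 0) → LoU (1 + v) := by
    intro v h3
    refine ⟨fun i => ?_, fun i j hij => ?_⟩
    · rw [Matrix.add_apply, Matrix.one_apply_eq, h3 i i le_rfl, add_zero]
    · rw [Matrix.add_apply, Matrix.one_apply_ne (ne_of_lt hij), h3 i j hij.le, add_zero]
  refine ⟨key u h2, ?_⟩
  have h4 : ((sqU u h)⁻¹ : GLn n D) = (1 : Matrix (Fin n) (Fin n) D) + -u := by
    show (1 : Matrix (Fin n) (Fin n) D) - u = 1 + -u
    rw [sub_eq_add_neg]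
  rw [h4]
  exact key (-u) fun i j hij => by rw [Matrix.neg_apply, h2 i j hij, neg_zero]

/-- a diagonal element of `kb r` is in `dgM` -/
private theorem dia_dgM {k : GLn n D} (hk : Dia (k : Matrix (Fin n) (Fin n) D))
    (hd : ∀ i, (k : Matrix (Fin n) (Fin n) D) i i ≠ 0) : k ∈ dgM n D := by
  refine ⟨hk, fun i j hij => ?_⟩
  have h1 : ((k : Matrix (Fin n) (Fin n) D) * ((k⁻¹ : GLn n D) : Matrix (Fin n) (Fin n) D)) i j = 0 := by
    rw [Units.mul_inv, Matrix.one_apply_ne hij]
  rw [Matrix.mul_apply, Finset.sum_eq_single i] at h1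
  · exact (mul_eq_zero.1 h1).resolve_left (hd i)
  · intro x _ hx
    rw [hk i x (Ne.symm hx), zero_mul]
  · intro h2
    exact absurd (Finset.mem_univ i) h2

private theorem gl_udl_aux {r : ℝ} (h0 : 0 ≤ r) (h1 : r < 1) (m : ℕ) (hm : m ≤ n) :
    ∀ k ∈ kb n D r h0 h1.le,
      (∀ i j : Fin n, i ≠ j → (m ≤ (i : ℕ) ∨ m ≤ (j : ℕ)) →
        (k : Matrix (Fin n) (Fin n) D) i j = 0) →
      ∃ a ∈ kb n D r h0 h1.le ⊓ upN n D, ∃ m ∈ kb n D r h0 h1.le ⊓ dgM n D,
        ∃ b ∈ kb n D r h0 h1.le ⊓ loN n D, k = a * m * b := by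
  induction m with
  | zero =>
    intro k hk hoff
    have hd : ∀ i, (k : Matrix (Fin n) (Fin n) D) i i ≠ 0 := by
      intro i hi
      have h2 := hk.1 i i
      rw [Matrix.sub_apply, Matrix.one_apply_eq] at h2
      have h3 := norm_eq_one_of_sub h1 h2
      rw [hi, norm_zero] at h3
      exact zero_ne_one h3
    refine ⟨1, one_mem _, k, ⟨hk, dia_dgM (fun i j hij => hoff i j hij (Or.inl (Nat.zero_le _))) hd⟩,
      1, one_mem _, ?_⟩
    rw [one_mul, mul_one]
  | succ m ih =>
    intro k hk hoff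
    have hmn : m < n := hm
    set K : Matrix (Fin n) (Fin n) D := (k : Matrix (Fin n) (Fin n) D) with hK
    set μ : Fin n := ⟨m, hmn⟩ with hμ
    set d : D := K μ μ with hd
    have hd1 : ‖d‖ = 1 := by
      have h2 := hk.1 μ μ
      rw [Matrix.sub_apply, Matrix.one_apply_eq] at h2
      exact norm_eq_one_of_sub h1 h2
    have hd0 : d ≠ 0 := by
      intro h
      rw [h, norm_zero] at hd1
      exact zero_ne_one hd1
    have hKn : ∀ i j, i ≠ j → ‖K i j‖ ≤ r := by
      intro i j hij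
      have h2 := hk.1 i j
      rw [Matrix.sub_apply, Matrix.one_apply_ne hij, sub_zero] at h2
      exact h2
    let u : Matrix (Fin n) (Fin n) D := fun i j => if j = μ ∧ i < μ then K i μ * d⁻¹ else 0
    let l : Matrix (Fin n) (Fin n) D := fun i j => if i = μ ∧ j < μ then d⁻¹ * K μ j else 0
    have hu0 : ∀ i j, ¬ (j = μ ∧ i < μ) → u i j = 0 := fun i j h => if_neg h
    have hl0 : ∀ i j, ¬ (i = μ ∧ j < μ) → l i j = 0 := fun i j h => if_neg h
    have hu1 : ∀ i, i < μ → u i μ = K i μ * d⁻¹ := fun i h => if_pos ⟨rfl, h⟩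
    have hl1 : ∀ j, j < μ → l μ j = d⁻¹ * K μ j := fun j h => if_pos ⟨rfl, h⟩
    have hun : Nle r u := by
      intro i j
      by_cases h : j = μ ∧ i < μ
      · rw [h.1, hu1 i h.2, norm_mul, norm_inv, hd1, inv_one, mul_one]
        exact hKn i μ (ne_of_lt h.2)
      · rw [hu0 i j h, norm_zero]
        exact h0
    have hln : Nle r l := by
      intro i j
      by_cases h : i = μ ∧ j < μ
      · rw [h.1, hl1 j h.2, norm_mul, norm_inv, hd1, inv_one, one_mul]
        exact hKn μ j (ne_of_gt h.2)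
      · rw [hl0 i j h, norm_zero]
        exact h0
    have huu : u * u = 0 := by
      ext i j
      rw [Matrix.mul_apply, Matrix.zero_apply]
      refine Finset.sum_eq_zero fun x _ => ?_
      by_cases h : x = μ ∧ i < μ
      · rw [hu0 x j (fun h2 => absurd h2.2 (by rw [h.1]; exact lt_irrefl _)), mul_zero]
      · rw [hu0 i x h, zero_mul]
    have hll : l * l = 0 := by
      ext i j
      rw [Matrix.mul_apply, Matrix.zero_apply]
      refine Finset.sum_eq_zero fun x _ => ?_
      by_cases h : i = μ ∧ x < μ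
      · rw [hl0 x j (fun h2 => absurd h.2 (by rw [h2.1]; exact lt_irrefl _)), mul_zero]
      · rw [hl0 i x h, zero_mul]
    set U : GLn n D := sqU u huu with hU
    set L : GLn n D := sqU l hll with hL
    have hUk : U ∈ kb n D r h0 h1.le := sqU_kb h0 h1.le u huu hun
    have hLk : L ∈ kb n D r h0 h1.le := sqU_kb h0 h1.le l hll hln
    have hUu : U ∈ upN n D := sqU_upN h1.le u huu hun fun i j hij =>
      hu0 i j fun h => absurd h.2 (by rw [← h.1]; exact not_lt.2 hij)
    have hLl : L ∈ loN n D := sqU_loN l hll fun i j hij =>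
      hl0 i j fun h => absurd h.2 (by rw [← h.1]; exact not_lt.2 hij)
    have hk' : U⁻¹ * k * L⁻¹ ∈ kb n D r h0 h1.le :=
      mul_mem (mul_mem (inv_mem hUk) hk) (inv_mem hLk)
    -- entries
    have hX : ∀ i j, ((1 - u) * K) i j = K i j - u i μ * K μ j := by
      intro i j
      rw [sub_mul, one_mul, Matrix.sub_apply, Matrix.mul_apply, Finset.sum_eq_single μ]
      · intro x _ hx
        rw [hu0 i x fun h => hx h.1, zero_mul]
      · intro h
        exact absurd (Finset.mem_univ μ) h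
    have hY : ∀ (X : Matrix (Fin n) (Fin n) D) (i j : Fin n),
        (X * (1 - l)) i j = X i j - X i μ * l μ j := by
      intro X i j
      rw [mul_sub, mul_one, Matrix.sub_apply, Matrix.mul_apply, Finset.sum_eq_single μ]
      · intro x _ hx
        rw [hl0 x j fun h => hx h.1, mul_zero]
      · intro h
        exact absurd (Finset.mem_univ μ) h
    have hval : ((U⁻¹ * k * L⁻¹ : GLn n D) : Matrix (Fin n) (Fin n) D) = (1 - u) * K * (1 - l) := rfl
    have huμ : u μ μ = 0 := hu0 μ μ fun h => lt_irrefl _ h.2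
    have hcol : ∀ i, i ≠ μ → (((1 - u) * K) i μ = 0 ∨ (m + 1 ≤ (i : ℕ))) := by
      intro i hi
      rcases lt_or_gt_of_ne hi with h | h
      · left
        rw [hX, hu1 i h, mul_assoc, inv_mul_cancel₀ hd0, mul_one, sub_self]
      · right
        have : m < (i : ℕ) := h
        omega
    have hoff' : ∀ i j : Fin n, i ≠ j → (m ≤ (i : ℕ) ∨ m ≤ (j : ℕ)) →
        ((U⁻¹ * k * L⁻¹ : GLn n D) : Matrix (Fin n) (Fin n) D) i j = 0 := by
      intro i j hij hor
      rw [hval, hY]
      rcases lt_or_ge j μ with hj | hj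
      · -- `j < μ`, so `i ≥ μ`
        have hjm : (j : ℕ) < m := hj
        have him : m ≤ (i : ℕ) := by omega
        have hiu : u i μ = 0 := hu0 i μ fun h => by
          have : (i : ℕ) < m := h.2
          omega
        rw [hX, hX, hiu, zero_mul, sub_zero, zero_mul, sub_zero, hl1 j hj]
        by_cases hiμ : i = μ
        · rw [hiμ, ← hd, ← mul_assoc, mul_inv_cancel₀ hd0, one_mul, sub_self]
        · have h3 : m + 1 ≤ (i : ℕ) := by
            have : (i : ℕ) ≠ m := fun h => hiμ (Fin.ext h)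
            omega
          have h4 : K i j = 0 := hoff i j hij (Or.inl h3)
          have h5 : K i μ = 0 := hoff i μ hiμ (Or.inl h3)
          rw [h4, h5, zero_mul, sub_zero]
      · have hlj : l μ j = 0 := hl0 μ j fun h => absurd h.2 (not_lt.2 hj)
        have hjm : m ≤ (j : ℕ) := hj
        rw [hlj, mul_zero, sub_zero]
        by_cases hjμ : j = μ
        · rw [hjμ] at hij ⊢
          rcases hcol i hij with h | h
          · exact h
          · rw [hX, hu0 i μ fun h2 => by
              have : (i : ℕ) < m := h2.2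
              omega, zero_mul, sub_zero]
            exact hoff i μ hij (Or.inl h)
        · have h3 : m + 1 ≤ (j : ℕ) := by
            have : (j : ℕ) ≠ m := fun h => hjμ (Fin.ext h)
            omega
          have h4 : K i j = 0 := hoff i j hij (Or.inr h3)
          have h5 : K μ j = 0 := hoff μ j (Ne.symm hjμ) (Or.inr h3)
          rw [hX, h4, h5, mul_zero, sub_zero]
    obtain ⟨a, ha, x, hx, b, hb, hab⟩ := ih (by omega) _ hk' hoff'
    refine ⟨U * a, mul_mem ⟨hUk, hUu⟩ ha, x, hx, b * L, mul_mem hb ⟨hLk, hLl⟩, ?_⟩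
    have : k = U * (U⁻¹ * k * L⁻¹) * L := by group
    rw [this, hab]
    group

theorem gl_udl {r : ℝ} (h0 : 0 ≤ r) (h1 : r < 1) : ∀ k ∈ kb n D r h0 h1.le,
    ∃ a ∈ kb n D r h0 h1.le ⊓ upN n D, ∃ m ∈ kb n D r h0 h1.le ⊓ dgM n D,
      ∃ b ∈ kb n D r h0 h1.le ⊓ loN n D, k = a * m * b := by
  intro k hk
  refine gl_udl_aux h0 h1 n le_rfl k hk fun i j _ hor => ?_
  have := i.isLt
  have := j.isLt
  omega

end Ord1
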