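import Pool.Agent.Ord1.GElem
import Pool.Agent.Ord1.GLU
import Pool.Agent.Ord1.GIwa
import Pool.Agent.Emt.Fn1

/-!
# Ord1, module GPar: the minimal parabolic subgroup of `GL_n(D)`

PROOFS.
* `gl_isPar`: assembly. `iwahori`: by `gl_nhds` choose `ε`, `r = min ε (1/2)`, `K = kb r`
  (`kb_open`, `kb_compact`, `gl_kb_norm`, `gl_udl`, `gl_kb_contr`).
* `gl_proP`: for `x ∈ upN`, `x ^ (p ^ k) → 1` (binomial formula for the nilpotent matrix `x - 1`:
  `x ^ (p ^ k) - 1 = ∑ choose (p ^ k) i (x - 1) ^ i` over `1 ≤ i < n`, and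
  `i choose (p ^ k) i = p ^ k choose (p ^ k - 1) (i - 1)`), so every element of the quotient by an open
  normal subgroup has order a power of `p` (`IsPGroup`).
-/

open Topology Set

namespace Ord1

open Emt

section nilpotent

variable {n : ℕ} {D : Type} [NormedDivisionRing D]

private theorem gp_pow_apply {y : Matrix (Fin n) (Fin n) D} (hy : ∀ a b, b ≤ a → y a b = 0)
    (m : ℕ) : ∀ a b : Fin n, (b : ℕ) < a + m → (y ^ m) a b = 0 := by
  induction m with
  | zero =>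
    intro a b hab
    rw [pow_zero, Matrix.one_apply_ne]
    rintro rfl
    omega
  | succ m ih =>
    intro a b hab
    rw [pow_succ, Matrix.mul_apply]
    refine Finset.sum_eq_zero fun c _ => ?_
    rcases lt_or_ge (c : ℕ) (a + m) with h | h
    · rw [ih a c h, zero_mul]
    · rw [hy c b (by rw [Fin.le_def]; omega), mul_zero]

private theorem gp_pow_zero {y : Matrix (Fin n) (Fin n) D} (hy : ∀ a b, b ≤ a → y a b = 0)
    {m : ℕ} (hm : n ≤ m) : y ^ m = 0 := by
  ext a b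
  rw [gp_pow_apply hy m a b (by omega), Matrix.zero_apply]

private theorem gp_nle_pow [IsUltrametricDist D] {y : Matrix (Fin n) (Fin n) D} (hy : Nle 1 y)
    (m : ℕ) : Nle 1 (y ^ m) := by
  induction m with
  | zero =>
    rw [pow_zero]
    exact Nle.one
  | succ m ih =>
    rw [pow_succ]
    have := nle_mul zero_le_one zero_le_one ih hy
    rwa [mul_one] at this

end nilpotent

variable (p : ℕ) [Fact p.Prime] (n : ℕ) (D : Type) [NormedDivisionRing D] [NormedAlgebra ℚ_[p] D]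
  [FiniteDimensional ℚ_[p] D] [IsUltrametricDist D]

omit [FiniteDimensional ℚ_[p] D] [IsUltrametricDist D] in
private theorem gp_norm_nat (m : ℕ) : ‖(m : D)‖ = ‖(m : ℚ_[p])‖ := by
  rw [← map_natCast (algebraMap ℚ_[p] D) m, norm_algebraMap']

include p in
omit [FiniteDimensional ℚ_[p] D] [IsUltrametricDist D] in
private theorem gp_min : ∃ c : ℝ, 0 < c ∧ ∀ i : ℕ, 1 ≤ i → i < n → c ≤ ‖(i : D)‖ := by
  rcases (Finset.Ico 1 n).eq_empty_or_nonempty with h | h
  · refine ⟨1, one_pos, fun i h1 h2 => ?_⟩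
    have : i ∈ Finset.Ico 1 n := Finset.mem_Ico.2 ⟨h1, h2⟩
    rw [h] at this
    exact absurd this (Finset.notMem_empty _)
  · obtain ⟨j, hj, hmin⟩ := Finset.exists_min_image (Finset.Ico 1 n) (fun i => ‖(i : D)‖) h
    refine ⟨‖(j : D)‖, ?_, fun i h1 h2 => hmin i (Finset.mem_Ico.2 ⟨h1, h2⟩)⟩
    rw [gp_norm_nat p D, norm_pos_iff, Nat.cast_ne_zero]
    have := (Finset.mem_Ico.1 hj).1
    omega

omit [FiniteDimensional ℚ_[p] D] in
private theorem gp_choose {c : ℝ} (hc : 0 < c) (hmin : ∀ i : ℕ, 1 ≤ i → i < n → c ≤ ‖(i : D)‖)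
    (k i : ℕ) (h1 : 1 ≤ i) (h2 : i < n) : ‖((p ^ k).choose i : D)‖ ≤ ((p : ℝ)⁻¹) ^ k / c := by
  have hp0 : 0 < p ^ k := pow_pos (Fact.out : p.Prime).pos k
  obtain ⟨N, hN⟩ : ∃ N, p ^ k = N + 1 := ⟨p ^ k - 1, by omega⟩
  obtain ⟨j, rfl⟩ : ∃ j, i = j + 1 := ⟨i - 1, by omega⟩
  have h3 := Nat.add_one_mul_choose_eq N j
  rw [← hN] at h3
  have h4 : ((p ^ k : ℕ) : D) * ((N.choose j : ℕ) : D) =
      (((p ^ k).choose (j + 1) : ℕ) : D) * ((j + 1 : ℕ) : D) := by
    exact_mod_cast congrArg (Nat.cast : ℕ → D) h3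
  have h5 := congrArg norm h4
  rw [norm_mul, norm_mul] at h5
  have h6 : ‖((p ^ k : ℕ) : D)‖ = ((p : ℝ)⁻¹) ^ k := by
    rw [gp_norm_nat p D, Nat.cast_pow, norm_pow, Padic.norm_p]
  have h7 : ‖((N.choose j : ℕ) : D)‖ ≤ 1 := IsUltrametricDist.norm_natCast_le_one D _
  have h8 := hmin (j + 1) h1 h2
  rw [le_div_iff₀ hc]
  calc ‖((p ^ k).choose (j + 1) : D)‖ * c
      ≤ ‖(((p ^ k).choose (j + 1) : ℕ) : D)‖ * ‖((j + 1 : ℕ) : D)‖ :=
        mul_le_mul_of_nonneg_left h8 (norm_nonneg _)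
    _ = ‖((p ^ k : ℕ) : D)‖ * ‖((N.choose j : ℕ) : D)‖ := h5.symm
    _ ≤ ((p : ℝ)⁻¹) ^ k * 1 := by
        rw [h6]
        exact mul_le_mul_of_nonneg_left h7 (by positivity)
    _ = _ := mul_one _

omit [FiniteDimensional ℚ_[p] D] in
private theorem gp_unip {x : Matrix (Fin n) (Fin n) D} (hx : UpU x) (hx1 : Nle 1 x) {c : ℝ}
    (hc : 0 < c) (hmin : ∀ i : ℕ, 1 ≤ i → i < n → c ≤ ‖(i : D)‖) (k : ℕ) :
    Nle (((p : ℝ)⁻¹) ^ k / c) (x ^ (p ^ k) - 1) := by
  set y := x - 1 with hy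
  have hxy : x = y + 1 := by rw [hy, sub_add_cancel]
  have hy0 : ∀ a b, b ≤ a → y a b = 0 := by
    intro a b hab
    rw [hy, Matrix.sub_apply]
    rcases lt_or_eq_of_le hab with h | h
    · rw [hx.2 a b h, Matrix.one_apply_ne (ne_of_gt h), sub_zero]
    · rw [h, hx.1, Matrix.one_apply_eq, sub_self]
  have hy1 : Nle 1 y := by
    have h1 : Nle 1 (-1 : Matrix (Fin n) (Fin n) D) := by
      intro a b
      rw [Matrix.neg_apply, norm_neg]
      exact Nle.one a b
    have := nle_add hx1 h1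
    rwa [← sub_eq_add_neg] at this
  have hbin : x ^ (p ^ k) - 1 =
      ∑ m ∈ Finset.range (p ^ k), ((p ^ k).choose (m + 1)) • y ^ (m + 1) := by
    rw [hxy, (Commute.one_right y).add_pow, Finset.sum_range_succ']
    simp only [one_pow, mul_one, pow_zero, Nat.choose_zero_right, Nat.cast_one, add_sub_cancel_right]
    refine Finset.sum_congr rfl fun m _ => ?_
    rw [nsmul_eq_mul']
  rw [hbin]
  intro a b
  rw [Matrix.sum_apply]
  refine IsUltrametricDist.norm_sum_le_of_forall_le_of_nonneg (by positivity) fun m _ => ?_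
  rcases lt_or_ge (m + 1) n with h | h
  · rw [Matrix.smul_apply, nsmul_eq_mul, norm_mul]
    have h1 := gp_choose p n D hc hmin k (m + 1) (by omega) h
    have h2 := gp_nle_pow hy1 (m + 1) a b
    calc ‖((p ^ k).choose (m + 1) : D)‖ * ‖(y ^ (m + 1)) a b‖
        ≤ ((p : ℝ)⁻¹) ^ k / c * 1 := mul_le_mul h1 h2 (norm_nonneg _) (by positivity)
      _ = _ := mul_one _
  · rw [gp_pow_zero hy0 h, smul_zero, Matrix.zero_apply, norm_zero]
    positivity

theorem gl_isPar : IsPar (upN n D) (loN n D) (dgM n D) (tEl p n D) where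
  compact_N := upN_compact p
  closed_Nm := loN_closed
  closed_M := dgM_closed
  norm := gl_norm
  t_mem := gl_t_mem.1
  t_comm := gl_t_mem.2
  contr := gl_contr
  contr_lim := gl_contr_lim
  expand_lim := gl_expand_lim
  disj := gl_disj
  proj := gl_proj p
  iwahori := by
    intro O hO
    obtain ⟨ε, hε, hεO⟩ := gl_nhds hO
    have h0 : 0 < min ε (1 / 2) := lt_min hε (by norm_num)
    have h1 : min ε (1 / 2) < 1 := lt_of_le_of_lt (min_le_right _ _) (by norm_num)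
    refine ⟨kb n D (min ε (1 / 2)) h0.le h1.le, kb_open h0 h1.le, kb_compact p h0.le h1.le, ?_,
      gl_kb_norm h0.le h1.le, gl_udl h0.le h1, gl_kb_contr h0.le h1.le⟩
    rintro g ⟨hg1, hg2⟩
    exact hεO g (fun i j => (hg1 i j).trans (min_le_left _ _))
      fun i j => (hg2 i j).trans (min_le_left _ _)
  cocompact := by
    refine ⟨_, gl_compact p (n := n) (D := D) 1, fun g => ?_⟩
    obtain ⟨x, hx, m, hm, y, hy, e⟩ := gl_iwasawa g
    exact ⟨x, hx, m, hm, y, hy, e⟩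
  minimal := gl_minimal p

theorem gl_proP : IsProP p (upN n D) := by
  intro V hV
  haveI : CompactSpace (upN n D) := isCompact_iff_compactSpace.1 (upN_compact p)
  obtain ⟨W, hWn, hWo, hWV⟩ := exists_normal_le hV
  haveI : Finite (upN n D ⧸ W) := Subgroup.quotient_finite_of_isOpen W hWo
  obtain ⟨c, hc, hmin⟩ := gp_min p n D
  -- a neighbourhood
  obtain ⟨O, hO, hOW⟩ := (mem_nhds_subtype _ _ _).1 (hWo.mem_nhds W.one_mem)
  obtain ⟨ε, hε, hεO⟩ := gl_nhds hO
  have hpR : (1 : ℝ) < p := by exact_mod_cast (Fact.out : p.Prime).one_lt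
  obtain ⟨k, hk⟩ : ∃ k : ℕ, ((p : ℝ)⁻¹) ^ k / c ≤ ε := by
    obtain ⟨k, hk⟩ := exists_pow_lt_of_lt_one (show 0 < ε * c by positivity)
      (inv_lt_one_of_one_lt₀ hpR)
    exact ⟨k, by rw [div_le_iff₀ hc]; exact hk.le⟩
  have hP : IsPGroup p (upN n D ⧸ W) := by
    intro q
    obtain ⟨x, rfl⟩ := QuotientGroup.mk_surjective q
    refine ⟨k, ?_⟩
    rw [← QuotientGroup.mk_pow, QuotientGroup.eq_one_iff]
    have hmem : x ^ p ^ k ∈ (Subtype.val ⁻¹' O : Set (upN n D)) := by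
      refine hεO _ ?_ ?_
      · intro i j
        have h1 := gp_unip p n D x.2.1.1 x.2.1.2 hc hmin k i j
        refine le_trans (le_of_eq ?_) (h1.trans hk)
        simp
      · intro i j
        have h1 := gp_unip p n D x.2.2.1 x.2.2.2 hc hmin k i j
        refine le_trans (le_of_eq ?_) (h1.trans hk)
        simp
    exact hOW hmem
  obtain ⟨m, hm⟩ := IsPGroup.iff_card.1 hP
  have h1 : V.index ∣ W.index := Subgroup.index_dvd_of_le hWV
  rw [Subgroup.index_eq_card W, hm] at h1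
  obtain ⟨j, -, hj⟩ := (Nat.dvd_prime_pow Fact.out).1 h1
  exact ⟨j, hj⟩

theorem gl_padic : IsPadicLie p (GLn n D) :=
  padic_units (p := p) (Matrix (Fin n) (Fin n) D)

end Ord1
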