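import Pool.Agent.Ord1.GDefs

/-!
# Ord1, module GTop: topology of `GL_n(D)`

PROOFS.
* `gl_compact`: as `glt_compact` in `Pool/Agent/Emt/GLT.lean` (there for `n = 2`): the units of a
  topological ring embed as a closed subset into the product of the ring and its opposite
  (`Units.embedProduct`, `Units.isEmbedding_embedProduct`); `D` is a proper space
  (`FiniteDimensional.proper ℚ_[p] D`), so the boxes are compact.
* `gl_nhds`: the topology of the units is induced by `embedProduct`; the neighbourhoods of `1` in the matrix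
  ring are generated by boxes (product topology, `Metric` balls in every entry, finitely many entries).
* `kb_open`: `Subgroup.isOpen_of_mem_nhds`, the entries of `g` and `g⁻¹` are continuous
  (`Units.continuous_val`, `Units.continuous_iff` / `continuous_inv`), `Metric.closedBall_mem_nhds`.
* `kb_compact`: closed subset of the compact set of `gl_compact` with `R = 1`
  (`‖g i j‖ ≤ max ‖(g - 1) i j‖ ‖1 i j‖ ≤ 1`).
* `gl_bdd`: continuous functions on a compact set are bounded (finitely many entries).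
-/

open Topology Set

namespace Ord1

open Emt

variable {p : ℕ} [Fact p.Prime] {n : ℕ} {D : Type} [NormedDivisionRing D] [NormedAlgebra ℚ_[p] D]
  [FiniteDimensional ℚ_[p] D] [IsUltrametricDist D]

omit [IsUltrametricDist D] in
private theorem gtop_val (i j : Fin n) :
    Continuous fun g : GLn n D => (g : Matrix (Fin n) (Fin n) D) i j :=
  (Units.continuous_val).matrix_elem i j

omit [IsUltrametricDist D] in
private theorem gtop_inv (i j : Fin n) :
    Continuous fun g : GLn n D => ((g⁻¹ : GLn n D) : Matrix (Fin n) (Fin n) D) i j :=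
  (Units.continuous_val.comp continuous_inv).matrix_elem i j

variable (p) in
include p in
theorem gl_compact (R : ℝ) : IsCompact {g : GLn n D | Nle R (g : Matrix (Fin n) (Fin n) D) ∧
    Nle R ((g⁻¹ : GLn n D) : Matrix (Fin n) (Fin n) D)} := by
  have : ProperSpace D := FiniteDimensional.proper ℚ_[p] D
  set B : Set (Matrix (Fin n) (Fin n) D) :=
    Set.univ.pi fun _ : Fin n => Set.univ.pi fun _ : Fin n => Metric.closedBall (0 : D) R with hB
  have hBc : IsCompact B :=
    isCompact_univ_pi fun _ => isCompact_univ_pi fun _ => isCompact_closedBall (0 : D) R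
  have hBm : ∀ m : Matrix (Fin n) (Fin n) D, m ∈ B ↔ Nle R m := by
    intro m
    constructor
    · intro h i j
      exact mem_closedBall_zero_iff.1 (h i (Set.mem_univ i) j (Set.mem_univ j))
    · intro h i _ j _
      exact mem_closedBall_zero_iff.2 (h i j)
  set K : Set (Matrix (Fin n) (Fin n) D × Matrix (Fin n) (Fin n) D) :=
    (B ×ˢ B) ∩ {q | q.1 * q.2 = 1 ∧ q.2 * q.1 = 1} with hK
  have hKc : IsCompact K := by
    refine (hBc.prod hBc).inter_right ?_
    refine IsClosed.inter (isClosed_eq ?_ continuous_const) (isClosed_eq ?_ continuous_const)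
    · exact continuous_fst.mul continuous_snd
    · exact continuous_snd.mul continuous_fst
  have : CompactSpace K := isCompact_iff_compactSpace.1 hKc
  let φ : K → GLn n D := fun q => ⟨q.1.1, q.1.2, q.2.2.1, q.2.2.2⟩
  have hφ : Continuous φ := by
    rw [Units.continuous_iff]
    exact ⟨continuous_fst.comp continuous_subtype_val, continuous_snd.comp continuous_subtype_val⟩
  have hr := isCompact_range hφ
  convert hr using 1
  ext g
  constructor
  · rintro ⟨h1, h2⟩
    refine ⟨⟨((g : Matrix (Fin n) (Fin n) D), ((g⁻¹ : GLn n D) : Matrix (Fin n) (Fin n) D)),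
      ⟨⟨(hBm _).2 h1, (hBm _).2 h2⟩, ⟨g.mul_inv, g.inv_mul⟩⟩⟩, ?_⟩
    ext1
    rfl
  · rintro ⟨q, rfl⟩
    exact ⟨(hBm _).1 q.2.1.1, (hBm _).1 q.2.1.2⟩

omit [IsUltrametricDist D] in
private theorem gtop_mat_nhds {S : Set (Matrix (Fin n) (Fin n) D)}
    (hS : S ∈ 𝓝 (1 : Matrix (Fin n) (Fin n) D)) :
    ∃ ε : ℝ, 0 < ε ∧ ∀ m : Matrix (Fin n) (Fin n) D, Nle ε (m - 1) → m ∈ S := by
  have hS' : (show Set (Fin n → Fin n → D) from S) ∈
      𝓝 (show Fin n → Fin n → D from (1 : Matrix (Fin n) (Fin n) D)) := hS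
  obtain ⟨ε, hε, h⟩ := Metric.mem_nhds_iff.1 hS'
  refine ⟨ε / 2, half_pos hε, fun m hm => h ?_⟩
  rw [Metric.mem_ball]
  refine lt_of_le_of_lt ?_ (half_lt_self hε)
  rw [dist_pi_le_iff (half_pos hε).le]
  intro i
  rw [dist_pi_le_iff (half_pos hε).le]
  intro j
  rw [dist_eq_norm]
  exact hm i j

omit [IsUltrametricDist D] [FiniteDimensional ℚ_[p] D] [NormedAlgebra ℚ_[p] D] [Fact p.Prime] in
theorem gl_nhds {O : Set (GLn n D)} (hO : O ∈ 𝓝 (1 : GLn n D)) : ∃ ε : ℝ, 0 < ε ∧
    ∀ g : GLn n D, Nle ε ((g : Matrix (Fin n) (Fin n) D) - 1) →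
      Nle ε (((g⁻¹ : GLn n D) : Matrix (Fin n) (Fin n) D) - 1) → g ∈ O := by
  rw [(Units.isEmbedding_embedProduct (M := Matrix (Fin n) (Fin n) D)).nhds_eq_comap 1,
    Filter.mem_comap] at hO
  obtain ⟨t, ht, htO⟩ := hO
  rw [map_one] at ht
  have ht' : t ∈ 𝓝 ((1 : Matrix (Fin n) (Fin n) D), (1 : (Matrix (Fin n) (Fin n) D)ᵐᵒᵖ)) := ht
  rw [mem_nhds_prod_iff] at ht'
  obtain ⟨u, hu, v, hv, huv⟩ := ht'
  obtain ⟨ε, hε, h1⟩ := gtop_mat_nhds hu
  have hv' : MulOpposite.op ⁻¹' v ∈ 𝓝 (1 : Matrix (Fin n) (Fin n) D) := by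
    refine MulOpposite.continuous_op.continuousAt.preimage_mem_nhds ?_
    exact hv
  obtain ⟨δ, hδ, h2⟩ := gtop_mat_nhds hv'
  refine ⟨min ε δ, lt_min hε hδ, fun g hg hg' => htO ?_⟩
  show Units.embedProduct _ g ∈ t
  refine huv ⟨?_, ?_⟩
  · exact h1 _ fun i j => (hg i j).trans (min_le_left _ _)
  · exact h2 _ fun i j => (hg' i j).trans (min_le_right _ _)

omit [IsUltrametricDist D] [FiniteDimensional ℚ_[p] D] [NormedAlgebra ℚ_[p] D] [Fact p.Prime] in
theorem gl_bdd {Ω : Set (GLn n D)} (hΩ : IsCompact Ω) : ∃ R : ℝ, 0 < R ∧ ∀ g ∈ Ω,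
    Nle R (g : Matrix (Fin n) (Fin n) D) ∧
    Nle R ((g⁻¹ : GLn n D) : Matrix (Fin n) (Fin n) D) := by
  have hc : Continuous fun g : GLn n D => ∑ i, ∑ j,
      (‖(g : Matrix (Fin n) (Fin n) D) i j‖ +
        ‖((g⁻¹ : GLn n D) : Matrix (Fin n) (Fin n) D) i j‖) := by
    refine continuous_finsetSum _ fun i _ => continuous_finsetSum _ fun j _ => ?_
    exact (continuous_norm.comp (gtop_val i j)).add (continuous_norm.comp (gtop_inv i j))
  obtain ⟨R, hR⟩ := hΩ.exists_bound_of_continuousOn hc.continuousOn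
  refine ⟨max R 1, lt_of_lt_of_le one_pos (le_max_right _ _), fun g hg => ?_⟩
  have h1 := (le_abs_self _).trans (hR g hg)
  have h2 : ∀ i j, ‖(g : Matrix (Fin n) (Fin n) D) i j‖ +
        ‖((g⁻¹ : GLn n D) : Matrix (Fin n) (Fin n) D) i j‖ ≤ R := by
    intro i j
    refine le_trans ?_ h1
    refine le_trans ?_ (Finset.single_le_sum (f := fun i => ∑ j,
      (‖(g : Matrix (Fin n) (Fin n) D) i j‖ +
        ‖((g⁻¹ : GLn n D) : Matrix (Fin n) (Fin n) D) i j‖))
      (fun i _ => Finset.sum_nonneg fun j _ => by positivity) (Finset.mem_univ i))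
    exact Finset.single_le_sum (f := fun j =>
      (‖(g : Matrix (Fin n) (Fin n) D) i j‖ +
        ‖((g⁻¹ : GLn n D) : Matrix (Fin n) (Fin n) D) i j‖))
      (fun j _ => by positivity) (Finset.mem_univ j)
  constructor
  · intro i j
    have h3 := h2 i j
    have h4 := norm_nonneg (((g⁻¹ : GLn n D) : Matrix (Fin n) (Fin n) D) i j)
    exact le_trans (by linarith) (le_max_left R 1)
  · intro i j
    have h3 := h2 i j
    have h4 := norm_nonneg ((g : Matrix (Fin n) (Fin n) D) i j)
    exact le_trans (by linarith) (le_max_left R 1)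

omit [FiniteDimensional ℚ_[p] D] [NormedAlgebra ℚ_[p] D] [Fact p.Prime] in
theorem kb_open {r : ℝ} (h0 : 0 < r) (h1 : r ≤ 1) :
    IsOpen (kb n D r h0.le h1 : Set (GLn n D)) := by
  have ho : IsOpen {g : GLn n D | (∀ i j, ‖(g : Matrix (Fin n) (Fin n) D) i j -
        (1 : Matrix (Fin n) (Fin n) D) i j‖ < r) ∧
      ∀ i j, ‖((g⁻¹ : GLn n D) : Matrix (Fin n) (Fin n) D) i j -
        (1 : Matrix (Fin n) (Fin n) D) i j‖ < r} := by
    have c1 : IsOpen {g : GLn n D | ∀ i j, ‖(g : Matrix (Fin n) (Fin n) D) i j -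
        (1 : Matrix (Fin n) (Fin n) D) i j‖ < r} := by
      simp only [Set.ofPred_forall]
      refine isOpen_iInter_of_finite fun i => isOpen_iInter_of_finite fun j => ?_
      exact isOpen_lt (continuous_norm.comp ((gtop_val i j).sub continuous_const))
        continuous_const
    have c2 : IsOpen {g : GLn n D | ∀ i j, ‖((g⁻¹ : GLn n D) : Matrix (Fin n) (Fin n) D) i j -
        (1 : Matrix (Fin n) (Fin n) D) i j‖ < r} := by
      simp only [Set.ofPred_forall]
      refine isOpen_iInter_of_finite fun i => isOpen_iInter_of_finite fun j => ?_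
      exact isOpen_lt (continuous_norm.comp ((gtop_inv i j).sub continuous_const))
        continuous_const
    exact c1.inter c2
  refine Subgroup.isOpen_of_mem_nhds (kb n D r h0.le h1) (g := 1) ?_
  refine Filter.mem_of_superset (ho.mem_nhds ?_) ?_
  · constructor
    · intro i j
      rw [Units.val_one, sub_self, norm_zero]
      exact h0
    · intro i j
      rw [inv_one, Units.val_one, sub_self, norm_zero]
      exact h0
  · rintro g ⟨hg, hg'⟩
    exact ⟨fun i j => (hg i j).le, fun i j => (hg' i j).le⟩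

omit [IsUltrametricDist D] in
private theorem gtop_nle_closed (r : ℝ) (A : Matrix (Fin n) (Fin n) D) :
    IsClosed {g : GLn n D | Nle r ((g : Matrix (Fin n) (Fin n) D) - A) ∧
      Nle r (((g⁻¹ : GLn n D) : Matrix (Fin n) (Fin n) D) - A)} := by
  refine IsClosed.inter ?_ ?_
  · have : {g : GLn n D | Nle r ((g : Matrix (Fin n) (Fin n) D) - A)} =
        {g : GLn n D | ∀ i j, ‖(g : Matrix (Fin n) (Fin n) D) i j - A i j‖ ≤ r} := rfl
    show IsClosed {g : GLn n D | ∀ i j, ‖(g : Matrix (Fin n) (Fin n) D) i j - A i j‖ ≤ r}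
    simp only [Set.ofPred_forall]
    refine isClosed_iInter fun i => isClosed_iInter fun j => ?_
    exact isClosed_le (continuous_norm.comp ((gtop_val i j).sub continuous_const))
      continuous_const
  · show IsClosed {g : GLn n D | ∀ i j,
      ‖((g⁻¹ : GLn n D) : Matrix (Fin n) (Fin n) D) i j - A i j‖ ≤ r}
    simp only [Set.ofPred_forall]
    refine isClosed_iInter fun i => isClosed_iInter fun j => ?_
    exact isClosed_le (continuous_norm.comp ((gtop_inv i j).sub continuous_const))
      continuous_const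

variable (p) in
include p in
theorem kb_compact {r : ℝ} (h0 : 0 ≤ r) (h1 : r ≤ 1) :
    IsCompact (kb n D r h0 h1 : Set (GLn n D)) := by
  refine (gl_compact p (n := n) (D := D) 1).of_isClosed_subset (gtop_nle_closed r 1) ?_
  rintro g ⟨hg, hg'⟩
  have key : ∀ m : Matrix (Fin n) (Fin n) D, Nle r (m - 1) → Nle 1 m := by
    intro m hm
    have h2 := nle_add (r := 1) (g := m - 1) (h := 1) (fun i j => (hm i j).trans h1) Nle.one
    rwa [sub_add_cancel] at h2
  exact ⟨key _ hg, key _ hg'⟩

omit [IsUltrametricDist D] [FiniteDimensional ℚ_[p] D] [NormedAlgebra ℚ_[p] D] [Fact p.Prime] in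
theorem loN_closed : IsClosed (loN n D : Set (GLn n D)) := by
  have h1 : (loN n D : Set (GLn n D)) = {g : GLn n D |
      ((∀ i, (g : Matrix (Fin n) (Fin n) D) i i = 1) ∧
        ∀ i j, i < j → (g : Matrix (Fin n) (Fin n) D) i j = 0) ∧
      ((∀ i, ((g⁻¹ : GLn n D) : Matrix (Fin n) (Fin n) D) i i = 1) ∧
        ∀ i j, i < j → ((g⁻¹ : GLn n D) : Matrix (Fin n) (Fin n) D) i j = 0)} := rfl
  rw [h1]
  have c1 : IsClosed {g : GLn n D | ∀ i, (g : Matrix (Fin n) (Fin n) D) i i = 1} := by
    simp only [Set.ofPred_forall]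
    exact isClosed_iInter fun i => isClosed_eq (gtop_val i i) continuous_const
  have c2 : IsClosed {g : GLn n D | ∀ i j, i < j →
      (g : Matrix (Fin n) (Fin n) D) i j = 0} := by
    simp only [Set.ofPred_forall]
    exact isClosed_iInter fun i => isClosed_iInter fun j => isClosed_iInter fun _ =>
      isClosed_eq (gtop_val i j) continuous_const
  have c3 : IsClosed {g : GLn n D | ∀ i,
      ((g⁻¹ : GLn n D) : Matrix (Fin n) (Fin n) D) i i = 1} := by
    simp only [Set.ofPred_forall]
    exact isClosed_iInter fun i => isClosed_eq (gtop_inv i i) continuous_const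
  have c4 : IsClosed {g : GLn n D | ∀ i j, i < j →
      ((g⁻¹ : GLn n D) : Matrix (Fin n) (Fin n) D) i j = 0} := by
    simp only [Set.ofPred_forall]
    exact isClosed_iInter fun i => isClosed_iInter fun j => isClosed_iInter fun _ =>
      isClosed_eq (gtop_inv i j) continuous_const
  exact (c1.inter c2).inter (c3.inter c4)

omit [IsUltrametricDist D] [FiniteDimensional ℚ_[p] D] [NormedAlgebra ℚ_[p] D] [Fact p.Prime] in
theorem dgM_closed : IsClosed (dgM n D : Set (GLn n D)) := by
  have h1 : (dgM n D : Set (GLn n D)) = {g : GLn n D |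
      (∀ i j, i ≠ j → (g : Matrix (Fin n) (Fin n) D) i j = 0) ∧
      (∀ i j, i ≠ j → ((g⁻¹ : GLn n D) : Matrix (Fin n) (Fin n) D) i j = 0)} := rfl
  rw [h1]
  have c2 : IsClosed {g : GLn n D | ∀ i j, i ≠ j →
      (g : Matrix (Fin n) (Fin n) D) i j = 0} := by
    simp only [Set.ofPred_forall]
    exact isClosed_iInter fun i => isClosed_iInter fun j => isClosed_iInter fun _ =>
      isClosed_eq (gtop_val i j) continuous_const
  have c4 : IsClosed {g : GLn n D | ∀ i j, i ≠ j →
      ((g⁻¹ : GLn n D) : Matrix (Fin n) (Fin n) D) i j = 0} := by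
    simp only [Set.ofPred_forall]
    exact isClosed_iInter fun i => isClosed_iInter fun j => isClosed_iInter fun _ =>
      isClosed_eq (gtop_inv i j) continuous_const
  exact c2.inter c4

omit [IsUltrametricDist D] in
private theorem gtop_upU_closed : IsClosed {g : GLn n D |
      UpU (g : Matrix (Fin n) (Fin n) D) ∧
      UpU ((g⁻¹ : GLn n D) : Matrix (Fin n) (Fin n) D)} := by
  have h1 : {g : GLn n D | UpU (g : Matrix (Fin n) (Fin n) D) ∧
      UpU ((g⁻¹ : GLn n D) : Matrix (Fin n) (Fin n) D)} = {g : GLn n D |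
      ((∀ i, (g : Matrix (Fin n) (Fin n) D) i i = 1) ∧
        ∀ i j, j < i → (g : Matrix (Fin n) (Fin n) D) i j = 0) ∧
      ((∀ i, ((g⁻¹ : GLn n D) : Matrix (Fin n) (Fin n) D) i i = 1) ∧
        ∀ i j, j < i → ((g⁻¹ : GLn n D) : Matrix (Fin n) (Fin n) D) i j = 0)} := rfl
  rw [h1]
  have c1 : IsClosed {g : GLn n D | ∀ i, (g : Matrix (Fin n) (Fin n) D) i i = 1} := by
    simp only [Set.ofPred_forall]
    exact isClosed_iInter fun i => isClosed_eq (gtop_val i i) continuous_const
  have c2 : IsClosed {g : GLn n D | ∀ i j, j < i →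
      (g : Matrix (Fin n) (Fin n) D) i j = 0} := by
    simp only [Set.ofPred_forall]
    exact isClosed_iInter fun i => isClosed_iInter fun j => isClosed_iInter fun _ =>
      isClosed_eq (gtop_val i j) continuous_const
  have c3 : IsClosed {g : GLn n D | ∀ i,
      ((g⁻¹ : GLn n D) : Matrix (Fin n) (Fin n) D) i i = 1} := by
    simp only [Set.ofPred_forall]
    exact isClosed_iInter fun i => isClosed_eq (gtop_inv i i) continuous_const
  have c4 : IsClosed {g : GLn n D | ∀ i j, j < i →
      ((g⁻¹ : GLn n D) : Matrix (Fin n) (Fin n) D) i j = 0} := by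
    simp only [Set.ofPred_forall]
    exact isClosed_iInter fun i => isClosed_iInter fun j => isClosed_iInter fun _ =>
      isClosed_eq (gtop_inv i j) continuous_const
  exact (c1.inter c2).inter (c3.inter c4)

variable (p) in
include p in
theorem upN_compact : IsCompact (upN n D : Set (GLn n D)) := by
  have h1 : (upN n D : Set (GLn n D)) = {g : GLn n D | Nle 1 (g : Matrix (Fin n) (Fin n) D) ∧
    Nle 1 ((g⁻¹ : GLn n D) : Matrix (Fin n) (Fin n) D)} ∩ {g : GLn n D |
      UpU (g : Matrix (Fin n) (Fin n) D) ∧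
      UpU ((g⁻¹ : GLn n D) : Matrix (Fin n) (Fin n) D)} := by
    ext g
    constructor
    · rintro ⟨⟨a, b⟩, c, d⟩
      exact ⟨⟨b, d⟩, a, c⟩
    · rintro ⟨⟨b, d⟩, a, c⟩
      exact ⟨⟨a, b⟩, c, d⟩
  rw [h1]
  exact (gl_compact p (n := n) (D := D) 1).inter_right gtop_upU_closed

end Ord1
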