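import Pool.Agent.Ord1.EffU
import Pool.Agent.Ord1.GPar

/-!
# Ord1, module GUr: the pro-`p` Iwahori subgroups of `GL_n(D)`

`upN n D ⊔ kb n D r`, `0 < r < 1`: the matrices which are congruent to an integral unipotent upper
triangular matrix modulo the entries of norm `≤ r`.
-/

open Topology Set

namespace Ord1

open Emt

section

variable {G : Type} [Group G] [TopologicalSpace G] [IsTopologicalGroup G]
  {N₀ Nm M U H K : Subgroup G} {t s : G}

theorem mem_sup_norm (hn : ∀ n ∈ N₀, ∀ k ∈ K, n * k * n⁻¹ ∈ K) {x : G} :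
    x ∈ N₀ ⊔ K ↔ ∃ n ∈ N₀, ∃ k ∈ K, x = n * k := by
  constructor
  · intro hx
    rw [sup_comm] at hx
    obtain ⟨k, hk, n, hn', e⟩ := mem_sup_form (A := K) (B := N₀) hn hx
    refine ⟨n, hn', n⁻¹ * k * n⁻¹⁻¹, hn _ (N₀.inv_mem hn') _ hk, ?_⟩
    rw [e]
    group
  · rintro ⟨n, hn', k, hk, rfl⟩
    exact mul_mem (Subgroup.mem_sup_left hn') (Subgroup.mem_sup_right hk)

open Pointwise in
theorem iwa_sup (hP : IsPar N₀ Nm M t) (hO : IsOpen (K : Set G))
    (hC : IsCompact (K : Set G)) (hn : ∀ n ∈ N₀, ∀ k ∈ K, n * k * n⁻¹ ∈ K)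
    (hd : ∀ k ∈ K, ∃ a ∈ K ⊓ N₀, ∃ m ∈ K ⊓ M, ∃ b ∈ K ⊓ Nm, k = a * m * b)
    (hc : ∀ b ∈ K ⊓ Nm, t⁻¹ * b * t ∈ K) : Iwa N₀ Nm M (N₀ ⊔ K) t where
  open_U := Subgroup.isOpen_mono le_sup_right hO
  compact_U := by
    have h1 : ((N₀ ⊔ K : Subgroup G) : Set G) = (N₀ : Set G) * (K : Set G) := by
      ext x
      rw [Set.mem_mul, SetLike.mem_coe, mem_sup_norm hn]
      constructor
      · rintro ⟨n, hN, k, hK, rfl⟩
        exact ⟨n, hN, k, hK, rfl⟩
      · rintro ⟨n, hN, k, hK, rfl⟩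
        exact ⟨n, hN, k, hK, rfl⟩
    rw [h1]
    exact hP.compact_N.mul hC
  N_le := le_sup_left
  dec := by
    intro u hu
    obtain ⟨n, hN, k, hK, rfl⟩ := (mem_sup_norm hn).1 hu
    obtain ⟨a, ha, m, hm, b, hb, rfl⟩ := hd k hK
    refine ⟨n * a, N₀.mul_mem hN ha.2, m, ⟨Subgroup.mem_sup_right hm.1, hm.2⟩, b,
      ⟨Subgroup.mem_sup_right hb.1, hb.2⟩, ?_⟩
    group
  contr := by
    rintro b ⟨hu, hb⟩
    obtain ⟨n, hN, k, hK, e⟩ := (mem_sup_norm hn).1 hu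
    obtain ⟨a, ha, m, hm, b', hb', rfl⟩ := hd k hK
    have h1 : m * (b * b'⁻¹) * m⁻¹ ∈ Nm := hP.norm m hm.2 _ (Nm.mul_mem hb (Nm.inv_mem hb'.2))
    have h2 : n * a = m⁻¹ * (m * (b * b'⁻¹) * m⁻¹) := by
      rw [e]
      group
    obtain ⟨h3, h4⟩ := hP.disj (n * a) (N₀.mul_mem hN ha.2) m⁻¹ (M.inv_mem hm.2) _ h1 h2
    have h5 : m = 1 := inv_eq_one.1 h4
    have h6 : b = b' := by
      rw [e, h5, ← mul_assoc, ← mul_assoc, h3, one_mul, one_mul]
    rw [h6]
    exact Subgroup.mem_sup_right (hc b' hb')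

/-- A compact group in which `x ^ (p ^ k) → 1` for every `x` is pro-`p`. -/
theorem proP_of_pow {p : ℕ} [Fact p.Prime] {K : Type} [Group K] [TopologicalSpace K]
    [IsTopologicalGroup K] [CompactSpace K]
    (h : ∀ x : K, ∀ O ∈ 𝓝 (1 : K), ∃ k : ℕ, x ^ (p ^ k) ∈ O) : IsProP p K := by
  intro V hV
  obtain ⟨W, hWn, hWo, hWV⟩ := exists_normal_le hV
  haveI : Finite (K ⧸ W) := Subgroup.quotient_finite_of_isOpen W hWo
  have hP : IsPGroup p (K ⧸ W) := by
    intro q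
    obtain ⟨x, rfl⟩ := QuotientGroup.mk_surjective q
    obtain ⟨k, hk⟩ := h x W (hWo.mem_nhds W.one_mem)
    refine ⟨k, ?_⟩
    rw [← QuotientGroup.mk_pow, QuotientGroup.eq_one_iff]
    exact hk
  obtain ⟨m, hm⟩ := IsPGroup.iff_card.1 hP
  have h1 : V.index ∣ W.index := Subgroup.index_dvd_of_le hWV
  rw [Subgroup.index_eq_card W, hm] at h1
  obtain ⟨j, -, hj⟩ := (Nat.dvd_prime_pow Fact.out).1 h1
  exact ⟨j, hj⟩

/-- In a pro-`p` group `x ^ (p ^ k) → 1`. -/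
theorem pow_of_proP {p : ℕ} [Fact p.Prime] {K : Type} [Group K] [TopologicalSpace K]
    [IsTopologicalGroup K] [CompactSpace K] (h : IsProP p K) (x : K) {V : Subgroup K}
    (hV : IsOpen (V : Set K)) : ∃ k : ℕ, x ^ (p ^ k) ∈ V := by
  obtain ⟨W, hWn, hWo, hWV⟩ := exists_normal_le hV
  obtain ⟨k, hk⟩ := h W hWo
  refine ⟨k, hWV ?_⟩
  have h1 := pow_card_eq_one' (G := K ⧸ W) (x := (x : K ⧸ W))
  rw [← Subgroup.index_eq_card, hk, ← QuotientGroup.mk_pow, QuotientGroup.eq_one_iff] at h1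
  exact h1

end

variable (p : ℕ) [Fact p.Prime] {n : ℕ} {D : Type} [NormedDivisionRing D] [NormedAlgebra ℚ_[p] D]
  [FiniteDimensional ℚ_[p] D] [IsUltrametricDist D]

theorem gl_iwa {r : ℝ} (h0 : 0 < r) (h1 : r < 1) :
    Iwa (upN n D) (loN n D) (dgM n D) (upN n D ⊔ kb n D r h0.le h1.le) (tEl p n D) :=
  iwa_sup (gl_isPar p n D) (kb_open h0 h1.le) (kb_compact p h0.le h1.le)
    (gl_kb_norm h0.le h1.le) (gl_udl h0.le h1) (gl_kb_contr h0.le h1.le)

omit [FiniteDimensional ℚ_[p] D] in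
include p in
/-- One step: if `‖x - 1‖ ≤ s` then `‖x ^ p - 1‖ ≤ max (1 / p) s * s`. -/
theorem kb_pow_p {s : ℝ} (hs0 : 0 ≤ s) (hs1 : s ≤ 1) {x : Matrix (Fin n) (Fin n) D}
    (hx : Nle s (x - 1)) : Nle (max ((p : ℝ)⁻¹) s * s) (x ^ p - 1) := by
  have hp : p.Prime := Fact.out
  set y := x - 1 with hy
  have hxy : x = y + 1 := by rw [hy, sub_add_cancel]
  have hpow : ∀ m : ℕ, Nle (s ^ (m + 1)) (y ^ (m + 1)) := by
    intro m
    induction m with
    | zero =>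
      rw [zero_add, pow_one, pow_one]
      exact hx
    | succ m ih =>
      rw [pow_succ, pow_succ (n := m + 1)]
      exact nle_mul (pow_nonneg hs0 _) hs0 ih hx
  have hbin : x ^ p - 1 = ∑ m ∈ Finset.range p, (p.choose (m + 1)) • y ^ (m + 1) := by
    rw [hxy, (Commute.one_right y).add_pow, Finset.sum_range_succ']
    simp only [one_pow, mul_one, pow_zero, Nat.choose_zero_right, Nat.cast_one, add_sub_cancel_right]
    refine Finset.sum_congr rfl fun m _ => ?_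
    rw [nsmul_eq_mul']
  rw [hbin]
  intro a b
  have hmax : 0 ≤ max ((p : ℝ)⁻¹) s := le_max_of_le_right hs0
  rw [Matrix.sum_apply]
  refine IsUltrametricDist.norm_sum_le_of_forall_le_of_nonneg (mul_nonneg hmax hs0) fun m hm => ?_
  rw [Matrix.smul_apply, nsmul_eq_mul, norm_mul]
  have hyn := hpow m a b
  rw [Finset.mem_range] at hm
  rcases lt_or_eq_of_le (Nat.succ_le_of_lt hm) with h | h
  · -- `p ∣ choose`
    have h2 : ‖((p.choose (m + 1) : ℕ) : D)‖ ≤ (p : ℝ)⁻¹ := by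
      obtain ⟨c, hc⟩ := hp.dvd_choose_self (Nat.succ_ne_zero m) h
      have h3 : ((p.choose (m + 1) : ℕ) : D) = (p : D) * (c : D) := by
        rw [← Nat.cast_mul, ← hc]
      rw [h3, norm_mul]
      have h4 : ‖(p : D)‖ = (p : ℝ)⁻¹ := by
        rw [← map_natCast (algebraMap ℚ_[p] D) p, norm_algebraMap', Padic.norm_p]
      rw [h4]
      exact mul_le_of_le_one_right (by positivity) (IsUltrametricDist.norm_natCast_le_one D _)
    have h5 : s ^ (m + 1) ≤ s := by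
      rw [pow_succ]
      exact mul_le_of_le_one_left hs0 (pow_le_one₀ hs0 hs1)
    exact mul_le_mul (h2.trans (le_max_left _ _)) (hyn.trans h5) (norm_nonneg _) hmax
  · -- `m + 1 = p`
    have h6 : m + 1 = p := h
    have h2 : ‖((p.choose (m + 1) : ℕ) : D)‖ ≤ 1 := IsUltrametricDist.norm_natCast_le_one D _
    have h5 : s ^ (m + 1) ≤ max ((p : ℝ)⁻¹) s * s := by
      have h7 : 1 ≤ m := by
        have := hp.two_le
        omega
      obtain ⟨j, rfl⟩ : ∃ j, m = j + 1 := ⟨m - 1, by omega⟩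
      rw [pow_succ, pow_succ]
      refine mul_le_mul_of_nonneg_right ?_ hs0
      refine le_trans ?_ (le_max_right _ _)
      exact mul_le_of_le_one_left hs0 (pow_le_one₀ hs0 hs1)
    calc ‖((p.choose (m + 1) : ℕ) : D)‖ * ‖(y ^ (m + 1)) a b‖ ≤ 1 * s ^ (m + 1) :=
          mul_le_mul h2 hyn (norm_nonneg _) zero_le_one
      _ ≤ _ := by rw [one_mul]; exact h5

omit [FiniteDimensional ℚ_[p] D] in
include p in
theorem kb_pow_pow {r : ℝ} (h0 : 0 < r) (h1 : r < 1) {x : Matrix (Fin n) (Fin n) D}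
    (hx : Nle r (x - 1)) (k : ℕ) : Nle ((max ((p : ℝ)⁻¹) r) ^ k * r) (x ^ (p ^ k) - 1) := by
  have hpR : (1 : ℝ) < p := by exact_mod_cast (Fact.out : p.Prime).one_lt
  have hq0 : 0 ≤ max ((p : ℝ)⁻¹) r := le_max_of_le_right h0.le
  have hq1 : max ((p : ℝ)⁻¹) r ≤ 1 := max_le (inv_le_one_of_one_le₀ hpR.le) h1.le
  induction k with
  | zero =>
    rw [pow_zero, pow_zero, pow_one, one_mul]
    exact hx
  | succ k ih =>
    have hs : (max ((p : ℝ)⁻¹) r) ^ k * r ≤ r := mul_le_of_le_one_left h0.le (pow_le_one₀ hq0 hq1)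
    have h2 := kb_pow_p p (mul_nonneg (pow_nonneg hq0 k) h0.le) (hs.trans h1.le) ih
    rw [pow_succ p k, pow_mul]
    intro a b
    refine (h2 a b).trans ?_
    have e : max ((p : ℝ)⁻¹) r ^ (k + 1) * r =
        max ((p : ℝ)⁻¹) r * (max ((p : ℝ)⁻¹) r ^ k * r) := by
      rw [pow_succ]
      ring
    rw [e]
    refine mul_le_mul_of_nonneg_right ?_ (mul_nonneg (pow_nonneg hq0 k) h0.le)
    exact max_le (le_max_left _ _) (hs.trans (le_max_right _ _))

theorem gl_proP_sup {r : ℝ} (h0 : 0 < r) (h1 : r < 1) :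
    IsProP p (upN n D ⊔ kb n D r h0.le h1.le : Subgroup (GLn n D)) := by
  have hI := gl_iwa (n := n) (D := D) p h0 h1
  haveI : CompactSpace (upN n D ⊔ kb n D r h0.le h1.le : Subgroup (GLn n D)) :=
    isCompact_iff_compactSpace.1 hI.compact_U
  haveI : CompactSpace (upN n D) := isCompact_iff_compactSpace.1 (upN_compact p)
  have hpR : (1 : ℝ) < p := by exact_mod_cast (Fact.out : p.Prime).one_lt
  have hq0 : 0 ≤ max ((p : ℝ)⁻¹) r := le_max_of_le_right h0.le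
  have hq1 : max ((p : ℝ)⁻¹) r < 1 := max_lt (inv_lt_one_of_one_lt₀ hpR) h1
  refine proP_of_pow fun x O hO => ?_
  obtain ⟨O', hO', hOO'⟩ := (mem_nhds_subtype _ _ _).1 hO
  obtain ⟨ε, hε, hεO⟩ := gl_nhds hO'
  -- a power of `x` is in `kb r`
  obtain ⟨j, hj⟩ : ∃ j : ℕ, (x : GLn n D) ^ (p ^ j) ∈ kb n D r h0.le h1.le := by
    obtain ⟨a, ha, k, hk, e⟩ := (mem_sup_norm (gl_kb_norm h0.le h1.le)).1 x.2
    have hko : IsOpen (((kb n D r h0.le h1.le).subgroupOf (upN n D) : Subgroup (upN n D)) :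
        Set (upN n D)) := (kb_open h0 h1.le).preimage continuous_subtype_val
    obtain ⟨j, hj⟩ := pow_of_proP (gl_proP p n D) ⟨a, ha⟩ hko
    refine ⟨j, ?_⟩
    have hj' : a ^ (p ^ j) ∈ kb n D r h0.le h1.le := hj
    have key : ∀ m : ℕ, ∃ k' ∈ kb n D r h0.le h1.le, (x : GLn n D) ^ m = a ^ m * k' := by
      intro m
      induction m with
      | zero => exact ⟨1, one_mem _, by rw [pow_zero, pow_zero, one_mul]⟩
      | succ m ih =>
        obtain ⟨k', hk', e'⟩ := ih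
        refine ⟨a⁻¹ * k' * a⁻¹⁻¹ * k, mul_mem (gl_kb_norm h0.le h1.le _ (inv_mem ha) _ hk') hk, ?_⟩
        rw [pow_succ, e', e, pow_succ]
        group
    obtain ⟨k', hk', e'⟩ := key (p ^ j)
    rw [e']
    exact mul_mem hj' hk'
  obtain ⟨i, hi⟩ : ∃ i : ℕ, (max ((p : ℝ)⁻¹) r) ^ i < ε := exists_pow_lt_of_lt_one hε hq1
  refine ⟨j + i, hOO' ?_⟩
  have hle : (max ((p : ℝ)⁻¹) r) ^ i * r ≤ ε := by
    refine le_trans (mul_le_of_le_one_right (pow_nonneg hq0 i) h1.le) hi.le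
  refine hεO _ ?_ ?_
  · have h2 := kb_pow_pow p h0 h1 hj.1 i
    intro a b
    refine le_trans (le_of_eq ?_) ((h2 a b).trans hle)
    have e3 : (((x ^ (p ^ (j + i)) : (upN n D ⊔ kb n D r h0.le h1.le : Subgroup (GLn n D))) :
        GLn n D) : Matrix (Fin n) (Fin n) D) =
        (((x : GLn n D) ^ (p ^ j) : GLn n D) : Matrix (Fin n) (Fin n) D) ^ (p ^ i) := by
      rw [Subgroup.coe_pow, Units.val_pow_eq_pow_val, Units.val_pow_eq_pow_val, ← pow_mul,
        ← pow_add]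
    rw [e3]
  · have h2 := kb_pow_pow p h0 h1 hj.2 i
    intro a b
    refine le_trans (le_of_eq ?_) ((h2 a b).trans hle)
    have e3 : ((((x ^ (p ^ (j + i)) : (upN n D ⊔ kb n D r h0.le h1.le : Subgroup (GLn n D))) :
        GLn n D)⁻¹ : GLn n D) : Matrix (Fin n) (Fin n) D) =
        ((((x : GLn n D) ^ (p ^ j))⁻¹ : GLn n D) : Matrix (Fin n) (Fin n) D) ^ (p ^ i) := by
      rw [Subgroup.coe_pow, ← Units.val_pow_eq_pow_val, inv_pow (_ ^ _) (p ^ i), ← pow_mul, ← pow_add]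
    rw [e3]

omit [NormedAlgebra ℚ_[p] D] [FiniteDimensional ℚ_[p] D] in
theorem upN_ne_bot (hn : 2 ≤ n) : upN n D ≠ ⊥ := by
  intro h
  let i0 : Fin n := ⟨0, by omega⟩
  let i1 : Fin n := ⟨1, by omega⟩
  have h01 : i0 ≠ i1 := fun h => by
    have := congrArg Fin.val h
    simp [i0, i1] at this
  let e : Matrix (Fin n) (Fin n) D := Matrix.single i0 i1 1
  have he : e * e = 0 := Matrix.single_mul_single_of_ne _ _ _ _ (Ne.symm h01) _
  have key : ∀ c : D, ‖c‖ ≤ 1 → (UpU (1 + Matrix.single i0 i1 c) ∧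
      Nle 1 (1 + Matrix.single i0 i1 c : Matrix (Fin n) (Fin n) D)) := by
    intro c hc
    refine ⟨⟨fun i => ?_, fun i j hij => ?_⟩, nle_add Nle.one fun i j => ?_⟩
    · rw [Matrix.add_apply, Matrix.one_apply_eq, Matrix.single_apply_of_ne, add_zero]
      rintro ⟨h1, h2⟩
      exact h01 (h1.trans h2.symm)
    · rw [Matrix.add_apply, Matrix.one_apply_ne (ne_of_gt hij), Matrix.single_apply_of_ne, add_zero]
      rintro ⟨h1, h2⟩
      rw [← h1, ← h2] at hij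
      have : (1 : ℕ) < 0 := hij
      omega
    · rw [Matrix.single_apply]
      split_ifs
      · exact hc
      · rw [norm_zero]
        exact zero_le_one
  let g : GLn n D :=
    { val := 1 + e
      inv := 1 - e
      val_inv := by
        have : (1 + e) * (1 - e) = 1 - e * e := by noncomm_ring
        rw [this, he, sub_zero]
      inv_val := by
        have : (1 - e) * (1 + e) = 1 - e * e := by noncomm_ring
        rw [this, he, sub_zero] }
  have hg : g ∈ upN n D := by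
    refine ⟨key 1 norm_one.le, ?_⟩
    have h2 := key (-1) (by rw [norm_neg, norm_one])
    have h3 : ((g⁻¹ : GLn n D) : Matrix (Fin n) (Fin n) D) = 1 + Matrix.single i0 i1 (-1) := by
      show (1 : Matrix (Fin n) (Fin n) D) - e = _
      rw [sub_eq_add_neg, Matrix.single_neg]
    rw [h3]
    exact h2
  rw [h, Subgroup.mem_bot] at hg
  have h4 := congrArg (fun x : GLn n D => (x : Matrix (Fin n) (Fin n) D) i0 i1) hg
  have h5 : (1 + e) i0 i1 = (1 : Matrix (Fin n) (Fin n) D) i0 i1 := h4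
  rw [Matrix.add_apply, Matrix.one_apply_ne h01, zero_add] at h5
  have h6 : e i0 i1 = 1 := Matrix.single_apply_same _ _ _
  rw [h6] at h5
  exact one_ne_zero h5

end Ord1
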