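import Pool.Agent.Ord1.Defs

/-!
# Ord1, module Grp: elementary facts on the subgroups `H = Nm L`

PROOFS. `nor_of_cen`: `s n l s⁻¹ = (s n s⁻¹) (s l s⁻¹)` and `s l s⁻¹ = l` for `l ∈ M`.
`good_base`: `Nm` is normalised by `M`, so the elements of `Nm ⊔ (U ⊓ M)` are the products `n l`.
`mem_sup_zpowers`: `s` normalises `H`. `good_sup`: `h s ^ j = n (l s ^ j)`.
`good_disj`: `n = n' l = l (l⁻¹ n' l)`, apply `IsPar.disj`.
-/

open Topology Set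

namespace Ord1

open Emt

variable {G : Type} [Group G] [TopologicalSpace G] {N₀ Nm M U H : Subgroup G} {t s : G}

theorem IsPar.cen (hP : IsPar N₀ Nm M t) : Cen M t := ⟨hP.t_mem, hP.t_comm⟩

theorem Cen.zpow (hs : Cen M s) (k : ℤ) : Cen M (s ^ k) :=
  ⟨M.zpow_mem hs.1 k, fun m hm => ((show Commute s m from hs.2 m hm).zpow_left k).eq⟩

theorem Cen.pow (hs : Cen M s) (k : ℕ) : Cen M (s ^ k) :=
  ⟨M.pow_mem hs.1 k, fun m hm => ((show Commute s m from hs.2 m hm).pow_left k).eq⟩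

theorem Cen.inv' (hs : Cen M s) : Cen M s⁻¹ :=
  ⟨M.inv_mem hs.1, fun m hm => ((show Commute s m from hs.2 m hm).inv_left).eq⟩

theorem Nor.pow' (hs : Nor H s) (k : ℕ) : Nor H (s ^ k) := by
  induction k with
  | zero =>
    intro h
    rw [pow_zero, one_mul, inv_one, mul_one]
  | succ k ih =>
    intro h
    have e : s ^ (k + 1) * h * (s ^ (k + 1))⁻¹ = s ^ k * (s * h * s⁻¹) * (s ^ k)⁻¹ := by
      rw [pow_succ]
      group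
    rw [e, ih, hs]

theorem Nor.inv' (hs : Nor H s) : Nor H s⁻¹ := by
  intro h
  rw [← hs (s⁻¹ * h * s⁻¹⁻¹)]
  have e : s * (s⁻¹ * h * s⁻¹⁻¹) * s⁻¹ = h := by group
  rw [e]

/-- the elements of `A ⊔ B` when `B` normalises `A` -/
theorem mem_sup_form {A B : Subgroup G} (hn : ∀ b ∈ B, ∀ a ∈ A, b * a * b⁻¹ ∈ A) {x : G}
    (hx : x ∈ A ⊔ B) : ∃ a ∈ A, ∃ b ∈ B, x = a * b := by
  let K : Subgroup G :=
    { carrier := {x | ∃ a ∈ A, ∃ b ∈ B, x = a * b}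
      one_mem' := ⟨1, A.one_mem, 1, B.one_mem, (one_mul 1).symm⟩
      mul_mem' := by
        rintro _ _ ⟨a, ha, b, hb, rfl⟩ ⟨a', ha', b', hb', rfl⟩
        exact ⟨a * (b * a' * b⁻¹), A.mul_mem ha (hn b hb a' ha'), b * b', B.mul_mem hb hb',
          by group⟩
      inv_mem' := by
        rintro _ ⟨a, ha, b, hb, rfl⟩
        refine ⟨b⁻¹ * a⁻¹ * b⁻¹⁻¹, hn b⁻¹ (B.inv_mem hb) a⁻¹ (A.inv_mem ha), b⁻¹, B.inv_mem hb, ?_⟩
        group }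
  have hK : A ⊔ B ≤ K := sup_le (fun a ha => ⟨a, ha, 1, B.one_mem, (mul_one a).symm⟩)
    (fun b hb => ⟨1, A.one_mem, b, hb, (one_mul b).symm⟩)
  exact hK hx

theorem Nor.zpow (hs : Nor H s) (k : ℤ) : Nor H (s ^ k) := by
  cases k with
  | ofNat k =>
    rw [Int.ofNat_eq_natCast, zpow_natCast]
    exact hs.pow' k
  | negSucc k =>
    rw [zpow_negSucc]
    exact (hs.pow' (k + 1)).inv'

theorem Nor.pow (hs : Nor H s) (k : ℕ) : Nor H (s ^ k) := hs.pow' k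

theorem nor_of_cen_aux (hP : IsPar N₀ Nm M t) (hH : IsGood Nm M U H) {s : G} (hs : Cen M s)
    {h : G} (hh : h ∈ H) : s * h * s⁻¹ ∈ H := by
  obtain ⟨n, hn, l, hl, rfl⟩ := hH.dec h hh
  have e : s * (n * l) * s⁻¹ = (s * n * s⁻¹) * l := by
    have h1 : s * l = l * s := hs.2 l hl.2
    calc s * (n * l) * s⁻¹ = (s * n * s⁻¹) * (s * l) * s⁻¹ := by group
      _ = (s * n * s⁻¹) * (l * s) * s⁻¹ := by rw [h1]
      _ = (s * n * s⁻¹) * l := by group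
  rw [e]
  exact H.mul_mem (hH.Nm_le (hP.norm s hs.1 n hn)) hl.1

theorem nor_of_cen (hP : IsPar N₀ Nm M t) (hH : IsGood Nm M U H) (hs : Cen M s) : Nor H s := by
  intro h
  refine ⟨fun hh => ?_, nor_of_cen_aux hP hH hs⟩
  have h1 := nor_of_cen_aux hP hH hs.inv' hh
  have e : s⁻¹ * (s * h * s⁻¹) * s⁻¹⁻¹ = h := by group
  rwa [e] at h1

theorem mem_base_aux (hP : IsPar N₀ Nm M t) {h : G} (hh : h ∈ Nm ⊔ (U ⊓ M)) :
    ∃ n ∈ Nm, ∃ l ∈ U ⊓ M, h = n * l :=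
  mem_sup_form (A := Nm) (B := U ⊓ M) (fun b hb a ha => hP.norm b (Subgroup.mem_inf.1 hb).2 a ha) hh

theorem good_base (hP : IsPar N₀ Nm M t) (hI : Iwa N₀ Nm M U t) :
    IsGood Nm M U (Nm ⊔ (U ⊓ M)) := by
  refine ⟨le_sup_left, le_sup_right, fun h hh => ?_⟩
  obtain ⟨n, hn, l, hl, e⟩ := mem_base_aux hP hh
  exact ⟨n, hn, l, ⟨(le_sup_right : U ⊓ M ≤ Nm ⊔ (U ⊓ M)) hl, hl.2⟩, e⟩

/-- the elements of `Nm ⊔ (U ⊓ M)` -/
theorem mem_base (hP : IsPar N₀ Nm M t) {h : G} (hh : h ∈ Nm ⊔ (U ⊓ M)) :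
    ∃ n ∈ Nm, ∃ l ∈ U ⊓ M, h = n * l := mem_base_aux hP hh

theorem mem_sup_zpowers (hn : Nor H s) {x : G} :
    x ∈ H ⊔ Subgroup.zpowers s ↔ ∃ h ∈ H, ∃ j : ℤ, x = h * s ^ j := by
  constructor
  · intro hx
    have h1 : ∀ b ∈ Subgroup.zpowers s, ∀ a ∈ H, b * a * b⁻¹ ∈ H := by
      rintro _ ⟨j, rfl⟩ a ha
      exact (hn.zpow j a).2 ha
    obtain ⟨a, ha, _, ⟨j, rfl⟩, e⟩ := mem_sup_form h1 hx
    exact ⟨a, ha, j, e⟩
  · rintro ⟨h, hh, j, rfl⟩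
    exact Subgroup.mul_mem _ ((le_sup_left : H ≤ H ⊔ Subgroup.zpowers s) hh)
      ((le_sup_right : Subgroup.zpowers s ≤ H ⊔ Subgroup.zpowers s) ⟨j, rfl⟩)

theorem good_sup (hP : IsPar N₀ Nm M t) (hH : IsGood Nm M U H) (hs : Cen M s) :
    IsGood Nm M U (H ⊔ Subgroup.zpowers s) := by
  refine ⟨hH.Nm_le.trans le_sup_left, hH.UM_le.trans le_sup_left, fun x hx => ?_⟩
  obtain ⟨h, hh, j, rfl⟩ := (mem_sup_zpowers (nor_of_cen hP hH hs)).1 hx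
  obtain ⟨n, hn, l, hl, rfl⟩ := hH.dec h hh
  refine ⟨n, hn, l * s ^ j, ⟨?_, M.mul_mem hl.2 (M.zpow_mem hs.1 j)⟩, mul_assoc _ _ _⟩
  exact Subgroup.mul_mem _ ((le_sup_left : H ≤ H ⊔ Subgroup.zpowers s) hl.1)
    ((le_sup_right : Subgroup.zpowers s ≤ H ⊔ Subgroup.zpowers s) ⟨j, rfl⟩)

/-- `N₀ ∩ H = 1` -/
theorem good_disj (hP : IsPar N₀ Nm M t) (hH : IsGood Nm M U H) {n : G} (hn : n ∈ N₀)
    (hh : n ∈ H) : n = 1 := by
  obtain ⟨n', hn', l, hl, e⟩ := hH.dec n hh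
  refine (hP.disj n hn l hl.2 (l⁻¹ * n' * l⁻¹⁻¹) (hP.norm l⁻¹ (M.inv_mem hl.2) n' hn') ?_).1
  rw [e]
  group

/-- `M ∩ Nm = 1` -/
theorem IsPar.inf_bot (hP : IsPar N₀ Nm M t) {x : G} (h1 : x ∈ M) (h2 : x ∈ Nm) : x = 1 :=
  (hP.disj 1 N₀.one_mem x h1 x⁻¹ (Nm.inv_mem h2) (mul_inv_cancel x).symm).2

theorem IsPar.contr_pow (hP : IsPar N₀ Nm M t) (k : ℕ) {n : G} (hn : n ∈ N₀) :
    t ^ k * n * (t ^ k)⁻¹ ∈ N₀ := by
  induction k with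
  | zero => rwa [pow_zero, one_mul, inv_one, mul_one]
  | succ k ih =>
    have e : t ^ (k + 1) * n * (t ^ (k + 1))⁻¹ = t * (t ^ k * n * (t ^ k)⁻¹) * t⁻¹ := by
      rw [pow_succ']
      group
    rw [e]
    exact hP.contr _ ih

/-- `U N₀ H = N₀ H` -/
theorem U_mul (hI : Iwa N₀ Nm M U t) (hH : IsGood Nm M U H) {u : G} (hu : u ∈ U) :
    ∃ n ∈ N₀, ∃ h ∈ H, u = n * h := by
  obtain ⟨n, hn, m, hm, b, hb, e⟩ := hI.dec u hu
  exact ⟨n, hn, m * b, H.mul_mem (hH.UM_le hm) (hH.Nm_le hb.2), by rw [e, mul_assoc]⟩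

end Ord1
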