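import Pool.Agent.Ord1.Phi
import Pool.Agent.Ord1.Top1

/-!
# Ord1, module Ker0: the kernel of `C[G/U] → C_c(G / Nm (U ∩ M))` consists of torsion

PROOF of `ker_base`. `H₀ = Nm ⊔ (U ⊓ M)`. For `g, g'` in a finite set of representatives of the
support of `x` the set `N₀ g⁻¹ g' N₀ (U ⊓ M)` is contained in the compact set `N₀ g⁻¹ g' N₀ U`; let
`Ω_{g,g'} = Nm ∩ (N₀ g⁻¹ g' N₀ U)` (compact, `Nm` closed). By `expand_lim` there is `k` with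
`t ^ (-k) Ω_{g,g'} t ^ k ⊆ U` for all these pairs. Put `w = (hkX)^[k] x`. Let `y₁ = g n t ^ k U` and
`y₂ = g' n' t ^ k U` be in the support of `w` (`hkX_supp`), and let
`(g n t ^ k)⁻¹ ... `: suppose the sets `g n t ^ k N₀ H₀` and `g' n' t ^ k N₀ H₀` meet:
`g n t ^ k n₀ h = g' n' t ^ k n₀'` with `n₀, n₀' ∈ N₀`, `h = b l ∈ H₀`, `b ∈ Nm`, `l ∈ U ⊓ M`
(`mem_base`). Then `t ^ k h t ^ (-k) = (t ^ k b t ^ (-k)) l` equals
`(t ^ k n₀⁻¹ t ^ (-k)) n⁻¹ g⁻¹ g' n' (t ^ k n₀' t ^ (-k)) ∈ N₀ g⁻¹ g' N₀`, so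
`t ^ k b t ^ (-k) ∈ Ω_{g,g'}` and `b ∈ U`, so `h ∈ U` and
`g' n' t ^ k U = g' n' t ^ k n₀' U = g n t ^ k n₀ h U = g n t ^ k U`: `y₂ = y₁`.
Now `phiX w = 0` (`phiX_iter`), and for a point `y₁ = r U` of the support of `w`
`0 = phiX w r = ∑ w (y₂) [r ∈ y₂ N₀ H₀] = w y₁` (`phiX` is a `Finsupp.linearCombination`; use
`phiX_single` for the representatives). So `w = 0`.
-/

open Topology Set Pointwise

namespace Ord1

open Emt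

variable {G : Type} [Group G] [TopologicalSpace G] [IsTopologicalGroup G]
  {N₀ Nm M U H : Subgroup G} {t s : G} {C : Type} [Field C]

/-- the separation of the balls -/
theorem ball_sep (hP : IsPar N₀ Nm M t) (hI : Iwa N₀ Nm M U t) (g g' : G) :
    ∃ k₀ : ℕ, ∀ k ≥ k₀, ∀ n ∈ N₀, ∀ n' ∈ N₀,
      bl C N₀ (Nm ⊔ (U ⊓ M)) t 0 ((g' * n' * t ^ k)⁻¹ * (g * n * t ^ k)) ≠ 0 →
      (((g * n * t ^ k : G) : G ⧸ U) = ((g' * n' * t ^ k : G) : G ⧸ U)) := by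
  have hc : IsCompact (((N₀ : Set G) * {g'⁻¹ * g}) * (U : Set G)) :=
    (hP.compact_N.mul isCompact_singleton).mul hI.compact_U
  obtain ⟨k₀, hk₀⟩ := hP.expand_lim ((((N₀ : Set G) * {g'⁻¹ * g}) * (U : Set G)) ∩ (Nm : Set G))
    inter_subset_right (hc.inter_right hP.closed_Nm) (U : Set G)
    (hI.open_U.mem_nhds U.one_mem)
  refine ⟨k₀, fun k hk n hn n' hn' hne => ?_⟩
  obtain ⟨n₀, hn₀, h, hh, e⟩ := bl_ne.1 hne
  obtain ⟨b, hb, l, hl, rfl⟩ := mem_base hP hh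
  have htl : t ^ k * l = l * t ^ k := (hP.cen.pow k).2 l hl.2
  rw [pow_zero, one_mul, inv_one, mul_one] at e
  -- `g n t ^ k = g' n' t ^ k n₀ b l`
  have e1 : g * n * t ^ k = g' * n' * t ^ k * (n₀ * (b * l)) := by
    rw [← e]
    group
  have hb1 : t ^ k * b * (t ^ k)⁻¹ ∈ (((N₀ : Set G) * {g'⁻¹ * g}) * (U : Set G)) ∩ (Nm : Set G) := by
    refine ⟨?_, hP.norm _ (M.pow_mem hP.t_mem k) b hb⟩
    refine Set.mem_mul.2 ⟨((t ^ k * n₀⁻¹ * (t ^ k)⁻¹) * n'⁻¹) * (g'⁻¹ * g), Set.mem_mul.2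
      ⟨(t ^ k * n₀⁻¹ * (t ^ k)⁻¹) * n'⁻¹, N₀.mul_mem (hP.contr_pow k (N₀.inv_mem hn₀))
        (N₀.inv_mem hn'), g'⁻¹ * g, rfl, rfl⟩, n * l⁻¹, U.mul_mem (hI.N_le hn) (U.inv_mem hl.1), ?_⟩
    have e2 : g * n = g' * n' * t ^ k * (n₀ * (b * l)) * (t ^ k)⁻¹ := by
      rw [← e1]
      group
    have e3 : (t ^ k)⁻¹ * l⁻¹ = l⁻¹ * (t ^ k)⁻¹ := by
      rw [← mul_inv_rev, ← mul_inv_rev, htl]
    calc ((t ^ k * n₀⁻¹ * (t ^ k)⁻¹) * n'⁻¹) * (g'⁻¹ * g) * (n * l⁻¹)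
        = (t ^ k * n₀⁻¹ * (t ^ k)⁻¹) * n'⁻¹ * g'⁻¹ * (g * n) * l⁻¹ := by group
      _ = t ^ k * b * l * ((t ^ k)⁻¹ * l⁻¹) := by
        rw [e2]
        group
      _ = t ^ k * b * (t ^ k)⁻¹ := by
        rw [e3]
        group
  have hb2 : b ∈ U := by
    have h1 := hk₀ k hk _ hb1
    have e2 : (t ^ k)⁻¹ * (t ^ k * b * (t ^ k)⁻¹) * t ^ k = b := by group
    rwa [e2] at h1
  refine (QuotientGroup.eq.2 ?_).symm
  rw [e]
  exact U.mul_mem (hI.N_le hn₀) (U.mul_mem hb2 hl.1)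

theorem Iwa.contr_Nm_pow (hP : IsPar N₀ Nm M t) (hI : Iwa N₀ Nm M U t) (k : ℕ) {b : G}
    (hb : b ∈ U ⊓ Nm) : (t ^ k)⁻¹ * b * t ^ k ∈ U ⊓ Nm := by
  induction k with
  | zero => rwa [pow_zero, inv_one, one_mul, mul_one]
  | succ k ih =>
    have e : (t ^ (k + 1))⁻¹ * b * t ^ (k + 1) = t⁻¹ * ((t ^ k)⁻¹ * b * t ^ k) * t := by
      rw [pow_succ]
      group
    rw [e]
    refine ⟨hI.contr _ ih, ?_⟩
    have h1 := hP.norm t⁻¹ (M.inv_mem hP.t_mem) _ ih.2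
    rwa [inv_inv] at h1

/-- a change of the representative -/
theorem rep_out (hP : IsPar N₀ Nm M t) (hI : Iwa N₀ Nm M U t) (k : ℕ) (g : G) {n : G}
    (hn : n ∈ N₀) : ∃ n' ∈ N₀, (((g * n * t ^ k : G) : G ⧸ U) =
      (((g : G ⧸ U).out * n' * t ^ k : G) : G ⧸ U)) := by
  obtain ⟨u, hu⟩ := QuotientGroup.mk_out_eq_mul U g
  obtain ⟨n', hn', m, hm, b, hb, e⟩ := hI.dec ((u : G)⁻¹ * n)
    (U.mul_mem (U.inv_mem u.2) (hI.N_le hn))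
  refine ⟨n', hn', (QuotientGroup.eq.2 ?_).symm⟩
  have htm : t ^ k * m = m * t ^ k := (hP.cen.pow k).2 m hm.2
  have e1 : ((g : G ⧸ U).out * n' * t ^ k : G)⁻¹ * (g * n * t ^ k) =
      m * ((t ^ k)⁻¹ * b * t ^ k) := by
    have e2 : n = u * (n' * m * b) := by
      rw [← e]
      group
    have e3 : m * (t ^ k)⁻¹ = (t ^ k)⁻¹ * m := by
      calc m * (t ^ k)⁻¹ = (t ^ k)⁻¹ * (t ^ k * m) * (t ^ k)⁻¹ := by group
        _ = (t ^ k)⁻¹ * (m * t ^ k) * (t ^ k)⁻¹ := by rw [htm]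
        _ = (t ^ k)⁻¹ * m := by group
    rw [hu, e2]
    calc (g * u * n' * t ^ k)⁻¹ * (g * (u * (n' * m * b)) * t ^ k)
        = ((t ^ k)⁻¹ * m) * (b * t ^ k) := by group
      _ = m * (t ^ k)⁻¹ * (b * t ^ k) := by rw [e3]
      _ = m * ((t ^ k)⁻¹ * b * t ^ k) := by group
  rw [e1]
  exact U.mul_mem hm.1 (Iwa.contr_Nm_pow hP hI k hb).1

theorem ker_base (hP : IsPar N₀ Nm M t) (hI : Iwa N₀ Nm M U t) (x : (G ⧸ U) →₀ C)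
    (hx : phiX C N₀ U (Nm ⊔ (U ⊓ M)) t x = 0) : ∃ k, (hkX C N₀ U t)^[k] x = 0 := by
  classical
  have hH := good_base hP hI
  choose κ hκ using fun g g' : G => ball_sep (C := C) hP hI g g'
  obtain ⟨k, hk⟩ : ∃ k, ∀ y ∈ x.support, ∀ y' ∈ x.support, κ y.out y'.out ≤ k := by
    refine ⟨(x.support ×ˢ x.support).sup fun z => κ z.1.out z.2.out, fun y hy y' hy' => ?_⟩
    exact Finset.le_sup (f := fun z : (G ⧸ U) × (G ⧸ U) => κ z.1.out z.2.out)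
      (Finset.mk_mem_product hy hy')
  refine ⟨k, ?_⟩
  by_contra hne
  set w := (hkX C N₀ U t)^[k] x with hw
  -- the points of the support
  have hsupp : ∀ y, w y ≠ 0 → ∃ z ∈ x.support, ∃ n ∈ N₀,
      y = (((z.out * n * t ^ k : G)) : G ⧸ U) := by
    intro y hy
    obtain ⟨g, n, hn, hg, e⟩ := hkX_supp hP hI k x y hy
    obtain ⟨n', hn', e'⟩ := rep_out hP hI k g hn
    exact ⟨(g : G ⧸ U), Finsupp.mem_support_iff.2 hg, n', hn', e.trans e'⟩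
  obtain ⟨y₁, hy₁⟩ : ∃ y, w y ≠ 0 := by
    by_contra h
    push Not at h
    exact hne (Finsupp.ext h)
  obtain ⟨z₁, hz₁, n₁, hn₁, e₁⟩ := hsupp y₁ hy₁
  have h0 : phiX C N₀ U (Nm ⊔ (U ⊓ M)) t w (z₁.out * n₁ * t ^ k) = 0 := by
    rw [hw, phiX_iter hP hI hH, hx]
    rfl
  have h1 : phiX C N₀ U (Nm ⊔ (U ⊓ M)) t w (z₁.out * n₁ * t ^ k) =
      ∑ y ∈ w.support, w y * bl C N₀ (Nm ⊔ (U ⊓ M)) t 0 (y.out⁻¹ * (z₁.out * n₁ * t ^ k)) := by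
    unfold phiX
    rw [Finsupp.linearCombination_apply, Finsupp.sum, Finset.sum_apply]
    rfl
  have h2 : ∀ g : G, bl C N₀ (Nm ⊔ (U ⊓ M)) t 0 ((g : G ⧸ U).out⁻¹ * (z₁.out * n₁ * t ^ k)) =
      bl C N₀ (Nm ⊔ (U ⊓ M)) t 0 (g⁻¹ * (z₁.out * n₁ * t ^ k)) := by
    intro g
    have h3 := congrFun (phiX_single (C := C) hP hI hH g) (z₁.out * n₁ * t ^ k)
    rw [← h3]
    unfold phiX
    rw [Finsupp.linearCombination_single, one_smul]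
  rw [h1, Finset.sum_eq_single y₁] at h0
  · rw [e₁, h2, inv_mul_cancel, bl_one, mul_one, ← e₁] at h0
    exact hy₁ h0
  · intro y hy hyne
    obtain ⟨z, hz, n, hn, e⟩ := hsupp y (Finsupp.mem_support_iff.1 hy)
    rw [e, h2]
    by_contra hb
    have hb' : bl C N₀ (Nm ⊔ (U ⊓ M)) t 0 ((z.out * n * t ^ k)⁻¹ * (z₁.out * n₁ * t ^ k)) ≠ 0 :=
      fun h => hb (by rw [h, mul_zero])
    have h4 := hκ z₁.out z.out k (hk z₁ hz₁ z hz) n₁ hn₁ n hn hb'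
    exact hyne (e.trans (h4.symm.trans e₁.symm))
  · intro h
    exact absurd (Finsupp.mem_support_iff.2 hy₁) h

end Ord1
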