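import Pool.Agent.Ord1.Top1

/-!
# Ord1, module Span: `Fs C H` is spanned by the translated balls

PROOFS.
* `fs_chart`: let `φ ∈ Fs C H` vanish outside `x N_k H`, `N_k = t ^ k N₀ t ^ (-k)`, and let `φ` be
  invariant from the left by the open subgroup `O`. By `conj_unif` (for the compact set `x N_k`) and
  `contr_lim` there is `j ≥ k` with `y n y⁻¹ ∈ O` for all `y ∈ x N_k`, `n ∈ N_j`; so
  `φ (y n h) = φ ((y n y⁻¹) y) = φ y`. `N_k` is the disjoint union of finitely many cosets `n_a N_j`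
  (`cj_finite` iterated, or: `N_j` is open in the compact group `N_k`), and
  `φ = ∑ φ (x n_a) · (ball j translated by x n_a)` (disjointness by `good_disj`).
  An induction on `j - k` with `bl_refine` is also possible: the sum over `a` of
  `bl j ((x n_a)⁻¹ y)` is `bl k (x⁻¹ y)`.
* `fs_span`: `φ ∈ Fs C H` with support in `Ω H`. For every `x` the set `x N_0 H` is open (it is the
  union of the open sets `x U h`, as `N₀ H = U H`, `U_mul`) and contains `x`. Cover the compact set `Ω`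
  by finitely many sets `x_i N₀ H`, so `φ` vanishes outside their union. Induction on the number of
  the `x_i`: `φ = φ · b + φ · (1 - b)` with `b = (ball 0 translated by x_1)`, a 0-1 valued function;
  `φ b` and `φ (1 - b)` are again in `Fs C H` (products of functions which are invariant by open
  subgroups from the left and by `H` from the right), `φ b` is in the span by `fs_chart` and
  `φ (1 - b)` vanishes outside `x_2 N₀ H ∪ ... ∪ x_r N₀ H`.
-/

open Topology Set

namespace Ord1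

open Emt

variable {G : Type} [Group G] [TopologicalSpace G] [IsTopologicalGroup G]
  {N₀ Nm M U H : Subgroup G} {t s : G} {C : Type} [Field C]

private abbrev sp (C : Type) [Field C] (N₀ H : Subgroup G) (t : G) : Submodule C (G → C) :=
  Submodule.span C (Set.range fun a : G × ℕ => fun y => bl C N₀ H t a.2 (a.1⁻¹ * y))

private theorem bl_val {k : ℕ} {x : G} (h : bl C N₀ H t k x ≠ 0) : bl C N₀ H t k x = 1 := by
  unfold bl at h ⊢
  split_ifs at h ⊢ with h1
  · rfl
  · exact absurd rfl h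

private theorem bl_H {k : ℕ} (x : G) {h : G} (hh : h ∈ H) :
    bl C N₀ H t k (x * h) = bl C N₀ H t k x := by
  by_cases h1 : bl C N₀ H t k x = 0
  · rw [h1]
    by_contra h2
    obtain ⟨n, hn, h', hh', e⟩ := bl_ne.1 h2
    apply (bl_ne (C := C) (N₀ := N₀) (H := H) (t := t) (k := k) (x := x)).2 _ h1
    refine ⟨n, hn, h' * h⁻¹, H.mul_mem hh' (H.inv_mem hh), ?_⟩
    rw [← mul_assoc, ← e]
    group
  · rw [bl_val h1, bl_val]
    obtain ⟨n, hn, h', hh', e⟩ := bl_ne.1 h1
    refine bl_ne.2 ⟨n, hn, h' * h, H.mul_mem hh' hh, ?_⟩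
    rw [e]
    group

private theorem chart_aux (hP : IsPar N₀ Nm M t) (hI : Iwa N₀ Nm M U t) (hH : IsGood Nm M U H)
    (m : ℕ) : ∀ (k : ℕ) (x : G) (φ : G → C), (∀ g, ∀ h ∈ H, φ (g * h) = φ g) →
    (∀ y, φ y ≠ 0 → bl C N₀ H t k (x⁻¹ * y) ≠ 0) →
    (∀ n ∈ N₀, ∀ n' ∈ N₀, φ (x * (t ^ k * n * (t ^ k)⁻¹) * (t ^ (k + m) * n' * (t ^ (k + m))⁻¹)) =
      φ (x * (t ^ k * n * (t ^ k)⁻¹))) → φ ∈ sp C N₀ H t := by
  haveI := cj_finite hP hI
  haveI := Fintype.ofFinite (N₀ ⧸ cj N₀ t)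
  induction m with
  | zero =>
    intro k x φ hHi h0 hc
    have e : φ = φ x • (fun y => bl C N₀ H t k (x⁻¹ * y)) := by
      funext y
      rw [Pi.smul_apply, smul_eq_mul]
      by_cases h1 : bl C N₀ H t k (x⁻¹ * y) = 0
      · rw [h1, mul_zero]
        by_contra h2
        exact h0 y h2 h1
      · rw [bl_val h1, mul_one]
        obtain ⟨n, hn, h, hh, e⟩ := bl_ne.1 h1
        have e1 : y = x * (t ^ k * 1 * (t ^ k)⁻¹) * (t ^ (k + 0) * n * (t ^ (k + 0))⁻¹) * h := by
          have : y = x * (x⁻¹ * y) := by group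
          rw [this, e]
          simp only [add_zero]
          group
        rw [e1, hHi _ h hh, hc 1 N₀.one_mem n hn]
        congr 1
        group
    rw [e]
    exact Submodule.smul_mem _ _ (Submodule.subset_span ⟨(x, k), rfl⟩)
  | succ m ih =>
    intro k x φ hHi h0 hc
    obtain ⟨xq, hxq⟩ : ∃ xq : N₀ ⧸ cj N₀ t → G, ∀ q, xq q = x * (t ^ k * (q.out : G) * (t ^ k)⁻¹) :=
      ⟨_, fun _ => rfl⟩
    obtain ⟨φq, hφq⟩ : ∃ φq : N₀ ⧸ cj N₀ t → G → C, ∀ q y, φq q y = φ y *
      bl C N₀ H t (k + 1) ((xq q)⁻¹ * y) := ⟨_, fun _ _ => rfl⟩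
    have e : φ = ∑ q, φq q := by
      funext y
      rw [Finset.sum_apply]
      simp_rw [hφq]
      rw [← Finset.mul_sum]
      have h1 := bl_refine (C := C) hP hI hH k (x⁻¹ * y)
      rw [finsum_eq_sum_of_fintype] at h1
      have h2 : ∑ q : N₀ ⧸ cj N₀ t, bl C N₀ H t (k + 1) ((xq q)⁻¹ * y) =
          bl C N₀ H t k (x⁻¹ * y) := by
        rw [h1]
        refine Finset.sum_congr rfl fun q _ => ?_
        rw [hxq, mul_inv_rev, mul_assoc]
      rw [h2]
      by_cases h3 : φ y = 0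
      · rw [h3, zero_mul]
      · rw [bl_val (h0 y h3), mul_one]
    rw [e]
    refine Submodule.sum_mem _ fun q _ => ih (k + 1) (xq q) (φq q) ?_ ?_ ?_
    · intro g h hh
      rw [hφq, hφq, hHi g h hh, ← mul_assoc, bl_H _ hh]
    · intro y hy hb
      apply hy
      rw [hφq, hb, mul_zero]
    · intro n hn n' hn'
      have hbl : ∀ n₁ ∈ N₀, bl C N₀ H t (k + 1) (t ^ (k + 1) * n₁ * (t ^ (k + 1))⁻¹) = 1 := by
        intro n₁ hn₁
        apply bl_val
        exact bl_ne.2 ⟨n₁, hn₁, 1, H.one_mem, by rw [mul_one]⟩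
      rw [hφq, hφq]
      have e1 : (xq q)⁻¹ * (xq q * (t ^ (k + 1) * n * (t ^ (k + 1))⁻¹)) =
          t ^ (k + 1) * n * (t ^ (k + 1))⁻¹ := by group
      have e2 : (xq q)⁻¹ * (xq q * (t ^ (k + 1) * n * (t ^ (k + 1))⁻¹) *
          (t ^ (k + 1 + m) * n' * (t ^ (k + 1 + m))⁻¹)) =
          t ^ (k + 1) * (n * (t ^ m * n' * (t ^ m)⁻¹)) * (t ^ (k + 1))⁻¹ := by
        rw [pow_add t (k + 1) m]
        group
      rw [e1, e2, hbl n hn, hbl _ (N₀.mul_mem hn (hP.contr_pow m hn')), mul_one, mul_one]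
      have e3 : xq q * (t ^ (k + 1) * n * (t ^ (k + 1))⁻¹) =
          x * (t ^ k * ((q.out : G) * (t * n * t⁻¹)) * (t ^ k)⁻¹) := by
        rw [hxq, pow_succ]
        group
      have e4 : k + 1 + m = k + (m + 1) := by ring
      rw [e3, e4]
      exact hc _ (N₀.mul_mem q.out.2 (hP.contr n hn)) n' hn'

theorem fs_chart (hP : IsPar N₀ Nm M t) (hI : Iwa N₀ Nm M U t) (hH : IsGood Nm M U H)
    {φ : G → C} (hφ : φ ∈ Fs C H) (x : G) (k : ℕ)
    (h0 : ∀ y, φ y ≠ 0 → bl C N₀ H t k (x⁻¹ * y) ≠ 0) :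
    φ ∈ Submodule.span C (Set.range fun a : G × ℕ => fun y => bl C N₀ H t a.2 (a.1⁻¹ * y)) := by
  obtain ⟨hHi, ⟨O, hO, hOi⟩, -⟩ := hφ
  have hΩ : IsCompact ((fun n : G => x * (t ^ k * n * (t ^ k)⁻¹)) '' (N₀ : Set G)) := by
    apply hP.compact_N.image
    fun_prop
  obtain ⟨O', hO', hc⟩ := conj_unif hΩ (hO.mem_nhds O.one_mem)
  obtain ⟨j, hj⟩ := hP.contr_lim O' hO'
  refine chart_aux hP hI hH j k x φ hHi h0 fun n hn n' hn' => ?_
  have h1 := hj (k + j) (by omega) n' hn'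
  have h2 := hc (x * (t ^ k * n * (t ^ k)⁻¹)) ⟨n, hn, rfl⟩ _ h1
  have h3 := hOi _ h2 (x * (t ^ k * n * (t ^ k)⁻¹))
  rw [← h3]
  congr 1
  group

theorem fs_span (hP : IsPar N₀ Nm M t) (hI : Iwa N₀ Nm M U t) (hH : IsGood Nm M U H)
    {φ : G → C} (hφ : φ ∈ Fs C H) :
    φ ∈ Submodule.span C (Set.range fun a : G × ℕ => fun y => bl C N₀ H t a.2 (a.1⁻¹ * y)) := by
  classical
  -- the finite form
  have key : ∀ F : Finset G, ∀ φ : G → C, φ ∈ Fs C H →
      (∀ y, φ y ≠ 0 → ∃ x ∈ F, bl C N₀ H t 0 (x⁻¹ * y) ≠ 0) → φ ∈ sp C N₀ H t := by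
    intro F
    induction F using Finset.induction_on with
    | empty =>
      intro φ _ h0
      have : φ = 0 := by
        funext y
        by_contra hy
        obtain ⟨x, hx, -⟩ := h0 y hy
        exact absurd hx (Finset.notMem_empty x)
      rw [this]
      exact Submodule.zero_mem _
    | insert a F _ ih =>
      intro φ hφ h0
      obtain ⟨b, hb⟩ : ∃ b : G → C, ∀ y, b y = bl C N₀ H t 0 (a⁻¹ * y) := ⟨_, fun _ => rfl⟩
      have hbF : b ∈ Fs C H := by
        have : b = fun y => bl C N₀ H t 0 (a⁻¹ * y) := funext hb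
        rw [this]
        exact lt_mem C (bl_mem hP hI hH 0) a
      have h1 : (fun y => φ y * b y) ∈ Fs C H := by
        obtain ⟨p1, ⟨O, hO, p2⟩, Ω, hΩ, p3⟩ := hφ
        obtain ⟨q1, ⟨O', hO', q2⟩, -⟩ := hbF
        refine ⟨fun g h hh => ?_, ⟨O ⊓ O', ?_, fun o ho g => ?_⟩, Ω, hΩ, fun g hg => p3 g ?_⟩
        · show φ (g * h) * b (g * h) = φ g * b g
          rw [p1 g h hh, q1 g h hh]
        · rw [Subgroup.coe_inf]
          exact hO.inter hO'
        · show φ (o * g) * b (o * g) = φ g * b g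
          rw [p2 o ho.1 g, q2 o ho.2 g]
        · intro h0
          apply hg
          show φ g * b g = 0
          rw [h0, zero_mul]
      have h2 : (fun y => φ y * b y) ∈ sp C N₀ H t := by
        refine fs_chart hP hI hH h1 a 0 fun y hy h3 => hy ?_
        show φ y * b y = 0
        rw [hb, h3, mul_zero]
      have h3 : φ - (fun y => φ y * b y) ∈ sp C N₀ H t := by
        refine ih _ (Submodule.sub_mem _ hφ h1) fun y hy => ?_
        have h4 : φ y * (1 - b y) ≠ 0 := by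
          intro h5
          apply hy
          show φ y - φ y * b y = 0
          rw [← h5]
          ring
        obtain ⟨x, hx, hx1⟩ := h0 y (left_ne_zero_of_mul h4)
        rcases Finset.mem_insert.1 hx with rfl | hxF
        · exfalso
          apply right_ne_zero_of_mul h4
          rw [hb, bl_val hx1, sub_self]
        · exact ⟨x, hxF, hx1⟩
      have h4 : φ = (fun y => φ y * b y) + (φ - (fun y => φ y * b y)) := by abel
      rw [h4]
      exact Submodule.add_mem _ h2 h3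
  have hφ2 := hφ
  obtain ⟨-, -, Ω, hΩ, hsup⟩ := hφ2
  -- the balls of radius 0 are open
  have hopen : IsOpen {z : G | bl C N₀ H t 0 z ≠ 0} := by
    rw [isOpen_iff_mem_nhds]
    intro z hz
    have h1 : (fun w : G => w * z⁻¹) ⁻¹' (U : Set G) ∈ 𝓝 z := by
      apply (hI.open_U.preimage (by fun_prop)).mem_nhds
      show z * z⁻¹ ∈ U
      rw [mul_inv_cancel]
      exact U.one_mem
    filter_upwards [h1] with w hw
    have hw' : w * z⁻¹ ∈ U := hw
    have h2 := bl_U (C := C) hP hI hH hw' z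
    rw [inv_mul_cancel_right] at h2
    show bl C N₀ H t 0 w ≠ 0
    rw [h2]
    exact hz
  obtain ⟨F, hF⟩ := hΩ.elim_finite_subcover
    (fun x : G => {y : G | bl C N₀ H t 0 (x⁻¹ * y) ≠ 0})
    (fun x => hopen.preimage (continuous_const.mul continuous_id))
    (fun y _ => by
      refine Set.mem_iUnion.2 ⟨y, ?_⟩
      show bl C N₀ H t 0 (y⁻¹ * y) ≠ 0
      rw [inv_mul_cancel, bl_one]
      exact one_ne_zero)
  refine key F φ hφ fun y hy => ?_
  obtain ⟨w, hw, h, hh, e⟩ := hsup y hy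
  obtain ⟨x, hx⟩ := Set.mem_iUnion.1 (hF hw)
  obtain ⟨hxF, hx2⟩ := Set.mem_iUnion.1 hx
  refine ⟨x, hxF, ?_⟩
  rw [e, ← mul_assoc, bl_H _ hh]
  exact hx2

end Ord1
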