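import Pool.Agent.Ord1.Psh1
import Pool.Agent.Ord1.Span

/-!
# Ord1, module Psh2: the exact sequence `0 → Fs C H → Fs C H → Fs C H' → 0`

`H' = H ⊔ zpowers s`; the first map is `ψ ↦ (x ↦ ψ (x s) - ψ x)`, the second one is `psh s`.

PROOFS.
* `rt_inj`: if `ψ (x s) = ψ x` for all `x` then `ψ (x s ^ j) = ψ x` for all `j : ℤ`; if `ψ x ≠ 0` the
  set of `psh_fin` is infinite.
* `psh_ker`: put `ψ x = - ∑ φ (x s ^ j)` over `j ≥ 0` (finite sum by `psh_fin`); as the sum over all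
  `j` is `0`, also `ψ x = ∑ φ (x s ^ j)` over `j < 0`. Then `ψ (x s) - ψ x = φ x`. Right invariance by
  `h`: `x h s ^ j = x s ^ j (s ^ (-j) h s ^ j)`. Support: if `ψ x ≠ 0` there are `j ≥ 0 > j'` with
  `φ (x s ^ j) ≠ 0`, `φ (x s ^ j') ≠ 0`, so `x s ^ j = y h`, `x s ^ j' = y' h'` with `y, y' ∈ Ω`;
  hence `s ^ (j' - j) ∈ (y h)⁻¹ y' h'`, i.e. `h s ^ (j' - j) h'⁻¹ = y⁻¹ y'`; as `s` normalises `H`,
  `s ^ (j' - j) h'' = y⁻¹ y'` with `h'' ∈ H`, so `j' - j` is in the finite set of `fin_pow` for the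
  compact set `Ω⁻¹ Ω`. So `0 ≤ j ≤ L` for some `L` and `x = y h s ^ (-j) = (y s ^ (-j)) h'''` lies
  in the compact set `⋃_{0 ≤ j ≤ L} Ω s ^ (-j)` times `H`.
* `psh_surj`: by `fs_span` for `H'` (`good_sup`) every element of `Fs C H'` is a combination of
  functions `bl C N₀ H' t k (g⁻¹ y)`, which are images by `psh_bl`, `psh_left` (`Submodule.span_induction`).
-/

set_option linter.unusedSectionVars false

open Topology Set Pointwise

namespace Ord1

open Emt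

variable {G : Type} [Group G] [TopologicalSpace G] [IsTopologicalGroup G]
  {N₀ Nm M U H : Subgroup G} {t s : G} {C : Type} [Field C]

/-- a sum over `ℕ`, first term separated -/
private theorem psh2_shift {a : ℕ → C} (ha : {j : ℕ | a j ≠ 0}.Finite) :
    ∑ᶠ j : ℕ, a j = (∑ᶠ j : ℕ, a (j + 1)) + a 0 := by
  obtain ⟨N, hN⟩ := ha.bddAbove
  have h0 : ∀ j, N + 1 ≤ j → a j = 0 := by
    intro j hj
    by_contra hc
    have := hN hc
    omega
  have e1 : ∑ᶠ j : ℕ, a j = ∑ j ∈ Finset.range (N + 2), a j := by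
    apply finsum_eq_sum_of_support_subset
    intro j hj
    rw [Finset.coe_range, Set.mem_Iio]
    by_contra hc
    exact hj (h0 j (by omega))
  have e2 : ∑ᶠ j : ℕ, a (j + 1) = ∑ j ∈ Finset.range (N + 1), a (j + 1) := by
    apply finsum_eq_sum_of_support_subset
    intro j hj
    rw [Finset.coe_range, Set.mem_Iio]
    by_contra hc
    exact hj (h0 (j + 1) (by omega))
  rw [e1, e2, Finset.sum_range_succ']

/-- a sum over `ℤ` of a function which vanishes at the negative integers -/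
private theorem psh2_nat {a : ℤ → C} (ha : ∀ j : ℤ, j < 0 → a j = 0) :
    ∑ᶠ j : ℤ, a j = ∑ᶠ j : ℕ, a j := by
  rw [← finsum_mem_range (f := a) (g := fun j : ℕ => (j : ℤ)) Nat.cast_injective,
    ← finsum_mem_univ a]
  apply finsum_mem_inter_support_eq'
  intro j hj
  refine ⟨fun _ => ?_, fun _ => Set.mem_univ _⟩
  by_contra hc
  apply hj
  apply ha
  by_contra hj'
  exact hc ⟨j.toNat, by simp only; omega⟩

private theorem psh2_nor (hn : Nor H s) (j : ℤ) {h : G} (hh : h ∈ H) :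
    (s ^ j)⁻¹ * h * s ^ j ∈ H := by
  rw [← hn.zpow j]
  have e : s ^ j * ((s ^ j)⁻¹ * h * s ^ j) * (s ^ j)⁻¹ = h := by group
  rwa [e]

theorem rt_inj (hP : IsPar N₀ Nm M t) (hI : Iwa N₀ Nm M U t) (hH : IsGood Nm M U H)
    (hs : Cen M s) (hns : ∀ j : ℕ, j ≠ 0 → s ^ j ∉ H) {ψ : G → C} (hψ : ψ ∈ Fs C H)
    (h : ∀ x, ψ (x * s) = ψ x) : ψ = 0 := by
  funext x
  by_contra hc
  have h1 : ∀ j : ℤ, ψ (x * s ^ j) = ψ x := by
    intro j
    induction j using Int.induction_on with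
    | zero => rw [zpow_zero, mul_one]
    | succ j ih => rw [zpow_add_one, ← mul_assoc, h, ih]
    | pred j ih => rw [← ih, ← h, mul_assoc, ← zpow_add_one, sub_add_cancel]
  have h2 := psh_fin hP hI hH hs hns hψ x
  have h3 : {j : ℤ | ψ (x * s ^ j) ≠ 0} = Set.univ := by
    ext j
    simp only [Set.mem_univ, iff_true]
    show ψ (x * s ^ j) ≠ 0
    rw [h1]
    exact hc
  rw [h3] at h2
  exact Set.infinite_univ h2

theorem psh_ker (hP : IsPar N₀ Nm M t) (hI : Iwa N₀ Nm M U t) (hH : IsGood Nm M U H)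
    (hs : Cen M s) (hns : ∀ j : ℕ, j ≠ 0 → s ^ j ∉ H) {φ : G → C} (hφ : φ ∈ Fs C H)
    (h : psh C s φ = 0) : ∃ ψ ∈ Fs C H, ∀ x, ψ (x * s) - ψ x = φ x := by
  have hn : Nor H s := nor_of_cen hP hH hs
  have hfin : ∀ x, {j : ℕ | φ (x * s ^ j) ≠ 0}.Finite := by
    intro x
    have h1 := psh_fin hP hI hH hs hns hφ x
    have h2 := h1.preimage (Nat.cast_injective (R := ℤ)).injOn
    refine h2.subset fun j hj => ?_
    show φ (x * s ^ (j : ℤ)) ≠ 0
    rw [zpow_natCast]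
    exact hj
  obtain ⟨h1, ⟨O, hO, h2⟩, Ω, hΩ, h3⟩ := id hφ
  refine ⟨fun x => - ∑ᶠ j : ℕ, φ (x * s ^ j), ?_, ?_⟩
  · refine ⟨fun x y hy => ?_, ⟨O, hO, fun o ho x => ?_⟩, ?_⟩
    · show - ∑ᶠ j : ℕ, φ (x * y * s ^ j) = - ∑ᶠ j : ℕ, φ (x * s ^ j)
      congr 2
      funext j
      have h4 := psh2_nor hn (j : ℤ) hy
      rw [zpow_natCast] at h4
      rw [← h1 (x * s ^ j) _ h4]
      congr 1
      group
    · show - ∑ᶠ j : ℕ, φ (o * x * s ^ j) = - ∑ᶠ j : ℕ, φ (x * s ^ j)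
      congr 2
      funext j
      rw [mul_assoc, h2 o ho]
    · -- the support
      have hF := fin_pow hP hI hH hs hns (hΩ.inv.mul hΩ)
      obtain ⟨L, hL⟩ := hF.bddBelow
      refine ⟨⋃ j ∈ Finset.range (L.natAbs + 1), (fun y => y * (s ^ j)⁻¹) '' Ω,
        (Finset.range (L.natAbs + 1)).isCompact_biUnion fun j _ =>
          hΩ.image (continuous_id.mul continuous_const), fun x hx => ?_⟩
      have hx0 : ∑ᶠ j : ℕ, φ (x * s ^ j) ≠ 0 := fun hc => hx (by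
        show - ∑ᶠ j : ℕ, φ (x * s ^ j) = 0
        rw [hc, neg_zero])
      obtain ⟨j, hj⟩ : ∃ j : ℕ, φ (x * s ^ j) ≠ 0 := by
        by_contra hc
        push Not at hc
        apply hx0
        simp only [hc, finsum_zero]
      obtain ⟨j', hj'0, hj'⟩ : ∃ j' : ℤ, j' < 0 ∧ φ (x * s ^ j') ≠ 0 := by
        by_contra hc
        push Not at hc
        apply hx0
        have e1 := psh2_nat (a := fun j : ℤ => φ (x * s ^ j)) hc
        have e2 : ∑ᶠ j : ℤ, φ (x * s ^ j) = 0 := congrFun h x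
        rw [e2] at e1
        simp only [zpow_natCast] at e1
        exact e1.symm
      obtain ⟨y, hy, k, hk, e3⟩ := h3 _ hj
      obtain ⟨y', hy', k', hk', e4⟩ := h3 _ hj'
      have hmem : (j' - j : ℤ) ∈ {i : ℤ | ∃ x ∈ Ω⁻¹ * Ω, ∃ h ∈ H, s ^ i = x * h} := by
        refine ⟨y⁻¹ * y', Set.mul_mem_mul (Set.inv_mem_inv.2 hy) hy',
          ((s ^ (j' - j : ℤ))⁻¹ * k * s ^ (j' - j : ℤ) * k'⁻¹)⁻¹,
          H.inv_mem (H.mul_mem (psh2_nor hn _ hk) (H.inv_mem hk')), ?_⟩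
        have e5 : s ^ (j' - j : ℤ) = (y * k)⁻¹ * (y' * k') := by
          rw [← e3, ← e4, ← zpow_natCast]
          group
        have e6 : y⁻¹ * y' = k * s ^ (j' - j : ℤ) * k'⁻¹ := by
          rw [e5]
          group
        rw [e6]
        group
      have hle : L ≤ j' - j := hL hmem
      have hjL : j < L.natAbs + 1 := by omega
      refine ⟨y * (s ^ j)⁻¹, Set.mem_biUnion (Finset.mem_coe.2 (Finset.mem_range.2 hjL))
        ⟨y, hy, rfl⟩, s ^ j * k * (s ^ j)⁻¹, (hn.pow j k).2 hk, ?_⟩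
      have e7 : x = y * k * (s ^ j)⁻¹ := by
        rw [← e3]
        group
      rw [e7]
      group
  · intro x
    have e1 := psh2_shift (hfin x)
    have e2 : ∑ᶠ j : ℕ, φ (x * s * s ^ j) = ∑ᶠ j : ℕ, φ (x * s ^ (j + 1)) := by
      congr 1
      funext j
      rw [pow_succ', mul_assoc]
    show - ∑ᶠ j : ℕ, φ (x * s * s ^ j) - - ∑ᶠ j : ℕ, φ (x * s ^ j) = φ x
    rw [e2, e1, pow_zero, mul_one]
    ring

theorem psh_surj (hP : IsPar N₀ Nm M t) (hI : Iwa N₀ Nm M U t) (hH : IsGood Nm M U H)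
    (hs : Cen M s) (hns : ∀ j : ℕ, j ≠ 0 → s ^ j ∉ H) {φ : G → C}
    (hφ : φ ∈ Fs C (H ⊔ Subgroup.zpowers s)) : ∃ ψ ∈ Fs C H, psh C s ψ = φ := by
  have hsp := fs_span hP hI (good_sup hP hH hs) hφ
  clear hφ
  induction hsp using Submodule.span_induction with
  | mem φ hφ =>
    obtain ⟨⟨g, k⟩, rfl⟩ := hφ
    refine ⟨fun x => bl C N₀ H t k (g⁻¹ * x), lt_mem C (bl_mem hP hI hH k) g, ?_⟩
    rw [psh_left, psh_bl hP hI hH hs hns k]
  | zero =>
    refine ⟨0, (Fs C H).zero_mem, ?_⟩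
    have := psh_smul (s := s) (0 : C) (0 : G → C)
    rwa [zero_smul, zero_smul] at this
  | add φ φ' _ _ h1 h2 =>
    obtain ⟨ψ, h3, h4⟩ := h1
    obtain ⟨ψ', h5, h6⟩ := h2
    exact ⟨ψ + ψ', (Fs C H).add_mem h3 h5, by rw [psh_add hP hI hH hs hns h3 h5, h4, h6]⟩
  | smul a φ _ h1 =>
    obtain ⟨ψ, h3, h4⟩ := h1
    exact ⟨a • ψ, (Fs C H).smul_mem a h3, by rw [psh_smul, h4]⟩

end Ord1
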