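import Pool.Agent.Ord1.Ker0
import Pool.Agent.Ord1.Psh2

/-!
# Ord1, module Ker1: the exact sequence `0 → C[G/U] → C[G/U] → Fs C H₁ → 0`

`H₀ = Nm ⊔ (U ⊓ M)`, `H₁ = H₀ ⊔ zpowers (t ^ m)`, `m ≠ 0`, `N₀ ≠ ⊥`; the first map is `T ^ m - 1`,
`T = hkX`, the second one is `phiX` for `H₁`. Note that `(t ^ m) ^ j ∉ H₀` for `j ≠ 0`
(`t_pow_not_base`), `t ^ m` is central in `M` (`Cen.pow`), and `H₀`, `H₁` are good (`good_base`,
`good_sup`).

PROOFS.
* `hkX_inj`: if `T ^ m x = x` then `phiX_{H₀} x (g t ^ (-m)) = phiX_{H₀} x g` (`phiX_iter`), so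
  `phiX_{H₀} x = 0` by `rt_inj` (`s = t ^ m`), so `T ^ k x = 0` for some `k` (`ker_base`) and
  `x = T ^ (m (k + 1)) x = 0`.
* `sur_base`: by `fs_span` `ψ` is a combination of `bl k_a (g_a⁻¹ y)`; take `k ≥ k_a` for all `a`; by
  `bl_phi` and `phiX_iter`
  `bl k_a (g_a⁻¹ (y t ^ (-k))) = phiX (single (g_a t ^ k_a)) (y t ^ (-k) t ^ k_a)
    = phiX (T ^ (k - k_a) (single (g_a t ^ k_a))) y`.
* `phi_psh`: `psh (t ^ m) (phiX_{H₀} x) = phiX_{H₁} x`: linear in `x` (`psh_add`, `psh_smul`), on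
  `single` it is `phiX_single`, `psh_left`, `psh_bl`.
* `ker_one`: if `phiX_{H₁} x = 0` then by `phi_psh`, `psh_ker` `phiX_{H₀} x = ψ (· t ^ m) - ψ` with
  `ψ ∈ Fs C H₀`. By `sur_base` (with some `k`) there is `y` with `phiX_{H₀} y g = ψ (g t ^ (-k))`; put
  `y' = y - T ^ m y`: `phiX_{H₀} (T ^ m y) g = ψ (g t ^ (-k) t ^ (-m))`. So
  `phiX_{H₀} (T ^ (k + m) x - (y - T ^ m y)) = 0`. By `ker_base` `T ^ l (T ^ (k + m) x) = T ^ l (y - T ^ m y)`
  is in the image of `T ^ m - 1`. Hence `T ^ N x` is in the image of `T ^ m - 1` for some `N`, and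
  also for every larger `N`; take `N` a multiple of `m`: `T ^ (m j) x - x` is in the image of
  `T ^ m - 1` (telescoping), so `x` is.
* `sur_one`: by `fs_span` it is enough to get `bl k (g⁻¹ ·)` in `Fs C H₁`. By `bl_phi` it equals
  `phiX_{H₁} (single (g t ^ k)) (y t ^ k)`, and `phiX_{H₁} z (y t ^ k) = phiX_{H₁} z (y t ^ (k - m k))`
  (invariance by `t ^ m ∈ H₁`) `= phiX_{H₁} (T ^ (m k - k) z) y` (`phiX_iter`).
-/

open Topology Set

namespace Ord1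

open Emt

variable {G : Type} [Group G] [TopologicalSpace G] [IsTopologicalGroup G] [T2Space G]
  {N₀ Nm M U H : Subgroup G} {t s : G} {C : Type} [Field C]

omit [T2Space G] [TopologicalSpace G] [IsTopologicalGroup G] in
private theorem ker1_pow (n : ℕ) (x : (G ⧸ U) →₀ C) :
    (hkX C N₀ U t)^[n] x = ((hkX C N₀ U t) ^ n) x := (Module.End.pow_apply _ _ _).symm

omit [T2Space G] in
private theorem ker1_iter (hP : IsPar N₀ Nm M t) (hI : Iwa N₀ Nm M U t) (hH : IsGood Nm M U H)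
    (k : ℕ) (x : (G ⧸ U) →₀ C) (g : G) :
    phiX C N₀ U H t (((hkX C N₀ U t) ^ k) x) g = phiX C N₀ U H t x (g * (t ^ k)⁻¹) := by
  rw [← ker1_pow]
  exact phiX_iter hP hI hH k x g

private theorem ker1_ns (hP : IsPar N₀ Nm M t) (hI : Iwa N₀ Nm M U t) (h0 : N₀ ≠ ⊥) {m : ℕ}
    (hm : m ≠ 0) : ∀ j : ℕ, j ≠ 0 → (t ^ m) ^ j ∉ Nm ⊔ (U ⊓ M) := by
  intro j hj
  rw [← pow_mul]
  exact t_pow_not_base hP hI h0 (mul_ne_zero hm hj)

theorem hkX_inj (hP : IsPar N₀ Nm M t) (hI : Iwa N₀ Nm M U t) (h0 : N₀ ≠ ⊥) {m : ℕ}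
    (hm : m ≠ 0) {x : (G ⧸ U) →₀ C} (hx : (hkX C N₀ U t)^[m] x = x) : x = 0 := by
  have hg := good_base hP hI
  have h1 : phiX C N₀ U (Nm ⊔ (U ⊓ M)) t x = 0 := by
    apply rt_inj hP hI hg (hP.cen.pow m) (ker1_ns hP hI h0 hm) (phiX_mem hP hI hg x)
    intro g
    have h2 := phiX_iter hP hI hg m x (g * t ^ m)
    rw [hx, mul_inv_cancel_right] at h2
    exact h2
  obtain ⟨k, hk⟩ := ker_base hP hI x h1
  have h3 : ∀ j : ℕ, (hkX C N₀ U t)^[m * j] x = x := by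
    intro j
    rw [Function.iterate_mul]
    exact Function.iterate_fixed hx j
  have h4 := h3 (k + 1)
  have h5 : m * (k + 1) = (m * (k + 1) - k) + k := by
    have : k + 1 ≤ m * (k + 1) := Nat.le_mul_of_pos_left _ (Nat.pos_of_ne_zero hm)
    omega
  rw [h5, Function.iterate_add_apply, hk, iterate_map_zero] at h4
  exact h4.symm

omit [T2Space G] in
theorem sur_base (hP : IsPar N₀ Nm M t) (hI : Iwa N₀ Nm M U t) {ψ : G → C}
    (hψ : ψ ∈ Fs C (Nm ⊔ (U ⊓ M))) : ∃ (k : ℕ) (x : (G ⧸ U) →₀ C),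
      ∀ g, phiX C N₀ U (Nm ⊔ (U ⊓ M)) t x g = ψ (g * (t ^ k)⁻¹) := by
  have hg := good_base hP hI
  have h := fs_span hP hI hg hψ
  clear hψ
  induction h using Submodule.span_induction with
  | mem ψ h =>
    obtain ⟨⟨g, k⟩, rfl⟩ := h
    refine ⟨k, Finsupp.single ((g * t ^ k : G) : G ⧸ U) 1, fun z => ?_⟩
    have h1 := bl_phi (C := C) hP hI hg k g (z * (t ^ k)⁻¹)
    rw [inv_mul_cancel_right] at h1
    exact h1.symm
  | zero =>
    refine ⟨0, 0, fun g => ?_⟩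
    rw [map_zero]
    rfl
  | add ψ₁ ψ₂ _ _ ih₁ ih₂ =>
    obtain ⟨k₁, x₁, h₁⟩ := ih₁
    obtain ⟨k₂, x₂, h₂⟩ := ih₂
    refine ⟨k₁ + k₂, ((hkX C N₀ U t) ^ k₂) x₁ + ((hkX C N₀ U t) ^ k₁) x₂, fun g => ?_⟩
    rw [map_add, Pi.add_apply, ker1_iter hP hI hg, ker1_iter hP hI hg, h₁, h₂, Pi.add_apply,
      mul_assoc, mul_assoc, ← mul_inv_rev, ← mul_inv_rev, ← pow_add, ← pow_add,
      Nat.add_comm k₂ k₁]
  | smul a ψ _ ih =>
    obtain ⟨k, x, h⟩ := ih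
    refine ⟨k, a • x, fun g => ?_⟩
    rw [map_smul, Pi.smul_apply, h, Pi.smul_apply]

omit [T2Space G] in
theorem phi_psh (hP : IsPar N₀ Nm M t) (hI : Iwa N₀ Nm M U t) (hH : IsGood Nm M U H)
    (hs : Cen M s) (hns : ∀ j : ℕ, j ≠ 0 → s ^ j ∉ H) (x : (G ⧸ U) →₀ C) :
    psh C s (phiX C N₀ U H t x) = phiX C N₀ U (H ⊔ Subgroup.zpowers s) t x := by
  induction x using Finsupp.induction_linear with
  | zero =>
    rw [map_zero, map_zero]
    have := psh_smul (s := s) (0 : C) (0 : G → C)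
    rwa [zero_smul, zero_smul] at this
  | add x y ihx ihy =>
    rw [map_add, map_add, psh_add hP hI hH hs hns (phiX_mem hP hI hH x) (phiX_mem hP hI hH y),
      ihx, ihy]
  | single y a =>
    obtain ⟨g, rfl⟩ := QuotientGroup.mk_surjective y
    have h1 : Finsupp.single ((g : G ⧸ U)) a = a • Finsupp.single ((g : G ⧸ U)) (1 : C) := by
      rw [Finsupp.smul_single, smul_eq_mul, mul_one]
    rw [h1, map_smul, map_smul, psh_smul, phiX_single hP hI hH g,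
      phiX_single hP hI (good_sup hP hH hs) g, psh_left, psh_bl hP hI hH hs hns]

theorem ker_one (hP : IsPar N₀ Nm M t) (hI : Iwa N₀ Nm M U t) (h0 : N₀ ≠ ⊥) {m : ℕ}
    (hm : m ≠ 0) {x : (G ⧸ U) →₀ C}
    (hx : phiX C N₀ U ((Nm ⊔ (U ⊓ M)) ⊔ Subgroup.zpowers (t ^ m)) t x = 0) :
    ∃ y, (hkX C N₀ U t)^[m] y - y = x := by
  have hg := good_base hP hI
  have hs := hP.cen.pow m
  have hns := ker1_ns hP hI h0 hm
  rw [← phi_psh hP hI hg hs hns] at hx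
  obtain ⟨ψ, hψ, hψ2⟩ := psh_ker hP hI hg hs hns (phiX_mem hP hI hg x) hx
  obtain ⟨k, y, hy⟩ := sur_base hP hI hψ
  set T := hkX C N₀ U t with hT
  have e1 : (t ^ (k + m))⁻¹ * t ^ m = (t ^ k)⁻¹ := by
    rw [pow_add, ← (Commute.refl t).pow_pow m k |>.eq]
    group
  have e2 : (t ^ m)⁻¹ * (t ^ k)⁻¹ = (t ^ (k + m))⁻¹ := by
    rw [← mul_inv_rev, ← pow_add]
  have hz : phiX C N₀ U (Nm ⊔ (U ⊓ M)) t ((T ^ (k + m)) x - (y - (T ^ m) y)) = 0 := by
    rw [map_sub, map_sub]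
    funext g
    rw [Pi.sub_apply, Pi.sub_apply, ker1_iter hP hI hg, ker1_iter hP hI hg, ← hψ2, hy, hy,
      mul_assoc, e1, mul_assoc g, e2]
    simp
  obtain ⟨l, hl⟩ := ker_base hP hI _ hz
  rw [ker1_pow, map_sub, ← Module.End.mul_apply, ← pow_add, sub_eq_zero] at hl
  -- the image of `T ^ m - 1`
  set I := LinearMap.range (T ^ m - 1) with hI'
  have hTI : ∀ (j : ℕ) (v : (G ⧸ U) →₀ C), v ∈ I → (T ^ j) v ∈ I := by
    rintro j _ ⟨v, rfl⟩
    refine ⟨(T ^ j) v, ?_⟩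
    rw [LinearMap.sub_apply, LinearMap.sub_apply, Module.End.one_apply, Module.End.one_apply,
      map_sub, ← Module.End.mul_apply, ← Module.End.mul_apply, ← pow_add, ← pow_add, add_comm m j]
  have hN : (T ^ (l + (k + m))) x ∈ I := by
    rw [hl]
    apply hTI
    refine ⟨-y, ?_⟩
    rw [LinearMap.sub_apply, Module.End.one_apply, map_neg]
    abel
  have hj : ∀ j : ℕ, (T ^ (m * j)) x - x ∈ I := by
    intro j
    induction j with
    | zero => simp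
    | succ j ih =>
      have h1 : (T ^ (m * (j + 1))) x - x =
          (T ^ (m * j)) ((T ^ m) x - x) + ((T ^ (m * j)) x - x) := by
        rw [map_sub, ← Module.End.mul_apply, ← pow_add, Nat.mul_succ]
        abel
      rw [h1]
      refine Submodule.add_mem _ (hTI _ _ ⟨x, ?_⟩) ih
      rw [LinearMap.sub_apply, Module.End.one_apply]
  set N := l + (k + m) with hNd
  have h2 : (T ^ (m * N)) x ∈ I := by
    have h3 : m * N = (m * N - N) + N := by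
      have : N ≤ m * N := Nat.le_mul_of_pos_left _ (Nat.pos_of_ne_zero hm)
      omega
    rw [h3, pow_add, Module.End.mul_apply]
    exact hTI _ _ hN
  have h4 : x ∈ I := by
    have := Submodule.sub_mem _ h2 (hj N)
    rwa [sub_sub_cancel] at this
  obtain ⟨w, hw⟩ := h4
  refine ⟨w, ?_⟩
  rw [ker1_pow]
  exact hw

theorem sur_one (hP : IsPar N₀ Nm M t) (hI : Iwa N₀ Nm M U t) (h0 : N₀ ≠ ⊥) {m : ℕ}
    (hm : m ≠ 0) {φ : G → C}
    (hφ : φ ∈ Fs C ((Nm ⊔ (U ⊓ M)) ⊔ Subgroup.zpowers (t ^ m))) :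
    ∃ x, phiX C N₀ U ((Nm ⊔ (U ⊓ M)) ⊔ Subgroup.zpowers (t ^ m)) t x = φ := by
  have hs := hP.cen.pow m
  have hg := good_sup hP (good_base hP hI) hs
  have h := fs_span hP hI hg hφ
  have hle : Submodule.span C (Set.range fun a : G × ℕ => fun y =>
      bl C N₀ ((Nm ⊔ (U ⊓ M)) ⊔ Subgroup.zpowers (t ^ m)) t a.2 (a.1⁻¹ * y)) ≤
      LinearMap.range (phiX C N₀ U ((Nm ⊔ (U ⊓ M)) ⊔ Subgroup.zpowers (t ^ m)) t) := by
    rw [Submodule.span_le]
    rintro _ ⟨⟨g, k⟩, rfl⟩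
    obtain ⟨e, he⟩ : ∃ e, m * k = e + k := ⟨m * k - k, by
      have : k ≤ m * k := Nat.le_mul_of_pos_left _ (Nat.pos_of_ne_zero hm)
      omega⟩
    refine ⟨((hkX C N₀ U t) ^ e)
      (Finsupp.single ((g * t ^ k : G) : G ⧸ U) 1), ?_⟩
    funext y
    rw [ker1_iter hP hI hg]
    show _ = bl C N₀ ((Nm ⊔ (U ⊓ M)) ⊔ Subgroup.zpowers (t ^ m)) t k (g⁻¹ * y)
    rw [bl_phi hP hI hg]
    have h1 := (mem_Fs.1 (phiX_mem (C := C) hP hI hg
      (Finsupp.single ((g * t ^ k : G) : G ⧸ U) 1))).1 (y * (t ^ e)⁻¹) (t ^ (e + k)) (by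
        apply Subgroup.mem_sup_right
        rw [← he, pow_mul]
        exact Subgroup.pow_mem _ (Subgroup.mem_zpowers _) k)
    rw [← h1, pow_add]
    group
  exact hle h

end Ord1
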