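import Pool.Agent.Ord1.Bl
import Pool.Agent.Ord1.XRep

/-!
# Ord1, module Phi: the map `Φ_H : C[G/U] → Fs C H`

PROOFS. `phiX_single` by `bl_U` (representatives of a coset differ by an element of `U`).
`phiX_mem`: by linearity (`Finsupp.induction_linear`) and `bl_mem`, `lt_mem`.
`phiX_equi`: both sides are linear in `x`; check on `single`.
`phiX_hkX`: by linearity and equivariance it is enough to take `x = single 1 1`; by `hkX_single` the
left side is `∑ᶠ q, bl 0 ((q.out t)⁻¹ g)`, and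
`bl 0 ((q.out t)⁻¹ g) = bl 1 (q.out⁻¹ g t⁻¹)` (both say `g ∈ q.out t N₀ H`, `t` normalises `H`), so the
claim is `bl_refine` with `k = 0` at the point `g t⁻¹`.
`phiX_iter`: induction. `bl_phi`: `bl k (g⁻¹ ·)` is `Φ_H (single (g t ^ k) 1)` translated by `t ^ k`:
`bl k (g⁻¹ y) = phiX (single (g t ^ k) 1) (y t ^ k)`.
-/

open Topology Set

namespace Ord1

open Emt

variable {G : Type} [Group G] [TopologicalSpace G] [IsTopologicalGroup G]
  {N₀ Nm M U H : Subgroup G} {t s : G} {C : Type} [Field C]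

theorem phiX_single (hP : IsPar N₀ Nm M t) (hI : Iwa N₀ Nm M U t) (hH : IsGood Nm M U H)
    (g : G) : phiX C N₀ U H t (Finsupp.single (g : G ⧸ U) 1) = fun x => bl C N₀ H t 0 (g⁻¹ * x) := by
  obtain ⟨u, hu⟩ := QuotientGroup.mk_out_eq_mul U g
  funext x
  unfold phiX
  rw [Finsupp.linearCombination_single, one_smul]
  show bl C N₀ H t 0 (((g : G ⧸ U).out)⁻¹ * x) = bl C N₀ H t 0 (g⁻¹ * x)
  rw [hu, mul_inv_rev, mul_assoc]
  exact bl_U hP hI hH (U.inv_mem u.2) (g⁻¹ * x)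

theorem phiX_mem (hP : IsPar N₀ Nm M t) (hI : Iwa N₀ Nm M U t) (hH : IsGood Nm M U H)
    (x : (G ⧸ U) →₀ C) : phiX C N₀ U H t x ∈ Fs C H := by
  induction x using Finsupp.induction_linear with
  | zero => rw [map_zero]; exact Submodule.zero_mem _
  | add a b ha hb => rw [map_add]; exact Submodule.add_mem _ ha hb
  | single y a =>
    obtain ⟨g, rfl⟩ := QuotientGroup.mk_surjective y
    have h1 : (Finsupp.single (g : G ⧸ U) a : (G ⧸ U) →₀ C)
        = a • Finsupp.single (g : G ⧸ U) (1 : C) := by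
      rw [Finsupp.smul_single, smul_eq_mul, mul_one]
    rw [h1, map_smul, phiX_single hP hI hH]
    exact Submodule.smul_mem _ _ (lt_mem C (bl_mem hP hI hH 0) g)

/-- The map `Φ_H : C[G/U] → Fs C H`. -/
noncomputable def phiF (hP : IsPar N₀ Nm M t) (hI : Iwa N₀ Nm M U t) (hH : IsGood Nm M U H)
    (C : Type) [Field C] : ((G ⧸ U) →₀ C) →ₗ[C] Fs C H :=
  (phiX C N₀ U H t).codRestrict (Fs C H) (phiX_mem hP hI hH)

theorem phiF_val (hP : IsPar N₀ Nm M t) (hI : Iwa N₀ Nm M U t) (hH : IsGood Nm M U H)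
    (x : (G ⧸ U) →₀ C) : (phiF hP hI hH C x).1 = phiX C N₀ U H t x := rfl

theorem phiF_equi (hP : IsPar N₀ Nm M t) (hI : Iwa N₀ Nm M U t) (hH : IsGood Nm M U H) :
    Equi (xRep C U) (fsRep C H) (phiF hP hI hH C) := by
  intro g v
  have h1 : (phiF hP hI hH C) ∘ₗ (xRep C U g) = (fsRep C H g) ∘ₗ (phiF hP hI hH C) := by
    apply xRep_ext
    intro g'
    apply Subtype.ext
    funext x
    rw [LinearMap.comp_apply, LinearMap.comp_apply, fsRep_apply, xRep_single, phiF_val, phiF_val,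
      phiX_single hP hI hH, phiX_single hP hI hH, mul_inv_rev]
    show bl C N₀ H t 0 (g'⁻¹ * g⁻¹ * x) = bl C N₀ H t 0 (g'⁻¹ * (g⁻¹ * x))
    rw [mul_assoc]
  exact LinearMap.congr_fun h1 v

theorem phiX_hkX (hP : IsPar N₀ Nm M t) (hI : Iwa N₀ Nm M U t) (hH : IsGood Nm M U H)
    (x : (G ⧸ U) →₀ C) (g : G) :
    phiX C N₀ U H t (hkX C N₀ U t x) g = phiX C N₀ U H t x (g * t⁻¹) := by
  have h1 : (LinearMap.proj (R := C) (φ := fun _ : G => C) g) ∘ₗ (phiX C N₀ U H t)
        ∘ₗ (hkX C N₀ U t)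
      = (LinearMap.proj (R := C) (φ := fun _ : G => C) (g * t⁻¹)) ∘ₗ (phiX C N₀ U H t) := by
    apply xRep_ext
    intro a
    rw [LinearMap.comp_apply, LinearMap.comp_apply, LinearMap.comp_apply, LinearMap.proj_apply,
      LinearMap.proj_apply, hkX_single hP hI, phiX_single hP hI hH]
    have := cj_finite hP hI
    let _ := Fintype.ofFinite (N₀ ⧸ cj N₀ t)
    have hn : Nor H t := nor_of_cen hP hH hP.cen
    show _ = bl C N₀ H t 0 (a⁻¹ * (g * t⁻¹))
    rw [bl_refine hP hI hH 0]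
    unfold tau
    rw [finsum_eq_sum_of_fintype, finsum_eq_sum_of_fintype, map_sum, map_sum, Finset.sum_apply]
    apply Finset.sum_congr rfl
    intro q _
    rw [xRep_single, phiX_single hP hI hH, bl_conj hn (0 + 1)]
    show bl C N₀ H t 0 _ = bl C N₀ H t 0 _
    congr 1
    rw [pow_zero, zero_add, pow_one]
    group
  exact LinearMap.congr_fun h1 x

theorem phiX_iter (hP : IsPar N₀ Nm M t) (hI : Iwa N₀ Nm M U t) (hH : IsGood Nm M U H) (k : ℕ)
    (x : (G ⧸ U) →₀ C) (g : G) :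
    phiX C N₀ U H t ((hkX C N₀ U t)^[k] x) g = phiX C N₀ U H t x (g * (t ^ k)⁻¹) := by
  induction k generalizing g with
  | zero => rw [Function.iterate_zero, id, pow_zero, inv_one, mul_one]
  | succ k ih =>
    rw [Function.iterate_succ_apply', phiX_hkX hP hI hH, ih, pow_succ, mul_inv_rev, mul_assoc]

theorem bl_phi (hP : IsPar N₀ Nm M t) (hI : Iwa N₀ Nm M U t) (hH : IsGood Nm M U H) (k : ℕ)
    (g y : G) : bl C N₀ H t k (g⁻¹ * y) =
      phiX C N₀ U H t (Finsupp.single ((g * t ^ k : G) : G ⧸ U) 1) (y * t ^ k) := by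
  have hn : Nor H t := nor_of_cen hP hH hP.cen
  rw [phiX_single hP hI hH, bl_conj hn k]
  show bl C N₀ H t 0 _ = bl C N₀ H t 0 _
  congr 1
  group

end Ord1
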