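import Pool.Agent.Ord1.Top1

/-!
# Ord1, module Psh1: summation over the powers of a central element `s`

`H' = H ⊔ zpowers s`, where no power `s ^ j`, `j ≠ 0`, is in `H`.

PROOFS.
* `psh_fin`: `φ (x s ^ j) ≠ 0` implies `x s ^ j = y h`, `y ∈ Ω`, so `s ^ j = (x⁻¹ y) h` with
  `x⁻¹ y ∈ x⁻¹ Ω` compact: `fin_pow`.
* `psh_mem`: invariance by `h s ^ i ∈ H'` (`mem_sup_zpowers`): shift the summation index and use
  `s ^ (-j) h s ^ j ∈ H` (`nor_of_cen`, `Nor.zpow`); the left invariance is clear; support: if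
  `psh s φ x ≠ 0` then `φ (x s ^ j) ≠ 0` for some `j`, so `x s ^ j = y h`, `x = y (h s ^ (-j))`.
* `psh_bl`: `N_k H' = ⋃ N_k H s ^ j` disjoint union (`mem_sup_zpowers`; if
  `n h s ^ i = n' h' s ^ j` with `n, n' ∈ N_k` then `n = n'` by `good_disj` for `H'` (`good_sup`),
  so `s ^ (i - j) ∈ H` and `i = j`). So at every `x` at most one term is non zero.
* `psh_add`, `psh_smul`: `finsum_add_distrib` with the finiteness of the supports.
-/

open Topology Set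

namespace Ord1

open Emt

variable {G : Type} [Group G] [TopologicalSpace G] [IsTopologicalGroup G]
  {N₀ Nm M U H : Subgroup G} {t s : G} {C : Type} [Field C]

theorem psh_fin (hP : IsPar N₀ Nm M t) (hI : Iwa N₀ Nm M U t) (hH : IsGood Nm M U H)
    (hs : Cen M s) (hns : ∀ j : ℕ, j ≠ 0 → s ^ j ∉ H) {φ : G → C} (hφ : φ ∈ Fs C H) (x : G) :
    {j : ℤ | φ (x * s ^ j) ≠ 0}.Finite := by
  obtain ⟨_, _, Ω, hΩ, h3⟩ := mem_Fs.1 hφ
  have hΩ' : IsCompact ((fun y => x⁻¹ * y) '' Ω) :=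
    hΩ.image (continuous_const.mul continuous_id)
  refine (fin_pow hP hI hH hs hns hΩ').subset ?_
  intro j hj
  obtain ⟨y, hy, h, hh, e⟩ := h3 _ hj
  refine ⟨x⁻¹ * y, ⟨y, hy, rfl⟩, h, hh, ?_⟩
  rw [mul_assoc, ← e]
  group

private theorem psh1_zpow (hns : ∀ j : ℕ, j ≠ 0 → s ^ j ∉ H) {j : ℤ} (hj : s ^ j ∈ H) :
    j = 0 := by
  by_contra h
  have h1 : j.natAbs ≠ 0 := Int.natAbs_ne_zero.2 h
  apply hns _ h1
  rcases Int.natAbs_eq j with h2 | h2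
  · rw [h2, zpow_natCast] at hj
    exact hj
  · rw [h2, zpow_neg, zpow_natCast] at hj
    exact inv_mem_iff.1 hj

theorem psh_add (hP : IsPar N₀ Nm M t) (hI : Iwa N₀ Nm M U t) (hH : IsGood Nm M U H)
    (hs : Cen M s) (hns : ∀ j : ℕ, j ≠ 0 → s ^ j ∉ H) {φ ψ : G → C} (hφ : φ ∈ Fs C H)
    (hψ : ψ ∈ Fs C H) : psh C s (φ + ψ) = psh C s φ + psh C s ψ := by
  funext x
  exact finsum_add_distrib (psh_fin hP hI hH hs hns hφ x) (psh_fin hP hI hH hs hns hψ x)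

theorem psh_smul (a : C) (φ : G → C) : psh C s (a • φ) = a • psh C s φ := by
  funext x
  exact (smul_finsum a fun j : ℤ => φ (x * s ^ j)).symm

theorem psh_mem (hP : IsPar N₀ Nm M t) (hI : Iwa N₀ Nm M U t) (hH : IsGood Nm M U H)
    (hs : Cen M s) (hns : ∀ j : ℕ, j ≠ 0 → s ^ j ∉ H) {φ : G → C} (hφ : φ ∈ Fs C H) :
    psh C s φ ∈ Fs C (H ⊔ Subgroup.zpowers s) := by
  have hn := nor_of_cen hP hH hs
  obtain ⟨h1, ⟨O, hO, h2⟩, Ω, hΩ, h3⟩ := mem_Fs.1 hφ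
  refine mem_Fs.2 ⟨fun g h hh => ?_, ⟨O, hO, fun o ho g => ?_⟩, Ω, hΩ, fun g hg => ?_⟩
  · obtain ⟨h', hh', i, rfl⟩ := (mem_sup_zpowers hn).1 hh
    show ∑ᶠ j : ℤ, φ (g * (h' * s ^ i) * s ^ j) = ∑ᶠ j : ℤ, φ (g * s ^ j)
    refine Eq.trans ?_ (finsum_comp_equiv (Equiv.addLeft i) (f := fun j : ℤ => φ (g * s ^ j)))
    apply finsum_congr
    intro j
    show φ (g * (h' * s ^ i) * s ^ j) = φ (g * s ^ (i + j))
    have h4 := (hn.zpow (-(i + j)) h').2 hh'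
    rw [← h1 (g * s ^ (i + j)) _ h4]
    congr 1
    rw [zpow_neg, zpow_add]
    group
  · show ∑ᶠ j : ℤ, φ (o * g * s ^ j) = ∑ᶠ j : ℤ, φ (g * s ^ j)
    apply finsum_congr
    intro j
    rw [mul_assoc, h2 o ho]
  · obtain ⟨j, hj⟩ : ∃ j : ℤ, φ (g * s ^ j) ≠ 0 := by
      by_contra hcon
      push Not at hcon
      apply hg
      show ∑ᶠ j : ℤ, φ (g * s ^ j) = 0
      rw [finsum_congr hcon, finsum_zero]
    obtain ⟨y, hy, h, hh, e⟩ := h3 _ hj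
    refine ⟨y, hy, h * s ^ (-j), (mem_sup_zpowers hn).2 ⟨h, hh, -j, rfl⟩, ?_⟩
    rw [← mul_assoc, ← e, zpow_neg, mul_inv_cancel_right]

theorem psh_left (g : G) (φ : G → C) :
    psh C s (fun x => φ (g⁻¹ * x)) = fun x => psh C s φ (g⁻¹ * x) := by
  funext x
  show ∑ᶠ j : ℤ, φ (g⁻¹ * (x * s ^ j)) = ∑ᶠ j : ℤ, φ (g⁻¹ * x * s ^ j)
  apply finsum_congr
  intro j
  rw [mul_assoc]

theorem psh_right (φ : G → C) (x : G) : psh C s (fun y => φ (y * s)) x = psh C s φ x := by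
  show ∑ᶠ j : ℤ, φ (x * s ^ j * s) = ∑ᶠ j : ℤ, φ (x * s ^ j)
  refine Eq.trans ?_
    (finsum_comp_equiv (Equiv.addRight (1 : ℤ)) (f := fun j : ℤ => φ (x * s ^ j)))
  apply finsum_congr
  intro j
  show φ (x * s ^ j * s) = φ (x * s ^ (j + 1))
  rw [zpow_add_one, mul_assoc]

theorem psh_bl (hP : IsPar N₀ Nm M t) (hI : Iwa N₀ Nm M U t) (hH : IsGood Nm M U H)
    (hs : Cen M s) (hns : ∀ j : ℕ, j ≠ 0 → s ^ j ∉ H) (k : ℕ) :
    psh C s (bl C N₀ H t k) = bl C N₀ (H ⊔ Subgroup.zpowers s) t k := by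
  have hn := nor_of_cen hP hH hs
  have hH' := good_sup hP hH hs
  funext x
  by_cases hx : ∃ n ∈ N₀, ∃ h ∈ H ⊔ Subgroup.zpowers s, x = t ^ k * n * (t ^ k)⁻¹ * h
  · have h1 : bl C N₀ (H ⊔ Subgroup.zpowers s) t k x = 1 := by
      unfold bl
      rw [if_pos hx]
    rw [h1]
    obtain ⟨n, hnN, h', hh', e⟩ := hx
    obtain ⟨h, hh, i, rfl⟩ := (mem_sup_zpowers hn).1 hh'
    show ∑ᶠ j : ℤ, bl C N₀ H t k (x * s ^ j) = 1
    have e1 : x * s ^ (-i) = t ^ k * n * (t ^ k)⁻¹ * h := by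
      rw [e, zpow_neg]
      group
    rw [finsum_eq_single _ (-i)]
    · unfold bl
      rw [if_pos ⟨n, hnN, h, hh, e1⟩]
    · intro j hj
      by_contra hne
      obtain ⟨n', hn', h'', hh'', e2⟩ := bl_ne.1 hne
      apply hj
      -- the element of `N₀ ∩ H'`
      have e3 : t ^ k * (n'⁻¹ * n) * (t ^ k)⁻¹ = h'' * s ^ (-(i + j)) * h⁻¹ := by
        have e4 : t ^ k * n * (t ^ k)⁻¹ * (h * s ^ i) * s ^ j = t ^ k * n' * (t ^ k)⁻¹ * h'' := by
          rw [← e, ← e2]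
        have e5 : h'' = (t ^ k * n' * (t ^ k)⁻¹)⁻¹ *
            (t ^ k * n * (t ^ k)⁻¹ * (h * s ^ i) * s ^ j) := by
          rw [e4]
          group
        rw [e5, zpow_neg, zpow_add]
        group
      have h5 : t ^ k * (n'⁻¹ * n) * (t ^ k)⁻¹ ∈ N₀ :=
        hP.contr_pow k (mul_mem (inv_mem hn') hnN)
      have h6 : t ^ k * (n'⁻¹ * n) * (t ^ k)⁻¹ ∈ H ⊔ Subgroup.zpowers s := by
        rw [e3]
        refine mul_mem (mul_mem (Subgroup.mem_sup_left hh'') ?_)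
          (inv_mem (Subgroup.mem_sup_left hh))
        exact Subgroup.mem_sup_right (Subgroup.zpow_mem _ (Subgroup.mem_zpowers _) _)
      have h7 := good_disj hP hH' h5 h6
      rw [e3] at h7
      have h8 : s ^ (-(i + j)) = h''⁻¹ * h := by
        have : h'' * s ^ (-(i + j)) = h := by
          rwa [mul_inv_eq_one] at h7
        rw [← this]
        group
      have h9 : s ^ (-(i + j)) ∈ H := by
        rw [h8]
        exact mul_mem (inv_mem hh'') hh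
      have := psh1_zpow hns h9
      omega
  · have h1 : bl C N₀ (H ⊔ Subgroup.zpowers s) t k x = 0 := by
      unfold bl
      rw [if_neg hx]
    rw [h1]
    show ∑ᶠ j : ℤ, bl C N₀ H t k (x * s ^ j) = 0
    rw [← finsum_zero (α := ℤ) (M := C)]
    apply finsum_congr
    intro j
    by_contra hne
    obtain ⟨n', hn', h'', hh'', e2⟩ := bl_ne.1 hne
    apply hx
    refine ⟨n', hn', h'' * s ^ (-j), (mem_sup_zpowers hn).2 ⟨h'', hh'', -j, rfl⟩, ?_⟩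
    rw [← mul_assoc, ← e2, zpow_neg, mul_inv_cancel_right]

end Ord1
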