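import Pool.Agent.Ord1.Psh2
import Pool.Agent.Ord1.Alg2
import Pool.Agent.Ord1.Ker1
import Pool.Agent.Ord1.AdmFs

/-!
# Ord1, module Step: the induction step over a central element

`PP H`: `Hom_G(Fs H, V)` and `Hom_G(Fs H, Z) / π Hom_G(Fs H, I)` are finite and the given
`f₀ : C[G/U] → Z` factors through `Φ_H : C[G/U] → Fs H` modulo liftable maps.

PROOFS.
* `pushF`: `psh s` as a linear map `Fs C H → Fs C (H ⊔ zpowers s)`; equivariant (`psh_left`), surjective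
  (`psh_surj`), its kernel is the image of `Rt s - 1` (`psh_ker`, `psh_right`), `Rt s - 1` is injective
  (`rt_inj`), `Rt s` is bijective (inverse `Rt s⁻¹`).
* `step`: let `f : Fs H → Z` be given by `PP H`. If some power `s ^ j`, `j ≠ 0`, is in `H`, take
  `H' = H`. Otherwise by `period_bij` for `Rt s` (`FinE`) there is `m ≠ 0` such that
  `f ∘ (Rt s) ^ m - f` lifts. Replace `s` by `s' = s ^ m` (`(Rt s) ^ m = Rt (s ^ m)`, central, no power in
  `H`), `D = Rt s' - 1`, `q = pushF` for `s'`, `H' = H ⊔ zpowers s'` (good by `good_sup`); `alg_finH`,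
  `alg_finE`, `alg_descend` (`fs_smooth`) give `FinH`, `FinE` for `H'` and `f' : Fs H' → Z` with
  `f' ∘ q - f` liftable; and `q ∘ Φ_H = Φ_H'` (`phi_psh`), so
  `f' ∘ Φ_H' - f₀ = (f' ∘ q - f) ∘ Φ_H + (f ∘ Φ_H - f₀)` lifts (`Lifts.comp`, `Lifts.add`, `phiF_equi`).
-/

open Topology Set

namespace Ord1

open Emt

variable {G : Type} [Group G] [TopologicalSpace G] [IsTopologicalGroup G]
  {N₀ Nm M U H : Subgroup G} {t s : G} {C : Type} [Field C]
  {V I Z : Type} [AddCommGroup V] [Module C V] [AddCommGroup I] [Module C I] [AddCommGroup Z]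
  [Module C Z] {ρ : Representation C G V} {ι : Representation C G I} {ζ : Representation C G Z}
  {i : V →ₗ[C] I} {π : I →ₗ[C] Z}

/-- The induction hypothesis. -/
def PP (hP : IsPar N₀ Nm M t) (hI : Iwa N₀ Nm M U t) (ρ : Representation C G V)
    (ι : Representation C G I) (ζ : Representation C G Z) (π : I →ₗ[C] Z)
    (f₀ : ((G ⧸ U) →₀ C) →ₗ[C] Z) (H : Subgroup G) : Prop :=
  ∃ hH : IsGood Nm M U H, FinH (fsRep C H) ρ ∧ FinE (fsRep C H) ι ζ π ∧
    ∃ f : Fs C H →ₗ[C] Z, Equi (fsRep C H) ζ f ∧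
      Lifts (xRep C U) ι π (f ∘ₗ phiF hP hI hH C - f₀)

theorem exists_pushF (hP : IsPar N₀ Nm M t) (hI : Iwa N₀ Nm M U t) (hH : IsGood Nm M U H)
    (hs : Cen M s) (hns : ∀ j : ℕ, j ≠ 0 → s ^ j ∉ H) (hn : Nor H s) :
    ∃ q : Fs C H →ₗ[C] Fs C (H ⊔ Subgroup.zpowers s),
      (∀ φ, (q φ).1 = psh C s φ.1) ∧ Equi (fsRep C H) (fsRep C (H ⊔ Subgroup.zpowers s)) q ∧
      Function.Surjective q ∧
      (∀ φ, q φ = 0 ↔ ∃ ψ, (Rt C hn - LinearMap.id : Fs C H →ₗ[C] Fs C H) ψ = φ) ∧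
      Function.Injective (Rt C hn - LinearMap.id : Fs C H →ₗ[C] Fs C H) := by
  let q : Fs C H →ₗ[C] Fs C (H ⊔ Subgroup.zpowers s) :=
    { toFun := fun φ => ⟨psh C s φ.1, psh_mem hP hI hH hs hns φ.2⟩
      map_add' := fun φ ψ => Subtype.ext (psh_add hP hI hH hs hns φ.2 ψ.2)
      map_smul' := fun a φ => Subtype.ext (psh_smul a φ.1) }
  have hq : ∀ φ, (q φ).1 = psh C s φ.1 := fun φ => rfl
  refine ⟨q, hq, ?_, ?_, ?_, ?_⟩
  · intro g φ
    refine Subtype.ext (funext fun x => ?_)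
    exact congrFun (psh_left g φ.1) x
  · intro φ
    obtain ⟨ψ, hψ, h⟩ := psh_surj hP hI hH hs hns φ.2
    exact ⟨⟨ψ, hψ⟩, Subtype.ext h⟩
  · intro φ
    constructor
    · intro h
      have h1 : psh C s φ.1 = 0 := congrArg Subtype.val h
      obtain ⟨ψ, hψ, h2⟩ := psh_ker hP hI hH hs hns φ.2 h1
      exact ⟨⟨ψ, hψ⟩, Subtype.ext (funext fun x => h2 x)⟩
    · rintro ⟨ψ, rfl⟩
      have h1 : (Rt C hn - LinearMap.id : Fs C H →ₗ[C] Fs C H) ψ = Rt C hn ψ - ψ := rfl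
      rw [h1, map_sub, sub_eq_zero]
      refine Subtype.ext (funext fun x => ?_)
      exact psh_right ψ.1 x
  · rw [injective_iff_map_eq_zero]
    intro ψ hψ
    refine Subtype.ext (rt_inj hP hI hH hs hns ψ.2 fun x => ?_)
    have h1 : (Rt C hn ψ - ψ : Fs C H) = 0 := hψ
    rw [sub_eq_zero] at h1
    exact congrFun (congrArg Subtype.val h1) x

theorem rt_props (hn : Nor H s) : Equi (fsRep C H) (fsRep C H) (Rt C hn) ∧
    Function.Bijective (Rt C hn) ∧ ∀ m : ℕ, (Rt C hn) ^ m = Rt C (hn.pow m) := by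
  refine ⟨?_, ?_, ?_⟩
  · intro g φ
    refine Subtype.ext (funext fun x => ?_)
    show φ.1 (g⁻¹ * (x * s)) = φ.1 (g⁻¹ * x * s)
    rw [mul_assoc]
  · have h1 : ∀ φ, Rt C (hn.zpow (-1)) (Rt C hn φ) = φ := by
      intro φ
      refine Subtype.ext (funext fun x => ?_)
      show φ.1 (x * s ^ (-1 : ℤ) * s) = φ.1 x
      group
    have h2 : ∀ φ, Rt C hn (Rt C (hn.zpow (-1)) φ) = φ := by
      intro φ
      refine Subtype.ext (funext fun x => ?_)
      show φ.1 (x * s * s ^ (-1 : ℤ)) = φ.1 x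
      group
    exact ⟨Function.LeftInverse.injective h1, Function.RightInverse.surjective h2⟩
  · intro m
    induction m with
    | zero =>
      refine LinearMap.ext fun φ => Subtype.ext (funext fun x => ?_)
      show φ.1 x = φ.1 (x * s ^ 0)
      rw [pow_zero, mul_one]
    | succ m ih =>
      refine LinearMap.ext fun φ => Subtype.ext (funext fun x => ?_)
      rw [pow_succ, ih]
      show φ.1 (x * s ^ m * s) = φ.1 (x * s ^ (m + 1))
      rw [pow_succ, mul_assoc]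

theorem step (hP : IsPar N₀ Nm M t) (hI : Iwa N₀ Nm M U t) (hS : IsSES ρ ι ζ i π)
    {f₀ : ((G ⧸ U) →₀ C) →ₗ[C] Z} (hH : PP hP hI ρ ι ζ π f₀ H) (hs : Cen M s) :
    ∃ H' : Subgroup G, H ≤ H' ∧ PP hP hI ρ ι ζ π f₀ H' ∧ ∃ j : ℕ, j ≠ 0 ∧ s ^ j ∈ H' := by
  by_cases hj : ∃ j : ℕ, j ≠ 0 ∧ s ^ j ∈ H
  · exact ⟨H, le_rfl, hH, hj⟩
  push Not at hj
  obtain ⟨hG, hFH, hFE, f, hf, hl⟩ := hH
  have hn : Nor H s := nor_of_cen hP hG hs
  obtain ⟨r1, r2, r3⟩ := rt_props (C := C) hn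
  obtain ⟨m, hm, hlm⟩ := period_bij hFE r1 r2 hf
  rw [r3 m] at hlm
  have hs' : Cen M (s ^ m) := hs.pow m
  have hns' : ∀ j : ℕ, j ≠ 0 → (s ^ m) ^ j ∉ H := by
    intro j hj0
    rw [← pow_mul]
    exact hj _ (mul_ne_zero hm hj0)
  have hn' : Nor H (s ^ m) := hn.pow m
  obtain ⟨q, hqv, hqe, hqs, hqk, hqi⟩ := exists_pushF (C := C) hP hI hG hs' hns' hn'
  have hDe : Equi (fsRep C H) (fsRep C H) (Rt C hn' - LinearMap.id : Fs C H →ₗ[C] Fs C H) := by
    intro g φ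
    show Rt C hn' (fsRep C H g φ) - fsRep C H g φ = fsRep C H g (Rt C hn' φ - φ)
    rw [map_sub, (rt_props (C := C) hn').1 g φ]
  have hlD : Lifts (fsRep C H) ι π
      (f ∘ₗ (Rt C hn' - LinearMap.id : Fs C H →ₗ[C] Fs C H)) := by
    have e : f ∘ₗ (Rt C hn' - LinearMap.id : Fs C H →ₗ[C] Fs C H) = f ∘ₗ Rt C hn' - f := by
      rw [LinearMap.comp_sub, LinearMap.comp_id]
    rw [e]
    exact hlm
  obtain ⟨f', hf', hl'⟩ := alg_descend hS fs_smooth hDe hqi hqe hqs hqk hf hlD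
  have hG' : IsGood Nm M U (H ⊔ Subgroup.zpowers (s ^ m)) := good_sup hP hG hs'
  have hphi : phiF hP hI hG' C = q ∘ₗ phiF hP hI hG C := by
    refine LinearMap.ext fun x => Subtype.ext ?_
    rw [LinearMap.comp_apply, hqv, phiF_val, phiF_val, phi_psh hP hI hG hs' hns']
  refine ⟨H ⊔ Subgroup.zpowers (s ^ m), le_sup_left, ⟨hG', alg_finH hqe hqs hFH,
    alg_finE hS hDe hqe hqs hqk hFH hFE, f', hf', ?_⟩, m, hm,
    (le_sup_right : Subgroup.zpowers (s ^ m) ≤ _) (Subgroup.mem_zpowers _)⟩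
  have e : f' ∘ₗ phiF hP hI hG' C - f₀ =
      (f' ∘ₗ q - f) ∘ₗ phiF hP hI hG C + (f ∘ₗ phiF hP hI hG C - f₀) := by
    rw [hphi, LinearMap.sub_comp, LinearMap.comp_assoc]
    abel
  rw [e]
  exact (hl'.comp (phiF_equi hP hI hG)).add hl

end Ord1
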